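import Mathlib

set_option autoImplicit false
open MeasureTheory Filter Set Finset

namespace Pool.Agent.H103Z.Bg

variable {X : Type*} [MeasurableSpace X]

/-- bounded measurable functions -/
def Bm (f : X → ℝ) : Prop := Measurable f ∧ ∃ C, ∀ x, |f x| ≤ C

namespace Bm
variable {f g : X → ℝ}

lemma int {μ : Measure X} [IsFiniteMeasure μ] (hf : Bm f) : Integrable f μ :=
  let ⟨hm, C, hC⟩ := hf
  Integrable.of_bound hm.aestronglyMeasurable C (Eventually.of_forall hC)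

lemma const (c : ℝ) : Bm (fun _ : X => c) := ⟨measurable_const, |c|, fun _ => le_rfl⟩

lemma add (hf : Bm f) (hg : Bm g) : Bm fun x => f x + g x :=
  let ⟨hm, C, hC⟩ := hf
  let ⟨hm', C', hC'⟩ := hg
  ⟨hm.add hm', C + C', fun x => (abs_add_le _ _).trans (add_le_add (hC x) (hC' x))⟩

lemma mul (hf : Bm f) (hg : Bm g) : Bm fun x => f x * g x :=
  let ⟨hm, C, hC⟩ := hf
  let ⟨hm', C', hC'⟩ := hg
  ⟨hm.mul hm', C * C', fun x => by
    rw [abs_mul]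
    exact mul_le_mul (hC x) (hC' x) (abs_nonneg _) ((abs_nonneg _).trans (hC x))⟩

lemma cmul (hf : Bm f) (c : ℝ) : Bm fun x => c * f x := (const c).mul hf

lemma sub (hf : Bm f) (hg : Bm g) : Bm fun x => f x - g x := by
  simpa [sub_eq_add_neg] using hf.add (hg.cmul (-1))

lemma abs (hf : Bm f) : Bm fun x => |f x| :=
  let ⟨hm, C, hC⟩ := hf
  ⟨hm.abs, C, fun x => by simpa using hC x⟩

lemma sq (hf : Bm f) : Bm fun x => f x ^ 2 := by simpa [_root_.sq] using hf.mul hf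

lemma sum {ι : Type*} (s : Finset ι) {f : ι → X → ℝ} (h : ∀ i ∈ s, Bm (f i)) :
    Bm fun x => ∑ i ∈ s, f i x := by
  classical
  induction s using Finset.induction_on with
  | empty => simpa using const 0
  | insert a s ha ih =>
    simp only [Finset.sum_insert ha]
    exact (h a (by simp)).add (ih fun i hi => h i (by simp [hi]))

end Bm

open Classical in
/-- indicator function -/
noncomputable def ch (S : Set X) (x : X) : ℝ := if x ∈ S then 1 else 0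

omit [MeasurableSpace X] in
lemma ch_of_mem {S : Set X} {x : X} (h : x ∈ S) : ch S x = 1 := if_pos h

omit [MeasurableSpace X] in
lemma ch_of_not {S : Set X} {x : X} (h : x ∉ S) : ch S x = 0 := if_neg h

omit [MeasurableSpace X] in
lemma ch_nonneg (S : Set X) (x : X) : 0 ≤ ch S x := by unfold ch; split_ifs <;> norm_num

omit [MeasurableSpace X] in
lemma ch_le (S : Set X) (x : X) : ch S x ≤ 1 := by unfold ch; split_ifs <;> norm_num

omit [MeasurableSpace X] in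
lemma ch_sq (S : Set X) (x : X) : ch S x ^ 2 = ch S x := by unfold ch; split_ifs <;> norm_num

lemma Bm_ch {S : Set X} (hS : MeasurableSet S) : Bm (ch S) :=
  ⟨Measurable.ite hS measurable_const measurable_const, 1, fun x => by
    rw [abs_of_nonneg (ch_nonneg S x)]; exact ch_le S x⟩

variable {μ : Measure X} [IsFiniteMeasure μ]

lemma amgm {f g : X → ℝ} (hf : Bm f) (hg : Bm g) {t : ℝ} (ht : 0 < t) :
    |∫ x, f x * g x ∂μ| ≤ t * ∫ x, f x ^ 2 ∂μ + t⁻¹ * ∫ x, g x ^ 2 ∂μ := by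
  rw [← integral_const_mul, ← integral_const_mul,
    ← integral_add (hf.sq.cmul t).int (hg.sq.cmul t⁻¹).int]
  refine (abs_integral_le_integral_abs).trans (integral_mono (hf.mul hg).abs.int
    ((hf.sq.cmul t).add (hg.sq.cmul t⁻¹)).int fun x => ?_)
  have h1 : t * t⁻¹ = 1 := mul_inv_cancel₀ ht.ne'
  have h2 : 0 < t⁻¹ := inv_pos.2 ht
  have h3 := mul_nonneg h2.le (sq_nonneg (t * |f x| - |g x|))
  have h4 : t⁻¹ * (t * |f x| - |g x|) ^ 2 =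
      (t * t⁻¹) * t * |f x| ^ 2 - 2 * (t * t⁻¹) * (|f x| * |g x|) + t⁻¹ * |g x| ^ 2 := by ring
  rw [h4, h1, sq_abs, sq_abs] at h3
  have h5 := mul_nonneg (abs_nonneg (f x)) (abs_nonneg (g x))
  simp only [abs_mul]
  linarith

/-- the average of `f` over `S` -/
noncomputable def avg (μ : Measure X) (f : X → ℝ) (S : Set X) : ℝ :=
  (∫ x, ch S x * f x ∂μ) / ∫ x, ch S x ∂μ

lemma ms_nonneg (μ : Measure X) (S : Set X) : 0 ≤ ∫ x, ch S x ∂μ :=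
  integral_nonneg (ch_nonneg S)

lemma avg_mul (f : X → ℝ) {S : Set X} (hS : MeasurableSet S) :
    avg μ f S * ∫ x, ch S x ∂μ = ∫ x, ch S x * f x ∂μ := by
  rcases eq_or_ne (∫ x, ch S x ∂μ) 0 with h | h
  · rw [h, mul_zero]
    rw [integral_eq_zero_iff_of_nonneg (ch_nonneg S) (Bm_ch hS).int] at h
    refine (integral_eq_zero_of_ae ?_).symm
    filter_upwards [h] with x hx
    simp [show ch S x = 0 from hx]
  · exact div_mul_cancel₀ _ h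

lemma avg_abs {f : X → ℝ} (S : Set X) : |avg μ f S| ≤ avg μ (fun x => |f x|) S := by
  unfold avg
  rw [abs_div, abs_of_nonneg (ms_nonneg μ S)]
  refine div_le_div_of_nonneg_right (abs_integral_le_integral_abs.trans (le_of_eq ?_))
    (ms_nonneg μ S)
  simp only [abs_mul, abs_of_nonneg (ch_nonneg S _)]

/-- a dyadic system of boxes -/
structure Grid (X : Type*) [MeasurableSpace X] where
  N : ℕ
  A : ℕ → Set X
  rel : X → ℕ
  mA : ∀ a, MeasurableSet (A a)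
  mrel : Measurable rel
  A0 : A 0 = univ
  anti : Antitone A
  rel_lt : ∀ x, rel x < 2 ^ N

namespace Grid
variable (Γ : Grid X)

/-- index of the arc of generation `a` -/
def idx (a : ℕ) (x : X) : ℕ := Γ.rel x / 2 ^ (Γ.N - a)

/-- the box of generation `a` and index `m` -/
def Box (a m : ℕ) : Set X := {x | x ∈ Γ.A a ∧ Γ.idx a x = m}

lemma midx (a : ℕ) : Measurable (Γ.idx a) :=
  (measurable_from_top (f := fun n : ℕ => n / 2 ^ (Γ.N - a))).comp Γ.mrel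

lemma mBox (a m : ℕ) : MeasurableSet (Γ.Box a m) :=
  (Γ.mA a).inter (Γ.midx a (measurableSet_singleton m))

lemma bBox (a m : ℕ) : Bm (ch (Γ.Box a m)) := Bm_ch (Γ.mBox a m)

lemma idx_lt (a : ℕ) (x : X) : Γ.idx a x < 2 ^ Γ.N :=
  (Nat.div_le_self _ _).trans_lt (Γ.rel_lt x)

lemma idx_zero (x : X) : Γ.idx 0 x = 0 := Nat.div_eq_of_lt (Γ.rel_lt x)

lemma idx_div {a b : ℕ} (hab : a ≤ b) (hb : b ≤ Γ.N) (x : X) :
    Γ.idx a x = Γ.idx b x / 2 ^ (b - a) := by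
  unfold idx
  rw [Nat.div_div_eq_div_mul, ← pow_add]
  congr 2
  omega

lemma idx_succ {a : ℕ} (ha : a < Γ.N) (x : X) : Γ.idx a x = Γ.idx (a + 1) x / 2 := by
  simpa using Γ.idx_div (Nat.le_succ a) ha x

lemma Bm_idx (a : ℕ) (c : ℕ → ℝ) : Bm fun x => c (Γ.idx a x) :=
  ⟨(measurable_from_top (f := c)).comp (Γ.midx a), ∑ k ∈ range (2 ^ Γ.N), |c k|, fun x =>
    Finset.single_le_sum (f := fun k => |c k|) (fun _ _ => abs_nonneg _)
      (Finset.mem_range.2 (Γ.idx_lt a x))⟩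

lemma sum_ch (a : ℕ) (c : ℕ → ℝ) (x : X) :
    ∑ k ∈ range (2 ^ Γ.N), c k * ch (Γ.Box a k) x = c (Γ.idx a x) * ch (Γ.A a) x := by
  rw [Finset.sum_eq_single (Γ.idx a x)]
  · by_cases hx : x ∈ Γ.A a
    · rw [ch_of_mem hx, ch_of_mem (S := Γ.Box a _) ⟨hx, rfl⟩]
    · rw [ch_of_not hx, ch_of_not (S := Γ.Box a _) fun h => hx h.1]
  · intro k _ hk
    rw [ch_of_not fun h => hk h.2.symm, mul_zero]
  · intro h
    exact absurd (Finset.mem_range.2 (Γ.idx_lt a x)) h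

lemma Bm_idx2 (a : ℕ) {Φ : ℕ → X → ℝ} (h : ∀ m, Bm (Φ m)) : Bm fun x => Φ (Γ.idx a x) x := by
  have e : (fun x => Φ (Γ.idx a x) x) = fun x => ∑ m ∈ range (2 ^ Γ.N),
      (fun k => if k = m then (1 : ℝ) else 0) (Γ.idx a x) * Φ m x := by
    funext x
    simp [Γ.idx_lt a x]
  rw [e]
  exact Bm.sum _ fun m _ => (Γ.Bm_idx a fun k => if k = m then (1 : ℝ) else 0).mul (h m)

lemma int_ch (a : ℕ) (c : ℕ → ℝ) {g : X → ℝ} (hg : Bm g) :
    ∫ x, c (Γ.idx a x) * ch (Γ.A a) x * g x ∂μ =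
      ∑ k ∈ range (2 ^ Γ.N), c k * ∫ x, ch (Γ.Box a k) x * g x ∂μ := by
  simp only [← Γ.sum_ch, Finset.sum_mul, mul_assoc]
  rw [integral_finsetSum _ fun k _ => (((Γ.bBox a k).mul hg).cmul _).int]
  simp only [integral_const_mul]

lemma int_ch1 (a : ℕ) (c : ℕ → ℝ) :
    ∫ x, c (Γ.idx a x) * ch (Γ.A a) x ∂μ = ∑ k ∈ range (2 ^ Γ.N), c k * ∫ x, ch (Γ.Box a k) x ∂μ := by
  simpa using Γ.int_ch (μ := μ) a c (Bm.const 1)

/-- functions with mean zero on each box of generation `b` -/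
def M0 (μ : Measure X) (b : ℕ) (G : X → ℝ) : Prop :=
  Bm G ∧ (∀ x ∉ Γ.A b, G x = 0) ∧ ∀ k, ∫ x, ch (Γ.Box b k) x * G x ∂μ = 0

/-- functions constant on each box of generation `b` -/
def Cst (b : ℕ) (φ : X → ℝ) : Prop :=
  ∀ x ∈ Γ.A b, ∀ x' ∈ Γ.A b, Γ.idx b x = Γ.idx b x' → φ x = φ x'

variable {Γ}

lemma Cst.mono {a b : ℕ} {φ : X → ℝ} (h : Γ.Cst a φ) (hab : a ≤ b) (hb : b ≤ Γ.N) : Γ.Cst b φ :=
  fun x hx x' hx' e => h x (Γ.anti hab hx) x' (Γ.anti hab hx')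
    (by rw [Γ.idx_div hab hb, Γ.idx_div hab hb, e])

lemma M0.split {b : ℕ} {G : X → ℝ} (hG : ∀ x ∉ Γ.A b, G x = 0) (c : ℕ → ℝ) (x : X) :
    c (Γ.idx b x) * G x = ∑ k ∈ range (2 ^ Γ.N), c k * (ch (Γ.Box b k) x * G x) := by
  simp only [← mul_assoc]
  rw [← Finset.sum_mul, Γ.sum_ch]
  by_cases hx : x ∈ Γ.A b
  · rw [ch_of_mem hx, mul_one]
  · simp [hG x hx]

lemma M0.int_idx {b : ℕ} {G : X → ℝ} (hG : Γ.M0 μ b G) (c : ℕ → ℝ) :
    ∫ x, c (Γ.idx b x) * G x ∂μ = 0 := by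
  simp only [M0.split hG.2.1 c]
  rw [integral_finsetSum _ fun k _ => (((Γ.bBox b k).mul hG.1).cmul _).int]
  simp [integral_const_mul, hG.2.2]

lemma M0.mul {b : ℕ} {G : X → ℝ} (hG : Γ.M0 μ b G) (c : ℕ → ℝ) :
    Γ.M0 μ b fun x => c (Γ.idx b x) * G x := by
  refine ⟨(Γ.Bm_idx b c).mul hG.1, fun x hx => by simp only [hG.2.1 x hx, mul_zero], fun k => ?_⟩
  have e : ∀ x, ch (Γ.Box b k) x * (c (Γ.idx b x) * G x) = c k * (ch (Γ.Box b k) x * G x) := by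
    intro x
    by_cases hx : x ∈ Γ.Box b k
    · rw [hx.2]; ring
    · simp [ch_of_not hx]
  simp only [e]
  rw [integral_const_mul, hG.2.2, mul_zero]

lemma M0.osc {b : ℕ} {G ψ η : X → ℝ} (hG : Γ.M0 μ b G) (hψ : Bm ψ) (hη : Bm η)
    (h : ∀ x, G x ≠ 0 → ∀ x' ∈ Γ.A b, Γ.idx b x' = Γ.idx b x → |ψ x - ψ x'| ≤ η x) :
    |∫ x, ψ x * G x ∂μ| ≤ ∫ x, η x * |G x| ∂μ := by
  classical
  set c : ℕ → ℝ := fun k => if h : (Γ.Box b k).Nonempty then ψ h.some else 0 with hc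
  have e : ∫ x, ψ x * G x ∂μ = ∫ x, (ψ x - c (Γ.idx b x)) * G x ∂μ := by
    simp only [sub_mul]
    rw [integral_sub (hψ.mul hG.1).int ((Γ.Bm_idx b c).mul hG.1).int, hG.int_idx, sub_zero]
  rw [e]
  refine abs_integral_le_integral_abs.trans (integral_mono
    ((hψ.sub (Γ.Bm_idx b c)).mul hG.1).abs.int (hη.mul hG.1.abs).int fun x => ?_)
  by_cases hx : G x = 0
  · simp [hx]
  have hA : x ∈ Γ.A b := by
    by_contra h'
    exact hx (hG.2.1 x h')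
  have hne : (Γ.Box b (Γ.idx b x)).Nonempty := ⟨x, hA, rfl⟩
  simp only [abs_mul, hc, dif_pos hne]
  exact mul_le_mul_of_nonneg_right (h x hx _ hne.some_mem.1 hne.some_mem.2) (abs_nonneg _)

lemma M0.orth {b : ℕ} {G ψ : X → ℝ} (hG : Γ.M0 μ b G) (hψ : Bm ψ) (h : Γ.Cst b ψ) :
    ∫ x, ψ x * G x ∂μ = 0 := by
  have := hG.osc hψ (Bm.const 0) fun x hx x' hx' e => by
    have hA : x ∈ Γ.A b := by
      by_contra h'
      exact hx (hG.2.1 x h')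
    rw [h x hA x' hx' e.symm, sub_self, abs_zero]
  simpa using this

lemma M0.pyth {b : ℕ} {G ψ : X → ℝ} (hG : Γ.M0 μ b G) (hψ : Bm ψ) (h : Γ.Cst b ψ) :
    ∫ x, (ψ x + G x) ^ 2 ∂μ = ∫ x, ψ x ^ 2 ∂μ + ∫ x, G x ^ 2 ∂μ := by
  have e : ∀ x, (ψ x + G x) ^ 2 = (ψ x ^ 2 + G x ^ 2) + 2 * (ψ x * G x) := fun x => by ring
  simp only [e]
  rw [integral_add (hψ.sq.add hG.1.sq).int ((hψ.mul hG.1).cmul 2).int,
    integral_add hψ.sq.int hG.1.sq.int, integral_const_mul, hG.orth hψ h]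
  ring

lemma pyth_sum {G : ℕ → X → ℝ} {n : ℕ} (hn : n ≤ Γ.N) (h0 : ∀ b < n, Γ.M0 μ b (G b))
    (h1 : ∀ b < n, Γ.Cst (b + 1) (G b)) :
    ∫ x, (∑ b ∈ range n, G b x) ^ 2 ∂μ = ∑ b ∈ range n, ∫ x, G b x ^ 2 ∂μ := by
  induction n with
  | zero => simp
  | succ n ih =>
    simp only [Finset.sum_range_succ]
    rw [(h0 n (by omega)).pyth (Bm.sum _ fun b hb => (h0 b (by simp at hb; omega)).1),
      ih (by omega) (fun b hb => h0 b (by omega)) fun b hb => h1 b (by omega)]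
    intro x hx x' hx' e
    refine Finset.sum_congr rfl fun b hb => ?_
    have hb := Finset.mem_range.1 hb
    exact (h1 b (by omega)).mono hb (by omega) x hx x' hx' e

variable (Γ)

open Classical in
/-- conditional expectation at generation `a` -/
noncomputable def Ex (μ : Measure X) (f : X → ℝ) (a : ℕ) (x : X) : ℝ :=
  if x ∈ Γ.A a then avg μ f (Γ.Box a (Γ.idx a x)) else f x

lemma Ex_of_mem {f : X → ℝ} {a : ℕ} {x : X} (h : x ∈ Γ.A a) :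
    Γ.Ex μ f a x = avg μ f (Γ.Box a (Γ.idx a x)) := if_pos h

lemma Ex_of_not {f : X → ℝ} {a : ℕ} {x : X} (h : x ∉ Γ.A a) : Γ.Ex μ f a x = f x := if_neg h

lemma Ex_bm {f : X → ℝ} (hf : Bm f) (a : ℕ) : Bm (Γ.Ex μ f a) := by
  have : Γ.Ex μ f a = fun x => ch (Γ.A a) x * avg μ f (Γ.Box a (Γ.idx a x)) +
      (1 - ch (Γ.A a) x) * f x := by
    funext x
    unfold Ex ch
    split_ifs <;> simp
  rw [this]
  exact ((Bm_ch (Γ.mA a)).mul (Γ.Bm_idx a fun k => avg μ f (Γ.Box a k))).add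
    (((Bm.const 1).sub (Bm_ch (Γ.mA a))).mul hf)

lemma Ex_cst (f : X → ℝ) (a : ℕ) : Γ.Cst a (Γ.Ex μ f a) := fun x hx x' hx' e => by
  rw [Γ.Ex_of_mem hx, Γ.Ex_of_mem hx', e]

lemma Ex_M0 {f : X → ℝ} (hf : Bm f) (a : ℕ) : Γ.M0 μ a fun x => f x - Γ.Ex μ f a x := by
  refine ⟨hf.sub (Γ.Ex_bm hf a), fun x hx => sub_eq_zero.2 (Γ.Ex_of_not hx).symm, fun k => ?_⟩
  have e : ∀ x, ch (Γ.Box a k) x * (f x - Γ.Ex μ f a x) =
      ch (Γ.Box a k) x * f x - avg μ f (Γ.Box a k) * ch (Γ.Box a k) x := by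
    intro x
    by_cases hx : x ∈ Γ.Box a k
    · rw [Γ.Ex_of_mem hx.1, hx.2]; ring
    · simp [ch_of_not hx]
  simp only [e]
  rw [integral_sub ((Γ.bBox a k).mul hf).int ((Γ.bBox a k).cmul _).int, integral_const_mul,
    avg_mul f (Γ.mBox a k), sub_self]

lemma Box_cst (a k : ℕ) : Γ.Cst a (ch (Γ.Box a k)) := fun x hx x' hx' e => by
  simp [ch, Box, hx, hx', e]

lemma Ex_diff {f : X → ℝ} (hf : Bm f) {a b : ℕ} (hab : a ≤ b) (hb : b ≤ Γ.N) :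
    Γ.M0 μ a fun x => Γ.Ex μ f b x - Γ.Ex μ f a x := by
  refine ⟨(Γ.Ex_bm hf b).sub (Γ.Ex_bm hf a), fun x hx => sub_eq_zero.2 <| by
    rw [Γ.Ex_of_not hx, Γ.Ex_of_not fun h => hx (Γ.anti hab h)], fun k => ?_⟩
  have h1 := (Γ.Ex_M0 (μ := μ) hf a).2.2 k
  have h2 := (Γ.Ex_M0 (μ := μ) hf b).orth (Γ.bBox a k) ((Γ.Box_cst a k).mono hab hb)
  have e : ∀ x, ch (Γ.Box a k) x * (Γ.Ex μ f b x - Γ.Ex μ f a x) =
      ch (Γ.Box a k) x * (f x - Γ.Ex μ f a x) - ch (Γ.Box a k) x * (f x - Γ.Ex μ f b x) :=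
    fun x => by ring
  simp only [e]
  rw [integral_sub ((Γ.bBox a k).mul (Γ.Ex_M0 (μ := μ) hf a).1).int
    ((Γ.bBox a k).mul (Γ.Ex_M0 (μ := μ) hf b).1).int, h1, h2, sub_self]

lemma Ex_sq_le {f : X → ℝ} (hf : Bm f) (a : ℕ) :
    ∫ x, Γ.Ex μ f a x ^ 2 ∂μ ≤ ∫ x, f x ^ 2 ∂μ := by
  have := (Γ.Ex_M0 (μ := μ) hf a).pyth (Γ.Ex_bm (μ := μ) hf a) (Γ.Ex_cst f a)
  simp only [add_sub_cancel] at this
  rw [this]
  exact le_add_of_nonneg_right (integral_nonneg fun _ => sq_nonneg _)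

lemma Ex_diff_sq {f : X → ℝ} (hf : Bm f) {a b : ℕ} (hab : a ≤ b) (hb : b ≤ Γ.N) :
    ∫ x, (Γ.Ex μ f b x - Γ.Ex μ f a x) ^ 2 ∂μ =
      ∫ x, Γ.Ex μ f b x ^ 2 ∂μ - ∫ x, Γ.Ex μ f a x ^ 2 ∂μ := by
  have := (Γ.Ex_diff (μ := μ) hf hab hb).pyth (Γ.Ex_bm (μ := μ) hf a) (Γ.Ex_cst f a)
  simp only [add_sub_cancel] at this
  rw [this]
  ring

lemma Ex_diff_sum {f : X → ℝ} (hf : Bm f) :
    ∑ a ∈ range Γ.N, ∫ x, (Γ.Ex μ f (a + 1) x - Γ.Ex μ f a x) ^ 2 ∂μ ≤ ∫ x, f x ^ 2 ∂μ := by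
  rw [Finset.sum_congr rfl fun a ha => Γ.Ex_diff_sq hf (Nat.le_succ a) (Finset.mem_range.1 ha),
    Finset.sum_range_sub fun a => ∫ x, Γ.Ex μ f a x ^ 2 ∂μ]
  have := Γ.Ex_sq_le (μ := μ) hf Γ.N
  have : 0 ≤ ∫ x, Γ.Ex μ f 0 x ^ 2 ∂μ := integral_nonneg fun _ => sq_nonneg _
  linarith

end Grid

end Pool.Agent.H103Z.Bg
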