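import Mathlib
import Pool.Agent.H103Z.BgBasic

set_option autoImplicit false
open MeasureTheory Filter Set Finset

namespace Pool.Agent.H103Z.Bg

variable {X : Type*} [MeasurableSpace X]

/-- integral operator -/
noncomputable def T (σ : Measure X) (κ : X → X → ℝ) (φ : X → ℝ) (x : X) : ℝ :=
  ∫ y, κ x y * φ y ∂σ

/-- bounded kernels -/
def Kb (κ : X → X → ℝ) : Prop := Measurable (Function.uncurry κ) ∧ ∃ C, ∀ x y, |κ x y| ≤ C

lemma Kb.left {κ : X → X → ℝ} (h : Kb κ) (x : X) : Bm (κ x) :=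
  let ⟨hm, C, hC⟩ := h
  ⟨hm.of_uncurry_left, C, hC x⟩

variable {σ w : Measure X} [IsFiniteMeasure σ] [IsFiniteMeasure w] {κ : X → X → ℝ}

lemma T_bm (hκ : Kb κ) {φ : X → ℝ} (hφ : Bm φ) : Bm (T σ κ φ) := by
  obtain ⟨hm, C, hC⟩ := hκ
  refine ⟨((hm.mul (hφ.1.comp measurable_snd)).stronglyMeasurable.integral_prod_right'
    (ν := σ)).measurable, ∫ y, C * |φ y| ∂σ, fun x => abs_integral_le_integral_abs.trans ?_⟩
  refine integral_mono ((Kb.left ⟨hm, C, hC⟩ x).mul hφ).abs.int (hφ.abs.cmul C).int fun y => ?_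
  simp only [abs_mul]
  exact mul_le_mul_of_nonneg_right (hC x y) (abs_nonneg _)

lemma T_add (hκ : Kb κ) {φ ψ : X → ℝ} (hφ : Bm φ) (hψ : Bm ψ) (x : X) :
    T σ κ (fun y => φ y + ψ y) x = T σ κ φ x + T σ κ ψ x := by
  simp only [T, mul_add]
  exact integral_add ((hκ.left x).mul hφ).int ((hκ.left x).mul hψ).int

omit [IsFiniteMeasure σ] in
lemma T_cmul (φ : X → ℝ) (c : ℝ) (x : X) : T σ κ (fun y => c * φ y) x = c * T σ κ φ x := by
  simp only [T, mul_left_comm _ c]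
  exact integral_const_mul _ _

lemma T_sum (hκ : Kb κ) {ι : Type*} (s : Finset ι) {φ : ι → X → ℝ} (hφ : ∀ i ∈ s, Bm (φ i))
    (x : X) : T σ κ (fun y => ∑ i ∈ s, φ i y) x = ∑ i ∈ s, T σ κ (φ i) x := by
  simp only [T, Finset.mul_sum]
  exact integral_finsetSum _ fun i hi => ((hκ.left x).mul (hφ i hi)).int

/-- the structural assumptions on the kernel -/
structure Hyp (Γ : Grid X) (σ w : Measure X) (κ : X → X → ℝ) (good : ℕ → ℕ → Prop)
    (ω : ℕ → ℕ → X → ℝ) (r : ℕ) (q C : ℝ) : Prop where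
  kb : Kb κ
  ωb : ∀ a m, Bm (ω a m)
  ω0 : ∀ a m x, 0 ≤ ω a m x
  C0 : 0 < C
  q0 : 0 ≤ q
  q1 : q < 1
  smooth : ∀ a b x x' y, a + r ≤ b → b < Γ.N → good b (Γ.idx b x) → x ∈ Γ.A b → x' ∈ Γ.A b →
    Γ.idx b x' = Γ.idx b x → y ∉ Γ.Box a (Γ.idx a x) →
    |κ x y - κ x' y| ≤ C * q ^ (b - a) * ω a (Γ.idx a x) y
  maxi : ∀ φ F, Bm φ → Bm F → (∀ x, F x = 0 ∨ ∃ a ≤ Γ.N, x ∈ Γ.A a ∧
    |F x| ≤ ∫ y, ω a (Γ.idx a x) y * |φ y| ∂σ) → ∫ x, F x ^ 2 ∂w ≤ C * ∫ y, φ y ^ 2 ∂σ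
  top : ∀ c m d φ, d ≤ c + r + 1 → d ≤ Γ.N → Bm φ → (∀ y, φ y ≠ 0 → y ∈ Γ.Box c m ∧ y ∉ Γ.A d) →
    ∫ x, T σ κ φ x ^ 2 ∂w ≤ C * ∫ y, φ y ^ 2 ∂σ
  test : ∀ a ≤ Γ.N, ∀ m, ∫ x, T σ κ (ch (Γ.Box a m)) x ^ 2 ∂w ≤ C * ∫ y, ch (Γ.Box a m) y ∂σ

/-- Poisson type average -/
noncomputable def pv (σ : Measure X) (ω : ℕ → ℕ → X → ℝ) (a m : ℕ) (φ : X → ℝ) : ℝ :=
  ∫ y, ω a m y * |φ y| ∂σ

variable {Γ : Grid X} {good : ℕ → ℕ → Prop} {ω : ℕ → ℕ → X → ℝ} {r : ℕ} {q C : ℝ}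

omit [IsFiniteMeasure σ] [IsFiniteMeasure w] in
lemma Hyp.pv_nonneg (H : Hyp Γ σ w κ good ω r q C) (a m : ℕ) (φ : X → ℝ) : 0 ≤ pv σ ω a m φ :=
  integral_nonneg fun y => mul_nonneg (H.ω0 a m y) (abs_nonneg _)

lemma Hyp.far (H : Hyp Γ σ w κ good ω r q C) {a b : ℕ} (hab : a = 0 ∨ a + r ≤ b) (hb : b < Γ.N)
    {G : X → ℝ} (hG : Γ.M0 w b G) (hg : ∀ x, G x ≠ 0 → good b (Γ.idx b x)) {φ : ℕ → X → ℝ}
    (hφ : ∀ m, Bm (φ m)) (h0 : ∀ m, ∀ y ∈ Γ.Box a m, φ m y = 0) :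
    |∫ x, T σ κ (φ (Γ.idx a x)) x * G x ∂w| ≤ C * q ^ (b - a) *
      (∫ x, (pv σ ω a (Γ.idx a x) (φ (Γ.idx a x)) * ch (Γ.A a) x) ^ 2 ∂w + ∫ x, G x ^ 2 ∂w) := by
  have hab' : a ≤ b := by omega
  have hc : 0 ≤ C * q ^ (b - a) := mul_nonneg H.C0.le (pow_nonneg H.q0 _)
  have hP := (Γ.Bm_idx a fun m => pv σ ω a m (φ m)).mul (Bm_ch (Γ.mA a))
  refine (hG.osc (Γ.Bm_idx2 a fun m => T_bm H.kb (hφ m)) (hP.cmul (C * q ^ (b - a)))
    fun x hx x' hx' e => ?_).trans ?_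
  · have hA : x ∈ Γ.A b := by
      by_contra h'
      exact hx (hG.2.1 x h')
    have e' : Γ.idx a x' = Γ.idx a x := by rw [Γ.idx_div hab' hb.le, Γ.idx_div hab' hb.le, e]
    rw [e', ch_of_mem (Γ.anti hab' hA), mul_one, T, T, pv, ← integral_const_mul,
      ← integral_sub ((H.kb.left x).mul (hφ _)).int ((H.kb.left x').mul (hφ _)).int]
    refine abs_integral_le_integral_abs.trans (integral_mono
      (((H.kb.left x).mul (hφ _)).sub ((H.kb.left x').mul (hφ _))).abs.int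
      (((H.ωb _ _).mul (hφ _).abs).cmul _).int fun y => ?_)
    by_cases hy : y ∈ Γ.Box a (Γ.idx a x)
    · simp [h0 _ y hy]
    rcases hab with rfl | hab
    · exact absurd ⟨by simp [Γ.A0], by simp [Γ.idx_zero]⟩ hy
    simp only [← sub_mul, abs_mul, ← mul_assoc]
    exact mul_le_mul_of_nonneg_right (H.smooth a b x x' y hab hb (hg x hx) hA hx' e hy)
      (abs_nonneg _)
  · simp only [mul_assoc (C * q ^ (b - a))]
    rw [integral_const_mul]
    refine mul_le_mul_of_nonneg_left ((le_abs_self _).trans ?_) hc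
    simpa using amgm (μ := w) hP hG.1.abs one_pos

section stop
variable (Γ σ w ω C) (f : X → ℝ)

/-- average of `|f|` -/
noncomputable def be (I : ℕ × ℕ) : ℝ := avg σ (fun x => |f x|) (Γ.Box I.1 I.2)

/-- the stopping rule -/
def stop (I F : ℕ × ℕ) : Prop := 4 * be σ Γ f F < be σ Γ f I ∨
  16 * C * ∫ y, ch (Γ.Box I.1 I.2) y ∂σ <
    pv σ ω I.1 I.2 (ch (Γ.Box F.1 F.2)) ^ 2 * ∫ y, ch (Γ.Box I.1 I.2) y ∂w

open Classical in
/-- the stopping parent -/
noncomputable def par : ℕ → ℕ → ℕ × ℕ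
  | 0, m => (0, m)
  | a + 1, m => if stop σ w Γ ω C f (a + 1, m) (par a (m / 2)) then (a + 1, m) else par a (m / 2)

omit [IsFiniteMeasure σ] [IsFiniteMeasure w]

lemma be_nonneg (I : ℕ × ℕ) : 0 ≤ be σ Γ f I :=
  div_nonneg (integral_nonneg fun x => mul_nonneg (ch_nonneg _ x) (abs_nonneg _)) (ms_nonneg _ _)

lemma par_cases (a m : ℕ) :
    (stop σ w Γ ω C f (a + 1, m) (par σ w Γ ω C f a (m / 2)) ∧
      par σ w Γ ω C f (a + 1) m = (a + 1, m)) ∨
    (¬ stop σ w Γ ω C f (a + 1, m) (par σ w Γ ω C f a (m / 2)) ∧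
      par σ w Γ ω C f (a + 1) m = par σ w Γ ω C f a (m / 2)) := by
  by_cases h : stop σ w Γ ω C f (a + 1, m) (par σ w Γ ω C f a (m / 2))
  · exact Or.inl ⟨h, by rw [par, if_pos h]⟩
  · exact Or.inr ⟨h, by rw [par, if_neg h]⟩

lemma par_le : ∀ a m, (par σ w Γ ω C f a m).1 ≤ a ∧ (par σ w Γ ω C f a m).2 ≤ m
  | 0, _ => ⟨le_rfl, le_rfl⟩
  | a + 1, m => by
    have := par_le a (m / 2)
    rcases par_cases σ w Γ ω C f a m with h | h <;> rw [h.2] <;> omega

lemma par_par : ∀ a m, par σ w Γ ω C f (par σ w Γ ω C f a m).1 (par σ w Γ ω C f a m).2 =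
    par σ w Γ ω C f a m
  | 0, _ => rfl
  | a + 1, m => by
    rcases par_cases σ w Γ ω C f a m with h | h
    · rw [h.2]; exact h.2
    · rw [h.2]; exact par_par a (m / 2)

lemma par_mem : ∀ a ≤ Γ.N, ∀ m, ∀ x ∈ Γ.Box a m,
    x ∈ Γ.Box (par σ w Γ ω C f a m).1 (par σ w Γ ω C f a m).2
  | 0, _, _, _, hx => hx
  | a + 1, ha, m, x, hx => by
    rcases par_cases σ w Γ ω C f a m with h | h <;> rw [h.2]
    · exact hx
    · exact par_mem a (by omega) _ x ⟨Γ.anti (Nat.le_succ a) hx.1, by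
        rw [Γ.idx_succ (by omega), hx.2]⟩

lemma par_mono (x : X) {a : ℕ} : ∀ b, a ≤ b → b ≤ Γ.N →
    (par σ w Γ ω C f a (Γ.idx a x)).1 ≤ (par σ w Γ ω C f b (Γ.idx b x)).1 := by
  intro b hab
  induction b, hab using Nat.le_induction with
  | base => exact fun _ => le_rfl
  | succ b hab ih =>
    intro hb
    have h1 := ih (by omega)
    have h2 := (par_le σ w Γ ω C f b (Γ.idx b x)).1
    rcases par_cases σ w Γ ω C f b (Γ.idx (b + 1) x) with h | h <;> rw [h.2]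
    · exact h1.trans (h2.trans (Nat.le_succ b))
    · rwa [← Γ.idx_succ (by omega)]

lemma be_le : ∀ a m, be σ Γ f (a, m) ≤ 4 * be σ Γ f (par σ w Γ ω C f a m)
  | 0, m => by have := be_nonneg σ Γ f (0, m); simp only [par]; linarith
  | a + 1, m => by
    rcases par_cases σ w Γ ω C f a m with h | h <;> rw [h.2]
    · have := be_nonneg σ Γ f (a + 1, m); linarith
    · exact not_lt.1 fun h' => h.1 (Or.inl h')

open Classical in
/-- the contribution of the stopping boxes of generation `a` -/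
noncomputable def Sg (a : ℕ) : ℝ := ∑ m ∈ range (2 ^ Γ.N),
  (if par σ w Γ ω C f a m = (a, m) then be σ Γ f (a, m) ^ 2 else 0) * ∫ y, ch (Γ.Box a m) y ∂σ

open Classical in
/-- the Poisson contribution of the stopping boxes of generation `a + 1` -/
noncomputable def Xi (a : ℕ) : ℝ := ∑ m ∈ range (2 ^ Γ.N),
  (if par σ w Γ ω C f (a + 1) m = (a + 1, m) then be σ Γ f (par σ w Γ ω C f a (m / 2)) ^ 2 *
    pv σ ω (a + 1) m (ch (Γ.Box (par σ w Γ ω C f a (m / 2)).1 (par σ w Γ ω C f a (m / 2)).2)) ^ 2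
    else 0) * ∫ y, ch (Γ.Box (a + 1) m) y ∂w

lemma Sg_nonneg (a : ℕ) : 0 ≤ Sg σ w Γ ω C f a :=
  Finset.sum_nonneg fun _ _ => mul_nonneg (by split_ifs <;> positivity) (ms_nonneg _ _)

open Classical in
/-- the average over the deepest stopping box -/
noncomputable def bb : ℕ → X → ℝ
  | 0, _ => be σ Γ f (0, 0)
  | c + 1, x => if x ∈ Γ.A (c + 1) then be σ Γ f (par σ w Γ ω C f (c + 1) (Γ.idx (c + 1) x))
      else bb c x

lemma bb_of_mem {c : ℕ} {x : X} (hx : x ∈ Γ.A c) :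
    bb σ w Γ ω C f c x = be σ Γ f (par σ w Γ ω C f c (Γ.idx c x)) := by
  cases c with
  | zero => simp [bb, par, Γ.idx_zero]
  | succ c => rw [bb, if_pos hx]

open Classical in
/-- the jump at a stopping box -/
noncomputable def jmp (h : ℝ → ℝ) (c m : ℕ) : ℝ :=
  if par σ w Γ ω C f (c + 1) m = (c + 1, m) then h (be σ Γ f (c + 1, m)) -
    h (be σ Γ f (par σ w Γ ω C f c (m / 2))) else 0

lemma bb_step (h : ℝ → ℝ) {c : ℕ} (hc : c < Γ.N) (x : X) :
    h (bb σ w Γ ω C f (c + 1) x) = h (bb σ w Γ ω C f c x) +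
      jmp σ w Γ ω C f h c (Γ.idx (c + 1) x) * ch (Γ.A (c + 1)) x := by
  unfold jmp
  by_cases hx : x ∈ Γ.A (c + 1)
  · rw [bb_of_mem σ w Γ ω C f hx, bb_of_mem σ w Γ ω C f (Γ.anti (Nat.le_succ c) hx), ch_of_mem hx,
      Γ.idx_succ hc]
    have h2 := (par_le σ w Γ ω C f c (Γ.idx (c + 1) x / 2)).1
    rcases par_cases σ w Γ ω C f c (Γ.idx (c + 1) x) with h' | h'
    · simp [h'.2]
    · have : par σ w Γ ω C f (c + 1) (Γ.idx (c + 1) x) ≠ (c + 1, Γ.idx (c + 1) x) := by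
        rw [h'.2]
        intro e
        rw [e] at h2
        omega
      simp only [if_neg this]
      rw [h'.2]
      simp
  · rw [bb, if_neg hx, ch_of_not hx]
    simp

lemma bb_bm : ∀ c ≤ Γ.N, Bm (bb σ w Γ ω C f c)
  | 0, _ => Bm.const _
  | c + 1, hc => by
    have := funext (bb_step σ w Γ ω C f id (c := c) (by omega))
    simp only [id] at this
    change Bm fun x => bb σ w Γ ω C f (c + 1) x
    rw [this]
    exact (bb_bm c (by omega)).add ((Γ.Bm_idx (c + 1) _).mul (Bm_ch (Γ.mA _)))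

end stop

omit [IsFiniteMeasure σ] [IsFiniteMeasure w] in
lemma Sg_zero (f : X → ℝ) :
    Sg σ w Γ ω C f 0 = be σ Γ f (0, 0) ^ 2 * ∫ y, ch (Γ.Box 0 0) y ∂σ := by
  unfold Sg
  rw [Finset.sum_eq_single 0]
  · simp [par]
  · intro m _ hm
    have : ∀ y, ch (Γ.Box 0 m) y = 0 := fun y => ch_of_not fun h => hm (h.2.symm.trans
      (Γ.idx_zero y))
    simp [this]
  · simp

omit [IsFiniteMeasure w] in
lemma bb_sq (f : X → ℝ) : ∀ c ≤ Γ.N,
    ∫ x, bb σ w Γ ω C f c x ^ 2 ∂σ ≤ ∑ a ∈ range (c + 1), Sg σ w Γ ω C f a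
  | 0, _ => by
    have : ∀ y, ch (Γ.Box 0 0) y = 1 := fun y => ch_of_mem ⟨by simp [Γ.A0], Γ.idx_zero y⟩
    simp [Sg_zero, bb, this, mul_comm]
  | c + 1, hc => by
    have h1 := bb_sq f c (by omega)
    simp only [bb_step σ w Γ ω C f (· ^ 2) (c := c) (by omega)]
    rw [integral_add (bb_bm σ w Γ ω C f c (by omega)).sq.int
      ((Γ.Bm_idx (c + 1) _).mul (Bm_ch (Γ.mA _))).int, Γ.int_ch1, Finset.sum_range_succ]
    refine add_le_add h1 (Finset.sum_le_sum fun m _ => mul_le_mul_of_nonneg_right ?_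
      (ms_nonneg _ _))
    unfold jmp
    split_ifs
    · exact sub_le_self _ (sq_nonneg _)
    · exact le_rfl

omit [IsFiniteMeasure w] in
lemma bb_mul (hC : 0 < C) {f : X → ℝ} (hf : Bm f) : ∀ c ≤ Γ.N,
    3 / 4 * ∑ a ∈ range (c + 1), Sg σ w Γ ω C f a ≤ ∫ x, bb σ w Γ ω C f c x * |f x| ∂σ +
      (4 * C)⁻¹ * ∑ a ∈ range c, Xi σ w Γ ω C f a
  | 0, _ => by
    have h : ∀ y, ch (Γ.Box 0 0) y = 1 := fun y => ch_of_mem ⟨by simp [Γ.A0], Γ.idx_zero y⟩
    have h1 := avg_mul (μ := σ) (fun x => |f x|) (Γ.mBox 0 0)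
    have h2 := Sg_nonneg σ w Γ ω C f 0
    have h3 : ∫ x, bb σ w Γ ω C f 0 x * |f x| ∂σ = Sg σ w Γ ω C f 0 := by
      rw [Sg_zero, sq, mul_assoc]
      unfold be
      rw [h1, ← integral_const_mul]
      simp [bb, be, h]
    simp only [zero_add, Finset.range_one, sum_singleton, Finset.range_zero, sum_empty, mul_zero,
      add_zero, h3]
    linarith
  | c + 1, hc => by
    have h1 := bb_mul hC hf c (by omega)
    have h2 := bb_step σ w Γ ω C f id (c := c) (by omega)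
    simp only [id] at h2
    simp only [h2, add_mul]
    rw [integral_add ((bb_bm σ w Γ ω C f c (by omega)).mul hf.abs).int
      (((Γ.Bm_idx (c + 1) _).mul (Bm_ch (Γ.mA _))).mul hf.abs).int, Γ.int_ch _ _ hf.abs,
      Finset.sum_range_succ, Finset.sum_range_succ (Xi σ w Γ ω C f)]
    have h3 : 3 / 4 * Sg σ w Γ ω C f (c + 1) ≤ ∑ k ∈ range (2 ^ Γ.N), jmp σ w Γ ω C f id c k *
        ∫ x, ch (Γ.Box (c + 1) k) x * |f x| ∂σ + (4 * C)⁻¹ * Xi σ w Γ ω C f c := by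
      unfold Sg Xi jmp
      rw [Finset.mul_sum, Finset.mul_sum, ← Finset.sum_add_distrib]
      refine Finset.sum_le_sum fun m _ => ?_
      split_ifs with h
      swap
      · simp
      rw [← avg_mul _ (Γ.mBox _ _)]
      have hs : stop σ w Γ ω C f (c + 1, m) (par σ w Γ ω C f c (m / 2)) := by
        rcases par_cases σ w Γ ω C f c m with h' | h'
        · exact h'.1
        · have := (par_le σ w Γ ω C f c (m / 2)).1
          rw [← h'.2, h] at this
          omega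
      have b1 := be_nonneg σ Γ f (c + 1, m)
      have b2 := be_nonneg σ Γ f (par σ w Γ ω C f c (m / 2))
      have b3 := ms_nonneg σ (Γ.Box (c + 1) m)
      have b4 := ms_nonneg w (Γ.Box (c + 1) m)
      unfold stop at hs
      change 3 / 4 * (be σ Γ f (c + 1, m) ^ 2 * _) ≤ (be σ Γ f (c + 1, m) - be σ Γ f _) *
        (be σ Γ f (c + 1, m) * _) + _
      simp only at hs
      generalize be σ Γ f (c + 1, m) = u at *
      generalize be σ Γ f (par σ w Γ ω C f c (m / 2)) = v at *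
      generalize ∫ y, ch (Γ.Box (c + 1) m) y ∂σ = s at *
      generalize ∫ y, ch (Γ.Box (c + 1) m) y ∂w = t at *
      generalize pv σ ω (c + 1) m _ = p at *
      have b5 : 0 ≤ (4 * C)⁻¹ * (v ^ 2 * p ^ 2 * t) := by positivity
      by_cases h4 : 4 * v < u
      · nlinarith [mul_nonneg (mul_nonneg b1 b3) (sub_nonneg.2 h4.le)]
      · have h5 : 16 * C * s < p ^ 2 * t := hs.resolve_left h4
        have h6 : 4 * v ^ 2 * s ≤ (4 * C)⁻¹ * (v ^ 2 * p ^ 2 * t) := by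
          rw [le_inv_mul_iff₀ (by positivity)]
          nlinarith [mul_nonneg (sq_nonneg v) (sub_nonneg.2 h5.le)]
        nlinarith [mul_nonneg (mul_nonneg b2 b3) (sub_nonneg.2 (not_lt.1 h4)),
          mul_nonneg (sq_nonneg u) b3]
    linarith

lemma Hyp.Xi_le (H : Hyp Γ σ w κ good ω r q C) (f : X → ℝ) :
    ∑ a ∈ range Γ.N, Xi σ w Γ ω C f a ≤ C * ∑ a ∈ range (Γ.N + 1), Sg σ w Γ ω C f a := by
  classical
  set π := par σ w Γ ω C f with hπ
  set u : ℕ × ℕ → ℕ → ℕ → ℝ := fun F a m => if π (a + 1) m = (a + 1, m) ∧ π a (m / 2) = F then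
    pv σ ω (a + 1) m (ch (Γ.Box F.1 F.2)) else 0 with hu
  have key : ∀ F : ℕ × ℕ, ∑ a ∈ range Γ.N, ∑ m ∈ range (2 ^ Γ.N),
      u F a m ^ 2 * ∫ y, ch (Γ.Box (a + 1) m) y ∂w ≤ C * ∫ y, ch (Γ.Box F.1 F.2) y ∂σ := by
    intro F
    have hb : ∀ a, Bm fun x => u F a (Γ.idx (a + 1) x) * ch (Γ.A (a + 1)) x := fun a =>
      (Γ.Bm_idx (a + 1) _).mul (Bm_ch (Γ.mA _))
    have one : ∀ x, ∃ a0, ∀ a < Γ.N, a ≠ a0 → u F a (Γ.idx (a + 1) x) = 0 := by
      intro x
      by_contra! h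
      obtain ⟨a, ha, -, h1⟩ := h 0
      obtain ⟨b, hb, hne, h2⟩ := h a
      have g1 := (ite_ne_right_iff.1 h1).1
      have g2 := (ite_ne_right_iff.1 h2).1
      rw [← Γ.idx_succ ha] at g1
      rw [← Γ.idx_succ hb] at g2
      have l1 := (par_le σ w Γ ω C f a (Γ.idx a x)).1
      have l2 := (par_le σ w Γ ω C f b (Γ.idx b x)).1
      rcases lt_or_gt_of_ne hne with h | h
      · have := par_mono σ w Γ ω C f x a (show b + 1 ≤ a from h) ha.le
        rw [← hπ] at this l2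
        rw [g2.1, g1.2] at this
        rw [g2.2] at l2
        omega
      · have := par_mono σ w Γ ω C f x b (show a + 1 ≤ b from h) hb.le
        rw [← hπ] at this l1
        rw [g1.1, g2.2] at this
        rw [g1.2] at l1
        omega
    have hm := H.maxi (ch (Γ.Box F.1 F.2)) _ (Γ.bBox _ _) (Bm.sum (range Γ.N) fun a _ => hb a)
      fun x => by
        obtain ⟨a0, h⟩ := one x
        by_cases ha : a0 < Γ.N
        swap
        · refine Or.inl (Finset.sum_eq_zero fun a ha' => ?_)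
          have := Finset.mem_range.1 ha'
          rw [h a this (by omega), zero_mul]
        rw [Finset.sum_eq_single a0 (fun a ha' hne => by
          rw [h a (Finset.mem_range.1 ha') hne, zero_mul]) (by simp [ha])]
        by_cases hx : x ∈ Γ.A (a0 + 1)
        · refine Or.inr ⟨a0 + 1, ha, hx, ?_⟩
          have := H.pv_nonneg (a0 + 1) (Γ.idx (a0 + 1) x) (ch (Γ.Box F.1 F.2))
          rw [ch_of_mem hx, mul_one]
          simp only [hu]
          split_ifs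
          · exact le_of_eq (abs_of_nonneg this)
          · rw [abs_zero]; exact this
        · exact Or.inl (by rw [ch_of_not hx, mul_zero])
    simp only [ch_sq] at hm
    refine le_trans (le_of_eq ?_) hm
    simp only [← Γ.int_ch1 (μ := w) _ fun m => u F _ m ^ 2]
    rw [← integral_finsetSum _ fun a _ => ((Γ.Bm_idx (a + 1) fun m => u F a m ^ 2).mul
      (Bm_ch (Γ.mA _))).int]
    refine integral_congr_ae (Eventually.of_forall fun x => ?_)
    obtain ⟨a0, h⟩ := one x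
    simp only
    by_cases ha : a0 < Γ.N
    · rw [Finset.sum_eq_single a0 (fun a ha' hne => by
        simp [h a (Finset.mem_range.1 ha') hne]) (by simp [ha]), Finset.sum_eq_single a0
        (fun a ha' hne => by simp [h a (Finset.mem_range.1 ha') hne]) (by simp [ha]), mul_pow,
        ch_sq]
    · have : ∀ a ∈ range Γ.N, u F a (Γ.idx (a + 1) x) = 0 := fun a ha' => by
        have := Finset.mem_range.1 ha'
        exact h a this (by omega)
      rw [Finset.sum_eq_zero fun a ha' => by simp [this a ha'],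
        Finset.sum_eq_zero fun a ha' => by simp [this a ha']]
      simp
  have e1 : ∑ a ∈ range Γ.N, Xi σ w Γ ω C f a = ∑ F ∈ range (Γ.N + 1) ×ˢ range (2 ^ Γ.N),
      (if π F.1 F.2 = F then be σ Γ f F ^ 2 else 0) * ∑ a ∈ range Γ.N, ∑ m ∈ range (2 ^ Γ.N),
      u F a m ^ 2 * ∫ y, ch (Γ.Box (a + 1) m) y ∂w := by
    simp only [Finset.mul_sum]
    rw [Finset.sum_comm]
    refine Finset.sum_congr rfl fun a ha => ?_
    rw [Finset.sum_comm]
    refine Finset.sum_congr rfl fun m hm => ?_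
    rw [Finset.sum_eq_single (π a (m / 2))]
    · rw [if_pos (par_par σ w Γ ω C f a (m / 2))]
      simp only [hu, and_true]
      split_ifs
      · ring
      · simp
    · intro F _ hF
      simp [hu, hF.symm]
    · intro h
      have := par_le σ w Γ ω C f a (m / 2)
      rw [← hπ] at this
      simp only [Finset.mem_product, Finset.mem_range] at h ha hm
      exact absurd ⟨by omega, by omega⟩ h
  rw [e1, Finset.sum_product, Finset.mul_sum]
  refine Finset.sum_le_sum fun a _ => ?_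
  unfold Sg
  rw [Finset.mul_sum]
  refine Finset.sum_le_sum fun m _ => ?_
  rw [mul_left_comm]
  exact mul_le_mul_of_nonneg_left (key (a, m)) (by split_ifs <;> positivity)

lemma Hyp.Sg_le (H : Hyp Γ σ w κ good ω r q C) {f : X → ℝ} (hf : Bm f) :
    ∑ a ∈ range (Γ.N + 1), Sg σ w Γ ω C f a ≤ 16 * ∫ x, f x ^ 2 ∂σ := by
  have h1 := bb_mul (σ := σ) (w := w) (Γ := Γ) (ω := ω) H.C0 hf Γ.N le_rfl
  have h2 := bb_sq (σ := σ) (w := w) (Γ := Γ) (ω := ω) (C := C) f Γ.N le_rfl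
  have h3 := (le_abs_self _).trans (amgm (μ := σ) (bb_bm σ w Γ ω C f Γ.N le_rfl) hf.abs
    (t := 1 / 4) (by norm_num))
  have h4 := H.Xi_le f
  have hC := H.C0
  have h5 : (4 * C)⁻¹ * ∑ a ∈ range Γ.N, Xi σ w Γ ω C f a ≤
      1 / 4 * ∑ a ∈ range (Γ.N + 1), Sg σ w Γ ω C f a := by
    rw [inv_mul_le_iff₀ (by positivity)]
    linarith
  simp only [sq_abs] at h3
  norm_num at h3
  linarith

end Pool.Agent.H103Z.Bg
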