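import Mathlib
import Pool.Agent.H103Z.BgStop

set_option autoImplicit false
open MeasureTheory Filter Set Finset

namespace Pool.Agent.H103Z.Bg

variable {X : Type*} [MeasurableSpace X]
variable {σ w : Measure X} [IsFiniteMeasure σ] [IsFiniteMeasure w] {κ : X → X → ℝ}
variable {Γ : Grid X} {good : ℕ → ℕ → Prop} {ω : ℕ → ℕ → X → ℝ} {r : ℕ} {q C : ℝ}

section
variable (σ w Γ ω C) (f : X → ℝ)

open Classical in
/-- coefficient of the increment -/
noncomputable def cf (a m : ℕ) : ℝ :=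
  if par σ w Γ ω C f (a + 1) m = (a + 1, m) then avg σ f (Γ.Box a (m / 2))
  else avg σ f (Γ.Box a (m / 2)) - avg σ f (Γ.Box (a + 1) m)

/-- the increment attached to a box -/
noncomputable def ph (a m : ℕ) (y : X) : ℝ :=
  (Γ.Ex σ f (a + 1) y - Γ.Ex σ f a y) * (1 - ch (Γ.Box (a + 1) m) y) + cf σ w Γ ω C f a m *
    (ch (Γ.Box (par σ w Γ ω C f a (m / 2)).1 (par σ w Γ ω C f a (m / 2)).2) y -
      ch (Γ.Box (a + 1) m) y)
end

omit [IsFiniteMeasure w] in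
lemma ph_bm {f : X → ℝ} (hf : Bm f) (a m : ℕ) : Bm (ph σ w Γ ω C f a m) :=
  (((Γ.Ex_bm hf _).sub (Γ.Ex_bm hf _)).mul ((Bm.const 1).sub (Γ.bBox _ _))).add
    (((Γ.bBox _ _).sub (Γ.bBox _ _)).cmul _)

omit [IsFiniteMeasure σ] [IsFiniteMeasure w] in
lemma box_par (f : X → ℝ) {a m : ℕ} (ha : a < Γ.N) {y : X} (hy : y ∈ Γ.Box (a + 1) m) :
    y ∈ Γ.Box (par σ w Γ ω C f a (m / 2)).1 (par σ w Γ ω C f a (m / 2)).2 :=
  par_mem σ w Γ ω C f a ha.le _ y ⟨Γ.anti (Nat.le_succ a) hy.1, by rw [Γ.idx_succ ha, hy.2]⟩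

lemma Ex_step (f : X → ℝ) {a m : ℕ} (ha : a < Γ.N) {y : X} (hy : y ∈ Γ.Box (a + 1) m) :
    Γ.Ex σ f (a + 1) y - Γ.Ex σ f a y =
      avg σ f (Γ.Box (a + 1) m) - avg σ f (Γ.Box a (m / 2)) := by
  rw [Γ.Ex_of_mem hy.1, Γ.Ex_of_mem (Γ.anti (Nat.le_succ a) hy.1), Γ.idx_succ ha, hy.2]

omit [IsFiniteMeasure w] in
lemma decomp (f : X → ℝ) (x y : X) : ∀ c ≤ Γ.N, Γ.Ex σ f c y = avg σ f (Γ.Box c (Γ.idx c x)) *
    ch (Γ.Box (par σ w Γ ω C f c (Γ.idx c x)).1 (par σ w Γ ω C f c (Γ.idx c x)).2) y +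
    ∑ a ∈ range c, ph σ w Γ ω C f a (Γ.idx (a + 1) x) y
  | 0, _ => by
    have h : y ∈ Γ.A 0 := by simp [Γ.A0]
    rw [Γ.Ex_of_mem h, Γ.idx_zero, Γ.idx_zero]
    simp [par, ch_of_mem (S := Γ.Box 0 0) ⟨h, Γ.idx_zero y⟩]
  | c + 1, hc => by
    have h1 := decomp f x y c (by omega)
    rw [Finset.sum_range_succ, Γ.idx_succ hc] at *
    have h2 : (Γ.Ex σ f (c + 1) y - Γ.Ex σ f c y) * ch (Γ.Box (c + 1) (Γ.idx (c + 1) x)) y =
        (avg σ f (Γ.Box (c + 1) (Γ.idx (c + 1) x)) - avg σ f (Γ.Box c (Γ.idx (c + 1) x / 2))) *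
          ch (Γ.Box (c + 1) (Γ.idx (c + 1) x)) y := by
      by_cases hy : y ∈ Γ.Box (c + 1) (Γ.idx (c + 1) x)
      · rw [Ex_step f hc hy]
      · simp [ch_of_not hy]
    have h3 := (par_le σ w Γ ω C f c (Γ.idx (c + 1) x / 2)).1
    rw [ph, cf]
    rcases par_cases σ w Γ ω C f c (Γ.idx (c + 1) x) with h | h
    · rw [if_pos h.2, h.2]
      linear_combination h1 + h2
    · rw [if_neg (by rw [h.2]; intro e; rw [e] at h3; omega), h.2]
      linear_combination h1 + h2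

lemma Hyp.pv_sq (H : Hyp Γ σ w κ good ω r q C) {φ : X → ℝ} (hφ : Bm φ) {a : ℕ} (ha : a ≤ Γ.N) :
    ∑ m ∈ range (2 ^ Γ.N), pv σ ω a m φ ^ 2 * ∫ y, ch (Γ.Box a m) y ∂w ≤ C * ∫ y, φ y ^ 2 ∂σ := by
  have := H.maxi φ _ hφ ((Γ.Bm_idx a fun m => pv σ ω a m φ).mul (Bm_ch (Γ.mA a))) fun x => by
    by_cases hx : x ∈ Γ.A a
    · exact Or.inr ⟨a, ha, hx, by
        rw [ch_of_mem hx, mul_one]; exact le_of_eq (abs_of_nonneg (H.pv_nonneg _ _ _))⟩
    · exact Or.inl (by rw [ch_of_not hx, mul_zero])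
  simp only [mul_pow, ch_sq] at this
  rwa [Γ.int_ch1 _ fun m => pv σ ω a m φ ^ 2] at this

lemma Hyp.ph_le (H : Hyp Γ σ w κ good ω r q C) {f : X → ℝ} (hf : Bm f) {a : ℕ} (ha : a < Γ.N) :
    ∫ x, (pv σ ω (a + 1) (Γ.idx (a + 1) x) (ph σ w Γ ω C f a (Γ.idx (a + 1) x)) *
      ch (Γ.A (a + 1)) x) ^ 2 ∂w ≤
      34 * C * ∫ y, (Γ.Ex σ f (a + 1) y - Γ.Ex σ f a y) ^ 2 ∂σ + 32 * Xi σ w Γ ω C f a := by
  have hD := (Γ.Ex_bm (μ := σ) hf (a + 1)).sub (Γ.Ex_bm (μ := σ) hf a)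
  have h1 := H.pv_sq hD (a := a + 1) ha
  have h2 : ∑ m ∈ range (2 ^ Γ.N), (avg σ f (Γ.Box (a + 1) m) - avg σ f (Γ.Box a (m / 2))) ^ 2 *
      ∫ y, ch (Γ.Box (a + 1) m) y ∂σ ≤ ∫ y, (Γ.Ex σ f (a + 1) y - Γ.Ex σ f a y) ^ 2 ∂σ := by
    rw [← Γ.int_ch1 _ fun m => (avg σ f (Γ.Box (a + 1) m) - avg σ f (Γ.Box a (m / 2))) ^ 2]
    refine integral_mono ((Γ.Bm_idx _ fun m => (avg σ f (Γ.Box (a + 1) m) -
      avg σ f (Γ.Box a (m / 2))) ^ 2).mul (Bm_ch (Γ.mA _))).int hD.sq.int fun y => ?_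
    by_cases hy : y ∈ Γ.A (a + 1)
    · simp only [ch_of_mem hy, mul_one, Ex_step f ha ⟨hy, rfl⟩, le_refl]
    · simp only [ch_of_not hy, mul_zero, sq_nonneg]
  simp only [mul_pow, ch_sq]
  rw [Γ.int_ch1 _ fun m => pv σ ω (a + 1) m (ph σ w Γ ω C f a m) ^ 2]
  have hC := H.C0
  refine le_trans ?_ (show 2 * _ + 32 * C * _ + 32 * Xi σ w Γ ω C f a ≤ _ from by
    have := mul_le_mul_of_nonneg_left h2 (show 0 ≤ 32 * C by positivity)
    refine (add_le_add (add_le_add (mul_le_mul_of_nonneg_left h1 zero_le_two) this)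
      le_rfl).trans (le_of_eq (by ring)))
  unfold Xi
  rw [Finset.mul_sum, Finset.mul_sum, Finset.mul_sum, ← Finset.sum_add_distrib,
    ← Finset.sum_add_distrib]
  refine Finset.sum_le_sum fun m _ => ?_
  set F := par σ w Γ ω C f a (m / 2) with hF
  have h3 : pv σ ω (a + 1) m (ph σ w Γ ω C f a m) ≤
      pv σ ω (a + 1) m (fun y => Γ.Ex σ f (a + 1) y - Γ.Ex σ f a y) +
        |cf σ w Γ ω C f a m| * pv σ ω (a + 1) m (ch (Γ.Box F.1 F.2)) := by
    unfold pv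
    rw [← integral_const_mul, ← integral_add ((H.ωb _ _).mul hD.abs).int
      (((H.ωb _ _).mul (Γ.bBox _ _).abs).cmul _).int]
    refine integral_mono ((H.ωb _ _).mul (ph_bm hf a m).abs).int (((H.ωb _ _).mul hD.abs).add
      (((H.ωb _ _).mul (Γ.bBox _ _).abs).cmul _)).int fun y => ?_
    simp only
    rw [mul_left_comm, ← mul_add]
    refine mul_le_mul_of_nonneg_left ?_ (H.ω0 _ _ _)
    unfold ph
    by_cases hy : y ∈ Γ.Box (a + 1) m
    · rw [ch_of_mem hy, ch_of_mem (box_par f ha hy), sub_self, mul_zero, mul_zero, add_zero,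
        abs_zero]
      positivity
    · rw [ch_of_not hy, sub_zero, sub_zero, mul_one, ← abs_mul]
      exact abs_add_le _ _
  have p1 := H.pv_nonneg (a + 1) m (ph σ w Γ ω C f a m)
  have p2 := H.pv_nonneg (a + 1) m (ch (Γ.Box F.1 F.2))
  have b3 := ms_nonneg σ (Γ.Box (a + 1) m)
  have b4 := ms_nonneg w (Γ.Box (a + 1) m)
  have h4 : cf σ w Γ ω C f a m ^ 2 * (pv σ ω (a + 1) m (ch (Γ.Box F.1 F.2)) ^ 2 *
      ∫ y, ch (Γ.Box (a + 1) m) y ∂w) ≤ 16 * C * ((avg σ f (Γ.Box (a + 1) m) -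
        avg σ f (Γ.Box a (m / 2))) ^ 2 * ∫ y, ch (Γ.Box (a + 1) m) y ∂σ) +
        16 * ((if par σ w Γ ω C f (a + 1) m = (a + 1, m) then be σ Γ f F ^ 2 *
          pv σ ω (a + 1) m (ch (Γ.Box F.1 F.2)) ^ 2 else 0) * ∫ y, ch (Γ.Box (a + 1) m) y ∂w) := by
    unfold cf
    split_ifs with h
    · have h5 : |avg σ f (Γ.Box a (m / 2))| ≤ 4 * be σ Γ f F :=
        (avg_abs _).trans (be_le σ w Γ ω C f a (m / 2))
      have h6 : avg σ f (Γ.Box a (m / 2)) ^ 2 ≤ (4 * be σ Γ f F) ^ 2 :=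
        sq_le_sq' (abs_le.1 h5).1 (abs_le.1 h5).2
      refine le_add_of_nonneg_of_le (by positivity) ?_
      refine (mul_le_mul_of_nonneg_right h6 (by positivity)).trans (le_of_eq (by ring))
    · have h5 : ¬ stop σ w Γ ω C f (a + 1, m) F := by
        rcases par_cases σ w Γ ω C f a m with h' | h'
        · exact absurd h'.2 h
        · exact h'.1
      have h6 := not_lt.1 fun h' => h5 (Or.inr h')
      refine (mul_le_mul_of_nonneg_left h6 (sq_nonneg _)).trans (le_of_eq (by ring))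
  have h7 := pow_le_pow_left₀ p1 h3 2
  have h8 := add_sq_le (a := pv σ ω (a + 1) m (fun y => Γ.Ex σ f (a + 1) y - Γ.Ex σ f a y))
    (b := |cf σ w Γ ω C f a m| * pv σ ω (a + 1) m (ch (Γ.Box F.1 F.2)))
  rw [mul_pow, sq_abs] at h8
  have h9 := mul_le_mul_of_nonneg_right (h7.trans h8) b4
  linarith

lemma Hyp.para (H : Hyp Γ σ w κ good ω r q C) (f : X → ℝ) {G : ℕ → X → ℝ}
    (h0 : ∀ b < Γ.N, Γ.M0 w b (G b)) (h1 : ∀ b < Γ.N, Γ.Cst (b + 1) (G b)) :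
    |∑ b ∈ range Γ.N, ∫ x, avg σ f (Γ.Box (b - r) (Γ.idx (b - r) x)) *
      T σ κ (ch (Γ.Box (par σ w Γ ω C f (b - r) (Γ.idx (b - r) x)).1
        (par σ w Γ ω C f (b - r) (Γ.idx (b - r) x)).2)) x * G b x ∂w| ≤
      C * ∑ a ∈ range (Γ.N + 1), Sg σ w Γ ω C f a + 16 * ∑ b ∈ range Γ.N, ∫ x, G b x ^ 2 ∂w := by
  classical
  set π := par σ w Γ ω C f with hπ
  set ι : ℕ × ℕ → ℕ → ℕ → ℝ := fun F b k =>
    if π (b - r) (k / 2 ^ (b - (b - r))) = F then 1 else 0 with hι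
  set l : ℕ × ℕ → ℕ → ℕ → ℝ := fun F b k =>
    ι F b k * avg σ f (Γ.Box (b - r) (k / 2 ^ (b - (b - r)))) with hl
  set S := range (Γ.N + 1) ×ˢ range (2 ^ Γ.N) with hS
  have hmem : ∀ b < Γ.N, ∀ x, π (b - r) (Γ.idx b x / 2 ^ (b - (b - r))) ∈ S := by
    intro b hb x
    have h2 := par_le σ w Γ ω C f (b - r) (Γ.idx b x / 2 ^ (b - (b - r)))
    have h3 := Γ.idx_lt b x
    have h4 := Nat.div_le_self (Γ.idx b x) (2 ^ (b - (b - r)))
    rw [← hπ] at h2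
    simp only [hS, Finset.mem_product, Finset.mem_range]
    omega
  have hT := fun F : ℕ × ℕ => T_bm (σ := σ) H.kb (Γ.bBox F.1 F.2)
  have hM := fun F b hb => (h0 b hb).mul (l F b)
  have e1 : ∀ b ∈ range Γ.N, ∫ x, avg σ f (Γ.Box (b - r) (Γ.idx (b - r) x)) *
      T σ κ (ch (Γ.Box (π (b - r) (Γ.idx (b - r) x)).1 (π (b - r) (Γ.idx (b - r) x)).2)) x *
        G b x ∂w = ∑ F ∈ S, ∫ x, T σ κ (ch (Γ.Box F.1 F.2)) x * (l F b (Γ.idx b x) * G b x) ∂w := by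
    intro b hb
    have hb := Finset.mem_range.1 hb
    rw [← integral_finsetSum _ fun F _ => ((hT F).mul (hM F b hb).1).int]
    refine integral_congr_ae (Eventually.of_forall fun x => ?_)
    simp only
    rw [Γ.idx_div (Nat.sub_le b r) hb.le, Finset.sum_eq_single_of_mem _ (hmem b hb x)
      fun F _ hF => by simp [hl, hι, hF.symm]]
    simp only [hl, hι, if_true]
    ring
  have e2 : ∑ b ∈ range Γ.N, ∫ x, G b x ^ 2 ∂w =
      ∑ F ∈ S, ∑ b ∈ range Γ.N, ∫ x, ι F b (Γ.idx b x) * G b x ^ 2 ∂w := by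
    rw [Finset.sum_comm]
    refine Finset.sum_congr rfl fun b hb => ?_
    have hb := Finset.mem_range.1 hb
    rw [← integral_finsetSum _ fun F _ => ((Γ.Bm_idx b (ι F b)).mul (h0 b hb).1.sq).int]
    refine integral_congr_ae (Eventually.of_forall fun x => ?_)
    simp only
    rw [Finset.sum_eq_single_of_mem _ (hmem b hb x) fun F _ hF => by simp [hι, hF.symm]]
    simp [hι]
  have e3 : ∑ a ∈ range (Γ.N + 1), Sg σ w Γ ω C f a = ∑ F ∈ S,
      (if π F.1 F.2 = F then be σ Γ f F ^ 2 else 0) * ∫ y, ch (Γ.Box F.1 F.2) y ∂σ := by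
    rw [hS, Finset.sum_product]
    rfl
  rw [Finset.sum_congr rfl e1, Finset.sum_comm, e2, e3, Finset.mul_sum, Finset.mul_sum,
    ← Finset.sum_add_distrib]
  refine (Finset.abs_sum_le_sum_abs _ _).trans (Finset.sum_le_sum fun F hF => ?_)
  have hC := H.C0
  have b3 := ms_nonneg σ (Γ.Box F.1 F.2)
  have hι0 : ∀ b k, 0 ≤ ι F b k := fun b k => by simp only [hι]; split_ifs <;> norm_num
  have hl2 : ∀ b k, l F b k ^ 2 ≤ 16 * (if π F.1 F.2 = F then be σ Γ f F ^ 2 else 0) * ι F b k := by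
    intro b k
    simp only [hl, hι]
    by_cases h : π (b - r) (k / 2 ^ (b - (b - r))) = F
    · have h5 := (avg_abs (μ := σ) (f := f) _).trans
        (be_le σ w Γ ω C f (b - r) (k / 2 ^ (b - (b - r))))
      have h6 := par_par σ w Γ ω C f (b - r) (k / 2 ^ (b - (b - r)))
      rw [← hπ, h] at h5 h6
      rw [if_pos h, if_pos h6]
      nlinarith [sq_le_sq' (abs_le.1 h5).1 (abs_le.1 h5).2]
    · simp [h]
  have ht : 0 ≤ (if π F.1 F.2 = F then be σ Γ f F ^ 2 else 0) := by split_ifs <;> positivity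
  generalize (if π F.1 F.2 = F then be σ Γ f F ^ 2 else 0) = t at *
  have hY : 0 ≤ ∑ b ∈ range Γ.N, ∫ x, ι F b (Γ.idx b x) * G b x ^ 2 ∂w :=
    Finset.sum_nonneg fun b _ => integral_nonneg fun x => mul_nonneg (hι0 _ _) (sq_nonneg _)
  rcases ht.eq_or_lt with rfl | ht
  · have : ∀ b k, l F b k = 0 := fun b k => by simpa using hl2 b k
    simp only [this, zero_mul, mul_zero, integral_zero, Finset.sum_const_zero, abs_zero]
    positivity
  rw [← integral_finsetSum _ fun b hb => ((hT F).mul (hM F b (Finset.mem_range.1 hb)).1).int]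
  simp only [← Finset.mul_sum]
  refine (amgm (hT F) (Bm.sum _ fun b hb => (hM F b (Finset.mem_range.1 hb)).1) ht).trans
    (add_le_add ?_ ?_)
  · rw [mul_left_comm]
    refine mul_le_mul_of_nonneg_left (H.test _ ?_ _) ht.le
    simp only [hS, Finset.mem_product, Finset.mem_range] at hF
    omega
  · rw [Grid.pyth_sum le_rfl (hM F) fun b hb x hx x' hx' e => by
      rw [h1 b hb x hx x' hx' e, Γ.idx_succ hb, Γ.idx_succ hb, e], inv_mul_le_iff₀ ht,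
      Finset.mul_sum, Finset.mul_sum]
    refine Finset.sum_le_sum fun b hb => ?_
    have hb := Finset.mem_range.1 hb
    rw [← integral_const_mul, ← integral_const_mul]
    refine integral_mono (hM F b hb).1.sq.int
      ((((Γ.Bm_idx b (ι F b)).mul (h0 b hb).1.sq).cmul _).cmul _).int fun x => ?_
    simp only [mul_pow]
    exact (mul_le_mul_of_nonneg_right (hl2 b _) (sq_nonneg _)).trans (le_of_eq (by ring))

lemma Hyp.near (H : Hyp Γ σ w κ good ω r q C) {φ : X → ℝ} (hφ : Bm φ) {c d : ℕ} (hcd : c ≤ d)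
    (hd : d ≤ Γ.N) (hr : d ≤ c + r + 1) (hc : Γ.Cst d φ) (m : ℕ) :
    ∫ x, T σ κ (fun y => φ y * ch (Γ.Box c m) y) x ^ 2 ∂w ≤
      (2 * C + 2 * 2 ^ (r + 1) * C) * ∫ y, ch (Γ.Box c m) y * φ y ^ 2 ∂σ := by
  classical
  set v : ℕ → ℝ := fun j => if h : (Γ.Box d j).Nonempty then φ h.some else 0 with hv
  set S := Finset.Ico (m * 2 ^ (d - c)) ((m + 1) * 2 ^ (d - c)) with hS
  have key : ∀ (h : ℝ → ℝ) (y : X), ∑ j ∈ S, h (v j) * ch (Γ.Box d j) y =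
      h (φ y) * ch (Γ.Box c m) y * ch (Γ.A d) y := by
    intro h y
    by_cases hy : y ∈ Γ.A d
    swap
    · rw [ch_of_not hy, mul_zero]
      exact Finset.sum_eq_zero fun j _ => by rw [ch_of_not fun h => hy h.1, mul_zero]
    have hne : (Γ.Box d (Γ.idx d y)).Nonempty := ⟨y, hy, rfl⟩
    have e : Γ.idx d y ∈ S ↔ y ∈ Γ.Box c m := by
      simp only [hS, Finset.mem_Ico, Grid.Box, Set.mem_ofPred_eq, Γ.anti hcd hy, true_and,
        Γ.idx_div hcd hd]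
      rw [← Nat.le_div_iff_mul_le (by positivity), ← Nat.div_lt_iff_lt_mul (by positivity)]
      omega
    by_cases hy' : y ∈ Γ.Box c m
    · rw [Finset.sum_eq_single_of_mem (Γ.idx d y) (e.2 hy') fun j _ hj => by
        rw [ch_of_not fun h => hj h.2.symm, mul_zero], ch_of_mem hy', ch_of_mem hy,
        ch_of_mem (S := Γ.Box d _) ⟨hy, rfl⟩, hc y hy _ hne.some_mem.1 hne.some_mem.2.symm]
      simp only [hv, dif_pos hne, mul_one]
    · rw [ch_of_not hy', mul_zero, zero_mul]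
      refine Finset.sum_eq_zero fun j hj => ?_
      rw [ch_of_not (S := Γ.Box d j) fun h => hy' (e.1 (h.2 ▸ hj)), mul_zero]
  have hB := hφ.mul (Γ.bBox c m)
  have hφ1 := hB.mul ((Bm.const 1).sub (Bm_ch (Γ.mA d)))
  have e1 : (fun y => φ y * ch (Γ.Box c m) y) = fun y =>
      φ y * ch (Γ.Box c m) y * (1 - ch (Γ.A d) y) + ∑ j ∈ S, v j * ch (Γ.Box d j) y := by
    funext y
    have := key id y
    simp only [id] at this
    rw [this]
    ring
  have hT := fun j => T_bm (σ := σ) H.kb (Γ.bBox d j)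
  have hC := H.C0
  have h1 := H.top c m d _ hr hd hφ1 fun y hy => ⟨by
    by_contra h
    simp [ch_of_not h] at hy, fun h => by simp [ch_of_mem h] at hy⟩
  have h2 : ∫ y, (φ y * ch (Γ.Box c m) y * (1 - ch (Γ.A d) y)) ^ 2 ∂σ ≤
      ∫ y, ch (Γ.Box c m) y * φ y ^ 2 ∂σ := by
    refine integral_mono hφ1.sq.int ((Γ.bBox c m).mul hφ.sq).int fun y => ?_
    simp only [mul_pow, ch_sq]
    have := mul_nonneg (ch_nonneg (Γ.Box c m) y) (sq_nonneg (φ y))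
    by_cases hy : y ∈ Γ.A d
    · simpa [ch_of_mem hy] using this
    · simp [ch_of_not hy, mul_comm]
  have h3 : ∑ j ∈ S, v j ^ 2 * ∫ y, ch (Γ.Box d j) y ∂σ ≤ ∫ y, ch (Γ.Box c m) y * φ y ^ 2 ∂σ := by
    simp only [← integral_const_mul]
    rw [← integral_finsetSum _ fun j _ => ((Γ.bBox d j).cmul _).int]
    refine integral_mono (Bm.sum _ fun j _ => (Γ.bBox d j).cmul _).int
      ((Γ.bBox c m).mul hφ.sq).int fun y => ?_
    simp only [key (· ^ 2) y]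
    rw [mul_comm (φ y ^ 2)]
    exact mul_le_of_le_one_right (mul_nonneg (ch_nonneg _ y) (sq_nonneg _)) (ch_le _ _)
  have h4 : (S.card : ℝ) ≤ 2 ^ (r + 1) := by
    rw [hS, Nat.card_Ico, add_mul, one_mul, Nat.add_sub_cancel_left]
    push_cast
    exact pow_le_pow_right₀ one_le_two (by omega)
  have h5 : ∑ j ∈ S, v j ^ 2 * ∫ x, T σ κ (ch (Γ.Box d j)) x ^ 2 ∂w ≤
      C * ∫ y, ch (Γ.Box c m) y * φ y ^ 2 ∂σ := by
    refine le_trans ?_ (mul_le_mul_of_nonneg_left h3 hC.le)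
    rw [Finset.mul_sum]
    refine Finset.sum_le_sum fun j _ => ?_
    rw [mul_left_comm]
    exact mul_le_mul_of_nonneg_left (H.test d hd j) (sq_nonneg _)
  have h6 : ∫ x, T σ κ (fun y => φ y * ch (Γ.Box c m) y) x ^ 2 ∂w ≤
      2 * ∫ x, T σ κ (fun y => φ y * ch (Γ.Box c m) y * (1 - ch (Γ.A d) y)) x ^ 2 ∂w +
      2 * 2 ^ (r + 1) * ∑ j ∈ S, v j ^ 2 * ∫ x, T σ κ (ch (Γ.Box d j)) x ^ 2 ∂w := by
    have i1 := (T_bm (σ := σ) H.kb hφ1).sq.cmul 2
    have i2 := Bm.sum S fun j _ => (hT j).sq.cmul (v j ^ 2)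
    simp only [← integral_const_mul]
    rw [← integral_finsetSum _ fun j _ => ((hT j).sq.cmul _).int, ← integral_const_mul,
      ← integral_add i1.int (i2.cmul _).int]
    refine integral_mono (T_bm H.kb hB).sq.int (i1.add (i2.cmul _)).int fun x => ?_
    simp only
    rw [e1, T_add H.kb hφ1 (Bm.sum _ fun j _ => (Γ.bBox d j).cmul _),
      T_sum H.kb _ fun j _ => (Γ.bBox d j).cmul _]
    simp only [T_cmul, ← mul_pow]
    refine add_sq_le.trans ?_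
    rw [mul_add, mul_assoc]
    refine add_le_add le_rfl (mul_le_mul_of_nonneg_left (sq_sum_le_card_mul_sum_sq.trans
      (mul_le_mul_of_nonneg_right h4 (Finset.sum_nonneg fun _ _ => sq_nonneg _))) zero_le_two)
  have h7 := mul_le_mul_of_nonneg_left h5 (show (0 : ℝ) ≤ 2 * 2 ^ (r + 1) by positivity)
  have h8 := mul_le_mul_of_nonneg_left h2 hC.le
  linarith

lemma Hyp.band (H : Hyp Γ σ w κ good ω r q C) {φ G : X → ℝ} (hφ : Bm φ) {b d : ℕ} (hb : b < Γ.N)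
    (hbd : b ≤ d) (hd : d ≤ b + 1) (hc : Γ.Cst d φ) (h0 : ∀ y ∉ Γ.A (b - r), φ y = 0)
    (hG : Γ.M0 w b G) (hg : ∀ x, G x ≠ 0 → good b (Γ.idx b x)) :
    |∫ x, T σ κ φ x * G x ∂w| ≤ (C * C + (2 * C + 2 * 2 ^ (r + 1) * C)) * ∫ y, φ y ^ 2 ∂σ +
      (C + 1) * ∫ x, G x ^ 2 ∂w := by
  set c := b - r with hc'
  have b1 := fun m => hφ.mul (Γ.bBox c m)
  have b2 := fun m => hφ.mul ((Bm.const 1).sub (Γ.bBox c m))
  have t1 := (Γ.Bm_idx2 c fun m => T_bm (σ := σ) H.kb (b1 m)).mul (Bm_ch (Γ.mA c))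
  have t2 := Γ.Bm_idx2 c fun m => T_bm (σ := σ) H.kb (b2 m)
  have e : ∀ x, T σ κ φ x * G x =
      T σ κ (fun y => φ y * ch (Γ.Box c (Γ.idx c x)) y) x * ch (Γ.A c) x * G x +
      T σ κ (fun y => φ y * (1 - ch (Γ.Box c (Γ.idx c x)) y)) x * G x := by
    intro x
    by_cases hx : x ∈ Γ.A b
    · rw [ch_of_mem (Γ.anti (Nat.sub_le b r) hx), mul_one, ← add_mul, ← T_add H.kb (b1 _) (b2 _)]
      congr 2
      funext y
      ring
    · simp [hG.2.1 x hx]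
  simp only [e]
  rw [integral_add (t1.mul hG.1).int (t2.mul hG.1).int]
  have hC := H.C0
  have h1 := amgm (μ := w) t1 hG.1 one_pos
  have h2 := H.far (a := c) (by omega) hb hG hg b2 fun m y hy => by simp [ch_of_mem hy]
  have h3 : ∫ x, (T σ κ (fun y => φ y * ch (Γ.Box c (Γ.idx c x)) y) x * ch (Γ.A c) x) ^ 2 ∂w ≤
      (2 * C + 2 * 2 ^ (r + 1) * C) * ∫ y, φ y ^ 2 ∂σ := by
    have e1 : ∫ y, φ y ^ 2 ∂σ = ∑ m ∈ range (2 ^ Γ.N), ∫ y, ch (Γ.Box c m) y * φ y ^ 2 ∂σ := by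
      have := Γ.int_ch (μ := σ) c (fun _ => 1) hφ.sq
      simp only [one_mul] at this
      rw [← this]
      refine integral_congr_ae (Eventually.of_forall fun y => ?_)
      by_cases hy : y ∈ Γ.A c
      · simp [ch_of_mem hy]
      · simp [h0 y hy]
    rw [e1, Finset.mul_sum]
    refine le_trans ?_ (Finset.sum_le_sum fun m _ => H.near hφ (c := c) (by omega) (by omega)
      (by omega) hc m)
    rw [← integral_finsetSum _ fun m _ => (T_bm H.kb (b1 m)).sq.int]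
    refine integral_mono t1.sq.int (Bm.sum _ fun m _ => (T_bm H.kb (b1 m)).sq).int fun x => ?_
    simp only [mul_pow, ch_sq]
    refine (mul_le_of_le_one_right (sq_nonneg _) (ch_le _ _)).trans ?_
    exact Finset.single_le_sum (f := fun m => T σ κ (fun y => φ y * ch (Γ.Box c m) y) x ^ 2)
      (fun _ _ => sq_nonneg _) (Finset.mem_range.2 (Γ.idx_lt c x))
  have h4 : ∫ x, (pv σ ω c (Γ.idx c x) (fun y => φ y * (1 - ch (Γ.Box c (Γ.idx c x)) y)) *
      ch (Γ.A c) x) ^ 2 ∂w ≤ C * ∫ y, φ y ^ 2 ∂σ := by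
    refine le_trans ?_ (H.pv_sq hφ (a := c) (by omega))
    simp only [mul_pow, ch_sq]
    rw [Γ.int_ch1 _ fun m => pv σ ω c m (fun y => φ y * (1 - ch (Γ.Box c m) y)) ^ 2]
    refine Finset.sum_le_sum fun m _ => mul_le_mul_of_nonneg_right
      (pow_le_pow_left₀ (H.pv_nonneg _ _ _) ?_ 2) (ms_nonneg _ _)
    refine integral_mono ((H.ωb _ _).mul (b2 m).abs).int ((H.ωb _ _).mul hφ.abs).int fun y => ?_
    refine mul_le_mul_of_nonneg_left ?_ (H.ω0 _ _ _)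
    by_cases hy : y ∈ Γ.Box c m
    · simp [ch_of_mem hy]
    · simp [ch_of_not hy]
  have h5 : q ^ (b - c) ≤ 1 := pow_le_one₀ H.q0 H.q1.le
  have g0 : 0 ≤ ∫ x, G x ^ 2 ∂w := integral_nonneg fun _ => sq_nonneg _
  have g1 : 0 ≤ ∫ x, φ x ^ 2 ∂σ := integral_nonneg fun _ => sq_nonneg _
  have h6 := h2.trans (mul_le_mul (mul_le_of_le_one_right hC.le h5) (add_le_add h4 le_rfl)
    (add_nonneg (integral_nonneg fun _ => sq_nonneg _) g0) hC.le)
  refine (abs_add_le _ _).trans ?_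
  simp only [one_mul, inv_one] at h1
  linarith

lemma geo_sum {q : ℝ} (h0 : 0 ≤ q) (h1 : q < 1) {u v : ℕ → ℝ} (hu : ∀ a, 0 ≤ u a)
    (hv : ∀ a, 0 ≤ v a) (N : ℕ) : ∑ b ∈ range N, ∑ a ∈ range b, q ^ (b - (a + 1)) * (u a + v b) ≤
      (1 - q)⁻¹ * (∑ a ∈ range N, u a + ∑ b ∈ range N, v b) := by
  have g : ∀ n, ∑ i ∈ range n, q ^ i ≤ (1 - q)⁻¹ := fun n => by
    rw [← tsum_geometric_of_lt_one h0 h1]
    exact (summable_geometric_of_lt_one h0 h1).sum_le_tsum _ fun _ _ => pow_nonneg h0 _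
  simp only [mul_add, Finset.sum_add_distrib, Finset.mul_sum]
  refine add_le_add ?_ (Finset.sum_le_sum fun b _ => ?_)
  · simp only [Finset.range_eq_Ico]
    rw [← Finset.sum_Ico_Ico_comm' 0 N fun a b => q ^ (b - (a + 1)) * u a]
    refine Finset.sum_le_sum fun a _ => ?_
    rw [← Finset.sum_mul, Finset.sum_Ico_eq_sum_range]
    simp only [Nat.add_sub_cancel_left]
    exact mul_le_mul_of_nonneg_right (g _) (hu a)
  · rw [← Finset.sum_mul]
    refine mul_le_mul_of_nonneg_right (le_trans (le_of_eq ?_) (g b)) (hv b)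
    rw [← Finset.sum_range_reflect]
    refine Finset.sum_congr rfl fun i hi => ?_
    have := Finset.mem_range.1 hi
    congr 1
    omega

lemma shift_sum {n : ℕ → ℝ} {F : ℝ} (h0 : ∀ a, 0 ≤ n a) (h1 : ∀ a, n a ≤ F) (N r : ℕ) :
    ∑ b ∈ range N, n (b + 1) ≤ ∑ b ∈ range N, n (b - r) + (r + 1) * F := by
  have e1 := Finset.sum_range_add (fun b => n (b - r)) (r + 1) N
  have e2 := Finset.sum_range_add (fun b => n (b - r)) N (r + 1)
  have e3 : ∀ b, r + 1 + b - r = b + 1 := fun b => by omega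
  simp only [e3] at e1
  rw [add_comm N, e1] at e2
  have h2 : 0 ≤ ∑ b ∈ range (r + 1), n (b - r) := Finset.sum_nonneg fun _ _ => h0 _
  have h3 := Finset.sum_le_card_nsmul (range (r + 1)) (fun b => n (N + b - r)) F fun _ _ => h1 _
  simp only [card_range, nsmul_eq_mul, Nat.cast_add, Nat.cast_one] at h3
  linarith

/-- the constant of the main estimate -/
noncomputable def Cm (r : ℕ) (q C : ℝ) : ℝ := (17 + C + C * (1 - q)⁻¹) +
  (16 * C + C * (1 - q)⁻¹ * (546 * C) + (C * C + (2 * C + 2 * 2 ^ (r + 1) * C)) * (r + 1))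

theorem Hyp.main (H : Hyp Γ σ w κ good ω r q C) {f : X → ℝ} (hf : Bm f) {G : ℕ → X → ℝ}
    (h0 : ∀ b < Γ.N, Γ.M0 w b (G b)) (h1 : ∀ b < Γ.N, Γ.Cst (b + 1) (G b))
    (hg : ∀ b x, G b x ≠ 0 → good b (Γ.idx b x)) {e : ℕ} (he : e ≤ 1) :
    |∑ b ∈ range Γ.N, ∫ x, T σ κ (Γ.Ex σ f (b + e)) x * G b x ∂w| ≤
      Cm r q C * (∫ y, f y ^ 2 ∂σ + ∑ b ∈ range Γ.N, ∫ x, G b x ^ 2 ∂w) := by
  have hE := fun a => Γ.Ex_bm (μ := σ) hf a
  have hP := fun b => (Γ.Bm_idx (b - r) fun m => avg σ f (Γ.Box (b - r) m)).mul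
    (Γ.Bm_idx2 (b - r) fun m => T_bm (σ := σ) H.kb
      (Γ.bBox (par σ w Γ ω C f (b - r) m).1 (par σ w Γ ω C f (b - r) m).2))
  have hD := fun a => Γ.Bm_idx2 (a + 1) fun m => T_bm (σ := σ) H.kb
    (ph_bm (σ := σ) (w := w) (Γ := Γ) (ω := ω) (C := C) hf a m)
  have e1 : ∀ b ∈ range Γ.N, ∫ x, T σ κ (Γ.Ex σ f (b + e)) x * G b x ∂w =
      ∫ x, avg σ f (Γ.Box (b - r) (Γ.idx (b - r) x)) *
      T σ κ (ch (Γ.Box (par σ w Γ ω C f (b - r) (Γ.idx (b - r) x)).1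
        (par σ w Γ ω C f (b - r) (Γ.idx (b - r) x)).2)) x * G b x ∂w +
      (∑ a ∈ range (b - r), ∫ x, T σ κ (ph σ w Γ ω C f a (Γ.idx (a + 1) x)) x * G b x ∂w +
      ∫ x, T σ κ (fun y => Γ.Ex σ f (b + e) y - Γ.Ex σ f (b - r) y) x * G b x ∂w) := by
    intro b hb
    have hb := Finset.mem_range.1 hb
    have hG := (h0 b hb).1
    have i1 := Bm.sum (range (b - r)) fun a _ => (hD a).mul hG
    have i2 := (T_bm (σ := σ) H.kb ((hE (b + e)).sub (hE (b - r)))).mul hG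
    rw [← integral_finsetSum _ fun a _ => ((hD a).mul hG).int, ← integral_add i1.int i2.int,
      ← integral_add ((hP b).mul hG).int (i1.add i2).int]
    refine integral_congr_ae (Eventually.of_forall fun x => ?_)
    simp only
    rw [← Finset.sum_mul, ← add_mul, ← add_mul, ← T_cmul, ← T_sum H.kb _ fun a _ => ph_bm hf a _,
      ← add_assoc, ← T_add H.kb ((Γ.bBox _ _).cmul _) (Bm.sum _ fun a _ => ph_bm hf a _),
      ← funext fun y => decomp f x y (b - r) (by omega),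
      ← T_add H.kb (hE _) ((hE _).sub (hE _))]
    simp
  rw [Finset.sum_congr rfl e1, Finset.sum_add_distrib, Finset.sum_add_distrib]
  have hC := H.C0
  have hq : 0 < (1 - q)⁻¹ := inv_pos.2 (sub_pos.2 H.q1)
  have s1 := H.Sg_le hf
  have s2 := H.Xi_le f
  have p1 := H.para f h0 h1
  set u : ℕ → ℝ := fun a => ∫ x, (pv σ ω (a + 1) (Γ.idx (a + 1) x)
    (ph σ w Γ ω C f a (Γ.idx (a + 1) x)) * ch (Γ.A (a + 1)) x) ^ 2 ∂w with hu
  have u0 : ∀ a, 0 ≤ u a := fun a => integral_nonneg fun _ => sq_nonneg _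
  have g0 : ∀ b, 0 ≤ ∫ x, G b x ^ 2 ∂w := fun b => integral_nonneg fun _ => sq_nonneg _
  have p2 : |∑ b ∈ range Γ.N, ∑ a ∈ range (b - r),
      ∫ x, T σ κ (ph σ w Γ ω C f a (Γ.idx (a + 1) x)) x * G b x ∂w| ≤
      C * ((1 - q)⁻¹ * (∑ a ∈ range Γ.N, u a + ∑ b ∈ range Γ.N, ∫ x, G b x ^ 2 ∂w)) := by
    refine le_trans ?_ (mul_le_mul_of_nonneg_left (geo_sum H.q0 H.q1 u0 g0 Γ.N) hC.le)
    rw [Finset.mul_sum]
    refine (Finset.abs_sum_le_sum_abs _ _).trans (Finset.sum_le_sum fun b hb => ?_)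
    have hb := Finset.mem_range.1 hb
    rw [Finset.mul_sum]
    refine (Finset.abs_sum_le_sum_abs _ _).trans ((Finset.sum_le_sum fun a ha => ?_).trans
      (Finset.sum_le_sum_of_subset_of_nonneg (Finset.range_mono (Nat.sub_le b r)) fun a _ _ =>
        mul_nonneg hC.le (mul_nonneg (pow_nonneg H.q0 _) (add_nonneg (u0 a) (g0 b)))))
    have ha := Finset.mem_range.1 ha
    rw [← mul_assoc]
    refine H.far (a := a + 1) (by omega) hb (h0 b hb) (hg b) (ph_bm hf a) fun m y hy => ?_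
    rw [ph, ch_of_mem hy, ch_of_mem (box_par f (by omega) hy), sub_self, mul_zero, mul_zero,
      add_zero]
  have p3 : ∑ a ∈ range Γ.N, u a ≤ 34 * C * ∫ y, f y ^ 2 ∂σ + 32 * (C * (16 * ∫ y, f y ^ 2 ∂σ)) := by
    refine (Finset.sum_le_sum fun a ha => H.ph_le hf (Finset.mem_range.1 ha)).trans ?_
    rw [Finset.sum_add_distrib, ← Finset.mul_sum, ← Finset.mul_sum]
    exact add_le_add (mul_le_mul_of_nonneg_left (Γ.Ex_diff_sum hf) (by positivity))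
      (mul_le_mul_of_nonneg_left (s2.trans (mul_le_mul_of_nonneg_left s1 hC.le)) (by norm_num))
  have p4 : |∑ b ∈ range Γ.N, ∫ x, T σ κ (fun y => Γ.Ex σ f (b + e) y - Γ.Ex σ f (b - r) y) x *
      G b x ∂w| ≤ (C * C + (2 * C + 2 * 2 ^ (r + 1) * C)) * ((r + 1) * ∫ y, f y ^ 2 ∂σ) +
      (C + 1) * ∑ b ∈ range Γ.N, ∫ x, G b x ^ 2 ∂w := by
    have h2 : ∑ b ∈ range Γ.N, ∫ y, (Γ.Ex σ f (b + e) y - Γ.Ex σ f (b - r) y) ^ 2 ∂σ ≤
        (r + 1) * ∫ y, f y ^ 2 ∂σ := by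
      have := shift_sum (n := fun a => ∫ y, Γ.Ex σ f a y ^ 2 ∂σ)
        (fun a => integral_nonneg fun _ => sq_nonneg _) (Γ.Ex_sq_le hf) Γ.N r
      rw [← sub_le_iff_le_add', ← Finset.sum_sub_distrib] at this
      refine le_trans (Finset.sum_le_sum fun b hb => ?_) this
      have hb := Finset.mem_range.1 hb
      rw [Γ.Ex_diff_sq hf (by omega) (by omega)]
      have h3 := Γ.Ex_diff_sq (μ := σ) hf (a := b + e) (b := b + 1) (by omega) hb
      have h4 : 0 ≤ ∫ y, (Γ.Ex σ f (b + 1) y - Γ.Ex σ f (b + e) y) ^ 2 ∂σ :=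
        integral_nonneg fun _ => sq_nonneg _
      linarith
    refine le_trans ?_ (add_le_add (mul_le_mul_of_nonneg_left h2 (by positivity)) le_rfl)
    rw [Finset.mul_sum, Finset.mul_sum, ← Finset.sum_add_distrib]
    refine (Finset.abs_sum_le_sum_abs _ _).trans (Finset.sum_le_sum fun b hb => ?_)
    have hb := Finset.mem_range.1 hb
    refine H.band ((hE _).sub (hE _)) hb (d := b + e) (by omega) (by omega)
      (fun x hx x' hx' e' => ?_) (Γ.Ex_diff hf (by omega) (by omega)).2.1 (h0 b hb) (hg b)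
    rw [Γ.Ex_cst f _ x hx x' hx' e',
      (Γ.Ex_cst f (b - r)).mono (by omega) (by omega) x hx x' hx' e']
  have f0 : 0 ≤ ∫ y, f y ^ 2 ∂σ := integral_nonneg fun _ => sq_nonneg _
  have g1 : 0 ≤ ∑ b ∈ range Γ.N, ∫ x, G b x ^ 2 ∂w := Finset.sum_nonneg fun b _ => g0 b
  refine (abs_add_le _ _).trans ((add_le_add le_rfl (abs_add_le _ _)).trans ?_)
  have p5 := p2.trans (mul_le_mul_of_nonneg_left (mul_le_mul_of_nonneg_left
    (add_le_add p3 le_rfl) hq.le) hC.le)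
  have p6 := mul_le_mul_of_nonneg_left s1 hC.le
  have p7 : 0 ≤ (17 + C + C * (1 - q)⁻¹) * ∫ y, f y ^ 2 ∂σ := by positivity
  have p8 : 0 ≤ (16 * C + C * (1 - q)⁻¹ * (546 * C) + (C * C + (2 * C + 2 * 2 ^ (r + 1) * C)) *
      (r + 1)) * ∑ b ∈ range Γ.N, ∫ x, G b x ^ 2 ∂w := by positivity
  unfold Cm
  linarith

end Pool.Agent.H103Z.Bg
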