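import Mathlib
import Pool.Agent.H103Z.BgMain

set_option autoImplicit false
open MeasureTheory Filter Set Finset

namespace Pool.Agent.H103Z.Bg

variable {X : Type*} [MeasurableSpace X]

/-- the grid rotated by `n` steps -/
def Grid.rot (Γ : Grid X) (n : ℕ) : Grid X where
  N := Γ.N
  A := Γ.A
  rel x := (Γ.rel x + n) % 2 ^ Γ.N
  mA := Γ.mA
  mrel := (measurable_from_top (f := fun k : ℕ => (k + n) % 2 ^ Γ.N)).comp Γ.mrel
  A0 := Γ.A0
  anti := Γ.anti
  rel_lt _ := Nat.mod_lt _ (by positivity)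

variable (Γ : Grid X)

lemma rot_per (n : ℕ) : Γ.rot (n + 2 ^ Γ.N) = Γ.rot n := by
  simp only [Grid.rot, ← add_assoc, Nat.add_mod_right]

lemma rot_idx (n : ℕ) {d : ℕ} (hd : d ≤ Γ.N) (x : X) :
    (Γ.rot n).idx d x = (Γ.rel x + n) / 2 ^ (Γ.N - d) % 2 ^ d := by
  rw [← Nat.mod_mul_right_div_self, ← pow_add, Nat.sub_add_cancel hd]
  rfl

lemma Grid.idx_lt' {d : ℕ} (hd : d ≤ Γ.N) (x : X) : Γ.idx d x < 2 ^ d := by
  unfold Grid.idx
  rw [Nat.div_lt_iff_lt_mul (by positivity), ← pow_add, Nat.add_sub_cancel' hd]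
  exact Γ.rel_lt x

lemma rot_shift (n i : ℕ) {d : ℕ} (hd : d ≤ Γ.N) (x : X) :
    (Γ.rot (n + i * 2 ^ (Γ.N - d))).idx d x = ((Γ.rot n).idx d x + i) % 2 ^ d := by
  rw [rot_idx Γ _ hd, rot_idx Γ _ hd, ← add_assoc, Nat.add_mul_div_right _ _ (by positivity),
    Nat.mod_add_mod]

lemma rot_box (n i : ℕ) {d k : ℕ} (hd : d ≤ Γ.N) (hk : k < 2 ^ d) :
    (Γ.rot (n + i * 2 ^ (Γ.N - d))).Box d ((k + i) % 2 ^ d) = (Γ.rot n).Box d k := by
  ext y
  refine and_congr_right fun _ => ?_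
  rw [rot_shift Γ n i hd]
  refine ⟨fun h => ?_, fun h => by rw [h]⟩
  exact Nat.ModEq.eq_of_lt_of_lt (Nat.ModEq.add_right_cancel' i h) ((Γ.rot n).idx_lt' hd y) hk

lemma rot_Ex (μ : Measure X) (f : X → ℝ) (n i : ℕ) {b d : ℕ} (hb : b ≤ d) (hd : d ≤ Γ.N) :
    (Γ.rot (n + i * 2 ^ (Γ.N - b))).Ex μ f d = (Γ.rot n).Ex μ f d := by
  have e : i * 2 ^ (Γ.N - b) = i * 2 ^ (d - b) * 2 ^ (Γ.N - d) := by
    rw [mul_assoc, ← pow_add]
    congr 2
    omega
  funext x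
  unfold Grid.Ex
  rw [e, rot_shift Γ n _ hd, rot_box Γ n _ hd ((Γ.rot n).idx_lt' hd x)]
  rfl

lemma sum_per {Y : ℕ → ℝ} {P : ℕ} (h : ∀ n, Y (n + P) = Y n) (c : ℕ) :
    ∑ n ∈ range P, Y (n + c) = ∑ n ∈ range P, Y n := by
  induction c with
  | zero => rfl
  | succ c ih =>
    have e1 := Finset.sum_range_succ (fun n => Y (n + c)) P
    have e2 := Finset.sum_range_succ' (fun n => Y (n + c)) P
    rw [add_comm P c, h] at e1
    simp only [zero_add, add_assoc, add_comm 1 c] at e2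
    linarith

variable {σ w : Measure X} [IsFiniteMeasure σ] [IsFiniteMeasure w] {κ : X → X → ℝ}
variable {Γ} {good : ℕ → ℕ → Prop} [∀ b, DecidablePred (good b)] {ω ω' : ℕ → ℕ → ℕ → X → ℝ}
  {r : ℕ} {q C : ℝ}

lemma avg_main (H : ∀ n, Hyp (Γ.rot n) σ w κ good (ω n) r q C)
    (hgood : ∀ b, 2 ^ b ≤ 2 * ((range (2 ^ b)).filter (good b)).card) {f g : X → ℝ} (hf : Bm f)
    (hg : Bm g) {e : ℕ} (he : e ≤ 1) :
    |∑ n ∈ range (2 ^ Γ.N), ∑ b ∈ range Γ.N, ∫ x, T σ κ ((Γ.rot n).Ex σ f (b + e)) x *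
      ((Γ.rot n).Ex w g (b + 1) x - (Γ.rot n).Ex w g b x) ∂w| ≤
      2 ^ Γ.N * (Cm r q C * (∫ y, f y ^ 2 ∂σ + 4 * ∫ x, g x ^ 2 ∂w)) := by
  set c : ℕ → ℕ → ℝ := fun b k =>
    if good b k then 2 ^ b / ((range (2 ^ b)).filter (good b)).card else 0 with hc
  set D : ℕ → ℕ → X → ℝ := fun n b x => (Γ.rot n).Ex w g (b + 1) x - (Γ.rot n).Ex w g b x with hD
  have hM : ∀ n, ∀ b < Γ.N, (Γ.rot n).M0 w b (D n b) := fun n b hb =>
    (Γ.rot n).Ex_diff hg (Nat.le_succ b) hb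
  have hT := fun n b => T_bm (σ := σ) (H n).kb ((Γ.rot n).Ex_bm (μ := σ) hf (b + e))
  set Y : ℕ → ℕ → ℕ → ℝ := fun n b k => ∫ x, T σ κ ((Γ.rot n).Ex σ f (b + e)) x *
    (ch ((Γ.rot n).Box b k) x * D n b x) ∂w with hY
  have e1 : ∀ n, ∀ b < Γ.N, ∀ l : ℕ → ℝ, ∫ x, T σ κ ((Γ.rot n).Ex σ f (b + e)) x *
      (l ((Γ.rot n).idx b x) * D n b x) ∂w = ∑ k ∈ range (2 ^ b), l k * Y n b k := by
    intro n b hb l
    simp only [hY, ← integral_const_mul]
    rw [← integral_finsetSum _ fun k _ =>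
      (((hT n b).mul (((Γ.rot n).bBox b k).mul (hM n b hb).1)).cmul _).int]
    refine integral_congr_ae (Eventually.of_forall fun x => ?_)
    simp only
    rw [Finset.sum_eq_single_of_mem _ (Finset.mem_range.2 ((Γ.rot n).idx_lt' hb.le x))
      fun k _ hk => by rw [ch_of_not fun h => hk h.2.symm]; simp]
    by_cases hx : x ∈ Γ.A b
    · rw [ch_of_mem (S := (Γ.rot n).Box b _) ⟨hx, rfl⟩]
      ring
    · simp [(hM n b hb).2.1 x hx]
  have e2 : ∀ b < Γ.N, ∀ k < 2 ^ b,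
      ∑ n ∈ range (2 ^ Γ.N), Y n b k = ∑ n ∈ range (2 ^ Γ.N), Y n b 0 := by
    intro b hb k hk
    rw [← sum_per (Y := fun n => Y n b 0) (fun n => by simp only [hY, hD, rot_per])
      ((2 ^ b - k) * 2 ^ (Γ.N - b))]
    refine Finset.sum_congr rfl fun n _ => ?_
    have h1 := rot_box Γ n (2 ^ b - k) hb.le hk
    rw [Nat.add_sub_cancel' hk.le, Nat.mod_self] at h1
    simp only [hY, hD]
    rw [h1, rot_Ex Γ σ f n _ (Nat.le_add_right b e) (by omega), rot_Ex Γ w g n _ (Nat.le_succ b) hb,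
      rot_Ex Γ w g n _ le_rfl hb.le]
  have hcard : ∀ b, (0 : ℝ) < ((range (2 ^ b)).filter (good b)).card := fun b => by
    have h1 := hgood b
    have h2 : 0 < 2 ^ b := by positivity
    exact_mod_cast (by omega : 0 < ((range (2 ^ b)).filter (good b)).card)
  have e3 : ∑ n ∈ range (2 ^ Γ.N), ∑ b ∈ range Γ.N, ∫ x, T σ κ ((Γ.rot n).Ex σ f (b + e)) x *
      D n b x ∂w = ∑ n ∈ range (2 ^ Γ.N), ∑ b ∈ range Γ.N,
      ∫ x, T σ κ ((Γ.rot n).Ex σ f (b + e)) x * (c b ((Γ.rot n).idx b x) * D n b x) ∂w := by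
    rw [Finset.sum_comm, Finset.sum_comm (s := range (2 ^ Γ.N))]
    refine Finset.sum_congr rfl fun b hb => ?_
    have hb := Finset.mem_range.1 hb
    have h1 := fun n => e1 n b hb fun _ => 1
    simp only [one_mul] at h1
    simp only [h1, e1 _ b hb (c b)]
    rw [Finset.sum_comm, Finset.sum_comm (s := range (2 ^ Γ.N))]
    simp only [← Finset.mul_sum]
    have e4 : ∑ k ∈ range (2 ^ b), c b k * ∑ n ∈ range (2 ^ Γ.N), Y n b k =
        ∑ k ∈ range (2 ^ b), c b k * ∑ n ∈ range (2 ^ Γ.N), Y n b 0 :=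
      Finset.sum_congr rfl fun k hk => by rw [e2 b hb k (Finset.mem_range.1 hk)]
    rw [Finset.sum_congr rfl fun k hk => e2 b hb k (Finset.mem_range.1 hk), e4, ← Finset.sum_mul]
    simp only [hc]
    rw [← Finset.sum_filter, Finset.sum_const, Finset.sum_const, nsmul_eq_mul, nsmul_eq_mul,
      mul_div_cancel₀ _ (hcard b).ne']
    simp
  rw [e3]
  refine (Finset.abs_sum_le_sum_abs _ _).trans ((Finset.sum_le_card_nsmul _ _
    (Cm r q C * (∫ y, f y ^ 2 ∂σ + 4 * ∫ x, g x ^ 2 ∂w)) fun n _ => ?_).trans (le_of_eq (by simp)))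
  have hC := (H n).C0
  have hq : 0 < (1 - q)⁻¹ := inv_pos.2 (sub_pos.2 (H n).q1)
  refine ((H n).main hf (G := fun b x => c b ((Γ.rot n).idx b x) * D n b x)
    (fun b hb => (hM n b hb).mul (c b)) (fun b hb x hx x' hx' e' => ?_)
    (fun b x hx => ?_) he).trans (mul_le_mul_of_nonneg_left (add_le_add le_rfl ?_)
      (by unfold Cm; positivity))
  · simp only [hD]
    rw [(Γ.rot n).Ex_cst g _ x hx x' hx' e', ((Γ.rot n).Ex_cst g b).mono (Nat.le_succ b) hb x hx x'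
      hx' e', (Γ.rot n).idx_succ hb, (Γ.rot n).idx_succ hb, e']
  · by_contra h
    simp [hc, h] at hx
  · refine le_trans ?_ (mul_le_mul_of_nonneg_left ((Γ.rot n).Ex_diff_sum (μ := w) hg) zero_le_four)
    rw [Finset.mul_sum]
    refine Finset.sum_le_sum fun b hb => ?_
    have hb := Finset.mem_range.1 hb
    rw [← integral_const_mul]
    refine integral_mono ((hM n b hb).mul (c b)).1.sq.int ((hM n b hb).1.sq.cmul 4).int fun x => ?_
    simp only [mul_pow]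
    refine mul_le_mul_of_nonneg_right ?_ (sq_nonneg _)
    simp only [hc]
    split_ifs
    · have h1 : (2 : ℝ) ^ b / ((range (2 ^ b)).filter (good b)).card ≤ 2 := by
        rw [div_le_iff₀ (hcard b)]
        exact_mod_cast hgood b
      exact (pow_le_pow_left₀ (by positivity) h1 2).trans (by norm_num)
    · norm_num

lemma T_swap (hκ : Kb κ) {φ ψ : X → ℝ} (hφ : Bm φ) (hψ : Bm ψ) :
    ∫ x, T σ κ φ x * ψ x ∂w = ∫ y, T w (fun y x => κ x y) ψ y * φ y ∂σ := by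
  obtain ⟨hm, C, hC⟩ := hκ
  have h1 : Bm fun p : X × X => κ p.1 p.2 := ⟨hm, C, fun p => hC _ _⟩
  have h2 : Bm fun p : X × X => φ p.2 := ⟨hφ.1.comp measurable_snd, let ⟨C, h⟩ := hφ.2; ⟨C,
    fun p => h _⟩⟩
  have h3 : Bm fun p : X × X => ψ p.1 := ⟨hψ.1.comp measurable_fst, let ⟨C, h⟩ := hψ.2; ⟨C,
    fun p => h _⟩⟩
  simp only [T, ← integral_mul_const]
  rw [integral_integral_swap (f := fun x y => κ x y * φ y * ψ x) ((h1.mul h2).mul h3).int]
  simp only [mul_right_comm]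

theorem bil_bound (H : ∀ n, Hyp (Γ.rot n) σ w κ good (ω n) r q C)
    (H' : ∀ n, Hyp (Γ.rot n) w σ (fun y x => κ x y) good (ω' n) r q C)
    (hgood : ∀ b, 2 ^ b ≤ 2 * ((range (2 ^ b)).filter (good b)).card) {f g : X → ℝ} (hf : Bm f)
    (hg : Bm g) (hf0 : ∀ x ∈ Γ.A Γ.N, f x = 0) (hg0 : ∀ x ∈ Γ.A Γ.N, g x = 0) :
    |∫ x, T σ κ f x * g x ∂w| ≤ (5 * Cm r q C + C + 1) * (∫ y, f y ^ 2 ∂σ + ∫ x, g x ^ 2 ∂w) := by
  have hκ := (H 0).kb
  have hN : ∀ (μ : Measure X) [IsFiniteMeasure μ] {f : X → ℝ}, (∀ x ∈ Γ.A Γ.N, f x = 0) → ∀ n,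
      (Γ.rot n).Ex μ f Γ.N = f := by
    intro μ _ f h n
    funext x
    by_cases hx : x ∈ Γ.A Γ.N
    · rw [(Γ.rot n).Ex_of_mem hx, h x hx, avg, integral_eq_zero_of_ae, zero_div]
      refine Eventually.of_forall fun y => ?_
      by_cases hy : y ∈ Γ.A Γ.N
      · simp [h y hy]
      · simp [ch_of_not (S := (Γ.rot n).Box Γ.N _) fun h => hy h.1]
    · exact (Γ.rot n).Ex_of_not hx
  have e1 : ∀ n, ∫ x, T σ κ f x * g x ∂w =
      ∫ x, T σ κ ((Γ.rot n).Ex σ f 0) x * (Γ.rot n).Ex w g 0 x ∂w +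
      (∑ b ∈ range Γ.N, ∫ x, T σ κ ((Γ.rot n).Ex σ f (b + 1)) x *
        ((Γ.rot n).Ex w g (b + 1) x - (Γ.rot n).Ex w g b x) ∂w +
      ∑ b ∈ range Γ.N, ∫ x, T w (fun y x => κ x y) ((Γ.rot n).Ex w g (b + 0)) x *
        ((Γ.rot n).Ex σ f (b + 1) x - (Γ.rot n).Ex σ f b x) ∂σ) := by
    intro n
    have hE := (Γ.rot n).Ex_bm (μ := σ) hf
    have hG := (Γ.rot n).Ex_bm (μ := w) hg
    have h1 := Finset.sum_range_sub (fun b => ∫ x, T σ κ ((Γ.rot n).Ex σ f b) x *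
      (Γ.rot n).Ex w g b x ∂w) Γ.N
    rw [hN σ hf0, hN w hg0] at h1
    rw [← sub_eq_iff_eq_add', ← h1, ← Finset.sum_add_distrib]
    refine Finset.sum_congr rfl fun b _ => ?_
    rw [← T_swap hκ ((hE _).sub (hE _)) (hG _), ← integral_add ((T_bm hκ (hE _)).mul
      ((hG _).sub (hG _))).int ((T_bm hκ ((hE _).sub (hE _))).mul (hG _)).int,
      ← integral_sub ((T_bm hκ (hE _)).mul (hG _)).int ((T_bm hκ (hE _)).mul (hG _)).int]
    refine integral_congr_ae (Eventually.of_forall fun x => ?_)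
    have h2 := T_add (σ := σ) hκ ((hE (b + 1)).sub (hE b)) (hE b) x
    simp only [sub_add_cancel] at h2
    simp only [add_zero]
    linear_combination (Γ.rot n).Ex w g b x * h2
  have e2 : ∀ n, |∫ x, T σ κ ((Γ.rot n).Ex σ f 0) x * (Γ.rot n).Ex w g 0 x ∂w| ≤
      C * ∫ y, f y ^ 2 ∂σ + ∫ x, g x ^ 2 ∂w := by
    intro n
    have h0 : ∀ x, x ∈ (Γ.rot n).Box 0 0 := fun x => ⟨by simp [(Γ.rot n).A0], (Γ.rot n).idx_zero x⟩
    have h1 : (Γ.rot n).Ex σ f 0 =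
        fun x => avg σ f ((Γ.rot n).Box 0 0) * ch ((Γ.rot n).Box 0 0) x := by
      funext x
      rw [(Γ.rot n).Ex_of_mem (h0 x).1, (h0 x).2, ch_of_mem (h0 x), mul_one]
    have h2 := amgm (μ := w) (T_bm (σ := σ) hκ ((Γ.rot n).Ex_bm (μ := σ) hf 0))
      ((Γ.rot n).Ex_bm (μ := w) hg 0) one_pos
    have h3 := (Γ.rot n).Ex_sq_le (μ := σ) hf 0
    simp only [one_mul, inv_one] at h2
    refine h2.trans (add_le_add (le_trans ?_ (mul_le_mul_of_nonneg_left h3 (H n).C0.le))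
      ((Γ.rot n).Ex_sq_le hg 0))
    rw [h1]
    simp only [T_cmul, mul_pow, ch_sq, integral_const_mul]
    rw [mul_left_comm]
    exact mul_le_mul_of_nonneg_left ((H n).test 0 (Nat.zero_le _) 0) (sq_nonneg _)
  have h1 := avg_main H hgood hf hg le_rfl
  have h2 := avg_main H' hgood hg hf zero_le_one
  have h3 := (Finset.abs_sum_le_sum_abs _ _).trans
    (Finset.sum_le_card_nsmul (range (2 ^ Γ.N)) _ _ fun n _ => e2 n)
  have h4 := Finset.sum_congr (s₁ := range (2 ^ Γ.N)) rfl fun n _ => e1 n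
  rw [Finset.sum_add_distrib, Finset.sum_add_distrib] at h4
  simp only [Finset.sum_const, card_range, nsmul_eq_mul, Nat.cast_pow, Nat.cast_ofNat] at h3 h4
  have h5 : (0 : ℝ) < 2 ^ Γ.N := by positivity
  have h6 := (abs_add_le _ _).trans (add_le_add h3 ((abs_add_le _ _).trans (add_le_add h1 h2)))
  rw [← h4, abs_mul, abs_of_pos h5, ← mul_add, ← mul_add] at h6
  refine (le_of_mul_le_mul_left h6 h5).trans ?_
  have f0 : 0 ≤ ∫ y, f y ^ 2 ∂σ := integral_nonneg fun _ => sq_nonneg _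
  have g0 : 0 ≤ ∫ y, g y ^ 2 ∂w := integral_nonneg fun _ => sq_nonneg _
  nlinarith [mul_nonneg (H 0).C0.le g0]

/-- the width of the forbidden zone -/
noncomputable def hw (s : ℕ) : ℕ := ⌈(8 / 5 : ℝ) ^ s⌉₊

/-- good boxes -/
def Good (b k : ℕ) : Prop := ∀ s ≤ b, 17 ≤ s → hw s ≤ k % 2 ^ s ∧ k % 2 ^ s + hw s < 2 ^ s

noncomputable instance (b : ℕ) : DecidablePred (Good b) := Classical.decPred _

lemma good_card (b : ℕ) : 2 ^ b ≤ 2 * ((range (2 ^ b)).filter (Good b)).card := by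
  classical
  set bad : ℕ → Finset ℕ := fun s => (range (2 ^ b)).filter
    fun k => ¬ (hw s ≤ k % 2 ^ s ∧ k % 2 ^ s + hw s < 2 ^ s) with hbad
  have h1 : ∀ s ≤ b, ((bad s).card : ℝ) ≤ 2 ^ b * (4 * (4 / 5) ^ s) := by
    intro s hs
    have h2 : (bad s).card ≤ (range (2 ^ (b - s)) ×ˢ
        (range (hw s) ∪ Finset.Ico (2 ^ s - hw s) (2 ^ s))).card := by
      refine Finset.card_le_card_of_injOn (fun k => (k / 2 ^ s, k % 2 ^ s)) (fun k hk => ?_)
        fun k _ k' _ e => ?_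
      · simp only [hbad, Finset.coe_filter, Finset.mem_range, Set.mem_ofPred_eq] at hk
        have := Nat.mod_lt k (show 0 < 2 ^ s by positivity)
        simp only [Finset.coe_product, Set.mem_prod, Finset.coe_union, Finset.mem_coe,
          Finset.mem_range, Set.mem_union, Finset.mem_Ico]
        refine ⟨?_, by omega⟩
        rw [Nat.div_lt_iff_lt_mul (by positivity), ← pow_add, Nat.sub_add_cancel hs]
        exact hk.1
      · simp only [Prod.mk.injEq] at e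
        rw [← Nat.div_add_mod k (2 ^ s), ← Nat.div_add_mod k' (2 ^ s), e.1, e.2]
    have h3 := Finset.card_union_le (range (hw s)) (Finset.Ico (2 ^ s - hw s) (2 ^ s))
    rw [Finset.card_product, card_range] at h2
    rw [card_range, Nat.card_Ico] at h3
    have h4 : (bad s).card ≤ 2 ^ (b - s) * (2 * hw s) :=
      h2.trans (Nat.mul_le_mul_left _ (by omega))
    have h5 : (hw s : ℝ) ≤ 2 * (8 / 5) ^ s := by
      have := Nat.ceil_lt_add_one (show (0 : ℝ) ≤ (8 / 5) ^ s by positivity)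
      have : (1 : ℝ) ≤ (8 / 5) ^ s := one_le_pow₀ (by norm_num)
      unfold hw
      linarith
    calc ((bad s).card : ℝ) ≤ 2 ^ (b - s) * (2 * hw s) := by exact_mod_cast h4
      _ ≤ 2 ^ (b - s) * (2 * (2 * (8 / 5) ^ s)) := by gcongr
      _ = _ := by
        rw [show (2 : ℝ) ^ b = 2 ^ (b - s) * 2 ^ s by rw [← pow_add, Nat.sub_add_cancel hs],
          show (8 / 5 : ℝ) = 2 * (4 / 5) by norm_num, mul_pow]
        ring
  have h2 : (range (2 ^ b)).filter (fun k => ¬ Good b k) ⊆ (Finset.Ico 17 (b + 1)).biUnion bad := by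
    intro k hk
    simp only [Finset.mem_filter, Good, not_forall] at hk
    obtain ⟨hk, s, hs, hs', h⟩ := hk
    simp only [Finset.mem_biUnion, Finset.mem_Ico, hbad, Finset.mem_filter]
    exact ⟨s, ⟨hs', by omega⟩, hk, h⟩
  have h3 : (((range (2 ^ b)).filter fun k => ¬ Good b k).card : ℝ) ≤ 2 ^ b * (1 / 2) := by
    refine le_trans (by exact_mod_cast (Finset.card_le_card h2).trans Finset.card_biUnion_le :
      _ ≤ ∑ s ∈ Finset.Ico 17 (b + 1), ((bad s).card : ℝ)) ?_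
    refine (Finset.sum_le_sum fun s hs => h1 s (by simp at hs; omega)).trans ?_
    rw [← Finset.mul_sum, ← Finset.mul_sum]
    refine mul_le_mul_of_nonneg_left ?_ (by positivity)
    have := geom_sum_Ico_le_of_lt_one (x := (4 / 5 : ℝ)) (by norm_num) (by norm_num)
      (m := 17) (n := b + 1)
    norm_num at this ⊢
    linarith
  have h4 := Finset.card_filter_add_card_filter_not (s := range (2 ^ b)) (Good b)
  rw [card_range] at h4
  have h5 : (2 : ℝ) ^ b = ((range (2 ^ b)).filter (Good b)).card +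
      ((range (2 ^ b)).filter fun k => ¬ Good b k).card := by exact_mod_cast h4.symm
  have : (2 : ℝ) ^ b ≤ 2 * ((range (2 ^ b)).filter (Good b)).card := by linarith
  exact_mod_cast this

end Pool.Agent.H103Z.Bg
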