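import Mathlib
import Pool.Agent.H103Z.BgAvg

set_option autoImplicit false
open MeasureTheory Filter Set Finset Real
open scoped ComplexConjugate

namespace Pool.Agent.H103Z.Bg

/-- point of the unit circle -/
noncomputable def ee (y : ℝ) : ℂ := Complex.exp ((2 * π * y : ℝ) * Complex.I)

lemma ee_norm (y : ℝ) : ‖ee y‖ = 1 := Complex.norm_exp_ofReal_mul_I _

lemma ee_add (y z : ℝ) : ee (y + z) = ee y * ee z := by
  unfold ee
  rw [← Complex.exp_add]
  congr 1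
  push_cast
  ring

lemma ee_int (n : ℤ) : ee n = 1 := by
  unfold ee
  rw [← Complex.exp_int_mul_two_pi_mul_I n]
  congr 1
  push_cast
  ring

lemma ee_conj (y : ℝ) : conj (ee y) = ee (-y) := by
  unfold ee
  rw [← Complex.exp_conj, map_mul, Complex.conj_ofReal, Complex.conj_I]
  congr 1
  push_cast
  ring

lemma ee_sub (y z : ℝ) : ‖ee y - ee z‖ ≤ 7 * |y - z| := by
  have h1 : ee y - ee z = ee z * (ee (y - z) - 1) := by
    rw [mul_sub, ← ee_add]
    simp
  rw [h1, norm_mul, ee_norm, one_mul, ee, mul_comm]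
  refine Real.norm_exp_I_mul_ofReal_sub_one_le.trans ?_
  rw [Real.norm_eq_abs, abs_mul, abs_of_pos two_pi_pos]
  exact mul_le_mul_of_nonneg_right (by linarith [pi_lt_d2]) (abs_nonneg _)

lemma sin_low {y δ : ℝ} (h0 : 0 ≤ δ) (h1 : δ ≤ y) (h2 : y ≤ 1 - δ) : 2 * δ ≤ sin (π * y) := by
  have key : ∀ y : ℝ, δ ≤ y → y ≤ 1 / 2 → 2 * δ ≤ sin (π * y) := fun y h1 h2 => by
    have := mul_le_sin (x := π * y) (mul_nonneg pi_pos.le (h0.trans h1))
      (by nlinarith [pi_pos])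
    have e : 2 / π * (π * y) = 2 * y := by field_simp
    linarith
  rcases le_total y (1 / 2) with h | h
  · exact key y h1 h
  · rw [← sin_pi_sub, show π - π * y = π * (1 - y) by ring]
    exact key _ (by linarith) (by linarith)

lemma ee_sep {ρ y δ : ℝ} (hρ : 0 ≤ ρ) (h0 : 0 ≤ δ) (h1 : δ ≤ |y|) (h2 : |y| ≤ 1 - δ) :
    2 * δ ≤ ‖1 - ρ * ee y‖ := by
  have h3 := sin_low h0 h1 h2
  have h4 : sin (π * |y|) ^ 2 = sin (π * y) ^ 2 := by
    rcases abs_choice y with h | h <;> rw [h]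
    simp
  have h5 : cos (2 * π * y) = 1 - 2 * sin (π * y) ^ 2 := by
    rw [mul_assoc, cos_two_mul, cos_sq']
    ring
  have h6 : ‖1 - ρ * ee y‖ ^ 2 = 1 - 2 * ρ * cos (2 * π * y) + ρ ^ 2 := by
    rw [Complex.sq_norm, Complex.normSq_apply]
    simp only [ee, Complex.sub_re, Complex.one_re, Complex.re_ofReal_mul,
      Complex.exp_ofReal_mul_I_re, Complex.sub_im, Complex.one_im, Complex.im_ofReal_mul,
      Complex.exp_ofReal_mul_I_im]
    linear_combination ρ ^ 2 * sin_sq_add_cos_sq (2 * π * y)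
  refine h3.trans (le_of_sq_le_sq ?_ (norm_nonneg _))
  rw [h4, h6, h5]
  nlinarith [mul_nonneg (sq_nonneg (1 - ρ)) (sub_nonneg.2 (sin_sq_le_one (π * y))),
    mul_nonneg (sq_nonneg (sin (π * y))) (sq_nonneg ρ), mul_nonneg (sq_nonneg (sin (π * y))) hρ]

/-- a measurable map into the unit disc -/
structure Pt (X : Type*) [MeasurableSpace X] where
  Z : X → ℂ
  meas : Measurable Z
  lt : ∀ x, ‖Z x‖ < 1

variable {X : Type*} [MeasurableSpace X] (z : Pt X)

/-- the grid of Carleson boxes -/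
noncomputable def Pt.grid (N : ℕ) : Grid X where
  N := N
  A a := {x | 1 - ‖z.Z x‖ ≤ (1 / 2) ^ a}
  rel x := ⌊2 ^ N * (Complex.arg (z.Z x) / (2 * π) + 1)⌋₊ % 2 ^ N
  mA _ := measurableSet_le (measurable_const.sub z.meas.norm) measurable_const
  mrel := (measurable_from_top (f := fun k : ℕ => k % 2 ^ N)).comp (Nat.measurable_floor.comp
    (measurable_const.mul (((Complex.measurable_arg.comp z.meas).div_const _).add_const _)))
  A0 := by
    ext x
    simp
  anti a b hab x hx :=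
    le_trans hx (pow_le_pow_of_le_one (a := (1 / 2 : ℝ)) (by norm_num) (by norm_num) hab)
  rel_lt _ := Nat.mod_lt _ (by positivity)

lemma polar (N n : ℕ) (x : X) : ∃ s : ℝ, (((z.grid N).rot n).rel x : ℝ) ≤ 2 ^ N * s ∧
    2 ^ N * s < ((z.grid N).rot n).rel x + 1 ∧ z.Z x = ‖z.Z x‖ * ee (s - n / 2 ^ N) := by
  set t : ℝ := Complex.arg (z.Z x) / (2 * π) + 1 with ht
  have t0 : 0 ≤ 2 ^ N * t := by
    have := Complex.neg_pi_lt_arg (z.Z x)
    have h : -1 ≤ Complex.arg (z.Z x) / (2 * π) := by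
      rw [le_div_iff₀ two_pi_pos]
      linarith [pi_pos]
    exact mul_nonneg (by positivity) (by linarith)
  have e : ((z.grid N).rot n).rel x = (⌊2 ^ N * t⌋₊ + n) % 2 ^ N := Nat.mod_add_mod _ _ _
  have h1 := Nat.div_add_mod (⌊2 ^ N * t⌋₊ + n) (2 ^ N)
  rw [← e] at h1
  set j := (⌊2 ^ N * t⌋₊ + n) / 2 ^ N
  have h2 : (2 : ℝ) ^ N * j + ((z.grid N).rot n).rel x = ⌊2 ^ N * t⌋₊ + n := by exact_mod_cast h1
  have h3 : (2 : ℝ) ^ N * (t + n / 2 ^ N - j) = 2 ^ N * t + n - 2 ^ N * j := by field_simp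
  have h4 := Nat.floor_le t0
  have h5 := Nat.lt_floor_add_one (2 ^ N * t)
  refine ⟨t + n / 2 ^ N - j, by linarith, by linarith, ?_⟩
  rw [show t + n / 2 ^ N - j - n / 2 ^ N = Complex.arg (z.Z x) / (2 * π) + ((1 - j : ℤ) : ℝ) by
    push_cast; rw [ht]; ring, ee_add, ee_int, mul_one, ee, mul_div_cancel₀ _ two_pi_pos.ne',
    Complex.norm_mul_exp_arg_mul_I]

/-- the denominator of the Bergman kernel -/
noncomputable def Pt.u (x y : X) : ℂ := 1 - z.Z x * conj (z.Z y)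

lemma one_sub_lip (a b : ℂ) (y : X) : ‖(1 - a * conj (z.Z y)) - (1 - b * conj (z.Z y))‖ ≤
    ‖a - b‖ := by
  rw [show (1 - a * conj (z.Z y)) - (1 - b * conj (z.Z y)) = (b - a) * conj (z.Z y) by ring,
    norm_mul, Complex.norm_conj, norm_sub_rev]
  exact mul_le_of_le_one_right (norm_nonneg _) (z.lt y).le

lemma u_conj (x y : X) : conj (z.u x y) = z.u y x := by simp [Pt.u, mul_comm]

lemma u_ge (x y : X) : 1 - ‖z.Z y‖ ≤ ‖z.u x y‖ := by
  have h1 := norm_sub_norm_le (1 : ℂ) (z.Z x * conj (z.Z y))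
  rw [norm_one, norm_mul, Complex.norm_conj] at h1
  have := mul_le_of_le_one_left (norm_nonneg (z.Z y)) (z.lt x).le
  exact le_trans (by linarith) h1

lemma u_ge' (x y : X) : 1 - ‖z.Z x‖ ≤ ‖z.u x y‖ := by
  rw [← u_conj, Complex.norm_conj]
  exact u_ge z y x

lemma u_pos (x y : X) : 0 < ‖z.u x y‖ := (sub_pos.2 (z.lt y)).trans_le (u_ge z x y)

lemma u_meas : Measurable fun p : X × X => z.u p.1 p.2 :=
  measurable_const.sub ((z.meas.comp measurable_fst).mul
    (Complex.continuous_conj.measurable.comp (z.meas.comp measurable_snd)))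

lemma u_sep (N n : ℕ) {x y : X} {lo hi H : ℕ} (hi' : hi ≤ 2 ^ N)
    (h1 : lo + H ≤ ((z.grid N).rot n).rel x) (h2 : ((z.grid N).rot n).rel x + 1 + H ≤ hi)
    (h3 : ((z.grid N).rot n).rel y < lo ∨ hi ≤ ((z.grid N).rot n).rel y) :
    (H : ℝ) / 2 ^ N ≤ ‖z.u x y‖ := by
  obtain ⟨s, s1, s2, s3⟩ := polar z N n x
  obtain ⟨t, t1, t2, t3⟩ := polar z N n y
  have hP : (0 : ℝ) < 2 ^ N := by positivity
  have e : z.u x y = 1 - (‖z.Z x‖ * ‖z.Z y‖ : ℝ) * ee (s - t) := by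
    unfold Pt.u
    conv_lhs => rw [s3, t3]
    rw [map_mul, Complex.conj_ofReal, ee_conj, mul_mul_mul_comm, ← ee_add]
    push_cast
    ring_nf
  have h0 : (0 : ℝ) ≤ H / 2 ^ N := by positivity
  have g1 : (lo : ℝ) + H ≤ ((z.grid N).rot n).rel x := by exact_mod_cast h1
  have g2 : (((z.grid N).rot n).rel x : ℝ) + 1 + H ≤ hi := by exact_mod_cast h2
  have g3 : (hi : ℝ) ≤ 2 ^ N := by exact_mod_cast hi'
  have g4 : (((z.grid N).rot n).rel y : ℝ) + 1 ≤ 2 ^ N := by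
    exact_mod_cast ((z.grid N).rot n).rel_lt y
  have g5 : (0 : ℝ) ≤ ((z.grid N).rot n).rel y := Nat.cast_nonneg _
  have g6 : (0 : ℝ) ≤ lo := Nat.cast_nonneg _
  have g7 : (0 : ℝ) ≤ H := Nat.cast_nonneg _
  have key : (H : ℝ) ≤ |2 ^ N * (s - t)| ∧ |2 ^ N * (s - t)| ≤ 2 ^ N - H := by
    rw [mul_sub]
    rcases h3 with h3 | h3
    · have g8 : (((z.grid N).rot n).rel y : ℝ) + 1 ≤ lo := by exact_mod_cast h3
      rw [abs_of_nonneg (by linarith)]
      constructor <;> linarith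
    · have g8 : (hi : ℝ) ≤ ((z.grid N).rot n).rel y := by exact_mod_cast h3
      rw [abs_of_nonpos (by linarith)]
      constructor <;> linarith
  rw [abs_mul, abs_of_pos hP] at key
  rw [e]
  refine le_trans (by linarith) (ee_sep (by positivity) h0 ?_ ?_)
  · rw [div_le_iff₀' hP]
    exact key.1
  · rw [le_sub_comm, div_le_iff₀' hP]
    linarith [key.2]

/-- left endpoint of an arc -/
noncomputable def cen (N n a m : ℕ) : ℂ := ee (m / 2 ^ a - n / 2 ^ N)

lemma box_s {N n a m : ℕ} (ha : a ≤ N) {x : X} (hx : ((z.grid N).rot n).idx a x = m) : ∃ s : ℝ,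
    m / 2 ^ a ≤ s ∧ s < (m + 1) / 2 ^ a ∧ z.Z x = ‖z.Z x‖ * ee (s - n / 2 ^ N) := by
  obtain ⟨s, s1, s2, s3⟩ := polar z N n x
  have e : (2 : ℝ) ^ N = 2 ^ a * 2 ^ (N - a) := by rw [← pow_add, Nat.add_sub_cancel' ha]
  have h1 : m * 2 ^ (N - a) ≤ ((z.grid N).rot n).rel x := hx ▸ Nat.div_mul_le_self _ _
  have h2 : ((z.grid N).rot n).rel x + 1 ≤ (m + 1) * 2 ^ (N - a) := by
    rw [Nat.succ_le_iff, ← Nat.div_lt_iff_lt_mul (by positivity)]
    exact hx ▸ Nat.lt_succ_self _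
  have g1 : (m : ℝ) * 2 ^ (N - a) ≤ ((z.grid N).rot n).rel x := by exact_mod_cast h1
  have g2 : (((z.grid N).rot n).rel x : ℝ) + 1 ≤ (m + 1) * 2 ^ (N - a) := by exact_mod_cast h2
  have hP : (0 : ℝ) < 2 ^ (N - a) := by positivity
  refine ⟨s, ?_, ?_, s3⟩
  · rw [div_le_iff₀ (by positivity)]
    refine le_of_mul_le_mul_right ?_ hP
    rw [e] at s1
    linarith
  · rw [lt_div_iff₀ (by positivity)]
    refine lt_of_mul_lt_mul_right ?_ hP.le
    rw [e] at s2
    linarith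

lemma box_cen {N n a m : ℕ} (ha : a ≤ N) {x : X} (hx : x ∈ ((z.grid N).rot n).Box a m) :
    ‖z.Z x - cen N n a m‖ ≤ 8 * (1 / 2) ^ a := by
  obtain ⟨s, s1, s2, s3⟩ := box_s z ha hx.2
  have h1 : ‖z.Z x - ee (s - n / 2 ^ N)‖ ≤ (1 / 2) ^ a := by
    conv_lhs => rw [s3]
    rw [← sub_one_mul, norm_mul, ee_norm, mul_one, ← Complex.ofReal_one, ← Complex.ofReal_sub,
      Complex.norm_real, Real.norm_eq_abs, abs_sub_comm, abs_of_pos (sub_pos.2 (z.lt x))]
    exact hx.1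
  have h2 := ee_sub (s - n / 2 ^ N) (m / 2 ^ a - n / 2 ^ N)
  rw [sub_sub_sub_cancel_right, abs_of_nonneg (sub_nonneg.2 s1)] at h2
  have h3 := norm_sub_le_norm_sub_add_norm_sub (z.Z x) (ee (s - n / 2 ^ N)) (cen N n a m)
  rw [add_div] at s2
  rw [one_div_pow] at h1 ⊢
  unfold cen at *
  linarith

/-- cyclic adjacency -/
def adj (P i j : ℕ) : Prop := (i + 1) % P = j ∨ i = j ∨ i = (j + 1) % P

lemma adj_comm {P i j : ℕ} : adj P i j ↔ adj P j i := by
  unfold adj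
  constructor <;> rintro (h | h | h) <;> simp [h]

lemma adj_rot {P i j : ℕ} (hi : i < P) (hj : j < P) (n : ℕ) :
    adj P ((i + n) % P) ((j + n) % P) ↔ adj P i j := by
  have key : ∀ {i j : ℕ}, j < P → (((i + n) % P + 1) % P = (j + n) % P ↔ (i + 1) % P = j) := by
    intro i j hj
    rw [Nat.mod_add_mod, add_right_comm]
    refine ⟨fun h => ?_, fun h => by rw [← h, Nat.mod_add_mod]⟩
    exact Eq.trans (Nat.ModEq.add_right_cancel' n h) (Nat.mod_eq_of_lt hj)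
  unfold adj
  rw [key hj, eq_comm (b := ((j + n) % P + 1) % P), key hi, eq_comm (b := i)]
  refine or_congr_right (or_congr_left ⟨fun h => ?_, fun h => by rw [h]⟩)
  exact Nat.ModEq.eq_of_lt_of_lt (Nat.ModEq.add_right_cancel' n h) hi hj

lemma succ_mod {P j : ℕ} (hj : j < P) : (j + 1) % P = j + 1 ∨ (j + 1 = P ∧ (j + 1) % P = 0) := by
  rcases Nat.lt_or_ge (j + 1) P with h | h
  · exact Or.inl (Nat.mod_eq_of_lt h)
  · have : j + 1 = P := by omega
    exact Or.inr ⟨this, by rw [this, Nat.mod_self]⟩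

/-- real part of a multiple of the Bergman kernel -/
noncomputable def Pt.k0 (c : ℂ) (x y : X) : ℝ := (c / z.u x y ^ 2).re

open Classical in
/-- the truncated kernel -/
noncomputable def Pt.kt (N : ℕ) (c : ℂ) (x y : X) : ℝ :=
  if x ∈ (z.grid N).A N ∧ y ∈ (z.grid N).A N ∧ adj (2 ^ N) ((z.grid N).rel x) ((z.grid N).rel y)
  then 0 else z.k0 c x y

lemma k0_swap (c : ℂ) (x y : X) : z.k0 c x y = z.k0 (conj c) y x := by
  rw [Pt.k0, Pt.k0, ← Complex.conj_re, map_div₀, map_pow, u_conj]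

lemma kt_swap (N : ℕ) (c : ℂ) : (fun y x => z.kt N c x y) = z.kt N (conj c) := by
  classical
  funext y x
  unfold Pt.kt
  exact if_congr (by rw [adj_comm, and_left_comm]) rfl (k0_swap z c x y)

lemma k0_le {c : ℂ} (hc : ‖c‖ ≤ 1) (x y : X) {D : ℝ} (hD : 0 < D) (h : D ≤ ‖z.u x y‖) :
    |z.k0 c x y| ≤ 1 / D ^ 2 := by
  refine (Complex.abs_re_le_norm _).trans ?_
  rw [norm_div, norm_pow]
  gcongr

lemma kt_le {c : ℂ} (hc : ‖c‖ ≤ 1) (N : ℕ) (x y : X) {D : ℝ} (hD : 0 < D) (h : D ≤ ‖z.u x y‖) :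
    |z.kt N c x y| ≤ 1 / D ^ 2 := by
  unfold Pt.kt
  split_ifs
  · simp only [abs_zero]; positivity
  · exact k0_le z hc x y hD h

lemma k0_meas (c : ℂ) : Measurable fun p : X × X => z.k0 c p.1 p.2 :=
  Complex.measurable_re.comp (measurable_const.div ((u_meas z).pow_const 2))

lemma kt_kb {c : ℂ} (hc : ‖c‖ ≤ 1) (N : ℕ) : Kb (z.kt N c) := by
  refine ⟨Measurable.ite ?_ measurable_const (k0_meas z c), 1 / (1 / 2 ^ N) ^ 2, fun x y => ?_⟩
  · refine (measurable_fst ((z.grid N).mA N)).inter ((measurable_snd ((z.grid N).mA N)).inter ?_)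
    exact (((z.grid N).mrel.comp measurable_fst).prodMk ((z.grid N).mrel.comp measurable_snd))
      (show MeasurableSet {p : ℕ × ℕ | adj (2 ^ N) p.1 p.2} from (Set.to_countable _).measurableSet)
  · unfold Pt.kt
    split_ifs with h
    · simp only [abs_zero]; positivity
    refine k0_le z hc x y (by positivity) ?_
    by_cases hx : x ∈ (z.grid N).A N
    swap
    · rw [← one_div_pow]
      exact (not_le.1 hx).le.trans (u_ge' z x y)
    by_cases hy : y ∈ (z.grid N).A N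
    swap
    · rw [← one_div_pow]
      exact (not_le.1 hy).le.trans (u_ge z x y)
    have h1 : ¬ adj (2 ^ N) ((z.grid N).rel x) ((z.grid N).rel y) := fun h' => h ⟨hx, hy, h'⟩
    have hi := (z.grid N).rel_lt x
    have hP : 0 < 2 ^ N := by positivity
    change _ < 2 ^ N at hi
    rw [← adj_rot hi ((z.grid N).rel_lt y) (2 ^ N + 1 - (z.grid N).rel x)] at h1
    have e : ((z.grid N).rot (2 ^ N + 1 - (z.grid N).rel x)).rel x = 1 % 2 ^ N := by
      change ((z.grid N).rel x + (2 ^ N + 1 - (z.grid N).rel x)) % 2 ^ N = _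
      rw [Nat.add_sub_cancel' (by omega), Nat.add_mod_left]
    have hj := ((z.grid N).rot (2 ^ N + 1 - (z.grid N).rel x)).rel_lt y
    change ¬ adj (2 ^ N) (((z.grid N).rot _).rel x) (((z.grid N).rot _).rel y) at h1
    change _ < 2 ^ N at hj
    rw [e] at h1
    unfold adj at h1
    have h2 := succ_mod hj
    have h3 := succ_mod hP
    have h4 := succ_mod (Nat.mod_lt 1 hP)
    rw [zero_add] at h3
    have := u_sep z N (2 ^ N + 1 - (z.grid N).rel x) (x := x) (y := y) (lo := 0) (hi := 3) (H := 1)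
      (by omega) (by omega) (by omega) (by omega)
    simpa using this

lemma k0_sub {c : ℂ} (hc : ‖c‖ ≤ 1) (x x' y : X) {D : ℝ} (hD : 0 < D) (h : D ≤ ‖z.u x y‖)
    (h' : D ≤ ‖z.u x' y‖) : |z.k0 c x y - z.k0 c x' y| ≤ 2 * ‖z.Z x - z.Z x'‖ / D ^ 3 := by
  have h1 : ‖z.u x' y - z.u x y‖ ≤ ‖z.Z x - z.Z x'‖ := by
    rw [norm_sub_rev]
    exact one_sub_lip z _ _ y
  have p := u_pos z x y
  have p' := u_pos z x' y
  rw [Pt.k0, Pt.k0, ← Complex.sub_re]
  refine (Complex.abs_re_le_norm _).trans ?_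
  have n := norm_pos_iff.1 p
  have n' := norm_pos_iff.1 p'
  rw [show c / z.u x y ^ 2 - c / z.u x' y ^ 2 = c * (z.u x' y - z.u x y) *
    (1 / (z.u x y ^ 2 * z.u x' y) + 1 / (z.u x y * z.u x' y ^ 2)) by field_simp; ring,
    norm_mul, norm_mul]
  have h2 : ‖1 / (z.u x y ^ 2 * z.u x' y) + 1 / (z.u x y * z.u x' y ^ 2)‖ ≤
      1 / (D ^ 2 * D) + 1 / (D * D ^ 2) := by
    refine (norm_add_le _ _).trans ?_
    simp only [norm_div, norm_mul, norm_pow, norm_one]
    gcongr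
  calc _ ≤ 1 * ‖z.Z x - z.Z x'‖ * (1 / (D ^ 2 * D) + 1 / (D * D ^ 2)) := by gcongr
    _ = _ := by field_simp; ring

end Pool.Agent.H103Z.Bg
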