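import Mathlib
import Pool.Agent.H103Z.BgGeom

set_option autoImplicit false
open MeasureTheory Filter Set Finset Real
open scoped ComplexConjugate

namespace Pool.Agent.H103Z.Bg

variable {X : Type*} [MeasurableSpace X] (z : Pt X)

/-- Poisson type kernel of a box -/
noncomputable def Pt.om (N n a m : ℕ) (y : X) : ℝ :=
  (1 / 2) ^ a / max ((1 / 2) ^ a) ‖1 - cen N n a m * conj (z.Z y)‖ ^ 3

lemma om_bm (N n a m : ℕ) : Bm (z.om N n a m) := by
  refine ⟨measurable_const.div ((measurable_const.max (measurable_const.sub (measurable_const.mul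
    (Complex.continuous_conj.measurable.comp z.meas))).norm).pow_const 3),
    (1 / 2) ^ a / ((1 / 2) ^ a) ^ 3, fun y => ?_⟩
  unfold Pt.om
  rw [abs_of_nonneg (by positivity)]
  gcongr
  exact le_max_left _ _

lemma nat_sep {S L k h i : ℕ} (hL : 0 < L) (hi : i / L = k) (h1 : h ≤ k % S) (h2 : k % S + h < S) :
    k / S * (S * L) + h * L ≤ i ∧ i + 1 + h * L ≤ (k / S + 1) * (S * L) := by
  have e1 := Nat.div_add_mod i L
  have e2 := Nat.div_add_mod k S
  have e3 := Nat.mod_lt i hL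
  have e4 := Nat.mul_le_mul_right L h1
  have e5 := Nat.mul_le_mul_right L (Nat.succ_le_of_lt h2)
  rw [hi] at e1
  generalize k / S = m at *
  generalize k % S = t at *
  subst e2
  rw [Nat.succ_eq_add_one] at e5
  generalize i % L = v at *
  subst e1
  constructor
  · nlinarith [Nat.zero_le v]
  · nlinarith

lemma good_sep {N n a b : ℕ} (c : ℂ) (hab : a + 17 ≤ b) (hb : b < N) {x y : X}
    (hg : Good b (((z.grid N).rot n).idx b x))
    (hy : y ∉ ((z.grid N).rot n).Box a (((z.grid N).rot n).idx a x)) :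
    (4 / 5) ^ (b - a) * (1 / 2) ^ a ≤ ‖z.u x y‖ ∧ z.kt N c x y = z.k0 c x y := by
  set Γ := (z.grid N).rot n with hΓ
  by_cases hA : y ∈ Γ.A a
  swap
  · refine ⟨(mul_le_of_le_one_left (by positivity) (pow_le_one₀ (by norm_num)
      (by norm_num))).trans ((not_le.1 hA).le.trans (u_ge z x y)), if_neg fun h => hA ?_⟩
    exact Γ.anti (show a ≤ N by omega) h.2.1
  have h1 : Γ.idx a y ≠ Γ.idx a x := fun h => hy ⟨hA, h⟩
  obtain ⟨g1, g2⟩ := hg (b - a) (Nat.sub_le _ _) (by omega)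
  obtain ⟨g3, g4⟩ := nat_sep (L := 2 ^ (N - b)) (by positivity) (i := Γ.rel x) rfl g1 g2
  have e : 2 ^ (b - a) * 2 ^ (N - b) = 2 ^ (N - a) := by rw [← pow_add]; congr 1; omega
  change Γ.idx b x / _ * _ + _ ≤ _ at g3
  change _ ≤ (Γ.idx b x / _ + 1) * _ at g4
  rw [← Γ.idx_div (show a ≤ b by omega) hb.le, e] at g3 g4
  have g5 : (Γ.idx a x + 1) * 2 ^ (N - a) ≤ 2 ^ N := by
    refine (Nat.mul_le_mul_right _ (Γ.idx_lt' (show a ≤ N by omega) x)).trans (le_of_eq ?_)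
    rw [← pow_add]
    congr 1
    omega
  have g6 : Γ.rel y < Γ.idx a x * 2 ^ (N - a) ∨ (Γ.idx a x + 1) * 2 ^ (N - a) ≤ Γ.rel y := by
    rw [← Nat.div_lt_iff_lt_mul (by positivity), ← Nat.le_div_iff_mul_le (by positivity)]
    change Γ.idx a y < _ ∨ _ ≤ Γ.idx a y
    omega
  have g7 : (8 / 5 : ℝ) ^ (b - a) ≤ hw (b - a) := Nat.le_ceil _
  constructor
  · refine le_trans ?_ (u_sep z N n g5 g3 g4 g6)
    rw [le_div_iff₀ (by positivity)]
    push_cast
    refine le_trans (le_of_eq ?_) (mul_le_mul_of_nonneg_right g7 (by positivity))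
    rw [show (2 : ℝ) ^ N = 2 ^ a * (2 ^ (b - a) * 2 ^ (N - b)) by
      rw [← pow_add, ← pow_add]; congr 1; omega, show (8 / 5 : ℝ) = 2 * (4 / 5) by norm_num,
      mul_pow, one_div_pow]
    field_simp
  · refine if_neg fun h => ?_
    have h2 := (adj_rot ((z.grid N).rel_lt x) ((z.grid N).rel_lt y) n).2 h.2.2
    change adj (2 ^ N) (Γ.rel x) (Γ.rel y) at h2
    have h3 : 1 ≤ hw (b - a) := by
      have : (1 : ℝ) ≤ (8 / 5) ^ (b - a) := one_le_pow₀ (by norm_num)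
      exact_mod_cast this.trans g7
    have h4 : 2 ^ 1 ≤ 2 ^ (N - b) := Nat.pow_le_pow_right two_pos (by omega)
    have h5 := Nat.mul_le_mul h3 h4
    have h6 := succ_mod (show Γ.rel x < 2 ^ N from Γ.rel_lt x)
    have h7 := succ_mod (show Γ.rel y < 2 ^ N from Γ.rel_lt y)
    unfold adj at h2
    omega

lemma smooth {N n a b : ℕ} {c : ℂ} (hc : ‖c‖ ≤ 1) (hab : a + 17 ≤ b) (hb : b < N) {x x' y : X}
    (hg : Good b (((z.grid N).rot n).idx b x)) (hx : x ∈ ((z.grid N).rot n).A b)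
    (hx' : x' ∈ ((z.grid N).rot n).A b)
    (e : ((z.grid N).rot n).idx b x' = ((z.grid N).rot n).idx b x)
    (hy : y ∉ ((z.grid N).rot n).Box a (((z.grid N).rot n).idx a x)) :
    |z.kt N c x y - z.kt N c x' y| ≤
      131072 * (125 / 128) ^ (b - a) * z.om N n a (((z.grid N).rot n).idx a x) y := by
  set Γ := (z.grid N).rot n with hΓ
  have hab' : a ≤ b := by omega
  have e' : Γ.idx a x' = Γ.idx a x := by rw [Γ.idx_div hab' hb.le, Γ.idx_div hab' hb.le, e]
  obtain ⟨g1, g2⟩ := good_sep z c hab hb hg hy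
  obtain ⟨g3, g4⟩ := good_sep z c hab hb (e ▸ hg) (e' ▸ hy)
  set M := max ((1 / 2) ^ a) ‖1 - cen N n a (Γ.idx a x) * conj (z.Z y)‖ with hM
  have hρ : (4 / 5 : ℝ) ^ (b - a) ≤ 1 := pow_le_one₀ (by norm_num) (by norm_num)
  have hρ0 : (0 : ℝ) < (4 / 5 : ℝ) ^ (b - a) := by positivity
  have hl : (0 : ℝ) < (1 / 2) ^ a := by positivity
  have key : ∀ v ∈ Γ.Box a (Γ.idx a x), (4 / 5) ^ (b - a) * (1 / 2) ^ a ≤ ‖z.u v y‖ →
      (4 / 5) ^ (b - a) * M / 16 ≤ ‖z.u v y‖ := by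
    intro v hv h
    have h1 := (norm_sub_norm_le _ _).trans ((one_sub_lip z (cen N n a (Γ.idx a x)) (z.Z v) y).trans
      ((norm_sub_rev _ _).trans_le (box_cen z (by omega) hv)))
    change _ - ‖z.u v y‖ ≤ _ at h1
    rcases le_total M (16 * (1 / 2) ^ a) with h2 | h2
    · nlinarith
    · have h3 : M = ‖1 - cen N n a (Γ.idx a x) * conj (z.Z y)‖ := by
        refine max_eq_right (le_of_not_ge fun h => ?_)
        rw [hM, max_eq_left h] at h2
        linarith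
      nlinarith
  have hM0 : 0 < M := lt_max_of_lt_left hl
  have h1 := k0_sub z hc x x' y (by positivity) (key x ⟨Γ.anti hab' hx, rfl⟩ g1)
    (key x' ⟨Γ.anti hab' hx', e'⟩ g3)
  have h2 : ‖z.Z x - z.Z x'‖ ≤ 16 * (1 / 2) ^ b := by
    have := norm_sub_le_norm_sub_add_norm_sub (z.Z x) (cen N n b (Γ.idx b x)) (z.Z x')
    rw [norm_sub_rev (cen _ _ _ _)] at this
    linarith [box_cen z hb.le (show x ∈ Γ.Box b _ from ⟨hx, rfl⟩),
      box_cen z hb.le (show x' ∈ Γ.Box b _ from ⟨hx', e⟩)]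
  rw [g2, g4]
  refine h1.trans ((div_le_div_of_nonneg_right (mul_le_mul_of_nonneg_left h2 zero_le_two)
    (by positivity)).trans (le_of_eq ?_))
  have e3 : (1 / 2 : ℝ) ^ b = (1 / 2) ^ a * ((125 / 128) ^ (b - a) * ((4 / 5) ^ (b - a)) ^ 3) := by
    rw [← pow_mul, mul_comm _ 3, pow_mul, ← mul_pow, show (125 / 128 * (4 / 5) ^ 3 : ℝ) = 1 / 2 by
      norm_num, ← pow_add, Nat.add_sub_cancel' hab']
  rw [e3, Pt.om, ← hM]
  field_simp
  norm_num

variable (σ w : Measure X) [IsFiniteMeasure σ] [IsFiniteMeasure w]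

/-- two weight bound for the maximal function -/
def MaxH (C : ℝ) : Prop := ∀ φ F : X → ℝ, Bm φ → Bm F → (∀ x t, (∀ R : ℝ, 0 < R →
  ∫ y, ch {y | ‖z.u x y‖ ≤ R} y * |φ y| ∂σ ≤ t * R ^ 2) → |F x| ≤ t) →
  ∫ x, F x ^ 2 ∂w ≤ C * ∫ y, φ y ^ 2 ∂σ

/-- testing condition on the boxes of the grids -/
def TestH (c : ℂ) (N : ℕ) (C : ℝ) : Prop := ∀ n, ∀ a ≤ N, ∀ m,
  Integrable (fun x => T σ (z.k0 c) (ch (((z.grid N).rot n).Box a m)) x ^ 2) w ∧
  ∫ x, T σ (z.k0 c) (ch (((z.grid N).rot n).Box a m)) x ^ 2 ∂w ≤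
    C * ∫ y, ch (((z.grid N).rot n).Box a m) y ∂σ

variable {z σ w}

omit [IsFiniteMeasure σ] [IsFiniteMeasure w] in
lemma MaxH.scale {C : ℝ} (h : MaxH z σ w C) {φ F : X → ℝ} (hφ : Bm φ) (hF : Bm F) {l : ℝ}
    (hl : 0 < l) (H : ∀ x t, 0 ≤ t → (∀ R : ℝ, 0 < R →
      ∫ y, ch {y | ‖z.u x y‖ ≤ R} y * |φ y| ∂σ ≤ t * R ^ 2) → |F x| ≤ l * t) :
    ∫ x, F x ^ 2 ∂w ≤ l ^ 2 * C * ∫ y, φ y ^ 2 ∂σ := by
  have := h φ _ hφ (hF.cmul l⁻¹) fun x t ht => by
    rw [abs_mul, abs_of_pos (inv_pos.2 hl), inv_mul_le_iff₀ hl]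
    refine H x t ?_ ht
    simpa using (integral_nonneg fun y => mul_nonneg (ch_nonneg _ y) (abs_nonneg _)).trans
      (ht 1 one_pos)
  simp only [mul_pow, integral_const_mul] at this
  rwa [inv_pow, inv_mul_le_iff₀ (by positivity), ← mul_assoc] at this

lemma ball_bm (x : X) (R : ℝ) : Bm (ch {y | ‖z.u x y‖ ≤ R}) :=
  Bm_ch (measurableSet_le ((u_meas z).of_uncurry_left (f := z.u)).norm measurable_const)

omit [IsFiniteMeasure w] in
lemma om_le {N n a : ℕ} (ha : a ≤ N) {φ : X → ℝ} (hφ : Bm φ) {x : X}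
    (hx : x ∈ ((z.grid N).rot n).A a) {t : ℝ} (ht : 0 ≤ t) (h : ∀ R : ℝ, 0 < R →
      ∫ y, ch {y | ‖z.u x y‖ ≤ R} y * |φ y| ∂σ ≤ t * R ^ 2) :
    ∫ y, z.om N n a (((z.grid N).rot n).idx a x) y * |φ y| ∂σ ≤ 1296 * t := by
  set l : ℝ := (1 / 2) ^ a with hl
  have l0 : 0 < l := by positivity
  have key : ∀ y, z.om N n a (((z.grid N).rot n).idx a x) y ≤ ∑ j ∈ range (a + 2),
      8 * (1 / 2) ^ j / (2 ^ j * l) ^ 2 * ch {y | ‖z.u x y‖ ≤ 9 * (2 ^ j * l)} y := by
    intro y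
    set s := ‖1 - cen N n a (((z.grid N).rot n).idx a x) * conj (z.Z y)‖ with hs
    have h1 : s ≤ 2 ^ (a + 1) * l := by
      have := norm_sub_le (1 : ℂ) (cen N n a (((z.grid N).rot n).idx a x) * conj (z.Z y))
      rw [norm_one, norm_mul, ← hs, cen, ee_norm, Complex.norm_conj] at this
      rw [hl, one_div_pow, pow_succ]
      field_simp
      linarith [z.lt y]
    have hex : ∃ j, s ≤ 2 ^ j * l := ⟨_, h1⟩
    classical
    have h2 := Nat.find_spec hex
    have h3 : Nat.find hex ≤ a + 1 := Nat.find_min' hex h1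
    have h4 : 2 ^ Nat.find hex * l / 2 ≤ max l s := by
      rcases Nat.eq_zero_or_pos (Nat.find hex) with h | h
      · rw [h]
        exact le_max_of_le_left (by linarith)
      · have := not_le.1 (Nat.find_min hex (Nat.sub_one_lt h.ne'))
        refine le_max_of_le_right (le_trans (le_of_eq ?_) this.le)
        conv_lhs => rw [← Nat.sub_add_cancel h, pow_succ]
        ring
    generalize Nat.find hex = j at *
    have h5 : (1 : ℝ) ≤ 2 ^ j := one_le_pow₀ one_le_two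
    have h6 : ‖z.u x y‖ ≤ 9 * (2 ^ j * l) := by
      have := (norm_sub_norm_le _ _).trans ((one_sub_lip z (z.Z x) _ y).trans
        (box_cen z ha (show x ∈ ((z.grid N).rot n).Box a _ from ⟨hx, rfl⟩)))
      change ‖z.u x y‖ - s ≤ 8 * l at this
      nlinarith
    refine le_trans ?_ (Finset.single_le_sum (f := fun j => 8 * (1 / 2) ^ j / (2 ^ j * l) ^ 2 *
      ch {y | ‖z.u x y‖ ≤ 9 * (2 ^ j * l)} y) (fun j _ => mul_nonneg (by positivity)
      (ch_nonneg _ _)) (Finset.mem_range.2 (show j < a + 2 by omega)))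
    rw [ch_of_mem (S := {y | ‖z.u x y‖ ≤ 9 * (2 ^ j * l)}) h6, mul_one]
    calc l / max l s ^ 3 ≤ l / (2 ^ j * l / 2) ^ 3 := by gcongr
      _ = _ := by rw [one_div_pow]; field_simp; norm_num
  have hb := fun j : ℕ => ((ball_bm (z := z) x (9 * (2 ^ j * l))).mul hφ.abs).cmul
    (8 * (1 / 2) ^ j / (2 ^ j * l) ^ 2)
  calc _ ≤ ∫ y, ∑ j ∈ range (a + 2), 8 * (1 / 2) ^ j / (2 ^ j * l) ^ 2 *
        (ch {y | ‖z.u x y‖ ≤ 9 * (2 ^ j * l)} y * |φ y|) ∂σ := by
        refine integral_mono ((om_bm z _ _ _ _).mul hφ.abs).int (Bm.sum _ fun j _ => hb j).int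
          fun y => ?_
        simp only [← mul_assoc, ← Finset.sum_mul]
        exact mul_le_mul_of_nonneg_right (by simpa only [← mul_assoc] using key y) (abs_nonneg _)
    _ ≤ ∑ j ∈ range (a + 2), (1 / 2) ^ j * (648 * t) := by
        rw [integral_finsetSum _ fun j _ => (hb j).int]
        refine Finset.sum_le_sum fun j _ => ?_
        rw [integral_const_mul]
        refine (mul_le_mul_of_nonneg_left (h _ (by positivity)) (by positivity)).trans
          (le_of_eq ?_)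
        field_simp
        ring
    _ ≤ _ := by
        rw [← Finset.sum_mul]
        nlinarith [sum_geometric_two_le (a + 2)]

omit [IsFiniteMeasure w] in
lemma top_le {N n a m d : ℕ} {c : ℂ} (hc : ‖c‖ ≤ 1) (hd : d ≤ a + 17 + 1) (hN : d ≤ N) {φ : X → ℝ}
    (hφ : Bm φ) (h0 : ∀ y, φ y ≠ 0 → y ∈ ((z.grid N).rot n).Box a m ∧ y ∉ ((z.grid N).rot n).A d)
    (x : X) {t : ℝ} (h : ∀ R : ℝ, 0 < R → ∫ y, ch {y | ‖z.u x y‖ ≤ R} y * |φ y| ∂σ ≤ t * R ^ 2) :
    |T σ (z.kt N c) φ x| ≤ (1 + 16 * 2 ^ 18) ^ 2 * t := by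
  set R : ℝ := ‖1 - cen N n a m * conj (z.Z x)‖ + 8 * (1 / 2) ^ a with hR
  have R0 : 0 < R := by positivity
  have hb := ((ball_bm (z := z) x R).mul hφ.abs).cmul (1 / (R / (1 + 16 * 2 ^ 18)) ^ 2)
  refine abs_integral_le_integral_abs.trans ((integral_mono
    (((kt_kb z hc N).left x).mul hφ).abs.int hb.int fun y => ?_).trans ?_)
  · by_cases hy : φ y = 0
    · simp [hy]
    obtain ⟨h1, h2⟩ := h0 y hy
    have ha : a ≤ N := by
      by_contra h3
      exact h2 (((z.grid N).rot n).anti (show d ≤ a by omega) h1.1)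
    have h3 := (abs_norm_sub_norm_le _ _).trans ((one_sub_lip z (z.Z y) _ x).trans
      (box_cen z ha h1))
    change |‖z.u y x‖ - _| ≤ _ at h3
    rw [← u_conj, Complex.norm_conj, abs_le] at h3
    have h4 : (1 / 2 : ℝ) ^ (a + 18) ≤ ‖z.u x y‖ := (pow_le_pow_of_le_one (by norm_num)
      (by norm_num) hd).trans ((not_le.1 h2).le.trans (u_ge z x y))
    rw [pow_add] at h4
    simp only [abs_mul]
    rw [ch_of_mem (S := {y | ‖z.u x y‖ ≤ R}) (show ‖z.u x y‖ ≤ R by linarith [h3.2]), one_mul]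
    refine mul_le_mul_of_nonneg_right (kt_le z hc N x y (by positivity) ?_) (abs_nonneg _)
    rw [div_le_iff₀ (by positivity)]
    norm_num at h4 ⊢
    linarith [h3.1]
  · rw [integral_const_mul]
    refine (mul_le_mul_of_nonneg_left (h R R0) (by positivity)).trans (le_of_eq ?_)
    field_simp

lemma k0_bm {c : ℂ} (hc : ‖c‖ ≤ 1) (x : X) : Bm (z.k0 c x) :=
  ⟨(k0_meas z c).of_uncurry_left (f := z.k0 c), _, fun y =>
    k0_le z hc x y (sub_pos.2 (z.lt x)) (u_ge' z x y)⟩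

lemma test_le {N : ℕ} {c : ℂ} (hc : ‖c‖ ≤ 1) {C : ℝ} (hC : 0 ≤ C) (H : TestH z σ w c N C)
    (n : ℕ) {a : ℕ} (ha : a ≤ N) (m : ℕ) :
    ∫ x, T σ (z.kt N c) (ch (((z.grid N).rot n).Box a m)) x ^ 2 ∂w ≤
      8 * C * ∫ y, ch (((z.grid N).rot n).Box a m) y ∂σ := by
  classical
  set Γ := (z.grid N).rot n with hΓ
  set ι : ℕ → ℝ := fun j => if j / 2 ^ (N - a) = m then 1 else 0 with hι
  have hidx : ∀ y, Γ.idx N y = Γ.rel y := fun y => by
    change Γ.rel y / 2 ^ (N - N) = _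
    simp
  have hch : ∀ y, ι (Γ.idx N y) * ch (Γ.A N) y = ch (Γ.A N) y * ch (Γ.Box a m) y := by
    intro y
    by_cases hy : y ∈ Γ.A N
    · rw [ch_of_mem hy, mul_one, one_mul, hidx]
      have : y ∈ Γ.A a := Γ.anti ha hy
      simp only [hι, ch, Grid.Box, Set.mem_ofPred_eq, this, true_and]
      rfl
    · simp [ch_of_not hy]
  have key : ∀ x, T σ (z.kt N c) (ch (Γ.Box a m)) x ^ 2 ≤ 2 * T σ (z.k0 c) (ch (Γ.Box a m)) x ^ 2 +
      6 * ∑ j ∈ range (2 ^ N), ι j * T σ (z.k0 c) (ch (Γ.Box N j)) x ^ 2 := by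
    intro x
    set S := (range (2 ^ N)).filter (adj (2 ^ N) (Γ.rel x)) with hS
    have e : T σ (z.kt N c) (ch (Γ.Box a m)) x = T σ (z.k0 c) (ch (Γ.Box a m)) x +
        - ch (Γ.A N) x * ∑ j ∈ S, ι j * T σ (z.k0 c) (ch (Γ.Box N j)) x := by
      simp only [T, ← integral_const_mul]
      have hb := fun j => ((k0_bm (z := z) hc x).mul (Γ.bBox N j)).cmul (ι j)
      rw [← integral_finsetSum _ fun j _ => (hb j).int, ← integral_const_mul, ← integral_add
        ((k0_bm hc x).mul (Γ.bBox a m)).int ((Bm.sum _ fun j _ => hb j).cmul _).int]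
      refine integral_congr_ae (Eventually.of_forall fun y => ?_)
      have h1 := Γ.sum_ch N (fun j => if adj (2 ^ N) (Γ.rel x) j then ι j else 0) y
      simp only [mul_left_comm _ (z.k0 c x y), ← Finset.mul_sum]
      simp only [ite_mul, zero_mul] at h1
      change ∑ j ∈ range (2 ^ N), _ = _ at h1
      have h2 := adj_rot ((z.grid N).rel_lt x) ((z.grid N).rel_lt y) n
      change adj (2 ^ N) (Γ.rel x) (Γ.rel y) ↔ adj (2 ^ N) _ _ at h2
      rw [hS, Finset.sum_filter, h1, hch, hidx, Pt.kt]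
      by_cases hx : x ∈ Γ.A N
      swap
      · rw [if_neg fun h => hx h.1, ch_of_not hx]
        simp
      by_cases hy : y ∈ Γ.A N
      swap
      · rw [if_neg fun h => hy h.2.1, ch_of_not hy]
        simp
      by_cases h3 : adj (2 ^ N) (Γ.rel x) (Γ.rel y)
      · rw [if_pos ⟨hx, hy, h2.1 h3⟩, if_pos h3, ch_of_mem hx, ch_of_mem hy]
        ring
      · rw [if_neg fun h => h3 (h2.2 h.2.2), if_neg h3]
        simp
    have h1 : S.card ≤ 3 := by
      have hi : Γ.rel x < 2 ^ N := Γ.rel_lt x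
      refine (Finset.card_le_card (t := {(Γ.rel x + 1) % 2 ^ N, Γ.rel x,
        if Γ.rel x = 0 then 2 ^ N - 1 else Γ.rel x - 1}) fun j hj => ?_).trans Finset.card_le_three
      simp only [hS, Finset.mem_filter, Finset.mem_range, adj] at hj
      have := succ_mod hj.1
      simp only [Finset.mem_insert, Finset.mem_singleton]
      split_ifs <;> omega
    have h2 : (∑ j ∈ S, ι j * T σ (z.k0 c) (ch (Γ.Box N j)) x) ^ 2 ≤
        3 * ∑ j ∈ range (2 ^ N), ι j * T σ (z.k0 c) (ch (Γ.Box N j)) x ^ 2 := by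
      refine sq_sum_le_card_mul_sum_sq.trans (mul_le_mul (by exact_mod_cast h1) ?_
        (Finset.sum_nonneg fun _ _ => sq_nonneg _) (by norm_num))
      refine (Finset.sum_le_sum_of_subset_of_nonneg (Finset.filter_subset _ _)
        fun _ _ _ => sq_nonneg _).trans (le_of_eq (Finset.sum_congr rfl fun j _ => ?_))
      simp only [hι]
      split_ifs <;> simp
    rw [e]
    refine add_sq_le.trans ?_
    rw [mul_pow, neg_sq, ch_sq]
    nlinarith [mul_le_of_le_one_left (sq_nonneg (∑ j ∈ S, ι j * T σ (z.k0 c) (ch (Γ.Box N j)) x))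
      (ch_le (Γ.A N) x)]
  have i1 := (H n a ha m).1.const_mul 2
  have i2 := fun j => (H n N le_rfl j).1.const_mul (ι j)
  have i3 := (integrable_finsetSum (range (2 ^ N)) fun j _ => i2 j).const_mul 6
  refine (integral_mono (T_bm (kt_kb z hc N) (Γ.bBox a m)).sq.int (i1.add i3) key).trans ?_
  simp only [Pi.add_apply]
  rw [integral_add i1 i3, integral_const_mul, integral_const_mul,
    integral_finsetSum _ fun j _ => i2 j]
  have h1 : ∑ j ∈ range (2 ^ N), ∫ x, ι j * T σ (z.k0 c) (ch (Γ.Box N j)) x ^ 2 ∂w ≤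
      C * ∫ y, ch (Γ.Box a m) y ∂σ := by
    have h2 : ∑ j ∈ range (2 ^ N), ι j * ∫ y, ch (Γ.Box N j) y ∂σ ≤ ∫ y, ch (Γ.Box a m) y ∂σ := by
      refine (le_of_eq (Γ.int_ch1 (μ := σ) N ι).symm).trans (integral_mono ((Γ.Bm_idx N ι).mul
        (Bm_ch (Γ.mA N))).int (Γ.bBox a m).int fun y => ?_)
      simp only [hch]
      exact mul_le_of_le_one_left (ch_nonneg _ _) (ch_le _ _)
    refine le_trans ?_ (mul_le_mul_of_nonneg_left h2 hC)
    rw [Finset.mul_sum]
    refine Finset.sum_le_sum fun j _ => ?_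
    rw [integral_const_mul, mul_left_comm]
    exact mul_le_mul_of_nonneg_left (H n N le_rfl j).2 (by simp only [hι]; split_ifs <;> norm_num)
  linarith [(H n a ha m).2]

/-- the constant of the structural assumptions -/
noncomputable def Ch (C : ℝ) : ℝ := 131072 + (1296 ^ 2 + ((1 + 16 * 2 ^ 18) ^ 2) ^ 2 + 8) * C

lemma hyp {N : ℕ} {c : ℂ} (hc : ‖c‖ ≤ 1) {C : ℝ} (hC : 0 ≤ C) (HM : MaxH z σ w C)
    (HT : TestH z σ w c N C) (n : ℕ) :
    Hyp ((z.grid N).rot n) σ w (z.kt N c) Good (z.om N n) 17 (125 / 128) (Ch C) where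
  kb := kt_kb z hc N
  ωb := om_bm z N n
  ω0 a m x := by unfold Pt.om; positivity
  C0 := by unfold Ch; positivity
  q0 := by norm_num
  q1 := by norm_num
  smooth a b x x' y hab hb hg hx hx' e hy := (smooth z hc hab hb hg hx hx' e hy).trans (by
    have : 0 ≤ z.om N n a (((z.grid N).rot n).idx a x) y := by unfold Pt.om; positivity
    refine mul_le_mul_of_nonneg_right (mul_le_mul_of_nonneg_right ?_ (by positivity)) this
    unfold Ch
    nlinarith)
  maxi φ F hφ hF h := (HM.scale hφ hF (l := 1296) (by norm_num) fun x t ht h' => by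
    rcases h x with h | ⟨a, ha, hx, h⟩
    · rw [h, abs_zero]; positivity
    · exact h.trans (om_le ha hφ hx ht h')).trans (mul_le_mul_of_nonneg_right
      (by unfold Ch; nlinarith) (integral_nonneg fun _ => sq_nonneg _))
  top a m d φ hd hN hφ h0 := (HM.scale hφ (T_bm (kt_kb z hc N) hφ)
    (l := (1 + 16 * 2 ^ 18) ^ 2) (by positivity)
    fun x t _ h' => top_le hc hd hN hφ h0 x h').trans (mul_le_mul_of_nonneg_right
      (by unfold Ch; nlinarith) (integral_nonneg fun _ => sq_nonneg _))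
  test a ha m := (test_le hc hC HT n ha m).trans (mul_le_mul_of_nonneg_right
      (by unfold Ch; nlinarith) (ms_nonneg _ _))

theorem disc_bound {C : ℝ} (hC : 0 ≤ C) : ∃ K : ℝ, 0 < K ∧ ∀ (σ w : Measure X) [IsFiniteMeasure σ]
    [IsFiniteMeasure w] (N : ℕ) (c : ℂ), ‖c‖ ≤ 1 → MaxH z σ w C → MaxH z w σ C →
    TestH z σ w c N C → TestH z w σ (conj c) N C → ∀ f g : X → ℝ, Bm f → Bm g →
    (∀ x, 1 - ‖z.Z x‖ ≤ (1 / 2) ^ N → f x = 0) → (∀ x, 1 - ‖z.Z x‖ ≤ (1 / 2) ^ N → g x = 0) →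
    |∫ x, T σ (z.k0 c) f x * g x ∂w| ≤ K * (∫ y, f y ^ 2 ∂σ + ∫ x, g x ^ 2 ∂w) := by
  refine ⟨5 * Cm 17 (125 / 128) (Ch C) + Ch C + 1, by unfold Cm Ch; positivity,
    fun σ w _ _ N c hc M1 M2 T1 T2 f g hf hg f0 g0 => ?_⟩
  have h2 := fun n => hyp (by simpa using hc) hC M2 T2 n
  rw [← kt_swap] at h2
  have := bil_bound (Γ := z.grid N) (fun n => hyp hc hC M1 T1 n) h2 good_card hf hg f0 g0
  have e : T σ (z.kt N c) f = T σ (z.k0 c) f := by
    funext x
    refine integral_congr_ae (Eventually.of_forall fun y => ?_)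
    simp only [Pt.kt]
    split_ifs with h
    · simp [f0 y h.2.1]
    · rfl
  rwa [e] at this

end Pool.Agent.H103Z.Bg
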