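import Mathlib
import Pool.Agent.H103Z.BgDisc

set_option autoImplicit false
open MeasureTheory Filter Set Real
open scoped ComplexConjugate ENNReal NNReal Topology

namespace Pool.Agent.H103Z.Bg

/-- normalised area measure on the disc -/
noncomputable def mu : Measure ℂ := (ENNReal.ofReal (Real.pi⁻¹)) • volume.restrict (Metric.ball 0 1)

/-- Carleson boxes -/
def Qb (θ l : ℝ) : Set ℂ := {z : ℂ | z ≠ 0 ∧ ‖z‖ < 1 ∧ 1 - ‖z‖ ≤ l ∧
  ∃ t ∈ Set.Icc θ (θ + 2 * Real.pi * l), z / ((‖z‖ : ℝ) : ℂ) = Complex.exp ((t : ℂ) * Complex.I)}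

/-- the maximal function -/
noncomputable def Mx (α : Measure ℂ) (f : ℂ → ℂ) (x : ℂ) : ℝ≥0∞ :=
  ⨆ (θ : ℝ) (l : ℝ) (_ : 0 < l ∧ l ≤ 1 ∧ x ∈ Qb θ l), (∫⁻ ζ in Qb θ l, ‖f ζ‖ₑ ∂α) / mu (Qb θ l)

/-- the Bergman projection -/
noncomputable def Pj (α : Measure ℂ) (f : ℂ → ℂ) (x : ℂ) : ℂ := ∫ ζ, f ζ / (1 - x * conj ζ) ^ 2 ∂α

open Classical in
/-- the identity of the disc, extended by zero -/
noncomputable def z0 : Pt ℂ where
  Z x := if ‖x‖ < 1 then x else 0
  meas := Measurable.ite (measurableSet_lt measurable_norm measurable_const) measurable_id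
    measurable_const
  lt x := by split_ifs with h <;> simp [h]

lemma z0_eq {x : ℂ} (h : ‖x‖ < 1) : z0.Z x = x := if_pos h

lemma Qb_meas (θ l : ℝ) : MeasurableSet (Qb θ l) := by
  have h : IsCompact ((fun t : ℝ => Complex.exp ((t : ℂ) * Complex.I)) ''
      Set.Icc θ (θ + 2 * Real.pi * l)) := isCompact_Icc.image (by fun_prop)
  have h1 : Measurable fun z : ℂ => z / ((‖z‖ : ℝ) : ℂ) := by fun_prop
  refine (measurableSet_singleton 0).compl.inter ((measurableSet_lt measurable_norm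
    measurable_const).inter ((measurableSet_le (measurable_const.sub measurable_norm)
      measurable_const).inter ?_))
  convert h1 h.isClosed.measurableSet using 1
  ext z
  simp only [mem_preimage, mem_image, eq_comm]
  rfl

lemma mu_le (S : Set ℂ) : mu S ≤ ENNReal.ofReal π⁻¹ * volume S := by
  rw [mu, Measure.smul_apply, smul_eq_mul]
  gcongr
  exact Measure.restrict_le_self

lemma mu_ball {S : Set ℂ} {a : ℂ} {r : ℝ} (hr : 0 ≤ r) (h : S ⊆ Metric.closedBall a r) :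
    mu S ≤ ENNReal.ofReal (r ^ 2) := by
  refine (measure_mono h).trans ((mu_le _).trans (le_of_eq ?_))
  rw [Complex.volume_closedBall, ← ENNReal.ofReal_pow hr, ← ENNReal.ofReal_coe_nnreal,
    ← ENNReal.ofReal_mul (by positivity), ← ENNReal.ofReal_mul (by positivity), NNReal.coe_real_pi]
  congr 1
  field_simp

lemma mu_Qb (θ : ℝ) {l : ℝ} (hl : 0 ≤ l) : mu (Qb θ l) ≤ ENNReal.ofReal ((8 * l) ^ 2) := by
  refine mu_ball (a := ee (θ / (2 * π))) (by positivity) ?_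
  rintro x ⟨h0, h1, h2, t, ⟨t1, t2⟩, h3⟩
  have e : Complex.exp ((t : ℂ) * Complex.I) = ee (t / (2 * π)) := by
    rw [ee, mul_div_cancel₀ _ two_pi_pos.ne']
  have h4 := ee_sub (t / (2 * π)) (θ / (2 * π))
  rw [← sub_div, abs_of_nonneg (div_nonneg (by linarith) two_pi_pos.le)] at h4
  have h5 : (t - θ) / (2 * π) ≤ l := by rw [div_le_iff₀ two_pi_pos]; linarith
  have h6 : ‖x - ee (t / (2 * π))‖ ≤ l := by
    rw [e, div_eq_iff (by simpa using h0)] at h3
    conv_lhs => rw [h3]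
    rw [← mul_sub_one, norm_mul, ee_norm, one_mul, ← Complex.ofReal_one, ← Complex.ofReal_sub,
      Complex.norm_real, Real.norm_eq_abs, abs_sub_comm, abs_of_pos (sub_pos.2 h1)]
    exact h2
  rw [Metric.mem_closedBall, dist_eq_norm]
  linarith [norm_sub_le_norm_sub_add_norm_sub x (ee (t / (2 * π))) (ee (θ / (2 * π)))]

lemma mu_ae (v : ℂ) : ∀ᵐ x ∂mu, ‖x‖ < 1 ∧ x ∉ Submodule.span ℝ {v} := by
  have h1 : ∀ᵐ x ∂(volume : Measure ℂ), x ∉ Submodule.span ℝ {v} := by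
    refine measure_eq_zero_iff_ae_notMem.1 (Measure.addHaar_submodule _ _ fun h => ?_)
    have := finrank_span_le_card (R := ℝ) ({v} : Set ℂ)
    rw [h] at this
    simp at this
  refine Measure.ae_smul_measure ?_ _
  filter_upwards [ae_restrict_mem measurableSet_ball, ae_restrict_of_ae h1] with x hx hx'
  exact ⟨by simpa using hx, hx'⟩

lemma mu_ae0 : ∀ᵐ x ∂mu, ‖x‖ < 1 ∧ x ≠ 0 :=
  (mu_ae 0).mono fun x hx => ⟨hx.1, by simpa using hx.2⟩

lemma mem_Qb {x y : ℂ} (hx : x ≠ 0) (hy : y ≠ 0) (hy1 : ‖y‖ < 1) {l : ℝ} (h1 : 1 - ‖y‖ ≤ l)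
    (h2 : |Complex.arg (y / x)| ≤ π * l) : y ∈ Qb (Complex.arg x - π * l) l := by
  refine ⟨hy, hy1, h1, Complex.arg x + Complex.arg (y / x), ⟨by linarith [(abs_le.1 h2).1],
    by linarith [(abs_le.1 h2).2]⟩, ?_⟩
  have e1 := Complex.norm_mul_exp_arg_mul_I x
  have e2 := Complex.norm_mul_exp_arg_mul_I (y / x)
  have hx' : ((‖x‖ : ℝ) : ℂ) ≠ 0 := by simpa using hx
  rw [norm_div, eq_div_iff hx] at e2
  rw [div_eq_iff (by simpa using hy)]
  push_cast at e2 ⊢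
  rw [add_mul, Complex.exp_add]
  generalize Complex.exp (Complex.arg x * Complex.I) = a at *
  field_simp at e2
  refine mul_left_cancel₀ hx' ?_
  linear_combination -e2 - Complex.exp (Complex.arg (y / x) * Complex.I) * ‖y‖ * e1

lemma arg_le {x y : ℂ} (hx : x ≠ 0) : |Complex.arg (y / x)| ≤ π * ‖1 - x * conj y‖ := by
  have h1 := Complex.abs_arg_le_pi (y / x)
  have e : y * conj x = (‖x‖ ^ 2 * ‖y / x‖ : ℝ) * ee (Complex.arg (y / x) / (2 * π)) := by
    rw [ee, mul_div_cancel₀ _ two_pi_pos.ne']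
    push_cast
    rw [mul_assoc, Complex.norm_mul_exp_arg_mul_I, ← Complex.mul_conj']
    field_simp
  have h2 := ee_sep (ρ := ‖x‖ ^ 2 * ‖y / x‖) (by positivity) (abs_nonneg _) le_rfl
    (y := Complex.arg (y / x) / (2 * π)) (by
      rw [le_sub_iff_add_le, abs_div, abs_of_pos two_pi_pos, ← add_div, div_le_one two_pi_pos]
      linarith)
  rw [← e, abs_div, abs_of_pos two_pi_pos, ← Complex.norm_conj] at h2
  simp only [map_sub, map_one, map_mul, Complex.conj_conj, mul_comm (conj y)] at h2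
  refine le_trans (le_of_eq ?_) (mul_le_mul_of_nonneg_left h2 pi_pos.le)
  field_simp

variable {α β : Measure ℂ}

lemma Mx_le (f : ℂ → ℂ) {x : ℂ} {θ l : ℝ} (h0 : 0 < l) (h1 : l ≤ 1) (hx : x ∈ Qb θ l) (hα : α ≪ mu) :
    ∫⁻ ζ in Qb θ l, ‖f ζ‖ₑ ∂α ≤ Mx α f x * mu (Qb θ l) := by
  rcases eq_or_ne (mu (Qb θ l)) 0 with h | h
  · rw [setLIntegral_measure_zero _ _ (hα h)]
    exact zero_le
  · rw [← ENNReal.div_le_iff h ((mu_Qb θ h0.le).trans_lt ENNReal.ofReal_lt_top).ne]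
    exact le_iSup₂_of_le θ l (le_iSup_of_le ⟨h0, h1, hx⟩ le_rfl)

/-- two weight bound for the maximal function -/
def MB (α β : Measure ℂ) (C : ℝ≥0) : Prop := ∀ f : ℂ → ℂ, AEStronglyMeasurable f mu →
  ∫⁻ z, Mx α f z ^ 2 ∂β ≤ C * ∫⁻ ζ, ‖f ζ‖ₑ ^ 2 ∂α

lemma MB.finite {C : ℝ≥0} (h : MB α β C) (hα : α ≪ mu) (hβ : β ≪ mu) {S : Set ℂ}
    (hS : MeasurableSet S) (h0 : α S ≠ 0) (h1 : α S ≠ ⊤) : IsFiniteMeasure β := by
  have h2 := h (S.indicator 1) (measurable_one.indicator hS).aestronglyMeasurable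
  have e : ∀ n ≠ 0, ∫⁻ ζ, ‖S.indicator (1 : ℂ → ℂ) ζ‖ₑ ^ n ∂α = α S := by
    intro n hn
    rw [← lintegral_indicator_one hS]
    refine lintegral_congr fun x => ?_
    by_cases hx : x ∈ S <;> simp [hx, hn]
  have h3 : ∀ᵐ x ∂β, (α S / 64) ^ 2 ≤ Mx α (S.indicator 1) x ^ 2 := by
    filter_upwards [hβ.ae_le mu_ae0] with x hx
    have h4 : ∀ y : ℂ, ‖y‖ < 1 ∧ y ≠ 0 → y ∈ Qb (Complex.arg x - π * 1) 1 := fun y hy =>
      mem_Qb hx.2 hy.2 hy.1 (by simp) (by simpa using Complex.abs_arg_le_pi _)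
    have h5 := Mx_le (S.indicator 1) one_pos le_rfl (h4 x hx) hα
    rw [Measure.restrict_eq_self_of_ae_mem (Eventually.mono (hα.ae_le mu_ae0) h4)] at h5
    have h6 := e 1 one_ne_zero
    simp only [pow_one] at h6
    rw [h6] at h5
    gcongr
    refine ENNReal.div_le_of_le_mul (h5.trans ?_)
    gcongr
    simpa using mu_Qb _ zero_le_one |>.trans (le_of_eq (by norm_num))
  have h4 := (lintegral_mono_ae h3).trans h2
  rw [e 2 two_ne_zero, lintegral_const] at h4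
  refine ⟨lt_top_iff_ne_top.2 fun h => ?_⟩
  rw [h, ENNReal.mul_top (by simp [h0])] at h4
  exact (ENNReal.mul_ne_top ENNReal.coe_ne_top h1) (top_le_iff.1 h4)

variable [IsFiniteMeasure α] [IsFiniteMeasure β]

omit [IsFiniteMeasure β] in
lemma lint_sq {φ : ℂ → ℝ} (hφ : Bm φ) :
    ∫⁻ x, ‖(φ x : ℂ)‖ₑ ^ 2 ∂α = ENNReal.ofReal (∫ x, φ x ^ 2 ∂α) := by
  rw [ofReal_integral_eq_lintegral_ofReal hφ.sq.int (Eventually.of_forall fun _ => sq_nonneg _)]
  refine lintegral_congr fun x => ?_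
  rw [← ofReal_norm, ← ENNReal.ofReal_pow (norm_nonneg _), Complex.norm_real,
    Real.norm_eq_abs, sq_abs]

lemma MB.maxH {C : ℝ≥0} (h : MB α β C) (hα : α ≪ mu) (hβ : β ≪ mu) :
    MaxH z0 α β (64 ^ 2 * C) := by
  intro φ F hφ hF H
  have hm := Complex.measurable_ofReal.comp hφ.1
  have h1 := h (fun x => φ x) hm.aestronglyMeasurable
  have h2 : ∀ᵐ x ∂β, ‖(F x : ℂ)‖ₑ ^ 2 ≤ 64 ^ 2 * Mx α (fun x => φ x) x ^ 2 := by
    filter_upwards [hβ.ae_le mu_ae0] with x hx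
    rw [← mul_pow]
    gcongr
    rcases eq_or_ne (Mx α (fun x => φ x) x) ⊤ with e | e
    · simp [e]
    have h3 := H x (64 * (Mx α (fun x => φ x) x).toReal) fun R hR => by
      by_cases h4 : 1 - ‖x‖ ≤ R
      swap
      · have : ∀ y, ch {y | ‖z0.u x y‖ ≤ R} y = 0 := fun y => ch_of_not fun h => h4 (by
          have := u_ge' z0 x y
          rw [z0_eq hx.1] at this
          exact this.trans h)
        simp only [this, zero_mul, integral_zero]
        positivity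
      have l0 : 0 < min R 1 := lt_min hR one_pos
      have h5 := Mx_le (fun x => φ x) l0 (min_le_right _ _) (mem_Qb hx.2 hx.2 hx.1
        (le_min h4 (by simp)) (by rw [div_self hx.2, Complex.arg_one, abs_zero]; positivity)) hα
      rw [← ENNReal.ofReal_le_ofReal_iff (by positivity), ofReal_integral_eq_lintegral_ofReal
        ((ball_bm x R).mul hφ.abs).int (Eventually.of_forall fun y =>
          mul_nonneg (ch_nonneg _ _) (abs_nonneg _))]
      refine le_trans ?_ (h5.trans ?_)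
      · rw [← lintegral_indicator (Qb_meas _ _)]
        refine lintegral_mono_ae ?_
        filter_upwards [hα.ae_le mu_ae0] with y hy
        by_cases h6 : ‖z0.u x y‖ ≤ R
        swap
        · simp [ch_of_not (S := {y | ‖z0.u x y‖ ≤ R}) h6]
        rw [ch_of_mem (S := {y | ‖z0.u x y‖ ≤ R}) h6, one_mul, indicator_of_mem,
          ← ofReal_norm, Complex.norm_real, Real.norm_eq_abs]
        have h7 := u_ge z0 x y
        have h8 := arg_le (y := y) hx.2
        rw [Pt.u, z0_eq hx.1, z0_eq hy.1] at h6 h7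
        refine mem_Qb hx.2 hy.2 hy.1 (le_min (h7.trans h6) (by simp)) ?_
        rw [mul_min_of_nonneg _ _ pi_pos.le, mul_one]
        exact le_min (h8.trans (by gcongr)) (Complex.abs_arg_le_pi _)
      · rw [mul_comm 64, mul_assoc, ENNReal.ofReal_mul ENNReal.toReal_nonneg,
          ENNReal.ofReal_toReal e]
        gcongr
        refine (mu_Qb _ l0.le).trans (ENNReal.ofReal_le_ofReal ?_)
        nlinarith [min_le_left R 1]
    rw [← ofReal_norm, Complex.norm_real, Real.norm_eq_abs]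
    refine (ENNReal.ofReal_le_ofReal h3).trans (le_of_eq ?_)
    rw [ENNReal.ofReal_mul (by norm_num), ENNReal.ofReal_toReal e]
    simp
  have h3 := lintegral_mono_ae h2
  rw [lintegral_const_mul' _ _ (by simp), lint_sq hF] at h3
  rw [lint_sq hφ] at h1
  have g : 0 ≤ ∫ x, φ x ^ 2 ∂α := integral_nonneg fun _ => sq_nonneg _
  rw [← ENNReal.ofReal_le_ofReal_iff (by positivity), mul_assoc, ENNReal.ofReal_mul (by positivity),
    ENNReal.ofReal_mul (by positivity), ENNReal.ofReal_coe_nnreal]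
  refine h3.trans ?_
  gcongr
  simp

omit [IsFiniteMeasure α] [IsFiniteMeasure β] in
lemma Pj_int (hα : α ≪ mu) {f : ℂ → ℂ} (hf : Integrable f α) {x : ℂ} (hx : ‖x‖ < 1) :
    (∀ᵐ y ∂α, ‖((1 - x * conj y) ^ 2)⁻¹‖ ≤ ((1 - ‖x‖) ^ 2)⁻¹) ∧
    Integrable (fun y => f y / (1 - x * conj y) ^ 2) α := by
  have h : ∀ᵐ y ∂α, ‖((1 - x * conj y) ^ 2)⁻¹‖ ≤ ((1 - ‖x‖) ^ 2)⁻¹ := by
    filter_upwards [hα.ae_le mu_ae0] with y hy
    have := u_ge' z0 x y
    rw [Pt.u, z0_eq hx, z0_eq hy.1] at this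
    have := sub_pos.2 hx
    rw [norm_inv, norm_pow]
    gcongr
  refine ⟨h, ?_⟩
  simp only [div_eq_mul_inv]
  refine hf.mul_bdd (Measurable.aestronglyMeasurable ?_) h
  exact ((measurable_const.sub (measurable_const.mul
    Complex.continuous_conj.measurable)).pow_const 2).inv

omit [IsFiniteMeasure β] in
lemma T_eq (hα : α ≪ mu) (c : ℂ) {φ : ℂ → ℝ} (hφ : Bm φ) {x : ℂ} (hx : ‖x‖ < 1) :
    T α (z0.k0 c) φ x = (c * Pj α (fun y => φ y) x).re := by
  have h := ((Pj_int hα hφ.int.ofReal hx).2.const_mul c)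
  rw [Pj, ← integral_const_mul]
  refine Eq.trans (integral_congr_ae ?_) (integral_re h)
  filter_upwards [hα.ae_le mu_ae0] with y hy
  rw [Pt.k0, Pt.u, z0_eq hx, z0_eq hy.1, mul_comm, ← Complex.re_ofReal_mul]
  congr 1
  simp only [Complex.coe_algebraMap]
  ring

omit [IsFiniteMeasure β] in
lemma T_le (hα : α ≪ mu) {c : ℂ} (hc : ‖c‖ ≤ 1) {φ : ℂ → ℝ} (hφ : Bm φ) {x : ℂ} (hx : ‖x‖ < 1) :
    ‖(T α (z0.k0 c) φ x : ℂ)‖ₑ ≤ ‖Pj α (fun y => φ y) x‖ₑ := by
  rw [enorm_le_iff_norm_le, Complex.norm_real, T_eq hα c hφ hx]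
  refine (Complex.abs_re_le_norm _).trans ?_
  rw [norm_mul]
  exact mul_le_of_le_one_left (norm_nonneg _) hc

omit [IsFiniteMeasure β] in
lemma Pj_sq (hα : α ≪ mu) {φ : ℂ → ℝ} (hφ : Bm φ) {x : ℂ} (hx : ‖x‖ < 1) :
    ‖Pj α (fun y => φ y) x‖ ^ 2 = T α (z0.k0 1) φ x ^ 2 + T α (z0.k0 Complex.I) φ x ^ 2 := by
  rw [T_eq hα _ hφ hx, T_eq hα _ hφ hx, Complex.sq_norm, Complex.normSq_apply]
  simp
  ring

lemma box_ae {N n a m : ℕ} (ha : a ≤ N) (hm : m < 2 ^ a) : ∀ᵐ y ∂mu,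
    y ∈ ((z0.grid N).rot n).Box a m ↔ y ∈ Qb (2 * π * (m / 2 ^ a - n / 2 ^ N)) ((1 / 2) ^ a) := by
  filter_upwards [mu_ae (ee ((m + 1) / 2 ^ a - n / 2 ^ N))] with y hy
  have y0 : y ≠ 0 := fun h => hy.2 (h ▸ Submodule.zero_mem _)
  have y1 : ((‖y‖ : ℝ) : ℂ) ≠ 0 := by simpa using y0
  have e := z0_eq hy.1
  have hA : y ∈ ((z0.grid N).rot n).A a ↔ 1 - ‖y‖ ≤ (1 / 2) ^ a := by
    change 1 - ‖z0.Z y‖ ≤ _ ↔ _
    rw [e]
  have hp := two_pi_pos
  constructor
  · intro h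
    obtain ⟨s, s1, s2, s3⟩ := box_s z0 ha h.2
    rw [e] at s3
    rw [add_div, ← one_div_pow] at s2
    refine ⟨y0, hy.1, hA.1 h.1, 2 * π * (s - n / 2 ^ N), ⟨by gcongr, by nlinarith⟩, ?_⟩
    rw [div_eq_iff y1, mul_comm]
    exact s3
  · rintro ⟨-, -, h1, t, ⟨t1, t2⟩, h2⟩
    refine ⟨hA.2 h1, ?_⟩
    obtain ⟨s, s1, s2, s3⟩ := box_s z0 ha (x := y) (n := n) rfl
    have k1 := ((z0.grid N).rot n).idx_lt' ha y
    generalize ((z0.grid N).rot n).idx a y = k at *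
    rw [e] at s3
    set s' : ℝ := t / (2 * π) + n / 2 ^ N with hs'
    have e1 : Complex.exp ((t : ℂ) * Complex.I) = ee (s' - n / 2 ^ N) := by
      rw [hs', add_sub_cancel_right, ee, mul_div_cancel₀ _ hp.ne']
    rw [e1, div_eq_iff y1, mul_comm] at h2
    have g1 : m / 2 ^ a ≤ s' := by
      rw [hs', ← sub_le_iff_le_add, le_div_iff₀' hp]
      exact t1
    have g2 : s' < (m + 1) / 2 ^ a := by
      refine lt_of_le_of_ne ?_ fun h => hy.2 ?_
      · rw [hs', ← le_sub_iff_add_le, div_le_iff₀' hp, add_div, ← one_div_pow]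
        linarith
      · rw [h2, h]
        exact Submodule.smul_mem _ ‖y‖ (Submodule.mem_span_singleton_self _)
    obtain ⟨j, hj⟩ := Complex.exp_eq_exp_iff_exists_int.1 (mul_left_cancel₀ y1 (h2.symm.trans s3))
    have g3 : s' = s + j := by
      have := congrArg Complex.im hj
      simp only [Complex.mul_im, Complex.ofReal_re, Complex.I_im, Complex.ofReal_im, Complex.I_re,
        Complex.add_im, Complex.intCast_re, Complex.intCast_im, Complex.mul_re, Complex.re_ofNat,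
        Complex.im_ofNat] at this
      refine mul_left_cancel₀ hp.ne' ?_
      linarith
    have hP : (0 : ℝ) < 2 ^ a := by positivity
    have b1 : ∀ {m : ℕ}, m < 2 ^ a → ((m : ℝ) + 1) / 2 ^ a ≤ 1 := fun h => by
      rw [div_le_one hP]
      exact_mod_cast h
    have b2 : ∀ m : ℕ, (0 : ℝ) ≤ m / 2 ^ a := fun m => by positivity
    have g4 : j = 0 := by
      have : (j : ℝ) < 1 := by linarith [b1 hm, b2 k]
      have : (-1 : ℝ) < j := by linarith [b1 k1, b2 m]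
      have : j < 1 ∧ -1 < j := ⟨by exact_mod_cast ‹(j : ℝ) < 1›, by exact_mod_cast this⟩
      omega
    rw [g4, Int.cast_zero, add_zero] at g3
    rw [g3] at g1 g2
    have c1 := (div_lt_div_iff_of_pos_right hP).1 (s1.trans_lt g2)
    have c2 := (div_lt_div_iff_of_pos_right hP).1 (g1.trans_lt s2)
    have : k < m + 1 ∧ m < k + 1 := ⟨by exact_mod_cast c1, by exact_mod_cast c2⟩
    omega

/-- the testing condition -/
def TB (α β : Measure ℂ) (C : ℝ≥0) : Prop := ∀ θ l : ℝ, 0 < l → l ≤ 1 →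
  ∫⁻ z, ‖Pj α ((Qb θ l).indicator 1) z‖ₑ ^ 2 ∂β ≤ C * α (Qb θ l)

omit [IsFiniteMeasure β] in
lemma TB.testH {C : ℝ≥0} (h : TB α β C) (hα : α ≪ mu) (hβ : β ≪ mu) {c : ℂ} (hc : ‖c‖ ≤ 1)
    (N : ℕ) : TestH z0 α β c N C := by
  intro n a ha m
  by_cases hm : m < 2 ^ a
  swap
  · have : ∀ y, ch (((z0.grid N).rot n).Box a m) y = 0 := fun y => ch_of_not fun h =>
      hm (h.2 ▸ ((z0.grid N).rot n).idx_lt' ha y)
    simp [T, this]
  have hb := ((z0.grid N).rot n).bBox a m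
  have h1 := h (2 * π * (m / 2 ^ a - n / 2 ^ N)) ((1 / 2) ^ a) (by positivity)
    (pow_le_one₀ (by norm_num) (by norm_num))
  have h2 := hα.ae_le (box_ae (n := n) ha hm)
  have e1 : Pj α ((Qb (2 * π * (m / 2 ^ a - n / 2 ^ N)) ((1 / 2) ^ a)).indicator 1) =
      Pj α fun y => ch (((z0.grid N).rot n).Box a m) y := by
    funext x
    refine integral_congr_ae ?_
    filter_upwards [h2] with y hy
    by_cases h : y ∈ ((z0.grid N).rot n).Box a m
    · rw [ch_of_mem h, indicator_of_mem (hy.1 h)]; simp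
    · rw [ch_of_not h, indicator_of_notMem (mt hy.2 h)]; simp
  have e2 : α (Qb (2 * π * (m / 2 ^ a - n / 2 ^ N)) ((1 / 2) ^ a)) =
      ENNReal.ofReal (∫ y, ch (((z0.grid N).rot n).Box a m) y ∂α) := by
    rw [ofReal_integral_eq_lintegral_ofReal hb.int (Eventually.of_forall (ch_nonneg _)),
      ← lintegral_indicator_one (Qb_meas _ _)]
    refine lintegral_congr_ae ?_
    filter_upwards [h2] with y hy
    by_cases h : y ∈ ((z0.grid N).rot n).Box a m
    · rw [ch_of_mem h, indicator_of_mem (hy.1 h)]; simp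
    · rw [ch_of_not h, indicator_of_notMem (mt hy.2 h)]; simp
  rw [e1, e2, ← ENNReal.ofReal_coe_nnreal, ← ENNReal.ofReal_mul C.coe_nonneg] at h1
  have hm : Measurable fun x => T α (z0.k0 c) (ch (((z0.grid N).rot n).Box a m)) x ^ 2 :=
    (((k0_meas z0 c).mul (hb.1.comp measurable_snd)).stronglyMeasurable.integral_prod_right'
      (ν := α)).measurable.pow_const 2
  have h3 : ∫⁻ x, ENNReal.ofReal (T α (z0.k0 c) (ch (((z0.grid N).rot n).Box a m)) x ^ 2) ∂β ≤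
      ENNReal.ofReal (C * ∫ y, ch (((z0.grid N).rot n).Box a m) y ∂α) := by
    refine le_trans (lintegral_mono_ae ?_) h1
    filter_upwards [hβ.ae_le mu_ae0] with x hx
    refine le_trans (le_of_eq ?_) (pow_le_pow_left' (T_le hα hc hb hx.1) 2)
    rw [← ofReal_norm, ← ENNReal.ofReal_pow (norm_nonneg _), Complex.norm_real,
      Real.norm_eq_abs, sq_abs]
  have h4 : Integrable (fun x => T α (z0.k0 c) (ch (((z0.grid N).rot n).Box a m)) x ^ 2) β :=
    ⟨hm.aestronglyMeasurable, (hasFiniteIntegral_iff_ofReal (Eventually.of_forall fun _ =>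
      sq_nonneg _)).2 (h3.trans_lt ENNReal.ofReal_lt_top)⟩
  refine ⟨h4, ?_⟩
  rwa [← ofReal_integral_eq_lintegral_ofReal h4 (Eventually.of_forall fun _ => sq_nonneg _),
    ENNReal.ofReal_le_ofReal_iff (mul_nonneg C.coe_nonneg (ms_nonneg _ _))] at h3

end Pool.Agent.H103Z.Bg
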