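import Mathlib
import Pool.Agent.H103Z.BgRed

set_option autoImplicit false
open MeasureTheory Filter Set Real
open scoped ComplexConjugate ENNReal NNReal Topology

namespace Pool.Agent.H103Z.Bg

variable {α β : Measure ℂ} [IsFiniteMeasure α] [IsFiniteMeasure β]

omit [IsFiniteMeasure α] in
lemma fatou {G : ℕ → ℂ → ℝ} (hG : ∀ n, Bm (G n)) (h0 : ∀ n x, 0 ≤ G n x) {b : ℝ≥0∞}
    (hb : ∀ n, ENNReal.ofReal (∫ x, G n x ∂β) ≤ b) {v : ℂ → ℂ}
    (h : ∀ᵐ x ∂β, ∃ u : ℕ → ℂ, Tendsto u atTop (𝓝 (v x)) ∧ ∀ᶠ n in atTop, ‖u n‖ ^ 2 ≤ G n x) :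
    ∫⁻ x, ‖v x‖ₑ ^ 2 ∂β ≤ b := by
  refine le_trans (lintegral_mono_ae ?_) ((lintegral_liminf_le (u := atTop)
    fun n => (hG n).1.ennreal_ofReal).trans (liminf_le_of_frequently_le' (Frequently.of_forall
      fun n => ?_)))
  · filter_upwards [h] with x ⟨u, h1, h2⟩
    rw [← ofReal_norm, ← ENNReal.ofReal_pow (norm_nonneg _),
      ← (ENNReal.tendsto_ofReal (h1.norm.pow 2)).liminf_eq]
    exact liminf_le_liminf (h2.mono fun n hn => ENNReal.ofReal_le_ofReal hn)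
  · rw [← ofReal_integral_eq_lintegral_ofReal (hG n).int (Eventually.of_forall (h0 n))]
    exact hb n

/-- the compact part of the disc -/
noncomputable def cut (N : ℕ) : ℂ → ℝ := ch ((z0.grid N).A N)ᶜ

lemma cut_bm (N : ℕ) : Bm (cut N) := Bm_ch ((z0.grid N).mA N).compl

lemma cut_zero {N : ℕ} {x : ℂ} (h : 1 - ‖z0.Z x‖ ≤ (1 / 2) ^ N) : cut N x = 0 :=
  ch_of_not fun h' => h' h

lemma cut_one (x : ℂ) : ∀ᶠ N in atTop, cut N x = 1 :=
  ((tendsto_pow_atTop_nhds_zero_of_lt_one (r := (1 / 2 : ℝ)) (by norm_num) (by norm_num)).eventually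
    (gt_mem_nhds (sub_pos.2 (z0.lt x)))).mono fun _ h => ch_of_mem (not_le.2 h)

omit [IsFiniteMeasure α] in
lemma kt_eq (N : ℕ) (c : ℂ) (φ : ℂ → ℝ) (x : ℂ) :
    T α (z0.k0 c) φ x * cut N x = T α (z0.kt N c) φ x * cut N x := by
  by_cases hx : x ∈ (z0.grid N).A N
  · simp [cut_zero hx]
  · congr 1
    refine integral_congr_ae (Eventually.of_forall fun y => ?_)
    simp only [Pt.kt]
    rw [if_neg fun h => hx h.1]

lemma Tcut_bm (N : ℕ) {c : ℂ} (hc : ‖c‖ ≤ 1) {φ : ℂ → ℝ} (hφ : Bm φ) :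
    Bm fun x => T α (z0.k0 c) φ x * cut N x := by
  simp only [kt_eq]
  exact (T_bm (kt_kb z0 hc N) hφ).mul (cut_bm N)

/-- two weight bound for the projection -/
def PB (α β : Measure ℂ) (C : ℝ≥0) : Prop := ∀ f : ℂ → ℂ, AEStronglyMeasurable f mu →
  Integrable f α → ∫⁻ ζ, ‖f ζ‖ₑ ^ 2 ∂α < ⊤ → ∫⁻ z, ‖Pj α f z‖ₑ ^ 2 ∂β ≤ C * ∫⁻ ζ, ‖f ζ‖ₑ ^ 2 ∂α

theorem sufficient (hα : α ≪ mu) (hβ : β ≪ mu) {C1 C2 C3 : ℝ≥0} (M1 : MB α β C1) (M2 : MB β α C2)
    (T1 : TB α β C3) (T2 : TB β α C3) : ∃ C, PB α β C := by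
  have mM : ∀ {α β : Measure ℂ} {C C' : ℝ}, C ≤ C' → MaxH z0 α β C → MaxH z0 α β C' :=
    fun h H φ F h1 h2 h3 => (H φ F h1 h2 h3).trans (mul_le_mul_of_nonneg_right h
      (integral_nonneg fun _ => sq_nonneg _))
  have mT : ∀ {α β : Measure ℂ} {c : ℂ} {N : ℕ} {C C' : ℝ}, C ≤ C' → TestH z0 α β c N C →
      TestH z0 α β c N C' := fun h H n a ha m => ⟨(H n a ha m).1, (H n a ha m).2.trans
        (mul_le_mul_of_nonneg_right h (ms_nonneg _ _))⟩
  have c1 := C1.coe_nonneg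
  have c2 := C2.coe_nonneg
  have c3 := C3.coe_nonneg
  obtain ⟨K, K0, hK⟩ := disc_bound (z := z0) (C := 64 ^ 2 * C1 + 64 ^ 2 * C2 + C3) (by positivity)
  have key : ∀ (N : ℕ) (c : ℂ), ‖c‖ ≤ 1 → ∀ φ : ℂ → ℝ, Bm φ →
      (∀ x, 1 - ‖z0.Z x‖ ≤ (1 / 2) ^ N → φ x = 0) →
      ∫ x, (T α (z0.k0 c) φ x * cut N x) ^ 2 ∂β ≤ 4 * K ^ 2 * ∫ y, φ y ^ 2 ∂α := by
    intro N c hc φ hφ h0
    have := hK α β N c hc (mM (by linarith) (M1.maxH hα hβ)) (mM (by linarith) (M2.maxH hβ hα))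
      (mT (by linarith) (T1.testH hα hβ hc N))
      (mT (by linarith) (T2.testH hβ hα (by simpa using hc) N)) φ _ hφ
      ((Tcut_bm (α := α) N hc hφ).cmul (2 * K)⁻¹) h0 fun x hx => by simp [cut_zero hx]
    have e : ∀ x, T α (z0.k0 c) φ x * ((2 * K)⁻¹ * (T α (z0.k0 c) φ x * cut N x)) =
        (2 * K)⁻¹ * (T α (z0.k0 c) φ x * cut N x) ^ 2 := fun x => by
      rw [mul_pow, cut, ch_sq]; ring
    simp only [e] at this
    simp only [mul_pow (2 * K)⁻¹, integral_const_mul] at this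
    have h1 := (le_abs_self _).trans this
    generalize ∫ x, (T α (z0.k0 c) φ x * cut N x) ^ 2 ∂β = u at *
    generalize ∫ y, φ y ^ 2 ∂α = v at *
    field_simp at h1
    nlinarith
  refine ⟨(16 * K ^ 2).toNNReal, fun f hf hi _ => ?_⟩
  have hf' := hf.mono_ac hα
  have e := hf'.ae_eq_mk
  have hm := hf'.stronglyMeasurable_mk.measurable
  have e1 : Pj α f = Pj α (hf'.mk f) := funext fun x => integral_congr_ae (by
    filter_upwards [e] with y hy; rw [hy])
  have e2 : ∫⁻ ζ, ‖f ζ‖ₑ ^ 2 ∂α = ∫⁻ ζ, ‖hf'.mk f ζ‖ₑ ^ 2 ∂α := lintegral_congr_ae (by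
    filter_upwards [e] with y hy; rw [hy])
  rw [e1, e2]
  replace hi := hi.congr e
  generalize hf'.mk f = g at hm hi
  set t : ℕ → ℂ → ℝ := fun N y => ch {y | ‖g y‖ ≤ N} y * cut N y with ht
  have tb : ∀ N, Bm (t N) := fun N =>
    (Bm_ch (measurableSet_le hm.norm measurable_const)).mul (cut_bm N)
  have t1 : ∀ N y, |t N y| ≤ 1 := fun N y => by
    exact (abs_of_nonneg (mul_nonneg (ch_nonneg _ _) (ch_nonneg _ _))).trans_le
      (mul_le_one₀ (ch_le _ _) (ch_nonneg _ _) (ch_le _ _))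
  have hb : ∀ (N : ℕ) (l : ℂ → ℝ), Measurable l → (∀ v, |l v| ≤ ‖v‖) →
      Bm fun y => t N y * l (g y) := by
    intro N l h1 h2
    refine ⟨(tb N).1.mul (h1.comp hm), N, fun y => ?_⟩
    by_cases h : ‖g y‖ ≤ N
    · rw [abs_mul]
      exact (mul_le_of_le_one_left (abs_nonneg _) (t1 N y)).trans ((h2 _).trans h)
    · simp [ht, ch_of_not (S := {y | ‖g y‖ ≤ N}) h]
  have b1 := fun N => hb N _ Complex.measurable_re Complex.abs_re_le_norm
  have b2 := fun N => hb N _ Complex.measurable_im Complex.abs_im_le_norm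
  have n1 : ‖(1 : ℂ)‖ ≤ 1 := by simp
  have n2 : ‖Complex.I‖ ≤ 1 := by simp
  have g1 := fun N => (Tcut_bm (α := α) N n1 (b1 N)).sq
  have g2 := fun N => (Tcut_bm (α := α) N n2 (b1 N)).sq
  have g3 := fun N => (Tcut_bm (α := α) N n1 (b2 N)).sq
  have g4 := fun N => (Tcut_bm (α := α) N n2 (b2 N)).sq
  refine fatou (fun N => (((g1 N).add (g2 N)).add ((g3 N).add (g4 N))).cmul 2)
    (fun N x => by positivity) (fun N => ?_) ?_
  · have h0 : ∀ (l : ℂ → ℝ) x, 1 - ‖z0.Z x‖ ≤ (1 / 2) ^ N → t N x * l (g x) = 0 :=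
      fun l x hx => by simp [ht, cut_zero hx]
    rw [integral_const_mul, integral_add ((g1 N).add (g2 N)).int ((g3 N).add (g4 N)).int,
      integral_add (g1 N).int (g2 N).int, integral_add (g3 N).int (g4 N).int]
    have h1 : ENNReal.ofReal (∫ y, (t N y * (g y).re) ^ 2 ∂α + ∫ y, (t N y * (g y).im) ^ 2 ∂α) ≤
        ∫⁻ ζ, ‖g ζ‖ₑ ^ 2 ∂α := by
      rw [← integral_add (b1 N).sq.int (b2 N).sq.int, ofReal_integral_eq_lintegral_ofReal
        ((b1 N).sq.add (b2 N).sq).int (Eventually.of_forall fun _ => by positivity)]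
      refine lintegral_mono fun y => ?_
      rw [← ofReal_norm, ← ENNReal.ofReal_pow (norm_nonneg _), Complex.sq_norm,
        Complex.normSq_apply, mul_pow (t N y), mul_pow (t N y), ← mul_add, ← sq, ← sq]
      exact ENNReal.ofReal_le_ofReal (mul_le_of_le_one_left (by positivity)
        ((sq_le_one_iff_abs_le_one _).2 (t1 N y)))
    refine le_trans ?_ (mul_le_mul_right h1 _)
    change _ ≤ ENNReal.ofReal _ * _
    rw [← ENNReal.ofReal_mul (by positivity)]
    refine ENNReal.ofReal_le_ofReal ?_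
    linarith [key N _ n1 _ (b1 N) (h0 _), key N _ n2 _ (b1 N) (h0 _), key N _ n1 _ (b2 N) (h0 _),
      key N _ n2 _ (b2 N) (h0 _)]
  filter_upwards [hβ.ae_le mu_ae0] with x hx
  refine ⟨fun N => Pj α (fun y => t N y * g y) x, ?_, (cut_one x).mono fun N hN => ?_⟩
  · have h1 := (Pj_int hα hi hx.1).2
    refine tendsto_integral_of_dominated_convergence _ (fun N => ?_) h1.norm
      (fun N => Eventually.of_forall fun y => ?_) (Eventually.of_forall fun y => ?_)
    · simp only [mul_div_assoc]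
      exact (Complex.measurable_ofReal.comp (tb N).1).aestronglyMeasurable.mul h1.1
    · rw [mul_div_assoc, norm_mul, Complex.norm_real]
      exact mul_le_of_le_one_left (norm_nonneg _) (t1 N y)
    · refine tendsto_const_nhds.congr' ?_
      filter_upwards [cut_one y, tendsto_natCast_atTop_atTop.eventually_ge_atTop ‖g y‖] with N h2 h3
      simp [ht, h2, ch_of_mem (S := {y | ‖g y‖ ≤ N}) h3]
  · have e3 : Pj α (fun y => t N y * g y) x = Pj α (fun y => (t N y * (g y).re : ℝ)) x +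
        Complex.I * Pj α (fun y => (t N y * (g y).im : ℝ)) x := by
      unfold Pj
      rw [← integral_const_mul]
      refine Eq.trans (integral_congr_ae (Eventually.of_forall fun y => ?_))
        (integral_add (Pj_int hα (b1 N).int.ofReal hx.1).2
        ((Pj_int hα (b2 N).int.ofReal hx.1).2.const_mul Complex.I))
      simp only [Complex.coe_algebraMap]
      conv_lhs => rw [← Complex.re_add_im (g y)]
      push_cast
      ring
    simp only [hN, mul_one]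
    rw [e3, ← Pj_sq hα (b1 N) hx.1, ← Pj_sq hα (b2 N) hx.1]
    refine (pow_le_pow_left₀ (norm_nonneg _) (norm_add_le _ _) 2).trans ?_
    rw [norm_mul, Complex.norm_I, one_mul]
    exact add_sq_le

omit [IsFiniteMeasure α] in
lemma lint_ind {S : Set ℂ} (hS : MeasurableSet S) :
    ∫⁻ ζ, ‖S.indicator (1 : ℂ → ℂ) ζ‖ₑ ^ 2 ∂α = α S := by
  rw [← lintegral_indicator_one hS]
  refine lintegral_congr fun x => ?_
  by_cases hx : x ∈ S <;> simp [hx]

omit [IsFiniteMeasure β] in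
theorem PB.test1 {C : ℝ≥0} (h : PB α β C) : TB α β C := by
  intro θ l _ _
  have := h ((Qb θ l).indicator 1) (measurable_one.indicator (Qb_meas θ l)).aestronglyMeasurable
    ((integrable_const 1).indicator (Qb_meas θ l))
  rw [lint_ind (Qb_meas θ l)] at this
  exact this (measure_lt_top _ _)

theorem PB.test2 {C : ℝ≥0} (h : PB α β C) (hα : α ≪ mu) (hβ : β ≪ mu) : TB β α (8 * (C + 1)) := by
  intro θ l _ _
  have hb := Bm_ch (Qb_meas θ l)
  have c0 := C.coe_nonneg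
  have key : ∀ (N : ℕ) (c : ℂ), ‖c‖ ≤ 1 → ∫ x, (T β (z0.k0 c) (ch (Qb θ l)) x * cut N x) ^ 2 ∂α ≤
      4 * (C + 1) * ∫ x, ch (Qb θ l) x ∂β := by
    intro N c hc
    have hc' : ‖conj c‖ ≤ 1 := by simpa using hc
    have hg := Tcut_bm (α := β) N hc hb
    have h1 := T_swap (σ := β) (w := α) (kt_kb z0 hc N) hb hg
    have hT := T_bm (σ := α) (kt_kb z0 hc' N) hg
    have h2 := amgm (μ := β) hT hb (t := (2 * (C + 1))⁻¹) (by positivity)
    have e : ∀ x, T β (z0.kt N c) (ch (Qb θ l)) x * (T β (z0.k0 c) (ch (Qb θ l)) x * cut N x) =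
        (T β (z0.k0 c) (ch (Qb θ l)) x * cut N x) ^ 2 := fun x => by
      rw [kt_eq, mul_pow, cut, ch_sq]; ring
    rw [kt_swap] at h1
    simp only [e] at h1
    rw [← h1] at h2
    have h3 := h (fun x => (T β (z0.k0 c) (ch (Qb θ l)) x * cut N x : ℝ))
      (Complex.measurable_ofReal.comp hg.1).aestronglyMeasurable hg.int.ofReal
    rw [lint_sq hg] at h3
    have h4 : ∫⁻ x, ‖(T α (z0.kt N (conj c)) (fun x => T β (z0.k0 c) (ch (Qb θ l)) x * cut N x) x :
        ℂ)‖ₑ ^ 2 ∂β ≤ _ := le_trans (lintegral_mono_ae ?_) (h3 ENNReal.ofReal_lt_top)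
    · have g0 : 0 ≤ ∫ x, (T β (z0.k0 c) (ch (Qb θ l)) x * cut N x) ^ 2 ∂α :=
        integral_nonneg fun _ => sq_nonneg _
      rw [lint_sq hT, ← ENNReal.ofReal_coe_nnreal, ← ENNReal.ofReal_mul c0,
        ENNReal.ofReal_le_ofReal_iff (by positivity)] at h4
      simp only [ch_sq, inv_inv] at h2
      have h5 := ((le_abs_self _).trans h2).trans (add_le_add (mul_le_mul_of_nonneg_left h4
        (by positivity)) le_rfl)
      generalize ∫ x, (T β (z0.k0 c) (ch (Qb θ l)) x * cut N x) ^ 2 ∂α = u at *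
      have h6 : (2 * ((C : ℝ) + 1))⁻¹ * (C * u) ≤ u / 2 := by
        rw [inv_mul_le_iff₀ (by positivity)]
        linarith
      linarith
    · filter_upwards [hβ.ae_le mu_ae0] with x hx
      refine pow_le_pow_left' (le_trans (le_of_eq ?_) (T_le hα hc' hg hx.1)) 2
      congr 2
      refine integral_congr_ae (Eventually.of_forall fun y => ?_)
      simp only [Pt.kt]
      split_ifs with h
      · simp [cut_zero h.2.1]
      · rfl
  have n1 : ‖(1 : ℂ)‖ ≤ 1 := by simp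
  have n2 : ‖Complex.I‖ ≤ 1 := by simp
  have g1 := fun N => (Tcut_bm (α := β) N n1 hb).sq
  have g2 := fun N => (Tcut_bm (α := β) N n2 hb).sq
  refine fatou (fun N => (g1 N).add (g2 N)) (fun N x => by positivity) (fun N => ?_) ?_
  · have e2 : β (Qb θ l) = ENNReal.ofReal (∫ y, ch (Qb θ l) y ∂β) := by
      rw [ofReal_integral_eq_lintegral_ofReal hb.int (Eventually.of_forall (ch_nonneg _)),
        ← lintegral_indicator_one (Qb_meas _ _)]
      refine lintegral_congr fun y => ?_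
      by_cases h : y ∈ Qb θ l <;> simp [ch, h]
    rw [integral_add (g1 N).int (g2 N).int, e2, ← ENNReal.ofReal_coe_nnreal,
      ← ENNReal.ofReal_mul (NNReal.coe_nonneg _)]
    refine ENNReal.ofReal_le_ofReal ?_
    push_cast
    linarith [key N _ n1, key N _ n2]
  filter_upwards [hα.ae_le mu_ae0] with x hx
  refine ⟨_, tendsto_const_nhds, (cut_one x).mono fun N hN => le_of_eq ?_⟩
  simp only [hN, mul_one]
  rw [← Pj_sq hβ hb hx.1]
  congr 3
  funext y
  by_cases h : y ∈ Qb θ l <;> simp [ch, h]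

end Pool.Agent.H103Z.Bg
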