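import Mathlib
import Pool.Agent.H103Z.BgFin

set_option autoImplicit false
open MeasureTheory Filter Set Real
open scoped ComplexConjugate ENNReal NNReal Topology

namespace Pool.Agent.H103Z.Bg

/-- the weighted measure -/
noncomputable def den (ρ : ℂ → ℝ) : Measure ℂ := mu.withDensity fun z => ENNReal.ofReal (ρ z)

instance : SFinite mu := by unfold mu; infer_instance

lemma den_ac (ρ : ℂ → ℝ) : den ρ ≪ mu := withDensity_absolutelyContinuous _ _

variable {ρ : ℂ → ℝ} (h0 : ∀ z ∈ Metric.ball (0 : ℂ) 1, 0 < ρ z)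
  (hl : LocallyIntegrableOn ρ (Metric.ball (0 : ℂ) 1) volume)

include hl in
lemma den_meas : AEMeasurable (fun z => ENNReal.ofReal (ρ z)) mu :=
  (hl.aestronglyMeasurable.aemeasurable.smul_measure _).ennreal_ofReal

include h0 in
lemma den_pos : ∀ᵐ z ∂mu, 0 < ρ z := mu_ae0.mono fun z hz => h0 z (by simpa using hz.1)

include hl in
lemma den_lint (g : ℂ → ℝ≥0∞) : ∫⁻ z, ENNReal.ofReal (ρ z) * g z ∂mu = ∫⁻ z, g z ∂den ρ :=
  (lintegral_withDensity_eq_lintegral_mul_non_measurable₀ _ (den_meas hl) (by simp) g).symm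

include h0 hl in
lemma den_set (S : Set ℂ) (f : ℂ → ℂ) :
    ∫⁻ z in S, ‖(ρ z : ℂ) * f z‖ₑ ∂mu = ∫⁻ z in S, ‖f z‖ₑ ∂den ρ := by
  rw [den, restrict_withDensity', lintegral_withDensity_eq_lintegral_mul_non_measurable₀ _
    (den_meas hl).restrict (by simp)]
  refine lintegral_congr_ae ?_
  filter_upwards [ae_restrict_of_ae (den_pos h0)] with z hz
  rw [enorm_mul, ← ofReal_norm (ρ z : ℂ), Complex.norm_real, Real.norm_of_nonneg hz.le]
  rfl

include h0 hl in
lemma den_Pj (f : ℂ → ℂ) (x : ℂ) :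
    ∫ z, (ρ z : ℂ) * f z / (1 - x * conj z) ^ 2 ∂mu = Pj (den ρ) f x := by
  rw [Pj, den, integral_withDensity_eq_integral_toReal_smul₀ (den_meas hl) (by simp)]
  refine integral_congr_ae ?_
  filter_upwards [den_pos h0] with z hz
  rw [ENNReal.toReal_ofReal hz.le, Complex.real_smul, mul_div_assoc]

include h0 hl in
lemma den_int (f : ℂ → ℂ) : Integrable (fun z => (ρ z : ℂ) * f z) mu ↔ Integrable f (den ρ) := by
  rw [den, integrable_withDensity_iff_integrable_smul₀' (den_meas hl) (by simp)]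
  refine integrable_congr ?_
  filter_upwards [den_pos h0] with z hz
  rw [ENNReal.toReal_ofReal hz.le, Complex.real_smul]

lemma den_apply (S : Set ℂ) : ∫⁻ z in S, ENNReal.ofReal (ρ z) ∂mu = den ρ S :=
  (withDensity_apply' _ S).symm

include h0 hl in
lemma den_ball : den ρ (Metric.closedBall 0 (1 / 2)) ≠ 0 ∧
    den ρ (Metric.closedBall 0 (1 / 2)) ≠ ⊤ := by
  have hs : Metric.closedBall (0 : ℂ) (1 / 2) ⊆ Metric.ball 0 1 :=
    Metric.closedBall_subset_ball (by norm_num)
  have e : mu.restrict (Metric.closedBall 0 (1 / 2)) =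
      ENNReal.ofReal π⁻¹ • volume.restrict (Metric.closedBall (0 : ℂ) (1 / 2)) := by
    rw [mu, Measure.restrict_smul, Measure.restrict_restrict measurableSet_closedBall,
      inter_eq_left.2 hs]
  constructor
  · intro h
    have h1 : mu ≪ den ρ := withDensity_absolutelyContinuous' (den_meas hl)
      ((den_pos h0).mono fun z hz => by simpa using hz)
    have h2 := h1 h
    rw [← Measure.restrict_apply_self, e] at h2
    simp [pi_pos.not_ge, NNReal.pi_ne_zero] at h2
  · rw [← den_apply, e, lintegral_smul_measure, smul_eq_mul]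
    exact ENNReal.mul_ne_top ENNReal.ofReal_ne_top
      (hl.integrableOn_compact_subset hs (isCompact_closedBall _ _)).setLIntegral_lt_top.ne

end Pool.Agent.H103Z.Bg
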