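import Mathlib

set_option autoImplicit false

namespace Pool.Agent.H103Z.Cov

/-- For a colouring `c` of the edges of the complete bipartite graph with classes `A` and `B`,
the graph on all vertices formed by the edges of colour `i`. -/
def colourGraph {A B : Type} {k : ℕ} (c : A → B → Fin k) (i : Fin k) : SimpleGraph (A ⊕ B) :=
  SimpleGraph.fromRel fun u v => ∃ a b, u = Sum.inl a ∧ v = Sum.inr b ∧ c a b = i

/-- Every vertex is incident to an edge of each of the `k` colours. -/
def Spanning {A B : Type} {k : ℕ} (c : A → B → Fin k) : Prop :=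
  (∀ a i, ∃ b, c a b = i) ∧ (∀ b i, ∃ a, c a b = i)

/-- The vertex set is the union of the vertex sets of `m` monochromatic components. -/
def CoveredBy {A B : Type} {k : ℕ} (c : A → B → Fin k) (m : ℕ) : Prop :=
  ∃ C : Fin m → Σ i : Fin k, (colourGraph c i).ConnectedComponent,
    ∀ v : A ⊕ B, ∃ j : Fin m, v ∈ (C j).2.supp

end Pool.Agent.H103Z.Cov
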