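import Mathlib
import Pool.Agent.H103Z.CovDefs

set_option autoImplicit false

namespace Pool.Agent.H103Z.Cov

open Classical Finset

/-- From two cross-agreeing families of words to a spanning colouring. -/
theorem of_families {k : ℕ} [NeZero k] {W : Type} [Finite W] (H1 H2 : Set (Fin k → W))
    (hc : ∀ x ∈ H1, ∀ y ∈ H2, ∃ i, x i = y i)
    (h1 : ∀ x ∈ H1, ∀ i, ∃ y ∈ H2, x i = y i) (h2 : ∀ y ∈ H2, ∀ i, ∃ x ∈ H1, x i = y i)
    (hne : H1.Nonempty) :
    ∃ (A B : Type) (_ : Finite A) (_ : Finite B) (_ : Nonempty A) (_ : Nonempty B)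
      (c : A → B → Fin k), Spanning c ∧ ∀ m, CoveredBy c m →
        ∃ S : Finset (Fin k × W), S.card ≤ m ∧ ∀ x ∈ H1 ∪ H2, ∃ i, (i, x i) ∈ S := by
  choose ag hag using hc
  let c : H1 × Fin k → H2 × Fin k → Fin k := fun a b =>
    if a.1.1 (a.2 + b.2) = b.1.1 (a.2 + b.2) then a.2 + b.2 else ag a.1.1 a.1.2 b.1.1 b.1.2
  have hcol : ∀ (a : H1 × Fin k) (b : H2 × Fin k), a.1.1 (c a b) = b.1.1 (c a b) := by
    intro a b
    simp only [c]
    split_ifs with h
    · exact h
    · exact hag _ _ _ _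
  obtain ⟨x0, hx0⟩ := hne
  obtain ⟨y0, hy0, -⟩ := h1 x0 hx0 0
  refine ⟨H1 × Fin k, H2 × Fin k, inferInstance, inferInstance, ⟨(⟨x0, hx0⟩, 0)⟩,
    ⟨(⟨y0, hy0⟩, 0)⟩, c, ⟨fun a i => ?_, fun b i => ?_⟩, ?_⟩
  · obtain ⟨y, hy, e⟩ := h1 a.1.1 a.1.2 i
    refine ⟨(⟨y, hy⟩, i - a.2), ?_⟩
    simp [c, e]
  · obtain ⟨x, hx, e⟩ := h2 b.1.1 b.1.2 i
    refine ⟨(⟨x, hx⟩, i - b.2), ?_⟩
    simp [c, e]
  · rintro m ⟨C, hC⟩
    let val : (H1 × Fin k) ⊕ (H2 × Fin k) → Fin k → W := Sum.elim (fun a => a.1.1) fun b => b.1.1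
    have hadj : ∀ i u v, (colourGraph c i).Adj u v → val u i = val v i := by
      intro i u v h
      rw [colourGraph, SimpleGraph.fromRel_adj] at h
      rcases h.2 with ⟨a, b, rfl, rfl, rfl⟩ | ⟨a, b, rfl, rfl, rfl⟩
      · exact hcol a b
      · exact (hcol a b).symm
    have hreach : ∀ i u v, (colourGraph c i).Reachable u v → val u i = val v i := by
      intro i u v h
      obtain ⟨p⟩ := h
      induction p with
      | nil => rfl
      | cons h _ ih => exact (hadj i _ _ h).trans ih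
    choose rep hrep using fun j : Fin m => (C j).2.exists_rep
    refine ⟨univ.image fun j => ((C j).1, val (rep j) (C j).1),
      card_image_le.trans (by simp), ?_⟩
    have key : ∀ v, ∃ i, (i, val v i) ∈ univ.image fun j => ((C j).1, val (rep j) (C j).1) := by
      intro v
      obtain ⟨j, hj⟩ := hC v
      refine ⟨(C j).1, mem_image.2 ⟨j, mem_univ _, ?_⟩⟩
      rw [SimpleGraph.ConnectedComponent.mem_supp_iff, ← hrep j] at hj
      rw [hreach _ _ _ (SimpleGraph.ConnectedComponent.exact hj)]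
    rintro x (hx | hx)
    · exact key (Sum.inl (⟨x, hx⟩, 0))
    · exact key (Sum.inr (⟨x, hx⟩, 0))

/-- letters: rows, the heavy letter, light letters -/
abbrev Let (n : ℕ) : Type := Fin n ⊕ Option (Fin (2 * n + 6))

/-- words containing each row letter and the heavy letter twice -/
def HA (n : ℕ) : Set (Fin (n + 3) → Let n) :=
  {x | (∀ r, ∃ i, x i = Sum.inl r) ∧ ∃ i j, i ≠ j ∧ x i = Sum.inr none ∧ x j = Sum.inr none}

/-- constant row words, and words that are heavy except in at most one place -/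
def HB (n : ℕ) : Set (Fin (n + 3) → Let n) :=
  {y | (∃ r, ∀ i, y i = Sum.inl r) ∨ ∃ j, ∀ i, i ≠ j → y i = Sum.inr none}

lemma cross (n : ℕ) : ∀ x ∈ HA n, ∀ y ∈ HB n, ∃ i, x i = y i := by
  rintro x ⟨hr, i, j, hij, hi, hj⟩ y (⟨r, hy⟩ | ⟨l, hy⟩)
  · obtain ⟨i, hi⟩ := hr r
    exact ⟨i, hi.trans (hy i).symm⟩
  · by_cases h : i = l
    · exact ⟨j, hj.trans (hy j fun e => hij (h.trans e.symm)).symm⟩
    · exact ⟨i, hi.trans (hy i h).symm⟩

/-- demands -/
abbrev Dem (n : ℕ) : Type := Fin n ⊕ Bool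

/-- the letter of a demand -/
def dval {n : ℕ} : Dem n → Let n := Sum.elim Sum.inl fun _ => Sum.inr none

lemma word {n : ℕ} (f : Dem n → Fin (n + 3)) (hf : Function.Injective f)
    (g : Fin (n + 3) → Let n) : ∃ x ∈ HA n, (∀ d, x (f d) = dval d) ∧
      ∀ i, (∀ d, f d ≠ i) → x i = g i := by
  refine ⟨Function.extend f dval g, ⟨fun r => ⟨f (Sum.inl r), ?_⟩,
    f (Sum.inr true), f (Sum.inr false), fun e => by simpa using hf e, ?_, ?_⟩,
    fun d => hf.extend_apply _ _ d, fun i hi => ?_⟩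
  · rw [hf.extend_apply]; rfl
  · rw [hf.extend_apply]; rfl
  · rw [hf.extend_apply]; rfl
  · exact Function.extend_apply' _ _ _ fun ⟨d, hd⟩ => hi d hd

lemma every (n : ℕ) (i : Fin (n + 3)) (w : Let n) : ∃ x ∈ HA n, x i = w := by
  have e : Dem n ≃ Fin (n + 2) := Fintype.equivFinOfCardEq (by simp)
  obtain ⟨x, hx, -, h⟩ := word (fun d => i.succAbove (e d))
    (Fin.succAbove_right_injective.comp e.injective) fun _ => w
  exact ⟨x, hx, h i fun d => Fin.succAbove_ne i _⟩

lemma lower (n : ℕ) (S : Finset (Fin (n + 3) × Let n))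
    (hS : ∀ x ∈ HA n ∪ HB n, ∃ i, (i, x i) ∈ S) : 2 * n + 2 ≤ S.card := by
  by_contra hlt
  push Not at hlt
  have hrow : ∀ r : Fin n, ∃ i, (i, Sum.inl r) ∈ S := fun r =>
    hS (fun _ => Sum.inl r) (Or.inr (Or.inl ⟨r, fun _ => rfl⟩))
  have hlight : ∀ i : Fin (n + 3), ∃ l : Fin (2 * n + 6), (i, Sum.inr (some l)) ∉ S := by
    intro i
    by_contra h
    push Not at h
    have : (univ : Finset (Fin (2 * n + 6))).card ≤ S.card :=
      card_le_card_of_injOn (fun l => (i, Sum.inr (some l))) (fun l _ => h l)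
        fun a _ b _ e => by simpa using e
    simp at this
    omega
  choose light hlight using hlight
  let t : Dem n → Finset (Fin (n + 3)) := fun d => univ.filter fun i => (i, dval d) ∉ S
  have hall : ∀ s : Finset (Dem n), s.card ≤ (s.biUnion t).card := by
    intro s
    by_contra hs
    push Not at hs
    set N := s.biUnion t with hN
    let deg : Let n → ℕ := fun w => (S.filter fun p => p.2 = w).card
    have hdeg : ∀ d ∈ s, n + 3 - N.card ≤ deg (dval d) := by
      intro d hd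
      have : Nᶜ.card ≤ deg (dval d) := by
        refine card_le_card_of_injOn (fun i => (i, dval d)) (fun i hi => ?_)
          fun a _ b _ e => by simpa using e
        have hi' : i ∉ N := by simpa using hi
        have : i ∉ t d := fun h => hi' (mem_biUnion.2 ⟨d, hd, h⟩)
        simpa [t] using this
      rw [card_compl] at this
      simpa using this
    have hdeg1 : ∀ r : Fin n, 1 ≤ deg (Sum.inl r) := fun r => by
      obtain ⟨i, hi⟩ := hrow r
      exact card_pos.2 ⟨(i, Sum.inl r), by simp [hi]⟩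
    have htot : ∑ r : Fin n, deg (Sum.inl r) + deg (Sum.inr none) ≤ S.card := by
      have e : S.card = ∑ w : Let n, deg w := card_eq_sum_card_fiberwise fun _ _ => mem_univ _
      rw [e, Fintype.sum_sum_type, Fintype.sum_option]
      omega
    let I : Finset (Fin n) := univ.filter fun r => Sum.inl r ∈ s
    have hI : I.card * (n + 3 - N.card) + (n - I.card) ≤ ∑ r : Fin n, deg (Sum.inl r) := by
      rw [← sum_add_sum_compl I]
      refine add_le_add ?_ ?_
      · exact card_nsmul_le_sum I _ _ fun r hr => hdeg (Sum.inl r) (by simpa [I] using hr)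
      · have := card_nsmul_le_sum Iᶜ (fun r => deg (Sum.inl r)) 1 fun r _ => hdeg1 r
        simpa [card_compl] using this
    have hIn : I.card ≤ n := by simpa using card_le_univ I
    by_cases hh : ∃ b, Sum.inr b ∈ s
    · obtain ⟨b, hb⟩ := hh
      have h3 : n + 3 - N.card ≤ deg (Sum.inr none) := hdeg _ hb
      have h4 : s.card ≤ I.card + 2 := by
        have : s ⊆ I.image Sum.inl ∪ (univ : Finset Bool).image Sum.inr := by
          rintro (r | b) hd
          · exact mem_union_left _ (mem_image_of_mem _ (by simpa [I] using hd))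
          · exact mem_union_right _ (mem_image_of_mem _ (mem_univ _))
        refine (card_le_card this).trans ((card_union_le _ _).trans ?_)
        exact add_le_add card_image_le (card_image_le.trans (by simp))
      obtain ⟨q, hq⟩ := Nat.exists_eq_add_of_le hIn
      have h5 : q + 2 ≤ n + 3 - N.card := by omega
      have h6 := Nat.mul_le_mul_left I.card h5
      have h7 : n - I.card = q := by omega
      nlinarith
    · have h4 : s.card ≤ I.card := by
        have : s ⊆ I.image Sum.inl := by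
          rintro (r | b) hd
          · exact mem_image_of_mem _ (by simpa [I] using hd)
          · exact absurd ⟨b, hd⟩ hh
        exact (card_le_card this).trans card_image_le
      obtain ⟨q, hq⟩ := Nat.exists_eq_add_of_le hIn
      have h5 : q + 4 ≤ n + 3 - N.card := by omega
      have h6 := Nat.mul_le_mul_left I.card h5
      have h7 : n - I.card = q := by omega
      have h8 : 1 ≤ I.card := by omega
      nlinarith
  obtain ⟨f, hf, hft⟩ := (all_card_le_biUnion_card_iff_exists_injective t).1 hall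
  obtain ⟨x, hx, h1, h2⟩ := word f hf fun i => Sum.inr (some (light i))
  obtain ⟨i, hi⟩ := hS x (Or.inl hx)
  by_cases h : ∃ d, f d = i
  · obtain ⟨d, rfl⟩ := h
    rw [h1] at hi
    have := hft d
    simp only [t, mem_filter] at this
    exact this.2 hi
  · rw [h2 i fun d e => h ⟨d, e⟩] at hi
    exact hlight i hi

theorem main (k : ℕ) (hk : 1 ≤ k) :
    ∃ (A B : Type) (_ : Finite A) (_ : Finite B) (_ : Nonempty A) (_ : Nonempty B)
      (c : A → B → Fin k), Spanning c ∧ ∀ m, CoveredBy c m → 2 * k ≤ m + 4 := by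
  by_cases h : k ≤ 2
  · haveI : NeZero k := ⟨by omega⟩
    exact ⟨Fin k, Fin k, inferInstance, inferInstance, ⟨0⟩, ⟨0⟩, fun a b => a + b,
      ⟨fun a i => ⟨i - a, by simp⟩, fun b i => ⟨i - b, by simp⟩⟩, fun m _ => by omega⟩
  · obtain ⟨n, rfl⟩ : ∃ n, k = n + 3 := ⟨k - 3, by omega⟩
    obtain ⟨A, B, i1, i2, i3, i4, c, hc, hm⟩ := of_families (HA n) (HB n) (cross n)
      (fun x _ i => ⟨Function.update (fun _ => Sum.inr none) i (x i),
        Or.inr ⟨i, fun j hj => Function.update_of_ne hj _ _⟩, by simp⟩)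
      (fun y _ i => every n i (y i)) (by
        obtain ⟨x, hx, -⟩ := every n 0 (Sum.inr none)
        exact ⟨x, hx⟩)
    refine ⟨A, B, i1, i2, i3, i4, c, hc, fun m hcov => ?_⟩
    obtain ⟨S, hS, hcv⟩ := hm m hcov
    have := lower n S hcv
    omega

theorem main' (k : ℕ) (hk : 1 ≤ k) :
    ∃ (A B : Type) (_ : Finite A) (_ : Finite B) (_ : Nonempty A) (_ : Nonempty B)
      (c : A → B → Fin k), Spanning c ∧ ∀ m : ℕ, CoveredBy c m →
        2 * (k : ℝ) - 4 ≤ m ∧ 2 * (k : ℝ) - 4 * Real.sqrt k ≤ m := by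
  obtain ⟨A, B, i1, i2, i3, i4, c, hc, hm⟩ := main k hk
  refine ⟨A, B, i1, i2, i3, i4, c, hc, fun m h => ?_⟩
  have h1 : (2 * k : ℝ) ≤ m + 4 := by exact_mod_cast hm m h
  have h2 : (1 : ℝ) ≤ Real.sqrt k := Real.one_le_sqrt.2 (by exact_mod_cast hk)
  constructor <;> linarith

end Pool.Agent.H103Z.Cov
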