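import Mathlib

set_option autoImplicit false
open scoped ContDiff Topology
open Filter

namespace Pool.Agent.H103Z.Flat

/-- positively homogeneous of degree `a`, smooth away from the origin -/
def Hom (g : ℂ → ℂ) (a : ℝ) : Prop :=
  ContDiffOn ℝ ∞ g {0}ᶜ ∧ ∀ (t : ℝ) (x : ℂ), 0 < t → x ≠ 0 → g (t • x) = (t ^ a : ℝ) • g x

lemma Hom.diffAt {g : ℂ → ℂ} {a : ℝ} (h : Hom g a) {x : ℂ} (hx : x ≠ 0) :
    DifferentiableAt ℝ g x :=
  ((h.1.contDiffAt (isOpen_compl_singleton.mem_nhds hx)).differentiableAt (by simp))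

lemma Hom.mul {g k : ℂ → ℂ} {a b : ℝ} (h : Hom g a) (h' : Hom k b) :
    Hom (fun x => g x * k x) (a + b) := by
  refine ⟨h.1.mul h'.1, fun t x ht hx => ?_⟩
  simp only [h.2 t x ht hx, h'.2 t x ht hx, Real.rpow_add ht]
  simp only [Complex.real_smul, Complex.ofReal_mul]
  ring

lemma Hom.neg {g : ℂ → ℂ} {a : ℝ} (h : Hom g a) : Hom (fun x => - g x) a := by
  refine ⟨h.1.neg, fun t x ht hx => ?_⟩
  simp only [h.2 t x ht hx, smul_neg]

lemma Hom.deriv {g : ℂ → ℂ} {a : ℝ} (h : Hom g a) (v : ℂ) :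
    Hom (fun x => fderiv ℝ g x v) (a - 1) := by
  constructor
  · have h1 : ContDiffOn ℝ ∞ (fderiv ℝ g) {0}ᶜ :=
      h.1.fderiv_of_isOpen isOpen_compl_singleton (by simp)
    exact h1.clm_apply contDiffOn_const
  · intro t x ht hx
    have htx : t • x ≠ 0 := smul_ne_zero ht.ne' hx
    have e : (fun y => g (t • y)) =ᶠ[𝓝 x] fun y => (t ^ a : ℝ) • g y := by
      filter_upwards [isOpen_compl_singleton.mem_nhds hx] with y hy using h.2 t y ht hy
    have d1 : HasFDerivAt (fun y => g (t • y))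
        ((fderiv ℝ g (t • x)).comp (t • ContinuousLinearMap.id ℝ ℂ)) x :=
      (h.diffAt htx).hasFDerivAt.comp x ((hasFDerivAt_id x).const_smul t)
    have d2 : HasFDerivAt (fun y => (t ^ a : ℝ) • g y) ((t ^ a : ℝ) • fderiv ℝ g x) x :=
      (h.diffAt hx).hasFDerivAt.const_smul (t ^ a : ℝ)
    have := (d1.congr_of_eventuallyEq e.symm).unique d2
    have h3 := congrArg (fun L : ℂ →L[ℝ] ℂ => L v) this
    simp only [ContinuousLinearMap.comp_apply, smul_apply,
      ContinuousLinearMap.id_apply, map_smul] at h3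
    have h4 : fderiv ℝ g (t • x) v = t⁻¹ • (t • fderiv ℝ g (t • x) v) := by
      rw [smul_smul, inv_mul_cancel₀ ht.ne', one_smul]
    show fderiv ℝ g (t • x) v = _
    rw [h4, h3, smul_smul, Real.rpow_sub_one ht.ne']
    congr 1
    field_simp

lemma Hom.eq_sphere {g : ℂ → ℂ} {a : ℝ} (h : Hom g a) {x : ℂ} (hx : x ≠ 0) :
    ∃ y ∈ Metric.sphere (0 : ℂ) 1, g x = (‖x‖ ^ a : ℝ) • g y := by
  have hn : 0 < ‖x‖ := norm_pos_iff.2 hx
  refine ⟨‖x‖⁻¹ • x, ?_, ?_⟩
  · simp [hn.ne']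
  · rw [← h.2 _ _ hn (smul_ne_zero (inv_ne_zero hn.ne') hx), smul_smul,
      mul_inv_cancel₀ hn.ne', one_smul]

lemma Hom.contSphere {g : ℂ → ℂ} {a : ℝ} (h : Hom g a) :
    ContinuousOn g (Metric.sphere (0 : ℂ) 1) := by
  refine h.1.continuousOn.mono fun y hy => ?_
  rintro rfl
  simp at hy

lemma Hom.bound {g : ℂ → ℂ} {a : ℝ} (h : Hom g a) :
    ∃ C : ℝ, ∀ x : ℂ, x ≠ 0 → ‖g x‖ ≤ C * ‖x‖ ^ a := by
  obtain ⟨C, hC⟩ := (isCompact_sphere (0 : ℂ) 1).exists_bound_of_continuousOn h.contSphere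
  refine ⟨C, fun x hx => ?_⟩
  obtain ⟨y, hy, e⟩ := h.eq_sphere hx
  rw [e, norm_smul, Real.norm_of_nonneg (by positivity), mul_comm]
  exact mul_le_mul_of_nonneg_right (hC y hy) (by positivity)

/-- a homogeneous map of degree one into the slit plane, the identity on the right half plane -/
noncomputable def tau (x : ℂ) : ℂ := x + ((2 * ‖x‖ * Real.smoothTransition (- x.re / ‖x‖) : ℝ) : ℂ)

lemma tau_slit {x : ℂ} (hx : x ≠ 0) : tau x ∈ Complex.slitPlane := by
  have hn : 0 < ‖x‖ := norm_pos_iff.2 hx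
  rw [Complex.mem_slitPlane_iff]
  by_cases hi : x.im = 0
  · left
    have hre : ‖x‖ = |x.re| := by
      rw [← Complex.abs_re_eq_norm.2 hi]
    simp only [tau, Complex.add_re, Complex.ofReal_re]
    rcases lt_trichotomy x.re 0 with h | h | h
    · rw [abs_of_neg h] at hre
      have : - x.re / ‖x‖ = 1 := by rw [← hre]; field_simp
      rw [this, Real.smoothTransition.one]
      linarith
    · rw [h] at hre; simp at hre; exact absurd hre hx
    · have := Real.smoothTransition.nonneg (- x.re / ‖x‖)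
      positivity
  · right
    simpa [tau] using hi

lemma tau_eq {x : ℂ} (hx : 0 ≤ x.re) : tau x = x := by
  have : Real.smoothTransition (- x.re / ‖x‖) = 0 :=
    Real.smoothTransition.zero_of_nonpos (div_nonpos_of_nonpos_of_nonneg (by linarith) (norm_nonneg _))
  simp [tau, this]

lemma tau_smul (t : ℝ) (x : ℂ) (ht : 0 < t) : tau (t • x) = (t : ℂ) * tau x := by
  have e : - (t • x).re / ‖t • x‖ = - x.re / ‖x‖ := by
    rw [norm_smul, Real.norm_of_nonneg ht.le, Complex.real_smul, Complex.re_ofReal_mul,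
      ← mul_neg, mul_div_mul_left _ _ ht.ne']
  rw [tau, e, norm_smul, Real.norm_of_nonneg ht.le, tau, Complex.real_smul]
  push_cast
  ring

lemma tau_smooth {x : ℂ} (hx : x ≠ 0) : ContDiffAt ℝ ∞ tau x := by
  have hn : ContDiffAt ℝ ∞ (fun y : ℂ => ‖y‖) x := contDiffAt_norm ℝ hx
  have hre : ContDiffAt ℝ ∞ (fun y : ℂ => y.re) x := Complex.reCLM.contDiff.contDiffAt
  have h1 : ContDiffAt ℝ ∞ (fun y : ℂ => Real.smoothTransition (- y.re / ‖y‖)) x :=
    Real.smoothTransition.contDiffAt.comp x (hre.neg.div hn (norm_ne_zero_iff.2 hx))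
  have h2 : ContDiffAt ℝ ∞ (fun y : ℂ => 2 * ‖y‖ * Real.smoothTransition (- y.re / ‖y‖)) x :=
    (contDiffAt_const.mul hn).mul h1
  exact contDiffAt_id.add (Complex.ofRealCLM.contDiff.contDiffAt.comp x h2)

/-- the inverse square root on the right half plane, extended -/
noncomputable def u (x : ℂ) : ℂ := Complex.exp (- (Complex.log (tau x)) / 2)

lemma u_hom : Hom u (-1 / 2) := by
  constructor
  · intro x hx
    have h1 : ContDiffAt ℝ ∞ (fun y => Complex.log (tau y)) x :=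
      ((Complex.contDiffAt_log (tau_slit hx)).restrict_scalars ℝ).comp x (tau_smooth hx)
    have h2 : ContDiffAt ℝ ∞ (fun y => - (Complex.log (tau y)) / 2) x := h1.neg.div_const 2
    exact ((Complex.contDiff_exp (𝕜 := ℝ)).contDiffAt.comp x h2).contDiffWithinAt
  · intro t x ht hx
    have h0 : tau x ≠ 0 := Complex.slitPlane_ne_zero (tau_slit hx)
    rw [u, tau_smul t x ht, Complex.log_ofReal_mul ht h0, u, Real.rpow_def_of_pos ht,
      Complex.real_smul, Complex.ofReal_exp, ← Complex.exp_add]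
    congr 1
    push_cast
    ring

lemma u_re_pos {x : ℂ} (hx : x ≠ 0) : 0 < (u x).re := by
  rw [u, Complex.exp_re]
  refine mul_pos (Real.exp_pos _) (Real.cos_pos_of_mem_Ioo ?_)
  have h1 := Complex.neg_pi_lt_arg (tau x)
  have h2 : (tau x).arg < Real.pi :=
    lt_of_le_of_ne (Complex.arg_le_pi _) (Complex.slitPlane_arg_ne_pi (tau_slit hx))
  have : (-Complex.log (tau x) / 2).im = - (tau x).arg / 2 := by
    simp [Complex.log_im]
  rw [this]
  constructor <;> linarith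

lemma u_lower : ∃ c : ℝ, 0 < c ∧ ∀ x : ℂ, x ≠ 0 → c * ‖x‖ ^ (-1 / 2 : ℝ) ≤ (u x).re := by
  obtain ⟨y, hy, hmin⟩ := (isCompact_sphere (0 : ℂ) 1).exists_isMinOn ⟨1, by simp⟩
    (Complex.continuous_re.comp_continuousOn u_hom.contSphere)
  have hy0 : y ≠ 0 := by rintro rfl; simp at hy
  refine ⟨(u y).re, u_re_pos hy0, fun x hx => ?_⟩
  obtain ⟨z, hz, e⟩ := u_hom.eq_sphere hx
  rw [e, Complex.real_smul, Complex.re_ofReal_mul, mul_comm]
  exact mul_le_mul_of_nonneg_left (hmin hz) (by positivity)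

open Classical in
/-- the flat function -/
noncomputable def e (x : ℂ) : ℂ := if x = 0 then 0 else Complex.exp (- u x)

lemma e_zero : e 0 = 0 := by simp [e]

lemma e_ne {x : ℂ} (hx : x ≠ 0) : e x = Complex.exp (- u x) := by simp [e, hx]

lemma e_eventually {x : ℂ} (hx : x ≠ 0) : e =ᶠ[𝓝 x] fun y => Complex.exp (- u y) := by
  filter_upwards [isOpen_compl_singleton.mem_nhds hx] with y hy using e_ne hy

lemma basic_zero {g : ℂ → ℂ} {a : ℝ} (h : Hom g a) :
    HasFDerivAt (fun x => g x * e x) (0 : ℂ →L[ℝ] ℂ) 0 := by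
  obtain ⟨C, hC⟩ := h.bound
  obtain ⟨c, hc, hu⟩ := u_lower
  rw [hasFDerivAt_iff_isLittleO_nhds_zero]
  simp only [zero_add, e_zero, mul_zero, sub_zero, zero_apply]
  have t1 : Tendsto (fun x : ℂ => ‖x‖ ^ (-1 / 2 : ℝ)) (𝓝[≠] 0) atTop := by
    have : Tendsto (fun r : ℝ => r ^ (-1 / 2 : ℝ)) (𝓝[>] 0) atTop :=
      tendsto_rpow_neg_nhdsGT_zero (by norm_num)
    exact this.comp tendsto_norm_nhdsNE_zero
  have t2 := ((tendsto_rpow_mul_exp_neg_mul_atTop_nhds_zero (2 - 2 * a) c hc).comp t1).const_mul C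
  rw [mul_zero] at t2
  rw [Asymptotics.isLittleO_iff]
  intro ε hε
  have t3 := t2.eventually (gt_mem_nhds hε)
  rw [eventually_nhdsWithin_iff] at t3
  filter_upwards [t3] with x hx
  by_cases h0 : x = 0
  · simp [h0, e_zero]
  have hn : 0 < ‖x‖ := norm_pos_iff.2 h0
  have hx' := hx h0
  simp only [Function.comp] at hx'
  rw [← Real.rpow_mul hn.le] at hx'
  have e1 : (-1 / 2 * (2 - 2 * a) : ℝ) = a - 1 := by ring
  rw [e1, Real.rpow_sub_one hn.ne'] at hx'
  rw [norm_mul, e_ne h0, Complex.norm_exp, Complex.neg_re]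
  have b1 : Real.exp (-(u x).re) ≤ Real.exp (-c * ‖x‖ ^ (-1 / 2 : ℝ)) :=
    Real.exp_le_exp.2 (by have := hu x h0; linarith)
  calc ‖g x‖ * Real.exp (-(u x).re) ≤ (C * ‖x‖ ^ a) * Real.exp (-c * ‖x‖ ^ (-1 / 2 : ℝ)) :=
        mul_le_mul (hC x h0) b1 (Real.exp_pos _).le ((norm_nonneg _).trans (hC x h0))
    _ = (C * (‖x‖ ^ a / ‖x‖ * Real.exp (-c * ‖x‖ ^ (-1 / 2 : ℝ)))) * ‖x‖ := by
        field_simp
    _ ≤ ε * ‖x‖ := mul_le_mul_of_nonneg_right hx'.le hn.le

lemma basic_ne {g : ℂ → ℂ} {a : ℝ} (h : Hom g a) {x : ℂ} (hx : x ≠ 0) :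
    DifferentiableAt ℝ (fun x => g x * e x) x ∧ ∀ v, fderiv ℝ (fun x => g x * e x) x v =
      fderiv ℝ g x v * e x + (- (g x * fderiv ℝ u x v)) * e x := by
  have d1 : HasFDerivAt e (Complex.exp (- u x) • (- fderiv ℝ u x)) x := by
    refine HasFDerivAt.congr_of_eventuallyEq ?_ (e_eventually hx)
    exact ((u_hom.diffAt hx).hasFDerivAt.neg).cexp
  have d2 := (h.diffAt hx).hasFDerivAt.mul d1
  refine ⟨d2.differentiableAt, fun v => ?_⟩
  have := d2.fderiv
  rw [show (fun x => g x * e x) = g * e from rfl, this, e_ne hx]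
  simp
  ring

/-- finite sums of homogeneous multiples of the flat function -/
inductive S : (ℂ → ℂ) → Prop
  | basic (g : ℂ → ℂ) (a : ℝ) (h : Hom g a) : S (fun x => g x * e x)
  | add (f g : ℂ → ℂ) (hf : S f) (hg : S g) : S (fun x => f x + g x)

lemma S.step {f : ℂ → ℂ} (h : S f) :
    Differentiable ℝ f ∧ f 0 = 0 ∧ ∀ v, S (fun x => fderiv ℝ f x v) := by
  induction h with
  | basic g a h =>
    refine ⟨fun x => ?_, by simp [e_zero], fun v => ?_⟩
    · by_cases hx : x = 0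
      · rw [hx]; exact (basic_zero h).differentiableAt
      · exact (basic_ne h hx).1
    · have : (fun x => fderiv ℝ (fun x => g x * e x) x v) = fun x =>
          fderiv ℝ g x v * e x + (- (g x * fderiv ℝ u x v)) * e x := by
        funext x
        by_cases hx : x = 0
        · rw [hx, (basic_zero h).fderiv]; simp [e_zero]
        · exact (basic_ne h hx).2 v
      rw [this]
      exact S.add _ _ (S.basic _ _ (h.deriv v)) (S.basic _ _ (h.mul (u_hom.deriv v)).neg)
  | add f g _ _ ihf ihg =>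
    refine ⟨ihf.1.add ihg.1, by simp [ihf.2.1, ihg.2.1], fun v => ?_⟩
    have : (fun x => fderiv ℝ (fun x => f x + g x) x v) = fun x =>
        fderiv ℝ f x v + fderiv ℝ g x v := by
      funext x
      rw [fderiv_fun_add (ihf.1 x) (ihg.1 x)]
      rfl
    rw [this]
    exact S.add _ _ (ihf.2.2 v) (ihg.2.2 v)

lemma S.contDiff_nat (n : ℕ) : ∀ {f : ℂ → ℂ}, S f → ContDiff ℝ n f := by
  induction n with
  | zero => intro f h; simpa using h.step.1.continuous
  | succ n ih =>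
    intro f h
    rw [Nat.cast_succ, contDiff_succ_iff_fderiv_apply]
    exact ⟨h.step.1, by simp, fun v => ih (h.step.2.2 v)⟩

lemma S.contDiff {f : ℂ → ℂ} (h : S f) : ContDiff ℝ ∞ f :=
  contDiff_infty.2 fun n => S.contDiff_nat n h

lemma S.flat (n : ℕ) : ∀ {f : ℂ → ℂ}, S f → iteratedFDeriv ℝ n f 0 = 0 := by
  induction n with
  | zero => intro f h; ext m; simp [h.step.2.1]
  | succ n ih =>
    intro f h
    ext m
    rw [iteratedFDeriv_succ_apply_right]
    have h1 : ContDiff ℝ ∞ (fderiv ℝ f) := h.contDiff.fderiv_right (by simp)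
    have := iteratedFDeriv_clm_apply_const_apply (𝕜 := ℝ) (n := ∞) (c := fderiv ℝ f) h1
      (u := m (Fin.last n)) (i := n) (by exact_mod_cast le_top) (x := 0) (m := Fin.init m)
    rw [← this, ih (h.step.2.2 _)]
    rfl

lemma S_e : S e := by
  have : Hom (fun _ => 1) 0 := ⟨contDiffOn_const, fun t x _ _ => by simp⟩
  simpa using S.basic _ _ this

lemma e_holo {x : ℂ} (hx : 0 < x.re) : DifferentiableAt ℂ e x := by
  have hx0 : x ≠ 0 := by rintro rfl; simp at hx
  have h1 : e =ᶠ[𝓝 x] fun y => Complex.exp (- Complex.exp (- (Complex.log y) / 2)) := by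
    have : {y : ℂ | 0 < y.re} ∈ 𝓝 x :=
      (isOpen_lt continuous_const Complex.continuous_re).mem_nhds hx
    filter_upwards [this] with y hy
    have hy0 : y ≠ 0 := by rintro rfl; simp at hy
    rw [e_ne hy0, u, tau_eq (le_of_lt hy)]
  refine DifferentiableAt.congr_of_eventuallyEq ?_ h1
  have hs : x ∈ Complex.slitPlane := Or.inl hx
  exact (((Complex.differentiableAt_log hs).neg.div_const 2).cexp.neg).cexp

/-- A smooth function on the plane, holomorphic on the right half plane, flat at the origin and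
without other zeros. -/
theorem exists_flat : ∃ h : ℂ → ℂ, ContDiff ℝ ∞ h ∧ (∀ x : ℂ, 0 < x.re → DifferentiableAt ℂ h x) ∧
    (∀ n, iteratedFDeriv ℝ n h 0 = 0) ∧ ∀ x, x ≠ 0 → h x ≠ 0 :=
  ⟨e, S_e.contDiff, fun _ hx => e_holo hx, fun n => S.flat n S_e,
    fun x hx => by rw [e_ne hx]; exact Complex.exp_ne_zero _⟩

end Pool.Agent.H103Z.Flat
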