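import Mathlib

set_option autoImplicit false
open scoped ContDiff Topology ComplexConjugate
open Filter

namespace Pool.Agent.H103Z.Levi

variable {E : Type*} [NormedAddCommGroup E] [NormedSpace ℂ E]

lemma D2_apply {F : Type*} [NormedAddCommGroup F] [NormedSpace ℝ F] {q : E → F}
    (hq : ContDiff ℝ ∞ q) (z v w : E) :
    fderiv ℝ (fderiv ℝ q) z v w = fderiv ℝ (fun y => fderiv ℝ q y w) z v := by
  have h1 : ContDiff ℝ ∞ (fderiv ℝ q) := hq.fderiv_right (by simp)
  rw [fderiv_clm_apply (h1.differentiable (by simp) z) (differentiableAt_const w)]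
  simp

lemma normSq_smooth {φ : E → ℂ} (h : ContDiff ℝ ∞ φ) :
    ContDiff ℝ ∞ (fun y => Complex.normSq (φ y)) := by
  have hre : ContDiff ℝ ∞ (fun y => (φ y).re) := Complex.reCLM.contDiff.comp h
  have him : ContDiff ℝ ∞ (fun y => (φ y).im) := Complex.imCLM.contDiff.comp h
  simpa [Complex.normSq_apply] using (hre.mul hre).add (him.mul him)

lemma hasFDerivAt_re {φ : E → ℂ} {z : E} (h : DifferentiableAt ℝ φ z) :
    HasFDerivAt (fun y => (φ y).re) (Complex.reCLM.comp (fderiv ℝ φ z)) z :=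
  Complex.reCLM.hasFDerivAt.comp z h.hasFDerivAt

lemma hasFDerivAt_im {φ : E → ℂ} {z : E} (h : DifferentiableAt ℝ φ z) :
    HasFDerivAt (fun y => (φ y).im) (Complex.imCLM.comp (fderiv ℝ φ z)) z :=
  Complex.imCLM.hasFDerivAt.comp z h.hasFDerivAt

lemma fderiv_pair {φ ψ : E → ℂ} {z : E} (h : DifferentiableAt ℝ φ z) (k : DifferentiableAt ℝ ψ z)
    (v : E) : fderiv ℝ (fun y => (φ y).re * (ψ y).re + (φ y).im * (ψ y).im) z v =
      (φ z).re * (fderiv ℝ ψ z v).re + (φ z).im * (fderiv ℝ ψ z v).im +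
      ((fderiv ℝ φ z v).re * (ψ z).re + (fderiv ℝ φ z v).im * (ψ z).im) := by
  have := (((hasFDerivAt_re h).mul (hasFDerivAt_re k)).add
    ((hasFDerivAt_im h).mul (hasFDerivAt_im k))).fderiv
  rw [show (fun y => (φ y).re * (ψ y).re + (φ y).im * (ψ y).im) =
    (fun y => (φ y).re) * (fun y => (ψ y).re) + (fun y => (φ y).im) * (fun y => (ψ y).im) from rfl,
    this]
  simp
  ring

lemma D2_normSq {φ : E → ℂ} (h : ContDiff ℝ ∞ φ) (z v : E) :
    fderiv ℝ (fderiv ℝ (fun y => Complex.normSq (φ y))) z v v =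
      2 * Complex.normSq (fderiv ℝ φ z v) + 2 * ((φ z).re * (fderiv ℝ (fderiv ℝ φ) z v v).re +
        (φ z).im * (fderiv ℝ (fderiv ℝ φ) z v v).im) := by
  rw [D2_apply (normSq_smooth h), D2_apply h]
  have hd : Differentiable ℝ φ := h.differentiable (by simp)
  have h1 : ContDiff ℝ ∞ (fun y => fderiv ℝ φ y v) :=
    (h.fderiv_right (m := ∞) (by simp)).clm_apply contDiff_const
  have e1 : (fun y => fderiv ℝ (fun y => Complex.normSq (φ y)) y v) = fun y =>
      2 * ((φ y).re * (fderiv ℝ φ y v).re + (φ y).im * (fderiv ℝ φ y v).im) := by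
    funext y
    simp only [Complex.normSq_apply]
    rw [fderiv_pair (hd y) (hd y)]
    ring
  have hd1 : Differentiable ℝ (fun y => fderiv ℝ φ y v) := h1.differentiable (by simp)
  have hdd : DifferentiableAt ℝ (fun y =>
      (φ y).re * (fderiv ℝ φ y v).re + (φ y).im * (fderiv ℝ φ y v).im) z :=
    (((hasFDerivAt_re (hd z)).mul (hasFDerivAt_re (hd1 z))).add
      ((hasFDerivAt_im (hd z)).mul (hasFDerivAt_im (hd1 z)))).differentiableAt
  rw [e1, fderiv_const_mul hdd, smul_apply, fderiv_pair (hd z) (hd1 z), Complex.normSq_apply]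
  simp only [smul_eq_mul]
  ring

lemma D2_holo {φ : E → ℂ} (h : ContDiff ℝ ∞ φ) {U : Set E} (hU : IsOpen U)
    (hd : DifferentiableOn ℂ φ U) {z : E} (hz : z ∈ closure U) (v : E) :
    fderiv ℝ (fderiv ℝ φ) z v v +
      fderiv ℝ (fderiv ℝ φ) z (Complex.I • v) (Complex.I • v) = 0 := by
  have h2 : Continuous (fderiv ℝ (fderiv ℝ φ)) :=
    (h.fderiv_right (m := ∞) (by simp)).continuous_fderiv (by simp)
  have hc : IsClosed {z : E | fderiv ℝ (fderiv ℝ φ) z v v +
      fderiv ℝ (fderiv ℝ φ) z (Complex.I • v) (Complex.I • v) = 0} :=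
    isClosed_eq (by fun_prop) continuous_const
  refine closure_minimal (fun z hz => ?_) hc hz
  have key : ∀ a w : E, fderiv ℝ (fderiv ℝ φ) z a (Complex.I • w) =
      Complex.I * fderiv ℝ (fderiv ℝ φ) z a w := by
    intro a w
    rw [D2_apply h, D2_apply h]
    have e : (fun y => fderiv ℝ φ y (Complex.I • w)) =ᶠ[𝓝 z]
        fun y => Complex.I * fderiv ℝ φ y w := by
      filter_upwards [hU.mem_nhds hz] with y hy
      have := (hd.differentiableAt (hU.mem_nhds hy)).fderiv_restrictScalars ℝ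
      rw [this]
      simp
    have h1 : ContDiff ℝ ∞ (fun y => fderiv ℝ φ y w) :=
      (h.fderiv_right (m := ∞) (by simp)).clm_apply contDiff_const
    rw [e.fderiv_eq, fderiv_const_mul (h1.differentiable (by simp) z)]
    simp
  have hs : IsSymmSndFDerivAt ℝ φ z := h.contDiffAt.isSymmSndFDerivAt (by
    simp only [minSmoothness_of_isRCLikeNormedField]
    exact WithTop.coe_le_coe.2 (le_top : (2 : ℕ∞) ≤ ⊤))
  show _ = _
  rw [key, hs (Complex.I • v) v, key, ← mul_assoc, Complex.I_mul_I]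
  ring

lemma levi_one {φ : E → ℂ} (h : ContDiff ℝ ∞ φ) {U : Set E} (hU : IsOpen U)
    (hd : DifferentiableOn ℂ φ U) {z : E} (hz : z ∈ closure U) (v : E) :
    2 * Complex.normSq (fderiv ℝ φ z v) ≤
      fderiv ℝ (fderiv ℝ (fun y => Complex.normSq (φ y))) z v v +
      fderiv ℝ (fderiv ℝ (fun y => Complex.normSq (φ y))) z (Complex.I • v) (Complex.I • v) := by
  rw [D2_normSq h, D2_normSq h]
  have k := D2_holo h hU hd hz v
  have k1 := congrArg Complex.re k
  have k2 := congrArg Complex.im k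
  simp only [Complex.add_re, Complex.add_im, Complex.zero_re, Complex.zero_im] at k1 k2
  have := Complex.normSq_nonneg (fderiv ℝ φ z (Complex.I • v))
  have e1 : (fderiv ℝ (fderiv ℝ φ) z (Complex.I • v) (Complex.I • v)).re =
    - (fderiv ℝ (fderiv ℝ φ) z v v).re := by linarith
  have e2 : (fderiv ℝ (fderiv ℝ φ) z (Complex.I • v) (Complex.I • v)).im =
    - (fderiv ℝ (fderiv ℝ φ) z v v).im := by linarith
  rw [e1, e2]
  linarith

lemma D2_sum {N : ℕ} (q : Fin N → E → ℝ) (hq : ∀ j, ContDiff ℝ ∞ (q j)) (z v w : E) :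
    fderiv ℝ (fderiv ℝ (fun y => ∑ j, q j y - 1)) z v w =
      ∑ j, fderiv ℝ (fderiv ℝ (q j)) z v w := by
  have e : fderiv ℝ (fun y => ∑ j, q j y - 1) = fun y => ∑ j, fderiv ℝ (q j) y := by
    funext y
    rw [fderiv_sub_const, fderiv_fun_sum fun j _ => (hq j).differentiable (by simp) y]
  rw [e, fderiv_fun_sum fun j _ =>
    ((hq j).fderiv_right (m := ∞) (by simp)).differentiable (by simp) z]
  simp

/-- the Levi form of the squared norm of a map holomorphic on `U` is positive on the closure -/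
theorem levi_pos {N : ℕ} (φ : Fin N → E → ℂ) (h : ∀ j, ContDiff ℝ ∞ (φ j)) {U : Set E}
    (hU : IsOpen U) (hd : ∀ j, DifferentiableOn ℂ (φ j) U) {z : E} (hz : z ∈ closure U) (v : E)
    (j : Fin N) (hj : fderiv ℝ (φ j) z v ≠ 0) :
    0 < fderiv ℝ (fderiv ℝ (fun y => ∑ j, Complex.normSq (φ j y) - 1)) z v v +
      fderiv ℝ (fderiv ℝ (fun y => ∑ j, Complex.normSq (φ j y) - 1)) z
        (Complex.I • v) (Complex.I • v) := by
  rw [D2_sum _ (fun j => normSq_smooth (h j)), D2_sum _ (fun j => normSq_smooth (h j)),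
    ← Finset.sum_add_distrib]
  refine lt_of_lt_of_le ?_ (Finset.sum_le_sum fun j _ => levi_one (h j) hU (hd j) hz v)
  refine Finset.sum_pos' (fun i _ => ?_) ⟨j, Finset.mem_univ _, ?_⟩
  · have := Complex.normSq_nonneg (fderiv ℝ (φ i) z v)
    positivity
  · have := Complex.normSq_pos.2 hj
    positivity

/-- a function whose restriction to a line is a non-degenerate quadratic has nonzero derivative -/
lemma fderiv_ne_zero {ρ : E → ℝ} {z : E} (h : DifferentiableAt ℝ ρ z) (v : E) (a b : ℝ)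
    (hb : b ≠ 0) (e : ∀ t : ℝ, ρ (z + t • v) = a + (1 + t) ^ 2 * b) : fderiv ℝ ρ z ≠ 0 := by
  intro h0
  have d0 : HasDerivAt (fun t : ℝ => z + t • v) v 0 := by
    simpa using ((hasDerivAt_id (0 : ℝ)).smul_const v).const_add z
  have d1 : HasDerivAt (fun t : ℝ => ρ (z + t • v)) (fderiv ℝ ρ z v) 0 := by
    have := h.hasFDerivAt
    refine HasFDerivAt.comp_hasDerivAt_of_eq (hl := this) (hf := d0) (x := 0) (by simp)
  have d2 : HasDerivAt (fun t : ℝ => a + (1 + t) ^ 2 * b) (2 * b) 0 := by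
    have := ((((hasDerivAt_id (0 : ℝ)).const_add 1).pow 2).mul_const b).const_add a
    simpa using this
  have := d1.unique (by rw [funext e]; exact d2)
  rw [h0] at this
  simp at this
  exact hb this

end Pool.Agent.H103Z.Levi
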