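import Mathlib
import Pool.Agent.H103Z.Flat
import Pool.Agent.H103Z.Levi

set_option autoImplicit false
open scoped ContDiff Topology
open Filter

namespace Pool.Agent.H103Z.Jet

/-- the unit ball -/
def ball (N : ℕ) : Set (Fin N → ℂ) := {w | ∑ j, Complex.normSq (w j) - 1 < 0}

lemma ball_bound {N : ℕ} {w : Fin N → ℂ} (hw : w ∈ ball N) (j : Fin N) : ‖w j‖ < 1 := by
  have h1 : Complex.normSq (w j) ≤ ∑ j, Complex.normSq (w j) :=
    Finset.single_le_sum (f := fun j => Complex.normSq (w j))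
      (fun i _ => Complex.normSq_nonneg _) (Finset.mem_univ j)
  have h2 : ∑ j, Complex.normSq (w j) - 1 < 0 := hw
  rw [Complex.normSq_eq_norm_sq] at h1
  nlinarith [norm_nonneg (w j)]

lemma ball_conn (N : ℕ) : IsConnected (ball N) := by
  have h0 : (0 : Fin N → ℂ) ∈ ball N := by simp [ball]
  refine (StarConvex.isPathConnected ?_ h0).isConnected
  intro w hw a b ha hb hab
  have h2 : ∑ j, Complex.normSq (w j) - 1 < 0 := hw
  have h3 : 0 ≤ ∑ j, Complex.normSq (w j) := Finset.sum_nonneg fun i _ => Complex.normSq_nonneg _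
  show ∑ j, Complex.normSq ((a • (0 : Fin N → ℂ) + b • w) j) - 1 < 0
  have : ∑ j, Complex.normSq ((a • (0 : Fin N → ℂ) + b • w) j) =
      b ^ 2 * ∑ j, Complex.normSq (w j) := by
    rw [Finset.mul_sum]
    refine Finset.sum_congr rfl fun j _ => ?_
    simp [Complex.normSq_mul, sq]
  rw [this]
  have hb1 : b ^ 2 ≤ 1 := by nlinarith
  nlinarith

lemma ball_rho (N : ℕ) : ContDiff ℝ ∞ (fun w : Fin N → ℂ => ∑ j, Complex.normSq (w j) - 1) :=
  (ContDiff.sum fun j _ => Levi.normSq_smooth (contDiff_apply ℝ ℂ j)).sub contDiff_const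

theorem ball_spc (N : ℕ) : IsOpen (ball N) ∧ IsConnected (ball N) ∧
    Bornology.IsBounded (ball N) ∧
    ∃ ρ : (Fin N → ℂ) → ℝ, ContDiff ℝ ∞ ρ ∧ ball N = {z | ρ z < 0} ∧
      ∀ z ∈ frontier (ball N), fderiv ℝ ρ z ≠ 0 ∧
        ∀ v : Fin N → ℂ, v ≠ 0 → fderiv ℝ ρ z v = 0 →
          fderiv ℝ ρ z (Complex.I • v) = 0 →
          0 < fderiv ℝ (fderiv ℝ ρ) z v v
              + fderiv ℝ (fderiv ℝ ρ) z (Complex.I • v) (Complex.I • v) := by
  refine ⟨isOpen_lt (ball_rho N).continuous continuous_const, ball_conn N, ?_,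
    _, ball_rho N, rfl, fun z hz => ⟨?_, fun v hv _ _ => ?_⟩⟩
  · refine (Metric.isBounded_closedBall (x := (0 : Fin N → ℂ)) (r := 1)).subset fun w hw => ?_
    rw [mem_closedBall_zero_iff, pi_norm_le_iff_of_nonneg zero_le_one]
    exact fun j => (ball_bound hw j).le
  · have h0 : ∑ j, Complex.normSq (z j) - 1 = 0 :=
      frontier_lt_subset_eq (ball_rho N).continuous continuous_const hz
    refine Levi.fderiv_ne_zero ((ball_rho N).differentiable (by simp) z) z (-1) 1 one_ne_zero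
      fun t => ?_
    have : ∑ j, Complex.normSq ((z + t • z) j) = (1 + t) ^ 2 * ∑ j, Complex.normSq (z j) := by
      rw [Finset.mul_sum]
      refine Finset.sum_congr rfl fun j _ => ?_
      have : (z + t • z) j = ((1 + t : ℝ) : ℂ) * z j := by simp; ring
      rw [this, Complex.normSq_mul, Complex.normSq_ofReal, sq]
    rw [this, show ∑ j, Complex.normSq (z j) = 1 by linarith]
    ring
  · obtain ⟨j, hj⟩ := Function.ne_iff.1 hv
    refine Levi.levi_pos (fun j (w : Fin N → ℂ) => w j) (fun j => contDiff_apply ℝ ℂ j)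
      isOpen_univ (fun j => (differentiable_apply j).differentiableOn) (by simp) v j ?_
    rw [(hasFDerivAt_apply j z).fderiv]
    simpa using hj

variable (h : ℂ → ℂ)

/-- the components of the two maps -/
def comp (s : ℂ) : Fin 3 → (Fin 2 → ℂ) → ℂ :=
  ![fun z => z 0 - 1, fun z => z 1, fun z => s * (z 1 * h (z 0))]

/-- the two maps -/
def F (s : ℂ) (z : Fin 2 → ℂ) : Fin 3 → ℂ := fun j => comp h s j z

/-- the source domain -/
def dom : Set (Fin 2 → ℂ) := {z | ∑ j, Complex.normSq (comp h 1 j z) - 1 < 0}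

lemma rho_eq (s : ℂ) (hs : Complex.normSq s = 1) (z : Fin 2 → ℂ) :
    ∑ j, Complex.normSq (comp h s j z) - 1 =
      Complex.normSq (z 0 - 1) + Complex.normSq (z 1) * (1 + Complex.normSq (h (z 0))) - 1 := by
  simp [Fin.sum_univ_three, comp, Complex.normSq_mul, hs]
  ring

lemma mem_iff (s : ℂ) (hs : Complex.normSq s = 1) (z : Fin 2 → ℂ) :
    F h s z ∈ ball 3 ↔ z ∈ dom h := by
  show ∑ j, Complex.normSq (comp h s j z) - 1 < 0 ↔ ∑ j, Complex.normSq (comp h 1 j z) - 1 < 0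
  rw [rho_eq h s hs, rho_eq h 1 (by simp)]

variable {h}

lemma G_smooth (hs : ContDiff ℝ ∞ h) : ContDiff ℝ ∞ (fun z : Fin 2 → ℂ => z 1 * h (z 0)) :=
  (contDiff_apply ℝ ℂ 1).mul (hs.comp (contDiff_apply ℝ ℂ 0))

lemma comp_smooth (hs : ContDiff ℝ ∞ h) (s : ℂ) (j : Fin 3) : ContDiff ℝ ∞ (comp h s j) := by
  fin_cases j
  · exact (contDiff_apply ℝ ℂ 0).sub contDiff_const
  · exact contDiff_apply ℝ ℂ 1
  · exact contDiff_const.mul (G_smooth hs)

lemma F_smooth (hs : ContDiff ℝ ∞ h) (s : ℂ) : ContDiff ℝ ∞ (F h s) :=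
  contDiff_pi.2 fun j => comp_smooth hs s j

lemma rho_smooth (hs : ContDiff ℝ ∞ h) :
    ContDiff ℝ ∞ (fun z => ∑ j, Complex.normSq (comp h 1 j z) - 1) :=
  (ContDiff.sum fun j _ => Levi.normSq_smooth (comp_smooth hs 1 j)).sub contDiff_const

lemma dom_re {z : Fin 2 → ℂ} (hz : z ∈ dom h) : 0 < (z 0).re := by
  have h1 := ball_bound ((mem_iff h 1 (by simp) z).2 hz) 0
  have h2 : ‖z 0 - 1‖ < 1 := h1
  have h3 := Complex.abs_re_le_norm (z 0 - 1)
  have h4 := neg_abs_le (z 0 - 1).re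
  simp only [Complex.sub_re, Complex.one_re] at h3 h4
  linarith

lemma comp_holo (hh : ∀ x : ℂ, 0 < x.re → DifferentiableAt ℂ h x) (s : ℂ) (j : Fin 3) :
    DifferentiableOn ℂ (comp h s j) (dom h) := by
  intro z hz
  refine DifferentiableAt.differentiableWithinAt ?_
  fin_cases j
  · exact (differentiableAt_apply 0 z).sub_const 1
  · exact differentiableAt_apply 1 z
  · exact ((differentiableAt_apply 1 z).mul
      ((hh _ (dom_re hz)).comp z (differentiableAt_apply 0 z))).const_mul s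

lemma dom_bounded : Bornology.IsBounded (dom h) := by
  refine (Metric.isBounded_closedBall (x := (0 : Fin 2 → ℂ)) (r := 2)).subset fun z hz => ?_
  rw [mem_closedBall_zero_iff, pi_norm_le_iff_of_nonneg zero_le_two]
  have hb := ball_bound ((mem_iff h 1 (by simp) z).2 hz)
  intro j
  fin_cases j
  · have h2 : ‖z 0 - 1‖ < 1 := hb 0
    have := norm_add_le (z 0 - 1) 1
    simp only [sub_add_cancel, norm_one] at this
    show ‖z 0‖ ≤ 2
    linarith
  · have h2 : ‖z 1‖ < 1 := hb 1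
    show ‖z 1‖ ≤ 2
    linarith

/-- a parametrisation of the source domain by the ball -/
noncomputable def par (h : ℂ → ℂ) (a : Fin 2 → ℂ) : Fin 2 → ℂ :=
  ![a 0 + 1, a 1 / ((Real.sqrt (1 + Complex.normSq (h (a 0 + 1))) : ℝ) : ℂ)]

lemma dom_eq : dom h = par h '' ball 2 := by
  ext z
  constructor
  · intro hz
    have hp : 0 < 1 + Complex.normSq (h (z 0)) := by
      have := Complex.normSq_nonneg (h (z 0)); linarith
    have hq : ((Real.sqrt (1 + Complex.normSq (h (z 0))) : ℝ) : ℂ) ≠ 0 := by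
      exact_mod_cast (Real.sqrt_pos.2 hp).ne'
    refine ⟨![z 0 - 1, z 1 * ((Real.sqrt (1 + Complex.normSq (h (z 0))) : ℝ) : ℂ)], ?_, ?_⟩
    · have h1 : ∑ j, Complex.normSq (comp h 1 j z) - 1 < 0 := hz
      rw [rho_eq h 1 (by simp)] at h1
      simpa [ball, Fin.sum_univ_two, Complex.normSq_mul, Real.mul_self_sqrt hp.le] using h1
    · ext j
      fin_cases j
      · simp [par]
      · simp [par, hq]
  · rintro ⟨a, ha, rfl⟩
    have hp : 0 < 1 + Complex.normSq (h (a 0 + 1)) := by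
      have := Complex.normSq_nonneg (h (a 0 + 1)); linarith
    show ∑ j, Complex.normSq (comp h 1 j (par h a)) - 1 < 0
    rw [rho_eq h 1 (by simp)]
    have h1 : Complex.normSq (a 0) + Complex.normSq (a 1) - 1 < 0 := by
      simpa [ball, Fin.sum_univ_two] using ha
    simp only [par, Matrix.cons_val_zero, Matrix.cons_val_one, add_sub_cancel_right,
      Complex.normSq_div, Complex.normSq_ofReal, Real.mul_self_sqrt hp.le]
    rw [div_mul_cancel₀ _ hp.ne']
    exact h1

lemma par_cont (hs : Continuous h) : Continuous (par h) := by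
  refine continuous_pi fun j => ?_
  fin_cases j
  · exact (continuous_apply 0).add continuous_const
  · refine (continuous_apply 1).div (by fun_prop) fun a => ?_
    have hp : 0 < 1 + Complex.normSq (h (a 0 + 1)) := by
      have := Complex.normSq_nonneg (h (a 0 + 1)); linarith
    exact_mod_cast (Real.sqrt_pos.2 hp).ne'

theorem dom_spc (hs : ContDiff ℝ ∞ h) (hh : ∀ x : ℂ, 0 < x.re → DifferentiableAt ℂ h x) :
    IsOpen (dom h) ∧ IsConnected (dom h) ∧ Bornology.IsBounded (dom h) ∧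
    ∃ ρ : (Fin 2 → ℂ) → ℝ, ContDiff ℝ ∞ ρ ∧ dom h = {z | ρ z < 0} ∧
      ∀ z ∈ frontier (dom h), fderiv ℝ ρ z ≠ 0 ∧
        ∀ v : Fin 2 → ℂ, v ≠ 0 → fderiv ℝ ρ z v = 0 →
          fderiv ℝ ρ z (Complex.I • v) = 0 →
          0 < fderiv ℝ (fderiv ℝ ρ) z v v
              + fderiv ℝ (fderiv ℝ ρ) z (Complex.I • v) (Complex.I • v) := by
  have ho : IsOpen (dom h) := isOpen_lt (rho_smooth hs).continuous continuous_const
  refine ⟨ho, ?_, dom_bounded, _, rho_smooth hs, rfl, fun z hz => ⟨?_, fun v hv _ _ => ?_⟩⟩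
  · rw [dom_eq]
    exact (ball_conn 2).image _ (par_cont hs.continuous).continuousOn
  · have h0 : ∑ j, Complex.normSq (comp h 1 j z) - 1 = 0 :=
      frontier_lt_subset_eq (rho_smooth hs).continuous continuous_const hz
    rw [rho_eq h 1 (by simp)] at h0
    have hd := (rho_smooth hs).differentiable (by simp) z
    by_cases h1 : z 1 = 0
    · refine Levi.fderiv_ne_zero hd ![z 0 - 1, 0] (-1) 1 one_ne_zero fun t => ?_
      rw [rho_eq h 1 (by simp)]
      have e0 : (z + t • ![z 0 - 1, 0]) 0 - 1 = ((1 + t : ℝ) : ℂ) * (z 0 - 1) := by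
        simp; ring
      have e1 : (z + t • ![z 0 - 1, 0]) 1 = 0 := by simp [h1]
      rw [e0, e1, Complex.normSq_mul, Complex.normSq_ofReal]
      rw [h1] at h0
      simp only [map_zero, zero_mul, add_zero] at h0 ⊢
      rw [show Complex.normSq (z 0 - 1) = 1 by linarith]
      ring
    · have hp : 0 < 1 + Complex.normSq (h (z 0)) := by
        have := Complex.normSq_nonneg (h (z 0)); linarith
      refine Levi.fderiv_ne_zero hd ![0, z 1] (Complex.normSq (z 0 - 1) - 1)
        (Complex.normSq (z 1) * (1 + Complex.normSq (h (z 0))))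
        (mul_pos (Complex.normSq_pos.2 h1) hp).ne' fun t => ?_
      rw [rho_eq h 1 (by simp)]
      have e0 : (z + t • ![0, z 1]) 0 = z 0 := by simp
      have e1 : (z + t • ![0, z 1]) 1 = ((1 + t : ℝ) : ℂ) * z 1 := by simp; ring
      rw [e0, e1, Complex.normSq_mul, Complex.normSq_ofReal]
      ring
  · obtain ⟨j, hj⟩ := Function.ne_iff.1 hv
    have hz' : z ∈ closure (dom h) := frontier_subset_closure hz
    fin_cases j
    · refine Levi.levi_pos (comp h 1) (comp_smooth hs 1) ho (comp_holo hh 1) hz' v 0 ?_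
      have : HasFDerivAt (comp h 1 0) (ContinuousLinearMap.proj (R := ℝ) (φ := fun _ => ℂ) 0) z :=
        (hasFDerivAt_apply 0 z).sub_const 1
      rw [this.fderiv]
      simpa using hj
    · refine Levi.levi_pos (comp h 1) (comp_smooth hs 1) ho (comp_holo hh 1) hz' v 1 ?_
      have : HasFDerivAt (comp h 1 1) (ContinuousLinearMap.proj (R := ℝ) (φ := fun _ => ℂ) 1) z :=
        hasFDerivAt_apply 1 z
      rw [this.fderiv]
      simpa using hj

theorem F_proper (hs : ContDiff ℝ ∞ h) (hh : ∀ x : ℂ, 0 < x.re → DifferentiableAt ℂ h x)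
    (s : ℂ) (h1 : Complex.normSq s = 1) :
    DifferentiableOn ℂ (F h s) (dom h) ∧ Set.MapsTo (F h s) (dom h) (ball 3) ∧
    ∀ K : Set (Fin 3 → ℂ), IsCompact K → K ⊆ ball 3 → IsCompact (dom h ∩ F h s ⁻¹' K) := by
  refine ⟨differentiableOn_pi.2 fun j => comp_holo hh s j, fun z hz => (mem_iff h s h1 z).2 hz,
    fun K hK hKs => ?_⟩
  have e : dom h ∩ F h s ⁻¹' K = F h s ⁻¹' K :=
    Set.inter_eq_right.2 fun z hz => (mem_iff h s h1 z).1 (hKs hz)
  refine Metric.isCompact_of_isClosed_isBounded ?_ (dom_bounded.subset Set.inter_subset_left)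
  rw [e]
  exact hK.isClosed.preimage (F_smooth hs s).continuous

lemma zero_mem : (0 : Fin 2 → ℂ) ∈ closure (dom h) := by
  have t : Tendsto (fun t : ℝ => (![(t : ℂ), 0] : Fin 2 → ℂ)) (𝓝[>] 0) (𝓝 0) := by
    have c : Continuous (fun t : ℝ => (![(t : ℂ), 0] : Fin 2 → ℂ)) := by
      refine continuous_pi fun j => ?_
      fin_cases j
      · exact Complex.continuous_ofReal
      · exact continuous_const
    have := c.tendsto 0
    have e : (![((0 : ℝ) : ℂ), 0] : Fin 2 → ℂ) = 0 := by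
      ext j; fin_cases j <;> simp
    rw [e] at this
    exact this.mono_left nhdsWithin_le_nhds
  refine mem_closure_of_tendsto t ?_
  filter_upwards [Ioo_mem_nhdsGT (zero_lt_one' ℝ)] with t ht
  show ∑ j, Complex.normSq (comp h 1 j ![(t : ℂ), 0]) - 1 < 0
  rw [rho_eq h 1 (by simp)]
  have : ((t : ℂ) - 1) = ((t - 1 : ℝ) : ℂ) := by simp
  simp only [Matrix.cons_val_zero, Matrix.cons_val_one, map_zero, zero_mul, add_zero, this,
    Complex.normSq_ofReal]
  nlinarith [ht.1, ht.2]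

lemma G_flat (hs : ContDiff ℝ ∞ h) (hf : ∀ n, iteratedFDeriv ℝ n h 0 = 0) (m : ℕ) :
    iteratedFDeriv ℝ m (fun z : Fin 2 → ℂ => z 1 * h (z 0)) 0 = 0 := by
  have h0 : ∀ n : ℕ, iteratedFDeriv ℝ n (fun z : Fin 2 → ℂ => h (z 0)) 0 = 0 := by
    intro n
    have := (ContinuousLinearMap.proj (R := ℝ) (φ := fun _ : Fin 2 => ℂ) 0).iteratedFDeriv_comp_right
      hs (0 : Fin 2 → ℂ) (i := n) (by exact_mod_cast le_top)
    rw [show (fun z : Fin 2 → ℂ => h (z 0)) =
      h ∘ (ContinuousLinearMap.proj (R := ℝ) (φ := fun _ : Fin 2 => ℂ) 0) from rfl, this,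
      map_zero, hf]
    ext v
    simp
  have := norm_iteratedFDeriv_mul_le (𝕜 := ℝ) (N := ∞) (contDiff_apply ℝ ℂ (1 : Fin 2))
    (hs.comp (contDiff_apply ℝ ℂ (0 : Fin 2))) (0 : Fin 2 → ℂ) (n := m)
    (by exact_mod_cast le_top)
  rw [← norm_le_zero_iff]
  refine le_trans this (le_of_eq (Finset.sum_eq_zero fun i _ => ?_))
  rw [show (h ∘ fun z : Fin 2 → ℂ => z 0) = (fun z : Fin 2 → ℂ => h (z 0)) from rfl, h0]
  simp

lemma jets (hs : ContDiff ℝ ∞ h) (hf : ∀ n, iteratedFDeriv ℝ n h 0 = 0) (m : ℕ) :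
    iteratedFDeriv ℝ m (F h (-1)) 0 = iteratedFDeriv ℝ m (F h 1) 0 := by
  let L : ℂ →L[ℝ] (Fin 3 → ℂ) := (-2 : ℝ) • ContinuousLinearMap.single ℝ (fun _ : Fin 3 => ℂ) 2
  have e : F h (-1) = F h 1 + L ∘ (fun z : Fin 2 → ℂ => z 1 * h (z 0)) := by
    funext z j
    fin_cases j <;> simp [F, comp, L]
    ring
  have hG := G_smooth hs
  rw [e, iteratedFDeriv_add_apply ((F_smooth hs 1).contDiffAt.of_le (by exact_mod_cast le_top))
    ((L.contDiff.comp hG).contDiffAt.of_le (by exact_mod_cast le_top)),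
    L.iteratedFDeriv_comp_left hG.contDiffAt (by exact_mod_cast le_top), G_flat hs hf]
  ext v
  simp

lemma not_eqOn (hn : ∀ x, x ≠ 0 → h x ≠ 0) : ¬ Set.EqOn (F h (-1)) (F h 1) (dom h) := by
  intro he
  have ha : (![0, 1 / 2] : Fin 2 → ℂ) ∈ ball 2 := by
    simp [ball, Fin.sum_univ_two]
    norm_num
  have hz : par h ![0, 1 / 2] ∈ dom h := by rw [dom_eq]; exact ⟨_, ha, rfl⟩
  have h2 := congrFun (he hz) 2
  have hp : 0 < 1 + Complex.normSq (h 1) := by
    have := Complex.normSq_nonneg (h 1); linarith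
  have hq : ((Real.sqrt (1 + Complex.normSq (h 1)) : ℝ) : ℂ) ≠ 0 := by
    exact_mod_cast (Real.sqrt_pos.2 hp).ne'
  have h1 := hn 1 one_ne_zero
  simp only [F, comp, par, Matrix.cons_val_zero, Matrix.cons_val_one, zero_add,
    Matrix.cons_val] at h2
  have h3 : (1 / 2 / ((Real.sqrt (1 + Complex.normSq (h 1)) : ℝ) : ℂ) * h 1) ≠ 0 :=
    mul_ne_zero (div_ne_zero (by norm_num) hq) h1
  apply h3
  linear_combination (-1 / 2 : ℂ) * h2

end Pool.Agent.H103Z.Jet
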