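import Mathlib

set_option autoImplicit false
open scoped Topology
open MeasureTheory Filter

namespace Pool.Agent.H103Z.KS

variable {P : Type*} [NormedAddCommGroup P] [NormedSpace ℝ P]

/-- directional derivative -/
noncomputable def D (v : P) (f : P → ℝ) : P → ℝ := fun p => fderiv ℝ f p v

/-- functions with `k` derivatives, all dominated by the weight `ω` -/
def Cl : ℕ → (P → ℝ) → (P → ℝ) → Prop
  | 0, ω, f => Continuous f ∧ ∀ p, |f p| ≤ ω p
  | k + 1, ω, f => (Continuous f ∧ ∀ p, |f p| ≤ ω p) ∧ Differentiable ℝ f ∧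
      ∀ v : P, ‖v‖ ≤ 1 → Cl k ω (D v f)

lemma Cl.zero {k : ℕ} {ω f : P → ℝ} (h : Cl k ω f) : Cl 0 ω f := by
  cases k with
  | zero => exact h
  | succ k => exact h.1

lemma Cl.cont {k : ℕ} {ω f : P → ℝ} (h : Cl k ω f) : Continuous f := h.zero.1

lemma Cl.bound {k : ℕ} {ω f : P → ℝ} (h : Cl k ω f) (p : P) : |f p| ≤ ω p := h.zero.2 p

lemma Cl.nonneg {k : ℕ} {ω f : P → ℝ} (h : Cl k ω f) (p : P) : 0 ≤ ω p :=
  (abs_nonneg _).trans (h.bound p)

lemma Cl.diff {k : ℕ} {ω f : P → ℝ} (h : Cl (k + 1) ω f) : Differentiable ℝ f := h.2.1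

lemma Cl.der {k : ℕ} {ω f : P → ℝ} (h : Cl (k + 1) ω f) {v : P} (hv : ‖v‖ ≤ 1) :
    Cl k ω (D v f) := h.2.2 v hv

lemma Cl.pred {k : ℕ} : ∀ {ω f : P → ℝ}, Cl (k + 1) ω f → Cl k ω f := by
  induction k with
  | zero => intro ω f h; exact h.1
  | succ k ih => intro ω f h; exact ⟨h.1, h.2.1, fun v hv => ih (h.2.2 v hv)⟩

lemma Cl.mono {k : ℕ} : ∀ {ω ω' f : P → ℝ}, Cl k ω f → (∀ p, ω p ≤ ω' p) → Cl k ω' f := by
  induction k with
  | zero => intro ω ω' f h hw; exact ⟨h.1, fun p => (h.2 p).trans (hw p)⟩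
  | succ k ih =>
    intro ω ω' f h hw
    exact ⟨⟨h.1.1, fun p => (h.1.2 p).trans (hw p)⟩, h.2.1, fun v hv => ih (h.2.2 v hv) hw⟩

lemma Cl.norm_fderiv {k : ℕ} {ω f : P → ℝ} (h : Cl (k + 1) ω f) (p : P) :
    ‖fderiv ℝ f p‖ ≤ ω p := by
  refine ContinuousLinearMap.opNorm_le_of_unit_norm (h.nonneg p) fun v hv => ?_
  exact (h.der hv.le).bound p

lemma D_add {f g : P → ℝ} (hf : Differentiable ℝ f) (hg : Differentiable ℝ g) (v : P) :
    D v (fun p => f p + g p) = fun p => D v f p + D v g p := by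
  funext p
  simp only [D]
  rw [fderiv_fun_add (hf p) (hg p)]
  rfl

lemma D_const_mul {f : P → ℝ} (hf : Differentiable ℝ f) (c : ℝ) (v : P) :
    D v (fun p => c * f p) = fun p => c * D v f p := by
  funext p
  simp only [D]
  rw [fderiv_const_mul (hf p)]
  rfl

lemma D_mul {f g : P → ℝ} (hf : Differentiable ℝ f) (hg : Differentiable ℝ g) (v : P) :
    D v (fun p => f p * g p) = fun p => D v f p * g p + f p * D v g p := by
  funext p
  simp only [D]
  rw [fderiv_fun_mul (hf p) (hg p)]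
  simp
  ring

lemma D_sum {ι : Type*} (s : Finset ι) {f : ι → P → ℝ} (hf : ∀ i, Differentiable ℝ (f i)) (v : P) :
    D v (fun p => ∑ i ∈ s, f i p) = fun p => ∑ i ∈ s, D v (f i) p := by
  funext p
  simp only [D]
  rw [fderiv_fun_sum fun i _ => hf i p]
  simp

lemma Cl.add {k : ℕ} : ∀ {ω ω' f g : P → ℝ}, Cl k ω f → Cl k ω' g →
    Cl k (fun p => ω p + ω' p) (fun p => f p + g p) := by
  have z : ∀ {ω ω' f g : P → ℝ}, Cl 0 ω f → Cl 0 ω' g →
      Cl 0 (fun p => ω p + ω' p) (fun p => f p + g p) := fun hf hg =>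
    ⟨hf.1.add hg.1, fun p => (abs_add_le _ _).trans (add_le_add (hf.2 p) (hg.2 p))⟩
  induction k with
  | zero => exact z
  | succ k ih =>
    intro ω ω' f g hf hg
    refine ⟨z hf.zero hg.zero, hf.diff.add hg.diff, fun v hv => ?_⟩
    rw [D_add hf.diff hg.diff]
    exact ih (hf.der hv) (hg.der hv)

lemma Cl.const_mul {k : ℕ} (c : ℝ) : ∀ {ω f : P → ℝ}, Cl k ω f →
    Cl k (fun p => |c| * ω p) (fun p => c * f p) := by
  have z : ∀ {ω f : P → ℝ}, Cl 0 ω f → Cl 0 (fun p => |c| * ω p) (fun p => c * f p) := fun hf =>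
    ⟨continuous_const.mul hf.1, fun p => by
      rw [abs_mul]; exact mul_le_mul_of_nonneg_left (hf.2 p) (abs_nonneg c)⟩
  induction k with
  | zero => exact z
  | succ k ih =>
    intro ω f hf
    refine ⟨z hf.zero, hf.diff.const_mul c, fun v hv => ?_⟩
    rw [D_const_mul hf.diff]
    exact ih (hf.der hv)

lemma Cl.neg {k : ℕ} {ω f : P → ℝ} (h : Cl k ω f) : Cl k ω (fun p => - f p) := by
  simpa using h.const_mul (-1)

lemma Cl.sub {k : ℕ} {ω ω' f g : P → ℝ} (hf : Cl k ω f) (hg : Cl k ω' g) :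
    Cl k (fun p => ω p + ω' p) (fun p => f p - g p) := by
  simpa [sub_eq_add_neg] using hf.add hg.neg

lemma Cl_const (k : ℕ) : ∀ (c : ℝ) (ω : P → ℝ), (∀ p, |c| ≤ ω p) → Cl k ω (fun _ => c) := by
  induction k with
  | zero => intro c ω h; exact ⟨continuous_const, h⟩
  | succ k ih =>
    intro c ω h
    refine ⟨⟨continuous_const, h⟩, differentiable_const c, fun v _ => ?_⟩
    have : D v (fun _ : P => c) = fun _ => 0 := by funext p; simp [D]
    rw [this]
    exact ih 0 ω fun p => by simpa using (abs_nonneg c).trans (h p)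

lemma Cl_linear (k : ℕ) (l : P →L[ℝ] ℝ) (hl : ‖l‖ ≤ 1) : Cl k (fun p => 1 + |l p|) l := by
  cases k with
  | zero => exact ⟨l.continuous, fun p => by linarith⟩
  | succ k =>
    refine ⟨⟨l.continuous, fun p => by linarith⟩, l.differentiable, fun v hv => ?_⟩
    have : D v l = fun _ => l v := by funext p; simp [D]
    rw [this]
    refine Cl_const k _ _ fun p => ?_
    have := l.le_opNorm v
    have h2 : ‖l‖ * ‖v‖ ≤ 1 := mul_le_one₀ hl (norm_nonneg _) hv
    rw [Real.norm_eq_abs] at this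
    linarith [abs_nonneg (l p)]

lemma Cl.sum {k : ℕ} {ι : Type*} (s : Finset ι) {ω f : ι → P → ℝ} (h : ∀ i, Cl k (ω i) (f i)) :
    Cl k (fun p => ∑ i ∈ s, ω i p) (fun p => ∑ i ∈ s, f i p) := by
  classical
  induction s using Finset.induction_on with
  | empty => simpa using Cl_const k 0 (fun _ : P => 0) fun _ => by simp
  | insert a s ha ih => simpa [Finset.sum_insert ha] using (h a).add ih

lemma Cl.mul {k : ℕ} : ∀ {ω ω' f g : P → ℝ}, Cl k ω f → Cl k ω' g →
    Cl k (fun p => 2 ^ k * (ω p * ω' p)) (fun p => f p * g p) := by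
  have z : ∀ {ω ω' f g : P → ℝ}, Cl 0 ω f → Cl 0 ω' g →
      Cl 0 (fun p => ω p * ω' p) (fun p => f p * g p) := fun hf hg =>
    ⟨hf.1.mul hg.1, fun p => by
      rw [abs_mul]; exact mul_le_mul (hf.2 p) (hg.2 p) (abs_nonneg _) (hf.nonneg p)⟩
  induction k with
  | zero => intro ω ω' f g hf hg; simpa using z hf hg
  | succ k ih =>
    intro ω ω' f g hf hg
    refine ⟨(z hf.zero hg.zero).mono fun p => ?_, hf.diff.mul hg.diff, fun v hv => ?_⟩
    · exact le_mul_of_one_le_left (mul_nonneg (hf.nonneg p) (hg.nonneg p))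
        (one_le_pow₀ one_le_two)
    · rw [D_mul hf.diff hg.diff]
      exact ((ih (hf.der hv) hg.pred).add (ih hf.pred (hg.der hv))).mono fun p =>
        le_of_eq (by ring)

lemma Cl.der' {k : ℕ} {ω f : P → ℝ} (h : Cl (k + 1) ω f) (v : P) {c : ℝ} (hc : 0 < c)
    (hv : ‖v‖ ≤ c) : Cl k (fun p => c * ω p) (D v f) := by
  have h1 : ‖c⁻¹ • v‖ ≤ 1 := by
    rw [norm_smul, norm_inv, Real.norm_of_nonneg hc.le]
    exact inv_mul_le_one_of_le₀ hv hc.le
  have h2 := (h.der h1).const_mul c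
  rw [abs_of_pos hc] at h2
  convert h2 using 1
  funext p
  simp [D, hc.ne']

lemma Cl.contDiff [FiniteDimensional ℝ P] {k : ℕ} : ∀ {ω f : P → ℝ}, Cl k ω f →
    ContDiff ℝ k f := by
  induction k with
  | zero => intro ω f h; simpa using h.1
  | succ k ih =>
    intro ω f h
    rw [Nat.cast_succ, contDiff_succ_iff_fderiv_apply]
    exact ⟨h.diff, by simp, fun v => ih (h.der' v (c := ‖v‖ + 1) (by positivity) (by linarith))⟩

lemma D_comp {P' : Type*} [NormedAddCommGroup P'] [NormedSpace ℝ P'] {f : P → ℝ}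
    (hf : Differentiable ℝ f) (A : P' →L[ℝ] P) (b : P) (v : P') :
    D v (fun q => f (A q + b)) = fun q => D (A v) f (A q + b) := by
  funext q
  have : HasFDerivAt (fun q => f (A q + b)) ((fderiv ℝ f (A q + b)).comp A) q :=
    (hf _).hasFDerivAt.comp q (A.hasFDerivAt.add_const b)
  simp [D, this.fderiv]

lemma Cl.comp {P' : Type*} [NormedAddCommGroup P'] [NormedSpace ℝ P'] (A : P' →L[ℝ] P) (b : P)
    {c : ℝ} (hc : 1 ≤ c) (hA : ∀ v, ‖A v‖ ≤ c * ‖v‖) {k : ℕ} : ∀ {ω f : P → ℝ}, Cl k ω f →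
    Cl k (fun q => c ^ k * ω (A q + b)) (fun q => f (A q + b)) := by
  have z : ∀ {ω f : P → ℝ}, Cl 0 ω f → Cl 0 (fun q => ω (A q + b)) (fun q => f (A q + b)) :=
    fun hf => ⟨hf.1.comp (A.continuous.add continuous_const), fun q => hf.2 _⟩
  induction k with
  | zero => intro ω f hf; simpa using z hf
  | succ k ih =>
    intro ω f hf
    refine ⟨(z hf.zero).mono fun q => le_mul_of_one_le_left (hf.nonneg _) (one_le_pow₀ hc),
      hf.diff.comp (A.differentiable.add_const b), fun v hv => ?_⟩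
    rw [D_comp hf.diff]
    have h1 : ‖A v‖ ≤ c := (hA v).trans (mul_le_of_le_one_right (by linarith) hv)
    exact (ih (hf.der' (A v) (by linarith) h1)).mono fun q => le_of_eq (by ring)

lemma Cl.tsum {k : ℕ} {ω : P → ℝ} (hω : ∀ p, ω p ≤ 1) {a : ℕ → ℝ} (ha0 : ∀ m, 0 ≤ a m)
    (ha : Summable a) : ∀ {f : ℕ → P → ℝ}, (∀ m, Cl k (fun p => a m * ω p) (f m)) →
    Cl k (fun p => (∑' m, a m) * ω p) (fun p => ∑' m, f m p) := by
  have b : ∀ {m : ℕ} {p : P}, a m * ω p ≤ a m := fun {m p} =>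
    mul_le_of_le_one_right (ha0 m) (hω p)
  have z : ∀ {f : ℕ → P → ℝ}, (∀ m, Cl 0 (fun p => a m * ω p) (f m)) →
      Cl 0 (fun p => (∑' m, a m) * ω p) (fun p => ∑' m, f m p) := fun {f} hf =>
    ⟨continuous_tsum (fun m => (hf m).1) ha fun m p => ((hf m).2 p).trans b, fun p => by
      have := tsum_of_norm_bounded (f := fun m => f m p) (ha.hasSum.mul_right (ω p))
        fun m => (hf m).2 p
      exact this⟩
  induction k with
  | zero => exact z
  | succ k ih =>
    intro f hf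
    have h0 : Summable fun m => f m 0 :=
      Summable.of_norm_bounded ha fun m => ((hf m).bound 0).trans b
    have hd : ∀ p, HasFDerivAt (fun p => ∑' m, f m p) (∑' m, fderiv ℝ (f m) p) p := fun p =>
      hasFDerivAt_tsum ha (fun m x => ((hf m).diff x).hasFDerivAt)
        (fun m x => ((hf m).norm_fderiv x).trans b) h0 p
    refine ⟨z fun m => (hf m).zero, fun p => (hd p).differentiableAt, fun v hv => ?_⟩
    have : D v (fun p => ∑' m, f m p) = fun p => ∑' m, D v (f m) p := by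
      funext p
      have hs : Summable fun m => fderiv ℝ (f m) p :=
        Summable.of_norm_bounded ha fun m => ((hf m).norm_fderiv p).trans b
      simp only [D]
      rw [(hd p).fderiv]
      exact (ContinuousLinearMap.apply ℝ ℝ v).map_tsum hs
    rw [this]
    exact ih fun m => (hf m).der hv

section Integral
variable {Ω : Type*} [MeasurableSpace Ω] {μ : Measure Ω}

lemma meas_D {F : Ω → P → ℝ} (hm : ∀ p, AEStronglyMeasurable (fun z => F z p) μ)
    (hd : ∀ z, Differentiable ℝ (F z)) (v p : P) :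
    AEStronglyMeasurable (fun z => D v (F z) p) μ := by
  refine aestronglyMeasurable_of_tendsto_ae (u := atTop)
    (f := fun (n : ℕ) z => (n : ℝ) • (F z (p + (n : ℝ)⁻¹ • v) - F z p))
    (fun n => ((hm (p + (n : ℝ)⁻¹ • v)).sub (hm p)).const_smul (n : ℝ)) (Eventually.of_forall fun z => ?_)
  exact (hd z p).hasFDerivAt.lim v
    (by simpa using tendsto_natCast_atTop_atTop (R := ℝ))

lemma meas_fderiv [FiniteDimensional ℝ P] {F : Ω → P → ℝ}
    (hm : ∀ p, AEStronglyMeasurable (fun z => F z p) μ)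
    (hd : ∀ z, Differentiable ℝ (F z)) (p : P) :
    AEStronglyMeasurable (fun z => fderiv ℝ (F z) p) μ := by
  let b := Module.finBasis ℝ P
  have : (fun z => fderiv ℝ (F z) p) = fun z => ∑ i, D (b i) (F z) p •
      LinearMap.toContinuousLinearMap (b.coord i) := by
    funext z
    ext v
    conv_lhs => rw [← b.sum_repr v, map_sum]
    simp [D, mul_comm]
  rw [this]
  exact Finset.aestronglyMeasurable_fun_sum _ fun i _ => (meas_D hm hd _ _).smul_const _

lemma hasFDerivAt_int [FiniteDimensional ℝ P] {k : ℕ} {F ω : Ω → P → ℝ} {g : Ω → ℝ}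
    (hm : ∀ p, AEStronglyMeasurable (fun z => F z p) μ) (hF : ∀ z, Cl (k + 1) (ω z) (F z))
    (hg : Integrable g μ) (hωg : ∀ z p, ω z p ≤ g z) (p : P) :
    Integrable (fun z => fderiv ℝ (F z) p) μ ∧
      HasFDerivAt (fun p => ∫ z, F z p ∂μ) (∫ z, fderiv ℝ (F z) p ∂μ) p := by
  have h1 := meas_fderiv hm (fun z => (hF z).diff) p
  refine ⟨hg.mono' h1 (Eventually.of_forall fun z => ((hF z).norm_fderiv p).trans (hωg z p)), ?_⟩
  exact hasFDerivAt_integral_of_dominated_of_fderiv_le (F := fun p z => F z p)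
    (F' := fun p z => fderiv ℝ (F z) p) (s := Set.univ) univ_mem
    (Eventually.of_forall hm)
    (hg.mono' (hm p) (Eventually.of_forall fun z => ((hF z).bound p).trans (hωg z p))) h1
    (Eventually.of_forall fun z q _ => ((hF z).norm_fderiv q).trans (hωg z q)) hg
    (Eventually.of_forall fun z q _ => ((hF z).diff q).hasFDerivAt)

lemma D_int [FiniteDimensional ℝ P] {k : ℕ} {F ω : Ω → P → ℝ} {g : Ω → ℝ}
    (hm : ∀ p, AEStronglyMeasurable (fun z => F z p) μ) (hF : ∀ z, Cl (k + 1) (ω z) (F z))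
    (hg : Integrable g μ) (hωg : ∀ z p, ω z p ≤ g z) (v : P) :
    D v (fun p => ∫ z, F z p ∂μ) = fun p => ∫ z, D v (F z) p ∂μ := by
  funext p
  obtain ⟨h1, h2⟩ := hasFDerivAt_int hm hF hg hωg p
  simp only [D]
  rw [h2.fderiv, ContinuousLinearMap.integral_apply h1]

lemma Cl.int [FiniteDimensional ℝ P] {k : ℕ} {ω : Ω → P → ℝ} {g : Ω → ℝ} {W : P → ℝ}
    (hg : Integrable g μ) (hωg : ∀ z p, ω z p ≤ g z)
    (hW : ∀ p, ∃ h : Ω → ℝ, Integrable h μ ∧ (∀ᵐ z ∂μ, ω z p ≤ h z) ∧ ∫ z, h z ∂μ ≤ W p) :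
    ∀ {F : Ω → P → ℝ}, (∀ p, AEStronglyMeasurable (fun z => F z p) μ) →
      (∀ z, Cl k (ω z) (F z)) → Cl k W (fun p => ∫ z, F z p ∂μ) := by
  have z : ∀ {F : Ω → P → ℝ}, (∀ p, AEStronglyMeasurable (fun z => F z p) μ) →
      (∀ z, Cl 0 (ω z) (F z)) → Cl 0 W (fun p => ∫ z, F z p ∂μ) := by
    intro F hm hF
    refine ⟨continuous_of_dominated (F := fun p z => F z p) hm
      (fun p => Eventually.of_forall fun z => ((hF z).2 p).trans (hωg z p)) hg
      (Eventually.of_forall fun z => (hF z).1), fun p => ?_⟩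
    obtain ⟨h, h1, h2, h3⟩ := hW p
    refine le_trans ?_ h3
    refine norm_integral_le_of_norm_le (f := fun z => F z p) h1 ?_
    filter_upwards [h2] with z hz using ((hF z).2 p).trans hz
  induction k with
  | zero => exact z
  | succ k ih =>
    intro F hm hF
    refine ⟨z hm fun z => (hF z).zero,
      fun p => (hasFDerivAt_int hm hF hg hωg p).2.differentiableAt, fun v hv => ?_⟩
    rw [D_int hm hF hg hωg]
    exact ih (meas_D hm (fun z => (hF z).diff) v) fun z => (hF z).der hv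

end Integral

end Pool.Agent.H103Z.KS
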