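import Mathlib
import Pool.Agent.H103Z.KSClass

set_option autoImplicit false
open scoped Topology
open MeasureTheory Filter Real

namespace Pool.Agent.H103Z.KS

/-- three dimensional space -/
abbrev E : Type := EuclideanSpace ℝ (Fin 3)

lemma int_prod (f : Fin 3 → ℝ → ℝ) : ∫ x : E, ∏ i, f i (x i) = ∏ i, ∫ y, f i y := by
  rw [← (PiLp.volume_preserving_toLp (Fin 3)).integral_comp
    (MeasurableEquiv.toLp 2 _).measurableEmbedding]
  exact integral_fintype_prod_volume_eq_prod f

lemma integrable_prod3 {f : Fin 3 → ℝ → ℝ} (hf : ∀ i, Integrable (f i)) :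
    Integrable (fun x : E => ∏ i, f i (x i)) := by
  rw [← (PiLp.volume_preserving_toLp (Fin 3)).integrable_comp_emb
    (MeasurableEquiv.toLp 2 _).measurableEmbedding]
  exact Integrable.fintype_prod hf

lemma norm_sq_eq (x : E) : ‖x‖ ^ 2 = ∑ i, x i ^ 2 := by
  rw [EuclideanSpace.norm_sq_eq]
  simp

/-- one dimensional Gaussian profile -/
noncomputable def gam (v y : ℝ) : ℝ := exp (- y ^ 2 / (8 * v)) / √v

lemma gam_nonneg (v y : ℝ) : 0 ≤ gam v y := by unfold gam; positivity

lemma gam_le {v : ℝ} (hv : 0 < v) (y : ℝ) : gam v y ≤ 1 / √v := by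
  unfold gam
  refine div_le_div_of_nonneg_right ?_ (sqrt_nonneg _)
  rw [exp_le_one_iff]
  exact div_nonpos_of_nonpos_of_nonneg (by nlinarith [sq_nonneg y]) (by positivity)

lemma gam_cont (v : ℝ) : Continuous (gam v) := by unfold gam; fun_prop

lemma gam_integrable {v : ℝ} (hv : 0 < v) : Integrable (gam v) := by
  have := (integrable_exp_neg_mul_sq (b := 1 / (8 * v)) (by positivity)).div_const (√v)
  refine this.congr (Eventually.of_forall fun y => ?_)
  simp only [gam]
  congr 2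
  ring

lemma gam_integral {v : ℝ} (hv : 0 < v) : ∫ y, gam v y = √(8 * π) := by
  have e : gam v = fun y => exp (-(1 / (8 * v)) * y ^ 2) / √v := by
    funext y; simp only [gam]; congr 2; ring
  rw [e, integral_div, integral_gaussian, ← sqrt_div' _ hv.le]
  congr 1
  field_simp

lemma conv1 {v : ℝ} (hv : 0 < v) (y r : ℝ) :
    ∫ u, exp (- u ^ 2 / 8) * gam v (y - r * u) = √(8 * π) * gam (v + r ^ 2) y := by
  have hs : 0 < v + r ^ 2 := by positivity
  have e : (fun u => exp (- u ^ 2 / 8) * gam v (y - r * u)) = fun u =>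
      (exp (- y ^ 2 / (8 * (v + r ^ 2))) / √v) *
        exp (-((v + r ^ 2) / (8 * v)) * (u - r * y / (v + r ^ 2)) ^ 2) := by
    funext u
    simp only [gam]
    rw [← mul_div_assoc, ← exp_add, div_mul_eq_mul_div, ← exp_add]
    congr 2
    field_simp
    ring
  rw [e, integral_const_mul, integral_sub_right_eq_self
    (fun u => exp (-((v + r ^ 2) / (8 * v)) * u ^ 2)), integral_gaussian, gam]
  have h1 : √(π / ((v + r ^ 2) / (8 * v))) = √(8 * π) * √v / √(v + r ^ 2) := by
    rw [← sqrt_mul (by positivity), ← sqrt_div' _ hs.le]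
    congr 1
    field_simp
  have : 0 < √v := sqrt_pos.2 hv
  rw [h1]
  field_simp

/-- the initial variances -/
def av (L : ℝ) : Fin 3 → ℝ := ![L ^ 2, 1, 1]

lemma av_pos {L : ℝ} (hL : 1 ≤ L) (i : Fin 3) : 0 < av L i := by
  fin_cases i <;> simp [av]
  positivity

/-- the anisotropic Gaussian weight -/
noncomputable def W (L T : ℝ) (x : E) : ℝ := L * ∏ i, gam (av L i + T) (x i)

/-- wide Gaussian -/
noncomputable def e8 (u : E) : ℝ := exp (- ‖u‖ ^ 2 / 8)

/-- Gaussian -/
noncomputable def g4 (u : E) : ℝ := exp (- ‖u‖ ^ 2 / 4)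

/-- normalising constant of the wide Gaussian -/
noncomputable def c8 : ℝ := √(8 * π) ^ 3

lemma c8_pos : 0 < c8 := by unfold c8; have := pi_pos; positivity

lemma e8_pos (u : E) : 0 < e8 u := exp_pos _

lemma g4_pos (u : E) : 0 < g4 u := exp_pos _

lemma e8_eq (u : E) : e8 u = ∏ i, exp (- u i ^ 2 / 8) := by
  rw [e8, norm_sq_eq, ← exp_sum]
  congr 1
  simp [Fin.sum_univ_three]
  ring

lemma g4_eq (u : E) : g4 u = ∏ i, exp (- (1 / 4) * u i ^ 2) := by
  rw [g4, norm_sq_eq, ← exp_sum]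
  congr 1
  simp [Fin.sum_univ_three]
  ring

lemma e8_cont : Continuous e8 := by unfold e8; fun_prop

lemma g4_cont : Continuous g4 := by unfold g4; fun_prop

lemma e8_integrable : Integrable e8 := by
  have : e8 = fun u : E => ∏ i, (fun (_ : Fin 3) (y : ℝ) => exp (- y ^ 2 / 8)) i (u i) :=
    funext e8_eq
  rw [this]
  refine integrable_prod3 (f := fun (_ : Fin 3) (y : ℝ) => exp (- y ^ 2 / 8)) fun _ => ?_
  refine (integrable_exp_neg_mul_sq (b := 1 / 8) (by norm_num)).congr
    (Eventually.of_forall fun y => ?_)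
  simp only
  congr 1
  ring

lemma g4_integral : ∫ u, g4 u = √(4 * π) ^ 3 := by
  have : g4 = fun u : E => ∏ i, (fun (_ : Fin 3) (y : ℝ) => exp (- (1 / 4) * y ^ 2)) i (u i) :=
    funext g4_eq
  rw [this]
  refine (int_prod fun (_ : Fin 3) (y : ℝ) => exp (- (1 / 4) * y ^ 2)).trans ?_
  simp only [integral_gaussian, Finset.prod_const, Finset.card_univ, Fintype.card_fin]
  congr 2
  ring

variable {L : ℝ}

lemma W_nonneg (hL : 1 ≤ L) (T : ℝ) (x : E) : 0 ≤ W L T x :=
  mul_nonneg (by linarith) (Finset.prod_nonneg fun _ _ => gam_nonneg _ _)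

lemma W_le (hL : 1 ≤ L) {T : ℝ} (hT : 0 ≤ T) (x : E) : W L T x ≤ 1 / (1 + T) := by
  have h0 := gam_le (v := L ^ 2 + T) (by positivity) (x 0)
  have h1 := gam_le (v := 1 + T) (by positivity) (x 1)
  have h2 := gam_le (v := 1 + T) (by positivity) (x 2)
  have hL0 : 0 < L := by linarith
  have h3 : L ≤ √(L ^ 2 + T) := le_sqrt_of_sq_le (by linarith)
  have h4 : L * gam (L ^ 2 + T) (x 0) ≤ 1 := by
    refine (mul_le_mul_of_nonneg_left h0 hL0.le).trans ?_
    rw [mul_one_div, div_le_one (by positivity)]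
    exact h3
  have h5 : gam (1 + T) (x 1) * gam (1 + T) (x 2) ≤ 1 / (1 + T) := by
    refine (mul_le_mul h1 h2 (gam_nonneg _ _) (by positivity)).trans (le_of_eq ?_)
    rw [div_mul_div_comm, mul_self_sqrt (by positivity), one_mul]
  have e : W L T x = (L * gam (L ^ 2 + T) (x 0)) * (gam (1 + T) (x 1) * gam (1 + T) (x 2)) := by
    simp [W, av, Fin.prod_univ_three]
    ring
  rw [e]
  exact (mul_le_of_le_one_left (mul_nonneg (gam_nonneg _ _) (gam_nonneg _ _)) h4).trans h5

lemma W_le_one (hL : 1 ≤ L) {T : ℝ} (hT : 0 ≤ T) (x : E) : W L T x ≤ 1 :=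
  (W_le hL hT x).trans (by rw [div_le_one (by linarith)]; linarith)

lemma W_cont (T : ℝ) : Continuous (W L T) :=
  continuous_const.mul (continuous_finsetProd _ fun i _ => (gam_cont _).comp (by fun_prop))

lemma W_integrable (hL : 1 ≤ L) {T : ℝ} (hT : 0 ≤ T) : Integrable (W L T) :=
  (integrable_prod3 fun i => gam_integrable (by have := av_pos hL i; linarith)).const_mul L

lemma W_integral (hL : 1 ≤ L) {T : ℝ} (hT : 0 ≤ T) : ∫ x, W L T x = L * c8 := by
  unfold W
  rw [integral_const_mul, int_prod fun i => gam (av L i + T)]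
  rw [Finset.prod_congr rfl fun i _ => gam_integral (v := av L i + T)
    (by have := av_pos hL i; linarith)]
  simp [c8]

lemma W_conv_integrable (hL : 1 ≤ L) {T : ℝ} (hT : 0 ≤ T) (x : E) (r : ℝ) :
    Integrable (fun u => e8 u * W L T (x - r • u)) := by
  refine e8_integrable.mono' (e8_cont.mul ((W_cont T).comp (by fun_prop))).aestronglyMeasurable
    (Eventually.of_forall fun u => ?_)
  rw [Real.norm_of_nonneg (mul_nonneg (e8_pos u).le (W_nonneg hL _ _))]
  exact mul_le_of_le_one_right (e8_pos u).le (W_le_one hL hT _)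

lemma W_conv (hL : 1 ≤ L) {T : ℝ} (hT : 0 ≤ T) (x : E) (r : ℝ) :
    ∫ u, e8 u * W L T (x - r • u) = c8 * W L (T + r ^ 2) x := by
  have e : (fun u => e8 u * W L T (x - r • u)) = fun u : E => L * ∏ i,
      (fun (i : Fin 3) (y : ℝ) => exp (- y ^ 2 / 8) * gam (av L i + T) (x i - r * y)) i (u i) := by
    funext u
    rw [e8_eq, W, Finset.prod_mul_distrib]
    simp
    ring
  rw [e, integral_const_mul, int_prod
    fun (i : Fin 3) (y : ℝ) => exp (- y ^ 2 / 8) * gam (av L i + T) (x i - r * y)]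
  rw [Finset.prod_congr rfl fun i _ => conv1 (v := av L i + T)
    (by have := av_pos hL i; linarith) (x i) r]
  rw [Finset.prod_mul_distrib, W, c8]
  simp [add_assoc]
  ring

/-- constant absorbing polynomial factors -/
noncomputable def Kp (m : ℕ) : ℝ := m.factorial * exp 3

lemma Kp_pos (m : ℕ) : 0 < Kp m := by unfold Kp; positivity

lemma poly_g4 (m : ℕ) (u : E) : (1 + ‖u‖) ^ m * g4 u ≤ Kp m * e8 u := by
  have h1 : (1 + ‖u‖) ^ m ≤ m.factorial * exp (1 + ‖u‖) := by
    have := pow_div_factorial_le_exp (1 + ‖u‖) (by positivity) m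
    rwa [div_le_iff₀ (by positivity), mul_comm] at this
  refine (mul_le_mul_of_nonneg_right h1 (g4_pos u).le).trans ?_
  rw [Kp, mul_assoc, mul_assoc, g4, e8, ← exp_add, ← exp_add]
  refine mul_le_mul_of_nonneg_left (exp_le_exp.2 ?_) (by positivity)
  nlinarith [sq_nonneg (‖u‖ - 4)]

lemma g4_hasFDerivAt (u : E) :
    HasFDerivAt g4 ((-(1 / 2) * g4 u) • innerSL ℝ u) u := by
  have h1 : HasFDerivAt (fun u : E => - ‖u‖ ^ 2 / 4) ((-(1 / 2) : ℝ) • innerSL ℝ u) u := by
    have := ((hasStrictFDerivAt_norm_sq u).hasFDerivAt.neg).mul_const (1 / 4 : ℝ)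
    have e : (fun u : E => - ‖u‖ ^ 2 / 4) = fun y => (-fun x : E => ‖x‖ ^ 2) y * (1 / 4) := by
      funext y; simp; ring
    rw [e]
    refine this.congr_fderiv ?_
    ext v; simp; ring
  refine h1.exp.congr_fderiv ?_
  ext v
  simp [g4]
  ring

lemma D_g4 (v : E) : D v g4 = fun u => (-(1 / 2) * innerSL ℝ v u) * g4 u := by
  funext u
  simp only [D, (g4_hasFDerivAt u).fderiv]
  simp [real_inner_comm]
  ring

lemma g4_Cl (k : ℕ) : ∃ C : ℝ, 1 ≤ C ∧ Cl k (fun u => C * ((1 + ‖u‖) ^ k * g4 u)) g4 := by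
  induction k with
  | zero => exact ⟨1, le_rfl, g4_cont, fun u => by simp [abs_of_pos (g4_pos u)]⟩
  | succ k ih =>
    obtain ⟨C, hC, h⟩ := ih
    have h2 : (1 : ℝ) ≤ 2 ^ k := one_le_pow₀ one_le_two
    refine ⟨2 ^ k * C, one_le_mul_of_one_le_of_one_le h2 hC, ⟨g4_cont, fun u => ?_⟩,
      fun u => (g4_hasFDerivAt u).differentiableAt, fun v hv => ?_⟩
    · rw [abs_of_pos (g4_pos u)]
      show g4 u ≤ 2 ^ k * C * ((1 + ‖u‖) ^ (k + 1) * g4 u)
      rw [← mul_assoc]
      refine le_mul_of_one_le_left (g4_pos u).le (one_le_mul_of_one_le_of_one_le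
        (one_le_mul_of_one_le_of_one_le h2 hC) (one_le_pow₀ (by linarith [norm_nonneg u])))
    · rw [D_g4]
      have hl := (Cl_linear k (innerSL ℝ v) (by simpa using hv)).const_mul (-(1 / 2))
      refine (hl.mul h).mono fun u => ?_
      have h3 : |innerSL ℝ v u| ≤ ‖u‖ := by
        have := abs_real_inner_le_norm v u
        simp only [innerSL_apply_apply]
        nlinarith [norm_nonneg u, norm_nonneg v]
      have h4 : |(-(1 / 2) : ℝ)| * (1 + |innerSL ℝ v u|) ≤ 1 + ‖u‖ := by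
        rw [abs_neg, abs_of_pos (by norm_num)]
        linarith [norm_nonneg u]
      have h5 : 0 ≤ C * ((1 + ‖u‖) ^ k * g4 u) := h.nonneg u
      calc 2 ^ k * (|(-(1 / 2) : ℝ)| * (1 + |innerSL ℝ v u|) * (C * ((1 + ‖u‖) ^ k * g4 u)))
          ≤ 2 ^ k * ((1 + ‖u‖) * (C * ((1 + ‖u‖) ^ k * g4 u))) := by gcongr
        _ = _ := by ring

end Pool.Agent.H103Z.KS
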