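import Mathlib
import Pool.Agent.H103Z.KSGauss

set_option autoImplicit false
open scoped Topology
open MeasureTheory Filter Real Set

namespace Pool.Agent.H103Z.KS

/-- bounded with `k` bounded derivatives -/
def Bd {P : Type*} [NormedAddCommGroup P] [NormedSpace ℝ P] (k : ℕ) (f : P → ℝ) : Prop :=
  ∃ M : ℝ, Cl k (fun _ => M) f

section
variable {P : Type*} [NormedAddCommGroup P] [NormedSpace ℝ P] {k : ℕ} {f g : P → ℝ}

lemma Bd.pred (h : Bd (k + 1) f) : Bd k f := let ⟨M, h⟩ := h; ⟨M, h.pred⟩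
lemma Bd.zero (h : Bd k f) : Bd 0 f := let ⟨M, h⟩ := h; ⟨M, h.zero⟩
lemma Bd.cont (h : Bd k f) : Continuous f := let ⟨_, h⟩ := h; h.cont
lemma Bd.diff (h : Bd (k + 1) f) : Differentiable ℝ f := let ⟨_, h⟩ := h; h.diff
lemma Bd.der (h : Bd (k + 1) f) (v : P) : Bd k (D v f) :=
  let ⟨_, h⟩ := h; ⟨_, h.der' v (c := ‖v‖ + 1) (by positivity) (by linarith)⟩
lemma Bd.add (h : Bd k f) (h' : Bd k g) : Bd k fun p => f p + g p :=
  let ⟨_, h⟩ := h; let ⟨_, h'⟩ := h'; ⟨_, h.add h'⟩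
lemma Bd.mul (h : Bd k f) (h' : Bd k g) : Bd k fun p => f p * g p :=
  let ⟨_, h⟩ := h; let ⟨_, h'⟩ := h'; ⟨_, h.mul h'⟩
lemma Bd.sum {ι : Type*} (s : Finset ι) {f : ι → P → ℝ} (h : ∀ i, Bd k (f i)) :
    Bd k fun p => ∑ i ∈ s, f i p := by
  choose M hM using h
  exact ⟨_, Cl.sum s hM⟩
lemma Bd.one (h : Bd (k + 1) f) : Bd 1 f := by
  induction k with
  | zero => exact h
  | succ k ih => exact ih h.pred
end

/-- the affine change of variables of the heat kernel -/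
noncomputable def Au (u : E) : ℝ × ℝ × E →L[ℝ] ℝ × E :=
  (ContinuousLinearMap.fst ℝ ℝ (ℝ × E)).prod
    ((ContinuousLinearMap.snd ℝ ℝ E).comp (ContinuousLinearMap.snd ℝ ℝ (ℝ × E)) -
      ((ContinuousLinearMap.fst ℝ ℝ E).comp (ContinuousLinearMap.snd ℝ ℝ (ℝ × E))).smulRight u)

@[simp] lemma Au_apply (u : E) (q : ℝ × ℝ × E) : Au u q = (q.1, q.2.2 - q.2.1 • u) := by
  simp [Au]

lemma Au_norm (u : E) (q : ℝ × ℝ × E) : ‖Au u q‖ ≤ (1 + ‖u‖) * ‖q‖ := by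
  have h1 : ‖q.1‖ ≤ ‖q‖ := norm_fst_le q
  have h2 : ‖q.2.1‖ ≤ ‖q‖ := (norm_fst_le q.2).trans (norm_snd_le q)
  have h3 : ‖q.2.2‖ ≤ ‖q‖ := (norm_snd_le q.2).trans (norm_snd_le q)
  have h4 := norm_nonneg u
  have h5 := norm_nonneg q
  rw [Au_apply, Prod.norm_def, max_le_iff]
  constructor
  · nlinarith
  · refine (norm_sub_le _ _).trans ?_
    rw [norm_smul]
    nlinarith

/-- admissible kernels -/
def Ker (κ : E → ℝ) : Prop := Continuous κ ∧ ∀ u, |κ u| ≤ (1 + ‖u‖) * g4 u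

/-- convolution with a rescaled kernel -/
noncomputable def Hk (κ : E → ℝ) (F : ℝ × E → ℝ) (q : ℝ × ℝ × E) : ℝ := ∫ u, κ u * F (Au u q)

variable {κ : E → ℝ} {k : ℕ} {L : ℝ}

lemma fam_Cl (hκ : Ker κ) {ω F : ℝ × E → ℝ} (hF : Cl k ω F) (u : E) :
    Cl k (fun q => Kp (k + 1) * (e8 u * ω (Au u q))) (fun q => κ u * F (Au u q)) := by
  have h := (hF.comp (Au u) 0 (c := 1 + ‖u‖) (by linarith [norm_nonneg u]) (Au_norm u)).const_mul
    (κ u)
  simp only [add_zero] at h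
  refine h.mono fun q => ?_
  have h0 := hF.nonneg (Au u q)
  have h1 := poly_g4 (k + 1) u
  calc |κ u| * ((1 + ‖u‖) ^ k * ω (Au u q))
      ≤ ((1 + ‖u‖) * g4 u) * ((1 + ‖u‖) ^ k * ω (Au u q)) := by gcongr; exact hκ.2 u
    _ = ((1 + ‖u‖) ^ (k + 1) * g4 u) * ω (Au u q) := by ring
    _ ≤ (Kp (k + 1) * e8 u) * ω (Au u q) := by gcongr
    _ = _ := by ring

lemma fam_meas (hκ : Ker κ) {F : ℝ × E → ℝ} (hF : Continuous F) (q : ℝ × ℝ × E) :
    AEStronglyMeasurable (fun u => κ u * F (Au u q)) volume := by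
  refine (hκ.1.mul (hF.comp ?_)).aestronglyMeasurable
  simp only [Au_apply]
  fun_prop

lemma Hk_integrable (hκ : Ker κ) {F : ℝ × E → ℝ} (hF : Bd k F) (q : ℝ × ℝ × E) :
    Integrable (fun u => κ u * F (Au u q)) := by
  obtain ⟨M, hF⟩ := hF
  exact ((e8_integrable.mul_const M).const_mul (Kp (k + 1))).mono' (fam_meas hκ hF.cont q)
    (Eventually.of_forall fun u => (fam_Cl hκ hF u).bound q)

lemma Hk_Bd (hκ : Ker κ) {F : ℝ × E → ℝ} (hF : Bd k F) : Bd k (Hk κ F) := by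
  obtain ⟨M, hF⟩ := hF
  have hi := (e8_integrable.mul_const M).const_mul (Kp (k + 1))
  exact ⟨_, Cl.int hi (fun _ _ => le_rfl)
    (fun _ => ⟨_, hi, Eventually.of_forall fun _ => le_rfl, le_rfl⟩)
    (fam_meas hκ hF.cont) (fam_Cl hκ hF)⟩

lemma Hk_Cl (hL : 1 ≤ L) (hκ : Ker κ) {m T : ℝ → ℝ} {M : ℝ} (hm0 : ∀ a, 0 ≤ m a)
    (hm : ∀ a, m a ≤ M) (hT : ∀ a, 0 ≤ T a) {F : ℝ × E → ℝ}
    (hF : Cl k (fun p => m p.1 * W L (T p.1) p.2) F) :
    Cl k (fun q => Kp (k + 1) * c8 * (m q.1 * W L (T q.1 + q.2.1 ^ 2) q.2.2)) (Hk κ F) := by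
  refine Cl.int ((e8_integrable.mul_const M).const_mul (Kp (k + 1))) (fun u q => ?_)
    (fun q => ⟨fun u => Kp (k + 1) * m q.1 * (e8 u * W L (T q.1) (q.2.2 - q.2.1 • u)),
      (W_conv_integrable hL (hT _) _ _).const_mul _, Eventually.of_forall fun u => ?_, ?_⟩)
    (fam_meas hκ hF.cont) (fam_Cl hκ hF)
  · have h1 := W_le_one hL (hT (Au u q).1) (Au u q).2
    have h2 := W_nonneg hL (T (Au u q).1) (Au u q).2
    have h3 := Kp_pos (k + 1)
    have h4 := e8_pos u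
    have h5 : m (Au u q).1 * W L (T (Au u q).1) (Au u q).2 ≤ M :=
      (mul_le_of_le_one_right (hm0 _) h1).trans (hm _)
    gcongr
  · simp only [Au_apply]
    exact le_of_eq (by ring)
  · rw [integral_const_mul, W_conv hL (hT _)]
    exact le_of_eq (by ring)

lemma D_Hk (hκ : Ker κ) {F : ℝ × E → ℝ} (hF : Bd 1 F) (v q : ℝ × ℝ × E) :
    D v (Hk κ F) q = ∫ u, κ u * D (Au u v) F (Au u q) := by
  obtain ⟨M, hF⟩ := hF
  have := D_int (fam_meas hκ hF.cont) (fam_Cl hκ hF)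
    ((e8_integrable.mul_const M).const_mul (Kp (1 + 1))) (fun _ _ => le_rfl) v
  refine (congrFun this q).trans ?_
  refine integral_congr_ae (Eventually.of_forall fun u => ?_)
  have h1 := D_comp hF.diff (Au u) 0 v
  simp only [add_zero] at h1
  have h2 : Differentiable ℝ fun q => F (Au u q) := hF.diff.comp (Au u).differentiable
  simp only
  rw [D_const_mul h2, h1]

lemma D_Hk_flat (hκ : Ker κ) {F : ℝ × E → ℝ} (hF : Bd 1 F) (v : ℝ × E) :
    D (v.1, 0, v.2) (Hk κ F) = Hk κ (D v F) := by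
  funext q
  rw [D_Hk hκ hF]
  simp [Hk]

lemma Hk_add (hκ : Ker κ) {F F' : ℝ × E → ℝ} (hF : Bd 0 F) (hF' : Bd 0 F') (q : ℝ × ℝ × E) :
    Hk κ (fun p => F p + F' p) q = Hk κ F q + Hk κ F' q := by
  simp only [Hk, mul_add]
  exact integral_add (Hk_integrable hκ hF q) (Hk_integrable hκ hF' q)

lemma Hk_sum (hκ : Ker κ) {F : Fin 3 → ℝ × E → ℝ} (hF : ∀ i, Bd 0 (F i)) (q : ℝ × ℝ × E) :
    Hk κ (fun p => ∑ i, F i p) q = ∑ i, Hk κ (F i) q := by
  simp only [Hk, Finset.mul_sum]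
  exact integral_finsetSum _ fun i _ => Hk_integrable hκ (hF i) q

/-- normalising constant of the heat kernel -/
noncomputable def c0 : ℝ := (√(4 * π) ^ 3)⁻¹

lemma c0_pos : 0 < c0 := by unfold c0; have := pi_pos; positivity

lemma c0_le : c0 ≤ 1 := by
  refine inv_le_one_of_one_le₀ (one_le_pow₀ ?_)
  rw [one_le_sqrt]
  linarith [pi_gt_three]

/-- the heat kernel at time one -/
noncomputable def G (u : E) : ℝ := c0 * g4 u

/-- its gradient -/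
noncomputable def gi (i : Fin 3) (u : E) : ℝ := -(1 / 2) * u i * G u

lemma G_ker : Ker G := by
  refine ⟨continuous_const.mul g4_cont, fun u => ?_⟩
  have := g4_pos u
  have h0 := c0_pos
  rw [G, abs_of_pos (by positivity)]
  gcongr
  linarith [c0_le, norm_nonneg u]

lemma gi_ker (i : Fin 3) : Ker (gi i) := by
  refine ⟨(continuous_const.mul (by fun_prop)).mul G_ker.1, fun u => ?_⟩
  have := g4_pos u
  have h0 := c0_pos
  have h1 : |u i| ≤ ‖u‖ := by simpa using PiLp.norm_apply_le u i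
  rw [gi, G, abs_mul, abs_mul, abs_neg, abs_of_pos (by norm_num : (0 : ℝ) < 1 / 2),
    abs_of_pos (by positivity : 0 < c0 * g4 u), ← mul_assoc]
  gcongr
  nlinarith [c0_le, norm_nonneg u, abs_nonneg (u i)]

lemma G_integral : ∫ u, G u = 1 := by
  unfold G
  rw [integral_const_mul, g4_integral, c0, inv_mul_cancel₀]
  have := pi_pos
  positivity

/-- the space-time weight -/
noncomputable def w (L : ℝ) (p : ℝ × E) : ℝ := W L (p.1 ^ 2) p.2

lemma w_nonneg (hL : 1 ≤ L) (p : ℝ × E) : 0 ≤ w L p := W_nonneg hL _ _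

lemma w_le_one (hL : 1 ≤ L) (p : ℝ × E) : w L p ≤ 1 := W_le_one hL (sq_nonneg _) _

lemma Cl.bd (hL : 1 ≤ L) {a : ℝ} (ha : 0 ≤ a) {Q : ℝ × E → ℝ} (hQ : Cl k (fun p => a * w L p) Q) :
    Bd k Q := ⟨a, hQ.mono fun p => mul_le_of_le_one_right ha (w_le_one hL p)⟩

/-- inclusion used for the drift -/
noncomputable def Ar : ℝ × E →L[ℝ] ℝ × ℝ × E :=
  (ContinuousLinearMap.fst ℝ ℝ E).prod ((0 : ℝ × E →L[ℝ] ℝ).prod (ContinuousLinearMap.snd ℝ ℝ E))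

@[simp] lemma Ar_apply (p : ℝ × E) : Ar p = (p.1, 0, p.2) := rfl

lemma Ar_norm (p : ℝ × E) : ‖Ar p‖ ≤ 1 * ‖p‖ := by
  simp [Prod.norm_def]

/-- the drift generated by a density -/
noncomputable def V (i : Fin 3) (Q : ℝ × E → ℝ) (p : ℝ × E) : ℝ :=
  2 * ∫ r in Ioi (0 : ℝ), Hk (gi i) Q (Ar p + (0, r, 0))

lemma inv_sq_int {S : ℝ} (hS : 0 < S) : IntegrableOn (fun r : ℝ => 1 / (S + r ^ 2)) (Ioi 0) ∧
    ∫ r in Ioi (0 : ℝ), 1 / (S + r ^ 2) = π / 2 / √S := by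
  have hs : 0 < √S := sqrt_pos.2 hS
  have e : (fun r : ℝ => 1 / (S + r ^ 2)) = fun r => S⁻¹ * (1 + ((√S)⁻¹ * r) ^ 2)⁻¹ := by
    funext r
    rw [mul_pow, inv_pow, sq_sqrt hS.le]
    field_simp
  rw [e]
  constructor
  · exact ((integrable_inv_one_add_sq.comp_mul_left' (inv_ne_zero hs.ne')).const_mul
      _).integrableOn
  · rw [integral_const_mul, integral_comp_mul_left_Ioi (fun r : ℝ => (1 + r ^ 2)⁻¹) 0
      (inv_pos.2 hs), mul_zero, integral_Ioi_inv_one_add_sq]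
    simp only [arctan_zero, sub_zero, inv_inv, smul_eq_mul]
    rw [eq_div_iff hs.ne']
    field_simp
    rw [sq_sqrt hS.le]

lemma Vfam_Cl (hL : 1 ≤ L) (hκ : Ker κ) {a : ℝ} (ha : 0 ≤ a) {Q : ℝ × E → ℝ}
    (hQ : Cl k (fun p => a * w L p) Q) (r : ℝ) :
    Cl k (fun p => Kp (k + 1) * c8 * a * (1 / (1 + p.1 ^ 2 + r ^ 2)))
      (fun p => Hk κ Q (Ar p + (0, r, 0))) := by
  have h := Hk_Cl hL hκ (m := fun _ => a) (T := fun t => t ^ 2) (M := a) (fun _ => ha)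
    (fun _ => le_rfl) (fun _ => sq_nonneg _) hQ
  refine (h.comp Ar (0, r, 0) le_rfl Ar_norm).mono fun p => ?_
  have h1 := W_le hL (T := p.1 ^ 2 + r ^ 2) (by positivity) p.2
  have h2 := Kp_pos (k + 1)
  have h3 := c8_pos
  simp only [one_pow, one_mul, Ar_apply, Prod.mk_add_mk, add_zero, zero_add]
  rw [← mul_assoc, add_assoc 1]
  gcongr

lemma Vfam_le {C : ℝ} (hC : 0 ≤ C) (r : ℝ) (p : ℝ × E) :
    C * (1 / (1 + p.1 ^ 2 + r ^ 2)) ≤ C * (1 / (1 + r ^ 2)) := by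
  gcongr
  linarith [sq_nonneg p.1]

lemma Vfam_meas (hκ : Ker κ) {Q : ℝ × E → ℝ} (hQ : Bd k Q) (p : ℝ × E) :
    AEStronglyMeasurable (fun r : ℝ => Hk κ Q (Ar p + (0, r, 0))) (volume.restrict (Ioi 0)) :=
  ((Hk_Bd hκ hQ).cont.comp (by fun_prop)).aestronglyMeasurable

lemma Vfam_integrable (hL : 1 ≤ L) (hκ : Ker κ) {a : ℝ} (ha : 0 ≤ a) {Q : ℝ × E → ℝ}
    (hQ : Cl k (fun p => a * w L p) Q) (p : ℝ × E) :
    IntegrableOn (fun r : ℝ => Hk κ Q (Ar p + (0, r, 0))) (Ioi 0) :=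
  Integrable.mono' ((inv_sq_int (S := 1 + p.1 ^ 2) (by positivity)).1.const_mul _)
    (Vfam_meas hκ (hQ.bd hL ha) p) (Eventually.of_forall fun r => (Vfam_Cl hL hκ ha hQ r).bound p)

lemma V_Cl (hL : 1 ≤ L) (i : Fin 3) {a : ℝ} (ha : 0 ≤ a) {Q : ℝ × E → ℝ}
    (hQ : Cl k (fun p => a * w L p) Q) :
    Cl k (fun p => π * Kp (k + 1) * c8 * a * (1 / √(1 + p.1 ^ 2))) (V i Q) := by
  have h2 := Kp_pos (k + 1)
  have h3 := c8_pos
  have := (Cl.int (W := fun p => Kp (k + 1) * c8 * a * (π / 2 / √(1 + p.1 ^ 2)))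
    ((inv_sq_int one_pos).1.const_mul (Kp (k + 1) * c8 * a)) (Vfam_le (by positivity))
    (fun p => ⟨_, (inv_sq_int (S := 1 + p.1 ^ 2) (by positivity)).1.const_mul _,
      Eventually.of_forall fun _ => le_rfl, by
        rw [integral_const_mul, (inv_sq_int (S := 1 + p.1 ^ 2) (by positivity)).2]⟩)
    (Vfam_meas (gi_ker i) (hQ.bd hL ha)) (Vfam_Cl hL (gi_ker i) ha hQ)).const_mul 2
  refine this.mono fun p => le_of_eq ?_
  rw [abs_two]
  ring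

lemma V_Bd (hL : 1 ≤ L) (i : Fin 3) {a : ℝ} (ha : 0 ≤ a) {Q : ℝ × E → ℝ}
    (hQ : Cl k (fun p => a * w L p) Q) : Bd k (V i Q) := by
  refine ⟨π * Kp (k + 1) * c8 * a, (V_Cl hL i ha hQ).mono fun p => ?_⟩
  have h2 := Kp_pos (k + 1)
  have h3 := c8_pos
  have h4 := pi_pos
  refine mul_le_of_le_one_right (by positivity) ?_
  rw [div_le_one (by positivity), one_le_sqrt]
  linarith [sq_nonneg p.1]

lemma D_V (hL : 1 ≤ L) (i : Fin 3) {a : ℝ} (ha : 0 ≤ a) {Q : ℝ × E → ℝ}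
    (hQ : Cl 1 (fun p => a * w L p) Q) (v : ℝ × E) : D v (V i Q) = V i (D v Q) := by
  have h2 := Kp_pos (1 + 1)
  have h3 := c8_pos
  have hm := Vfam_meas (gi_ker i) (hQ.bd hL ha)
  have hc := Vfam_Cl hL (gi_ker i) ha hQ
  have hg := (inv_sq_int one_pos).1.const_mul (Kp (1 + 1) * c8 * a)
  have hb := Vfam_le (C := Kp (1 + 1) * c8 * a) (by positivity)
  unfold V
  rw [D_const_mul fun p => (hasFDerivAt_int hm hc hg hb p).2.differentiableAt, D_int hm hc hg hb]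
  funext p
  congr 1
  refine integral_congr_ae (Eventually.of_forall fun r => ?_)
  simp only
  rw [D_comp (Hk_Bd (gi_ker i) (hQ.bd hL ha)).diff, Ar_apply, D_Hk_flat (gi_ker i) (hQ.bd hL ha)]

lemma V_add (hL : 1 ≤ L) (i : Fin 3) {a b : ℝ} (ha : 0 ≤ a) (hb : 0 ≤ b) {Q Q' : ℝ × E → ℝ}
    (hQ : Cl k (fun p => a * w L p) Q) (hQ' : Cl k (fun p => b * w L p) Q') (p : ℝ × E) :
    V i (fun p => Q p + Q' p) p = V i Q p + V i Q' p := by
  unfold V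
  rw [← mul_add, ← integral_add (Vfam_integrable hL (gi_ker i) ha hQ p)
    (Vfam_integrable hL (gi_ker i) hb hQ' p)]
  congr 1
  refine integral_congr_ae (Eventually.of_forall fun r => ?_)
  exact Hk_add (gi_ker i) (hQ.bd hL ha).zero (hQ'.bd hL hb).zero _

/-- polar change of variables of the Duhamel integral -/
noncomputable def At (θ : ℝ) : ℝ × E →L[ℝ] ℝ × ℝ × E :=
  (cos θ • ContinuousLinearMap.fst ℝ ℝ E).prod
    ((sin θ • ContinuousLinearMap.fst ℝ ℝ E).prod (ContinuousLinearMap.snd ℝ ℝ E))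

@[simp] lemma At_apply (θ : ℝ) (p : ℝ × E) : At θ p = (cos θ * p.1, sin θ * p.1, p.2) := rfl

lemma At_norm (θ : ℝ) (p : ℝ × E) : ‖At θ p‖ ≤ 1 * ‖p‖ := by
  have h1 : ‖p.1‖ ≤ ‖p‖ := norm_fst_le p
  have h2 : ‖p.2‖ ≤ ‖p‖ := norm_snd_le p
  rw [At_apply, Prod.norm_def, Prod.norm_def, max_le_iff, max_le_iff, one_mul]
  refine ⟨?_, ?_, h2⟩
  · rw [norm_mul]
    exact (mul_le_of_le_one_left (norm_nonneg _) (abs_cos_le_one θ)).trans h1
  · rw [norm_mul]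
    exact (mul_le_of_le_one_left (norm_nonneg _) (abs_sin_le_one θ)).trans h1

/-- angular average -/
noncomputable def J (c : ℝ → ℝ) (Φ : ℝ × ℝ × E → ℝ) (p : ℝ × E) : ℝ :=
  ∫ θ in Ioc 0 (π / 2), c θ * Φ (At θ p)

lemma Jfam_cont {c : ℝ → ℝ} (hc : Continuous c) {Φ : ℝ × ℝ × E → ℝ} (hΦ : Continuous Φ)
    (p : ℝ × E) : Continuous fun θ => c θ * Φ (At θ p) := by
  refine hc.mul (hΦ.comp ?_)
  simp only [At_apply]
  fun_prop

lemma Jfam_integrable {c : ℝ → ℝ} (hc : Continuous c) {Φ : ℝ × ℝ × E → ℝ} (hΦ : Continuous Φ)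
    (p : ℝ × E) : IntegrableOn (fun θ => c θ * Φ (At θ p)) (Ioc 0 (π / 2)) :=
  (Jfam_cont hc hΦ p).integrableOn_Ioc

lemma Jfam_Cl (c : ℝ → ℝ) {ω Φ : ℝ × ℝ × E → ℝ} (hΦ : Cl k ω Φ) (θ : ℝ) :
    Cl k (fun p => |c θ| * ω (At θ p)) (fun p => c θ * Φ (At θ p)) := by
  simpa using (hΦ.comp (At θ) 0 le_rfl (At_norm θ)).const_mul (c θ)

lemma cos_aux (θ τ : ℝ) : |cos θ| * (1 / √(1 + (cos θ * τ) ^ 2)) ≤ 2 / (1 + |τ|) := by
  have h1 : 1 ≤ √(1 + (cos θ * τ) ^ 2) := by rw [one_le_sqrt]; linarith [sq_nonneg (cos θ * τ)]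
  have h2 : |cos θ| * |τ| ≤ √(1 + (cos θ * τ) ^ 2) := by
    rw [← abs_mul]
    exact abs_le_sqrt (by linarith)
  rw [mul_one_div, div_le_div_iff₀ (by linarith) (by positivity)]
  nlinarith [abs_cos_le_one θ]

lemma J_Cl (hL : 1 ≤ L) {C : ℝ} (hC : 0 ≤ C) {Φ : ℝ × ℝ × E → ℝ}
    (hΦ : Cl k (fun q => C * (1 / √(1 + q.1 ^ 2) * W L (q.1 ^ 2 + q.2.1 ^ 2) q.2.2)) Φ) :
    Cl k (fun p => C * π / (1 + |p.1|) * w L p) (J cos Φ) := by
  have key : ∀ (θ : ℝ) (p : ℝ × E), |cos θ| * (C * (1 / √(1 + (At θ p).1 ^ 2) *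
      W L ((At θ p).1 ^ 2 + (At θ p).2.1 ^ 2) (At θ p).2.2)) ≤ C * (2 / (1 + |p.1|)) * w L p := by
    intro θ p
    have e : (cos θ * p.1) ^ 2 + (sin θ * p.1) ^ 2 = p.1 ^ 2 := by
      rw [mul_pow, mul_pow, ← add_mul, cos_sq_add_sin_sq, one_mul]
    simp only [At_apply, e]
    have h1 := cos_aux θ p.1
    have h2 := w_nonneg hL p
    calc _ = C * (|cos θ| * (1 / √(1 + (cos θ * p.1) ^ 2))) * w L p := by unfold w; ring
      _ ≤ _ := by gcongr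
  have hfin : volume (Ioc 0 (π / 2)) ≠ ⊤ := by simp
  refine Cl.int (g := fun _ => C * 2) (integrableOn_const hfin) (fun θ p => (key θ p).trans ?_)
    (fun p => ⟨fun _ => C * (2 / (1 + |p.1|)) * w L p, integrableOn_const hfin,
      Eventually.of_forall fun θ => key θ p, le_of_eq ?_⟩)
    (fun p => (Jfam_cont continuous_cos hΦ.cont p).aestronglyMeasurable) (Jfam_Cl cos hΦ)
  · refine (mul_le_of_le_one_right (by positivity) (w_le_one hL p)).trans ?_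
    gcongr
    exact div_le_self zero_le_two (by linarith [abs_nonneg p.1])
  · have := pi_pos
    rw [setIntegral_const, Real.volume_real_Ioc_of_le (by positivity), smul_eq_mul]
    ring

lemma J_Bd {c : ℝ → ℝ} (hc : Continuous c) (hc1 : ∀ θ, |c θ| ≤ 1) {Φ : ℝ × ℝ × E → ℝ}
    (hΦ : Bd k Φ) : Bd k (J c Φ) := by
  obtain ⟨M, hΦ⟩ := hΦ
  have hfin : volume (Ioc 0 (π / 2)) ≠ ⊤ := by simp
  have hb : ∀ θ, |c θ| * M ≤ M := fun θ => mul_le_of_le_one_left (hΦ.nonneg 0) (hc1 θ)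
  exact ⟨_, Cl.int (g := fun _ => M) (integrableOn_const hfin) (fun θ _ => hb θ)
    (fun _ => ⟨fun _ => M, integrableOn_const hfin, Eventually.of_forall hb, le_rfl⟩)
    (fun p => (Jfam_cont hc hΦ.cont p).aestronglyMeasurable) (Jfam_Cl c hΦ)⟩

lemma D_J {c : ℝ → ℝ} (hc : Continuous c) (hc1 : ∀ θ, |c θ| ≤ 1) {Φ : ℝ × ℝ × E → ℝ}
    (hΦ : Bd 1 Φ) (v p : ℝ × E) :
    D v (J c Φ) p = ∫ θ in Ioc 0 (π / 2), c θ * D (At θ v) Φ (At θ p) := by
  obtain ⟨M, hΦ⟩ := hΦ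
  have hfin : volume (Ioc 0 (π / 2)) ≠ ⊤ := by simp
  have hb : ∀ θ, |c θ| * M ≤ M := fun θ => mul_le_of_le_one_left (hΦ.nonneg 0) (hc1 θ)
  have := D_int (μ := volume.restrict (Ioc 0 (π / 2))) (g := fun _ => M)
    (fun p => (Jfam_cont hc hΦ.cont p).aestronglyMeasurable) (Jfam_Cl c hΦ)
    (integrableOn_const hfin) (fun θ _ => hb θ) v
  refine (congrFun this p).trans ?_
  refine integral_congr_ae (Eventually.of_forall fun θ => ?_)
  have h1 := D_comp hΦ.diff (At θ) 0 v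
  simp only [add_zero] at h1
  have h2 : Differentiable ℝ fun q => Φ (At θ q) := hΦ.diff.comp (At θ).differentiable
  simp only
  rw [D_const_mul h2, h1]

/-- the bilinear Duhamel term -/
noncomputable def B (Q R : ℝ × E → ℝ) (p : ℝ × E) : ℝ :=
  2 * (p.1 * J cos (fun q => ∑ i, Hk (gi i) (fun p => Q p * V i R p) q) p)

/-- the constant of the bilinear estimate -/
noncomputable def CB (k : ℕ) : ℝ :=
  2 * 2 ^ k * (3 * (Kp (k + 1) * c8 * (2 ^ k * (π * Kp (k + 1) * c8))) * π)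

lemma CB_pos (k : ℕ) : 0 < CB k := by
  have := Kp_pos (k + 1); have := c8_pos; have := pi_pos
  unfold CB; positivity

lemma B_Cl (hL : 1 ≤ L) {a b : ℝ} (ha : 0 ≤ a) (hb : 0 ≤ b) {Q R : ℝ × E → ℝ}
    (hQ : Cl k (fun p => a * w L p) Q) (hR : Cl k (fun p => b * w L p) R) :
    Cl k (fun p => CB k * a * b * w L p) (B Q R) := by
  have h2 := Kp_pos (k + 1)
  have h3 := c8_pos
  have h4 := pi_pos
  set C1 : ℝ := 2 ^ k * (π * Kp (k + 1) * c8) * a * b with hC1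
  have hC : 0 ≤ C1 := by positivity
  have hF : ∀ i, Cl k (fun p : ℝ × E => (C1 * (1 / √(1 + p.1 ^ 2))) * W L (p.1 ^ 2) p.2)
      (fun p => Q p * V i R p) := fun i =>
    (hQ.mul (V_Cl hL i hb hR)).mono fun p => le_of_eq (by rw [hC1]; unfold w; ring)
  have hH := fun i => Hk_Cl hL (gi_ker i) (m := fun t => C1 * (1 / √(1 + t ^ 2)))
    (T := fun t => t ^ 2) (M := C1) (fun _ => by positivity) (fun t => by
      refine mul_le_of_le_one_right hC ?_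
      rw [div_le_one (by positivity), one_le_sqrt]
      linarith [sq_nonneg t]) (fun _ => sq_nonneg _) (hF i)
  have hS := (Cl.sum Finset.univ hH).mono (ω' := fun q : ℝ × ℝ × E =>
    (3 * (Kp (k + 1) * c8 * C1)) * (1 / √(1 + q.1 ^ 2) * W L (q.1 ^ 2 + q.2.1 ^ 2) q.2.2))
    fun q => le_of_eq (by simp; ring)
  have hJ := J_Cl hL (by positivity) hS
  have hl := Cl_linear k (ContinuousLinearMap.fst ℝ ℝ E) (ContinuousLinearMap.norm_fst_le ..)
  refine ((hl.mul hJ).const_mul 2).mono fun p => le_of_eq ?_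
  have : 0 < 1 + |p.1| := by positivity
  simp only [abs_two, ContinuousLinearMap.coe_fst', CB, hC1]
  field_simp

lemma J_add {Φ Ψ : ℝ × ℝ × E → ℝ} (hΦ : Continuous Φ) (hΨ : Continuous Ψ) (p : ℝ × E) :
    J cos (fun q => Φ q + Ψ q) p = J cos Φ p + J cos Ψ p := by
  simp only [J, mul_add]
  exact integral_add (Jfam_integrable continuous_cos hΦ p) (Jfam_integrable continuous_cos hΨ p)

lemma B_aux {F F' : Fin 3 → ℝ × E → ℝ} (hF : ∀ i, Bd 0 (F i)) (hF' : ∀ i, Bd 0 (F' i))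
    (p : ℝ × E) : J cos (fun q => ∑ i, Hk (gi i) (fun p => F i p + F' i p) q) p =
      J cos (fun q => ∑ i, Hk (gi i) (F i) q) p + J cos (fun q => ∑ i, Hk (gi i) (F' i) q) p := by
  rw [← J_add (Bd.sum _ fun i => Hk_Bd (gi_ker i) (hF i)).cont
    (Bd.sum _ fun i => Hk_Bd (gi_ker i) (hF' i)).cont]
  congr 1
  funext q
  rw [← Finset.sum_add_distrib]
  exact Finset.sum_congr rfl fun i _ => Hk_add (gi_ker i) (hF i) (hF' i) q

lemma B_add_left (hL : 1 ≤ L) {a a' b : ℝ} (ha : 0 ≤ a) (ha' : 0 ≤ a') (hb : 0 ≤ b)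
    {Q Q' R : ℝ × E → ℝ} (hQ : Cl k (fun p => a * w L p) Q) (hQ' : Cl k (fun p => a' * w L p) Q')
    (hR : Cl k (fun p => b * w L p) R) (p : ℝ × E) :
    B (fun p => Q p + Q' p) R p = B Q R p + B Q' R p := by
  simp only [B, add_mul]
  rw [B_aux (fun i => ((hQ.bd hL ha).mul (V_Bd hL i hb hR)).zero)
    (fun i => ((hQ'.bd hL ha').mul (V_Bd hL i hb hR)).zero)]
  ring

lemma B_add_right (hL : 1 ≤ L) {a b b' : ℝ} (ha : 0 ≤ a) (hb : 0 ≤ b) (hb' : 0 ≤ b')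
    {Q R R' : ℝ × E → ℝ} (hQ : Cl k (fun p => a * w L p) Q) (hR : Cl k (fun p => b * w L p) R)
    (hR' : Cl k (fun p => b' * w L p) R') (p : ℝ × E) :
    B Q (fun p => R p + R' p) p = B Q R p + B Q R' p := by
  simp only [B, V_add hL _ hb hb' hR hR', mul_add]
  rw [B_aux (fun i => ((hQ.bd hL ha).mul (V_Bd hL i hb hR)).zero)
    (fun i => ((hQ.bd hL ha).mul (V_Bd hL i hb' hR')).zero)]
  ring

end Pool.Agent.H103Z.KS
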