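import Mathlib
import Pool.Agent.H103Z.KSOps

set_option autoImplicit false
open scoped Topology
open MeasureTheory Filter Real Set

namespace Pool.Agent.H103Z.KS

/-- Picard iterates -/
noncomputable def it (N0 : ℝ × E → ℝ) : ℕ → ℝ × E → ℝ
  | 0 => fun _ => 0
  | m + 1 => fun p => N0 p - B (it N0 m) (it N0 m) p

theorem exists_fixed {k : ℕ} {L ε : ℝ} (hL : 1 ≤ L) (hε : 0 ≤ ε) (hs : 8 * CB k * ε ≤ 1)
    {N0 : ℝ × E → ℝ} (h0 : Cl k (fun p => ε * w L p) N0) :
    ∃ N : ℝ × E → ℝ, Cl k (fun p => 4 * ε * w L p) N ∧ ∀ p, N p = N0 p - B N N p := by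
  have hC := CB_pos k
  have h2 : 0 ≤ 2 * ε := by linarith
  have hit : ∀ m, Cl k (fun p => 2 * ε * w L p) (it N0 m) := by
    intro m
    induction m with
    | zero => exact Cl_const k 0 _ fun p => by simpa using mul_nonneg h2 (w_nonneg hL p)
    | succ m ih =>
      refine (h0.sub (B_Cl hL h2 h2 ih ih)).mono fun p => ?_
      have := w_nonneg hL p
      have h3 : CB k * (2 * ε) * (2 * ε) ≤ ε := by nlinarith
      nlinarith
  let d : ℕ → ℝ × E → ℝ := fun m p => it N0 (m + 1) p - it N0 m p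
  have hsplit : ∀ m, it N0 (m + 1) = fun p => it N0 m p + d m p := fun m => by
    funext p; simp [d]
  have hd : ∀ m, Cl k (fun p => 2 * ε * (1 / 2) ^ m * w L p) (d m) := by
    intro m
    induction m with
    | zero => simpa [d, it] using hit 1
    | succ m ih =>
      have h3 : 0 ≤ 2 * ε * (1 / 2) ^ m := by positivity
      have e : d (m + 1) = fun p => - (B (d m) (it N0 (m + 1)) p + B (it N0 m) (d m) p) := by
        funext p
        have e1 : B (it N0 (m + 1)) (it N0 (m + 1)) p =
            B (it N0 m) (it N0 (m + 1)) p + B (d m) (it N0 (m + 1)) p := by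
          conv_lhs => enter [1]; rw [hsplit m]
          exact B_add_left hL h2 h3 h2 (hit m) ih (hit (m + 1)) p
        have e2 : B (it N0 m) (it N0 (m + 1)) p =
            B (it N0 m) (it N0 m) p + B (it N0 m) (d m) p := by
          conv_lhs => enter [2]; rw [hsplit m]
          exact B_add_right hL h2 h2 h3 (hit m) (hit m) ih p
        show (N0 p - B (it N0 (m + 1)) (it N0 (m + 1)) p) - (N0 p - B (it N0 m) (it N0 m) p) = _
        rw [e1, e2]
        ring
      rw [e]
      refine ((B_Cl hL h3 h2 ih (hit (m + 1))).add (B_Cl hL h2 h3 (hit m) ih)).neg.mono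
        fun p => ?_
      have h4 := mul_nonneg h3 (w_nonneg hL p)
      have h5 : 4 * CB k * ε ≤ 1 / 2 := by linarith
      have := mul_le_mul_of_nonneg_right h5 h4
      rw [pow_succ]
      nlinarith
  have htail : ∀ m, Cl k (fun p => 4 * ε * (1 / 2) ^ m * w L p) fun p => ∑' j, d (j + m) p := by
    intro m
    have hsum : HasSum (fun j : ℕ => 2 * ε * (1 / 2 : ℝ) ^ (j + m)) (4 * ε * (1 / 2) ^ m) := by
      have := hasSum_geometric_two.mul_left (2 * ε * (1 / 2) ^ m)
      have e1 : (fun j : ℕ => 2 * ε * (1 / 2 : ℝ) ^ (j + m)) =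
          fun i => 2 * ε * (1 / 2) ^ m * (1 / 2) ^ i := by funext j; rw [pow_add]; ring
      rw [e1, show 4 * ε * (1 / 2 : ℝ) ^ m = 2 * ε * (1 / 2) ^ m * 2 by ring]
      exact this
    have := Cl.tsum (w_le_one hL) (fun j => by positivity) hsum.summable fun j => hd (j + m)
    rwa [hsum.tsum_eq] at this
  have hsummable : ∀ p, Summable fun j => d j p := fun p =>
    Summable.of_norm_bounded (summable_geometric_two.mul_left (2 * ε)) fun j =>
      ((hd j).bound p).trans (mul_le_of_le_one_right (by positivity) (w_le_one hL p))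
  have hpart : ∀ m p, ∑ j ∈ Finset.range m, d j p = it N0 m p := by
    intro m p
    rw [Finset.sum_range_sub (fun j => it N0 j p)]
    simp [it]
  let N : ℝ × E → ℝ := fun p => ∑' j, d j p
  have hN : Cl k (fun p => 4 * ε * w L p) N := by simpa using htail 0
  have hNm : ∀ m, N = fun p => it N0 m p + ∑' j, d (j + m) p := fun m => by
    funext p
    rw [← hpart, (hsummable p).sum_add_tsum_nat_add m]
  refine ⟨N, hN, fun p => ?_⟩
  have h4 : 0 ≤ 4 * ε := by linarith
  have key : ∀ m : ℕ, |N p - (N0 p - B N N p)| ≤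
      (2 * ε + CB k * (4 * ε) * (4 * ε) + CB k * (2 * ε) * (4 * ε)) * (1 / 2) ^ m := by
    intro m
    have h3 : 0 ≤ 4 * ε * (1 / 2) ^ m := by positivity
    have e1 : B N N p = B (it N0 m) N p + B (fun p => ∑' j, d (j + m) p) N p := by
      conv_lhs => enter [1]; rw [hNm m]
      exact B_add_left hL h2 h3 h4 (hit m) (htail m) hN p
    have e2 : B (it N0 m) N p =
        B (it N0 m) (it N0 m) p + B (it N0 m) (fun p => ∑' j, d (j + m) p) p := by
      conv_lhs => enter [2]; rw [hNm m]
      exact B_add_right hL h2 h2 h3 (hit m) (hit m) (htail m) p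
    have e3 : N p = N0 p - B (it N0 m) (it N0 m) p + ∑' j, d (j + (m + 1)) p :=
      congrFun (hNm (m + 1)) p
    have b1 := (htail (m + 1)).bound p
    have b2 := (B_Cl hL h3 h4 (htail m) hN).bound p
    have b3 := (B_Cl hL h2 h3 (hit m) (htail m)).bound p
    have hw := w_le_one hL p
    have c1 : 4 * ε * (1 / 2) ^ (m + 1) * w L p ≤ 2 * ε * (1 / 2) ^ m :=
      (mul_le_of_le_one_right (by positivity) hw).trans (le_of_eq (by ring))
    have c2 : CB k * (4 * ε * (1 / 2) ^ m) * (4 * ε) * w L p ≤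
        CB k * (4 * ε) * (4 * ε) * (1 / 2) ^ m :=
      (mul_le_of_le_one_right (by positivity) hw).trans (le_of_eq (by ring))
    have c3 : CB k * (2 * ε) * (4 * ε * (1 / 2) ^ m) * w L p ≤
        CB k * (2 * ε) * (4 * ε) * (1 / 2) ^ m :=
      (mul_le_of_le_one_right (by positivity) hw).trans (le_of_eq (by ring))
    rw [e3, e1, e2]
    rw [abs_le] at b1 b2 b3 ⊢
    constructor <;> nlinarith [b1.1, b1.2, b2.1, b2.2, b3.1, b3.2]
  have t : Tendsto (fun m : ℕ => (2 * ε + CB k * (4 * ε) * (4 * ε) + CB k * (2 * ε) * (4 * ε)) *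
      (1 / 2 : ℝ) ^ m) atTop (𝓝 0) := by
    simpa using (tendsto_pow_atTop_nhds_zero_of_lt_one (r := (1 / 2 : ℝ)) (by norm_num)
      (by norm_num)).const_mul (2 * ε + CB k * (4 * ε) * (4 * ε) + CB k * (2 * ε) * (4 * ε))
  have := ge_of_tendsto' t key
  exact sub_eq_zero.1 (abs_nonpos_iff.1 this)

end Pool.Agent.H103Z.KS
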