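import Mathlib
import Pool.Agent.H103Z.KSFix

set_option autoImplicit false
open scoped Topology
open MeasureTheory Filter Real Set

namespace Pool.Agent.H103Z.KS

/-- spatial coordinate directions -/
noncomputable def ex (i : Fin 3) : ℝ × E := (0, EuclideanSpace.single i 1)

lemma ex_norm (i : Fin 3) : ‖ex i‖ ≤ 1 := by simp [ex, Prod.norm_def]

lemma D_space (f : ℝ × E → ℝ) (ξ : E) (p : ℝ × E) :
    D (0, ξ) f p = ∑ i, ξ i * D (ex i) f p := by
  have : ((0, ξ) : ℝ × E) = ∑ i, ξ i • ex i := by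
    ext j
    · simp [ex, Prod.fst_sum]
    · simp [ex, Prod.snd_sum, Fin.sum_univ_three]
      fin_cases j <;> simp
  simp only [D]
  rw [this, map_sum]
  simp

lemma G_hasFDerivAt (u : E) : HasFDerivAt G (c0 • ((-(1 / 2) * g4 u) • innerSL ℝ u)) u :=
  (g4_hasFDerivAt u).const_mul c0

lemma fderiv_G (i : Fin 3) (u : E) : fderiv ℝ G u (EuclideanSpace.single i 1) = gi i u := by
  rw [(G_hasFDerivAt u).fderiv]
  simp [gi, G, EuclideanSpace.inner_single_right]
  ring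

lemma Hk_gi {F : ℝ × E → ℝ} (hF : Bd 1 F) (i : Fin 3) (q : ℝ × ℝ × E) :
    Hk (gi i) F q = q.2.1 * Hk G (D (ex i) F) q := by
  let A : E →L[ℝ] ℝ × E := (0 : E →L[ℝ] ℝ).prod (-(q.2.1 • ContinuousLinearMap.id ℝ E))
  have e : ∀ u, Au u q = A u + (q.1, q.2.2) := fun u => by
    simp [A, sub_eq_neg_add]
  have e1 : ∀ u, fderiv ℝ (fun u => F (Au u q)) u (EuclideanSpace.single i 1) =
      - q.2.1 * D (ex i) F (Au u q) := by
    intro u
    have := congrFun (D_comp hF.diff A (q.1, q.2.2) (EuclideanSpace.single i 1)) u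
    simp only [← e] at this
    refine this.trans ?_
    have e2 : A (EuclideanSpace.single i 1) = (- q.2.1) • ex i := by simp [A, ex]
    simp only [D]
    rw [e2, map_smul, smul_eq_mul]
  have hd : Differentiable ℝ fun u => F (Au u q) := by
    simp only [e]
    exact hF.diff.comp (A.differentiable.add_const _)
  have hI := Hk_integrable G_ker (hF.der (ex i)) q
  have := integral_mul_fderiv_eq_neg_fderiv_mul_of_integrable (μ := volume) (f := G)
    (g := fun u => F (Au u q)) (v := EuclideanSpace.single i 1)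
    (by simp only [fderiv_G]; exact Hk_integrable (gi_ker i) hF q)
    (by
      simp only [e1]
      refine (hI.const_mul (- q.2.1)).congr (Eventually.of_forall fun u => ?_)
      simp only; ring)
    (Hk_integrable G_ker hF q) (fun x _ => (G_hasFDerivAt x).differentiableAt) (fun x _ => hd x)
  simp only [fderiv_G, e1] at this
  unfold Hk
  rw [← integral_const_mul, ← neg_inj, ← this, ← integral_neg]
  refine integral_congr_ae (Eventually.of_forall fun u => ?_)
  simp only; ring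

lemma D_r {F : ℝ × E → ℝ} (hF : Bd 1 F) (q : ℝ × ℝ × E) :
    D (0, 1, 0) (Hk G F) q = 2 * ∑ i, Hk (gi i) (D (ex i) F) q := by
  rw [D_Hk G_ker hF]
  unfold Hk
  rw [← integral_finsetSum _ fun i _ => Hk_integrable (gi_ker i) (hF.der (ex i)) q,
    ← integral_const_mul]
  refine integral_congr_ae (Eventually.of_forall fun u => ?_)
  have : Au u ((0, 1, 0) : ℝ × ℝ × E) = (0, -u) := by simp
  simp only
  rw [this, D_space, Finset.mul_sum, Finset.mul_sum]
  refine Finset.sum_congr rfl fun i _ => ?_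
  simp [gi]
  ring

lemma heat {F : ℝ × E → ℝ} (hF : Bd 2 F) (q : ℝ × ℝ × E) :
    D (0, 1, 0) (Hk G F) q = 2 * q.2.1 * ∑ i, Hk G (D (ex i) (D (ex i) F)) q := by
  rw [D_r hF.pred, mul_assoc, Finset.mul_sum Finset.univ _ q.2.1]
  congr 1
  exact Finset.sum_congr rfl fun i _ => Hk_gi (hF.der _) i q

lemma Hk_zero (F : ℝ × E → ℝ) (a : ℝ) (x : E) : Hk G F (a, 0, x) = F (a, x) := by
  simp [Hk, integral_mul_const, G_integral]

lemma div_V {L a : ℝ} (hL : 1 ≤ L) (ha : 0 ≤ a) {Q : ℝ × E → ℝ}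
    (hQ : Cl 1 (fun p => a * w L p) Q) (p : ℝ × E) : ∑ i, D (ex i) (V i Q) p = - Q p := by
  have hb := hQ.bd hL ha
  have hI := fun i => Vfam_integrable hL (gi_ker i) ha (hQ.der (ex_norm i)) p
  have hder : ∀ r : ℝ, HasDerivAt (fun r : ℝ => Hk G Q (Ar p + (0, r, 0)))
      (2 * ∑ i, Hk (gi i) (D (ex i) Q) (Ar p + (0, r, 0))) r := by
    intro r
    have h1 : HasDerivAt (fun r : ℝ => Ar p + ((0, r, 0) : ℝ × ℝ × E)) (0, 1, 0) r :=
      ((hasDerivAt_const r (0 : ℝ)).prodMk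
        ((hasDerivAt_id r).prodMk (hasDerivAt_const r (0 : E)))).const_add _
    have h2 := ((Hk_Bd G_ker hb).diff (Ar p + (0, r, 0))).hasFDerivAt.comp_hasDerivAt r h1
    rw [← D_r hb]
    exact h2
  have hlim : Tendsto (fun r : ℝ => Hk G Q (Ar p + (0, r, 0))) atTop (𝓝 0) := by
    have t1 : Tendsto (fun r : ℝ => 1 + p.1 ^ 2 + r ^ 2) atTop atTop :=
      tendsto_atTop_add_const_left _ _ (tendsto_pow_atTop two_ne_zero)
    have t2 := (t1.inv_tendsto_atTop).const_mul (Kp (1 + 1) * c8 * a)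
    rw [mul_zero] at t2
    refine squeeze_zero_norm (fun r => ?_) t2
    simpa using (Vfam_Cl hL G_ker ha hQ r).bound p
  have := integral_Ioi_of_hasDerivAt_of_tendsto' (a := 0) (fun r _ => hder r)
    ((integrable_finsetSum _ fun i _ => hI i).const_mul 2) hlim
  rw [integral_const_mul, integral_finsetSum _ fun i _ => hI i] at this
  simp only [D_V hL _ ha hQ, V]
  rw [← Finset.mul_sum, this]
  simp [Hk_zero]

/-- the angular density -/
noncomputable def cs (θ : ℝ) : ℝ := cos θ * sin θ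

lemma cs_cont : Continuous cs := continuous_cos.mul continuous_sin

lemma cs_le (θ : ℝ) : |cs θ| ≤ 1 := by
  rw [cs, abs_mul]
  exact mul_le_one₀ (abs_cos_le_one θ) (abs_nonneg _) (abs_sin_le_one θ)

/-- the Duhamel integral of a source -/
noncomputable def Du (h : ℝ × E → ℝ) (p : ℝ × E) : ℝ := 2 * (p.1 * (p.1 * J cs (Hk G h) p))

lemma D_Du {h : ℝ × E → ℝ} (hh : Bd 1 h) (v p : ℝ × E) : DifferentiableAt ℝ (Du h) p ∧
    D v (Du h) p = 4 * p.1 * v.1 * J cs (Hk G h) p + 2 * p.1 ^ 2 * D v (J cs (Hk G h)) p := by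
  have hJ := ((J_Bd cs_cont cs_le (Hk_Bd G_ker hh)).diff p).hasFDerivAt
  have h1 : HasFDerivAt (fun p : ℝ × E => p.1) (ContinuousLinearMap.fst ℝ ℝ E) p := hasFDerivAt_fst
  have := (h1.mul (h1.mul hJ)).const_mul 2
  refine ⟨this.differentiableAt, ?_⟩
  have e : fderiv ℝ (Du h) p = _ := this.fderiv
  simp only [D, e]
  simp
  ring

lemma D_ex_Du {h : ℝ × E → ℝ} (hh : Bd 1 h) (i : Fin 3) : D (ex i) (Du h) = Du (D (ex i) h) := by
  funext p
  rw [(D_Du hh _ p).2, D_J cs_cont cs_le (Hk_Bd G_ker hh)]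
  have : ∀ θ, At θ (ex i) = ((ex i).1, 0, (ex i).2) := fun θ => by simp [ex]
  simp only [this, D_Hk_flat G_ker hh]
  simp only [Du, J, ex]
  ring

lemma D_dir (Φ : ℝ × ℝ × E → ℝ) (α β : ℝ) (q : ℝ × ℝ × E) :
    D (α, β, 0) Φ q = α * D (1, 0, 0) Φ q + β * D (0, 1, 0) Φ q := by
  have : ((α, β, 0) : ℝ × ℝ × E) = α • (1, 0, 0) + β • (0, 1, 0) := by simp
  simp only [D]
  rw [this, map_add, map_smul, map_smul, smul_eq_mul, smul_eq_mul]

lemma Du_pde {h : ℝ × E → ℝ} (hh : Bd 2 h) (p : ℝ × E) :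
    D (1, 0) (Du h) p = 2 * p.1 * (h p + ∑ i, D (ex i) (D (ex i) (Du h)) p) := by
  have hΦ := Hk_Bd G_ker hh
  have hAt : Continuous fun θ => At θ p := by simp only [At_apply]; fun_prop
  set f : ℝ → ℝ := fun θ => Hk G h (At θ p) with hf
  set fa : ℝ → ℝ := fun θ => D (1, 0, 0) (Hk G h) (At θ p) with hfa
  set S : Fin 3 → ℝ → ℝ := fun i θ => Hk G (D (ex i) (D (ex i) h)) (At θ p) with hS
  have cf : Continuous f := hΦ.cont.comp hAt
  have cfa : Continuous fa := (hΦ.der _).cont.comp hAt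
  have cS : ∀ i, Continuous (S i) := fun i =>
    (Hk_Bd G_ker ((hh.der _).der _)).cont.comp hAt
  have cSS : Continuous fun θ => ∑ i, S i θ := continuous_finsetSum _ fun i _ => cS i
  have hr : ∀ θ, D (0, 1, 0) (Hk G h) (At θ p) = 2 * (sin θ * p.1) * ∑ i, S i θ := fun θ =>
    heat hh _
  have hder : ∀ θ, HasDerivAt (fun θ => f θ * cos θ ^ 2)
      ((- sin θ * p.1 * fa θ + cos θ * p.1 * (2 * (sin θ * p.1) * ∑ i, S i θ)) * cos θ ^ 2 +
        f θ * (2 * cos θ * (- sin θ))) θ := by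
    intro θ
    have h1 : HasDerivAt (fun θ => At θ p) (- sin θ * p.1, cos θ * p.1, 0) θ :=
      ((hasDerivAt_cos θ).mul_const p.1).prodMk
        (((hasDerivAt_sin θ).mul_const p.1).prodMk (hasDerivAt_const θ p.2))
    have h2 : HasDerivAt f (D (- sin θ * p.1, cos θ * p.1, 0) (Hk G h) (At θ p)) θ :=
      HasFDerivAt.comp_hasDerivAt (f := fun θ => At θ p) θ (hΦ.diff (At θ p)).hasFDerivAt h1
    rw [D_dir, hr] at h2
    have h3 : HasDerivAt (fun θ => cos θ ^ 2) (2 * cos θ * (- sin θ)) θ :=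
      ((hasDerivAt_cos θ).fun_pow 2).congr_deriv (by simp)
    exact h2.mul h3
  have hpi : (0 : ℝ) ≤ π / 2 := by have := pi_pos; positivity
  have cψ : Continuous fun θ =>
      ((- sin θ * p.1 * fa θ + cos θ * p.1 * (2 * (sin θ * p.1) * ∑ i, S i θ)) * cos θ ^ 2 +
        f θ * (2 * cos θ * (- sin θ))) := by fun_prop
  have ftc := intervalIntegral.integral_eq_sub_of_hasDerivAt (a := 0) (b := π / 2)
    (fun θ _ => hder θ) (cψ.intervalIntegrable _ _)
  rw [intervalIntegral.integral_of_le hpi] at ftc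
  have f0 : f 0 = h p := by simp [hf, Hk_zero]
  rw [f0] at ftc
  simp only [cos_pi_div_two, cos_zero] at ftc
  rw [(D_Du hh.pred _ p).2, D_J cs_cont cs_le hΦ.pred]
  have e1 : ∀ θ, D (At θ (1, 0)) (Hk G h) (At θ p) =
      cos θ * fa θ + sin θ * (2 * (sin θ * p.1) * ∑ i, S i θ) := fun θ => by
    rw [← hr, ← D_dir]
    simp
  have e2 : ∑ i, D (ex i) (D (ex i) (Du h)) p =
      2 * p.1 ^ 2 * ∫ θ in Ioc 0 (π / 2), cs θ * ∑ i, S i θ := by
    simp only [D_ex_Du hh.pred, fun i => D_ex_Du (hh.der (ex i)) i, Finset.mul_sum]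
    rw [integral_finsetSum (f := fun i θ => cs θ * S i θ) _
      fun i _ => (cs_cont.mul (cS i)).integrableOn_Ioc, Finset.mul_sum]
    refine Finset.sum_congr rfl fun i _ => ?_
    simp only [Du, J, hS]
    ring
  simp only [e1]
  rw [e2]
  have c1 : Continuous fun θ => cs θ * f θ := cs_cont.mul cf
  have c2 : Continuous fun θ =>
      cs θ * (cos θ * fa θ + sin θ * (2 * (sin θ * p.1) * ∑ i, S i θ)) :=
    cs_cont.mul (by fun_prop)
  have c3 : Continuous fun θ => cs θ * ∑ i, S i θ := cs_cont.mul cSS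
  have key : 4 * p.1 * (∫ θ in Ioc 0 (π / 2), cs θ * f θ) + 2 * p.1 ^ 2 *
      (∫ θ in Ioc 0 (π / 2), cs θ * (cos θ * fa θ + sin θ * (2 * (sin θ * p.1) * ∑ i, S i θ))) +
      2 * p.1 * (∫ θ in Ioc 0 (π / 2),
        ((- sin θ * p.1 * fa θ + cos θ * p.1 * (2 * (sin θ * p.1) * ∑ i, S i θ)) * cos θ ^ 2 +
        f θ * (2 * cos θ * (- sin θ)))) =
      4 * p.1 ^ 3 * ∫ θ in Ioc 0 (π / 2), cs θ * ∑ i, S i θ := by
    have i1 := (c1.integrableOn_Ioc (μ := volume) (a := 0) (b := π / 2)).const_mul (4 * p.1)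
    have i2 := (c2.integrableOn_Ioc (μ := volume) (a := 0) (b := π / 2)).const_mul (2 * p.1 ^ 2)
    have i3 := (cψ.integrableOn_Ioc (μ := volume) (a := 0) (b := π / 2)).const_mul (2 * p.1)
    rw [← integral_const_mul, ← integral_const_mul, ← integral_const_mul, ← integral_const_mul,
      ← integral_add i1 i2, ← integral_add (i1.fun_add i2) i3]
    refine integral_congr_ae (Eventually.of_forall fun θ => ?_)
    simp only [cs]
    linear_combination (4 * p.1 ^ 3 * cos θ * sin θ * ∑ i, S i θ) * (sin_sq_add_cos_sq θ)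
  rw [ftc] at key
  have e3 : J cs (Hk G h) p = ∫ θ in Ioc 0 (π / 2), cs θ * f θ := rfl
  rw [e3]
  linear_combination key

lemma B_eq_Du {Q R : ℝ × E → ℝ} (hF : ∀ i, Bd 1 fun p => Q p * V i R p) :
    B Q R = Du fun p => ∑ i, D (ex i) (fun p => Q p * V i R p) p := by
  funext p
  simp only [B, Du, J]
  rw [← integral_const_mul p.1 (μ := volume.restrict _) fun θ => cs θ * _]
  congr 2
  refine integral_congr_ae (Eventually.of_forall fun θ => ?_)
  simp only
  rw [Hk_sum G_ker fun i => (hF i).der _, Finset.sum_congr rfl fun i _ => Hk_gi (hF i) i _,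
    ← Finset.mul_sum]
  simp only [cs, At_apply]
  ring

/-- inclusion used for the free evolution -/
noncomputable def A0 : ℝ × E →L[ℝ] ℝ × ℝ × E :=
  (0 : ℝ × E →L[ℝ] ℝ).prod (ContinuousLinearMap.id ℝ (ℝ × E))

@[simp] lemma A0_apply (p : ℝ × E) : A0 p = (0, p.1, p.2) := rfl

lemma A0_norm (p : ℝ × E) : ‖A0 p‖ ≤ 1 * ‖p‖ := by simp [Prod.norm_def]

/-- the free evolution -/
noncomputable def Lin (F : ℝ × E → ℝ) (p : ℝ × E) : ℝ := Hk G F (A0 p + 0)

lemma D_ex_Lin {F : ℝ × E → ℝ} (hF : Bd 1 F) (i : Fin 3) :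
    D (ex i) (Lin F) = Lin (D (ex i) F) := by
  unfold Lin
  rw [D_comp (Hk_Bd G_ker hF).diff, ← D_Hk_flat G_ker hF]
  rfl

lemma Lin_pde {F : ℝ × E → ℝ} (hF : Bd 2 F) (p : ℝ × E) :
    D (1, 0) (Lin F) p = 2 * p.1 * ∑ i, D (ex i) (D (ex i) (Lin F)) p := by
  simp only [D_ex_Lin hF.pred, fun i => D_ex_Lin (hF.der (ex i)) i]
  unfold Lin
  rw [D_comp (Hk_Bd G_ker hF).diff]
  simp only [A0_apply]
  rw [heat hF]
  simp

lemma Lin_Cl {k : ℕ} {L a : ℝ} (hL : 1 ≤ L) (ha : 0 ≤ a) {F : ℝ × E → ℝ}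
    (hF : Cl k (fun p => a * W L 0 p.2) F) :
    Cl k (fun p => Kp (k + 1) * c8 * a * w L p) (Lin F) := by
  have := Hk_Cl hL G_ker (m := fun _ => a) (T := fun _ => 0) (M := a) (fun _ => ha)
    (fun _ => le_rfl) (fun _ => le_rfl) hF
  refine (this.comp A0 0 le_rfl A0_norm).mono fun p => le_of_eq ?_
  simp [w]
  ring

lemma D_sub {f g : ℝ × E → ℝ} (hf : Differentiable ℝ f) (hg : Differentiable ℝ g) (v : ℝ × E) :
    D v (fun p => f p - g p) = fun p => D v f p - D v g p := by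
  funext p
  simp only [D]
  rw [fderiv_fun_sub (hf p) (hg p)]
  rfl

theorem N_pde {L a : ℝ} (hL : 1 ≤ L) (ha : 0 ≤ a) {F N : ℝ × E → ℝ} (hF : Bd 2 F)
    (hN : Cl 3 (fun p => a * w L p) N) (hfix : ∀ p, N p = Lin F p - B N N p) (p : ℝ × E) :
    D (1, 0) N p = 2 * p.1 * (∑ i, D (ex i) (D (ex i) N) p -
      ∑ i, V i N p * D (ex i) N p + N p ^ 2) := by
  have hNb := hN.bd hL ha
  have hV := fun i => V_Bd hL i ha hN
  have hFl := fun i => hNb.mul (hV i)
  set h : ℝ × E → ℝ := fun p => ∑ i, D (ex i) (fun p => N p * V i N p) p with hh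
  have hb : Bd 2 h := Bd.sum _ fun i => (hFl i).der _
  have e : N = fun p => Lin F p - Du h p := by
    funext q
    rw [hfix q, B_eq_Du fun i => (hFl i).one]
  have dL : ∀ {F : ℝ × E → ℝ}, Bd 1 F → Differentiable ℝ (Lin F) := fun hF =>
    (Hk_Bd G_ker hF).diff.comp (A0.differentiable.add_const 0)
  have dD : ∀ {h : ℝ × E → ℝ}, Bd 1 h → Differentiable ℝ (Du h) := fun hh q => (D_Du hh 0 q).1
  have e1 : D (1, 0) N p = D (1, 0) (Lin F) p - D (1, 0) (Du h) p := by
    conv_lhs => rw [e]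
    rw [D_sub (dL hF.pred) (dD hb.pred)]
  have e2 : ∀ i, D (ex i) (D (ex i) N) p =
      D (ex i) (D (ex i) (Lin F)) p - D (ex i) (D (ex i) (Du h)) p := by
    intro i
    conv_lhs => rw [e]
    rw [D_sub (dL hF.pred) (dD hb.pred), D_ex_Lin hF.pred, D_ex_Du hb.pred,
      D_sub (dL (hF.der _)) (dD (hb.der _))]
  have e3 : h p = ∑ i, V i N p * D (ex i) N p - N p ^ 2 := by
    simp only [hh, fun i => D_mul hNb.diff (hV i).diff (ex i)]
    rw [Finset.sum_add_distrib, ← Finset.mul_sum, div_V hL ha hN.pred.pred]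
    simp only [mul_comm]
    ring
  rw [e1, Lin_pde hF, Du_pde hb, e3]
  simp only [e2, Finset.sum_sub_distrib]
  ring

end Pool.Agent.H103Z.KS
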