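import Mathlib
import Pool.Agent.H103Z.KSPde

set_option autoImplicit false
open scoped Topology
open MeasureTheory Filter Real Set

namespace Pool.Agent.H103Z.KS

lemma rad_int {s : ℝ} (hs : 0 < s) :
    ∫ r in Ioi (0 : ℝ), (r⁻¹) ^ 4 * exp (-((r⁻¹ * s) ^ 2) / 4) = 2 * √π / s ^ 3 := by
  have h1 := integral_comp_rpow_Ioi (fun t : ℝ => t ^ (2 : ℝ) * exp (-(s ^ 2 / 4) * t ^ (2 : ℝ)))
    (p := -1) (by norm_num)
  rw [integral_rpow_mul_exp_neg_mul_rpow two_pos (by norm_num) (by positivity)] at h1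
  have h2 : Gamma ((2 + 1) / 2) = √π / 2 := by
    rw [show ((2 + 1) / 2 : ℝ) = 1 / 2 + 1 by norm_num, Gamma_add_one (by norm_num),
      Gamma_one_half_eq]
    ring
  have h3 : (s ^ 2 / 4) ^ (-(2 + 1) / 2 : ℝ) = 8 / s ^ 3 := by
    rw [show s ^ 2 / 4 = (s / 2) ^ (2 : ℝ) by rw [rpow_two]; ring, ← rpow_mul (by positivity),
      show (2 * (-(2 + 1) / 2) : ℝ) = - (3 : ℕ) by norm_num, rpow_neg (by positivity),
      rpow_natCast]
    field_simp
    norm_num
  rw [h2, h3] at h1
  refine Eq.trans ?_ (h1.trans (by ring))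
  refine setIntegral_congr_fun measurableSet_Ioi fun r hr => ?_
  have hr : 0 < r := hr
  simp only [smul_eq_mul]
  rw [rpow_neg_one, rpow_two, show (-1 - 1 : ℝ) = - (2 : ℕ) by norm_num, rpow_neg hr.le,
    rpow_natCast, abs_neg, abs_one, show -((r⁻¹ * s) ^ 2) / 4 = -(s ^ 2 / 4) * r⁻¹ ^ 2 by ring]
  ring

lemma rad_gi (i : Fin 3) (z : E) :
    ∫ r in Ioi (0 : ℝ), (r⁻¹) ^ 3 * gi i (r⁻¹ • z) = -(1 / (8 * π)) * (z i / ‖z‖ ^ 3) := by
  rcases eq_or_ne z 0 with rfl | hz
  · simp [gi]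
  have hs : 0 < ‖z‖ := norm_pos_iff.2 hz
  have e : ∀ r ∈ Ioi (0 : ℝ), (r⁻¹) ^ 3 * gi i (r⁻¹ • z) =
      (-(1 / 2) * z i * c0) * ((r⁻¹) ^ 4 * exp (-((r⁻¹ * ‖z‖) ^ 2) / 4)) := by
    intro r hr
    have hr : 0 < r := hr
    simp only [gi, G, g4, norm_smul, PiLp.smul_apply, smul_eq_mul, norm_inv,
      Real.norm_of_nonneg hr.le]
    ring
  rw [setIntegral_congr_fun measurableSet_Ioi e, integral_const_mul, rad_int hs, c0]
  have hp := pi_pos
  have h1 : √(4 * π) = 2 * √π := by
    rw [sqrt_mul (by norm_num), show (4 : ℝ) = 2 ^ 2 by norm_num, sqrt_sq zero_le_two]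
  have h2 : 0 < √π := sqrt_pos.2 hp
  have h3 : π = √π ^ 2 := (sq_sqrt hp.le).symm
  rw [h1]
  generalize √π = a at *
  rw [h3]
  field_simp
  ring

lemma scale_int (κ q : E → ℝ) (x : E) {r : ℝ} (hr : 0 < r) :
    ∫ u, κ u * q (x - r • u) = ∫ z, (r⁻¹) ^ 3 * κ (r⁻¹ • z) * q (x - z) := by
  have := Measure.integral_comp_smul_of_nonneg (volume : Measure E)
    (fun z => κ (r⁻¹ • z) * q (x - z)) r (hR := hr.le)
  simp only [inv_smul_smul₀ hr.ne', finrank_euclideanSpace, Fintype.card_fin, smul_eq_mul] at this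
  rw [this, ← integral_const_mul, inv_pow]
  simp only [mul_assoc]

lemma scale_integrable {κ q : E → ℝ} {x : E} {r : ℝ} (hr : 0 < r)
    (h : Integrable fun u => κ u * q (x - r • u)) :
    Integrable fun z => (r⁻¹) ^ 3 * κ (r⁻¹ • z) * q (x - z) := by
  have := (h.comp_smul (inv_ne_zero hr.ne')).const_mul ((r⁻¹) ^ 3)
  simpa only [smul_inv_smul₀ hr.ne', mul_assoc] using this

theorem V_newton {L a : ℝ} (hL : 1 ≤ L) (ha : 0 ≤ a) {Q : ℝ × E → ℝ}
    (hQ : Cl 0 (fun p => a * w L p) Q) (i : Fin 3) (τ : ℝ) (x : E) :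
    Integrable (fun y => Q (τ, y) / ‖x - y‖ ^ 3 * (x - y) i) ∧
    V i Q (τ, x) = -(1 / (4 * π)) * ∫ y, Q (τ, y) / ‖x - y‖ ^ 3 * (x - y) i := by
  have hk : Ker fun u => |gi i u| := ⟨(gi_ker i).1.abs, fun u => by simpa using (gi_ker i).2 u⟩
  have hQ' : Cl 0 (fun p => a * w L p) fun p => |Q p| :=
    ⟨hQ.1.abs, fun p => by simpa using hQ.2 p⟩
  have hq : Continuous fun y => Q (τ, y) := hQ.1.comp (by fun_prop)
  set f : ℝ → E → ℝ := fun r z => (r⁻¹) ^ 3 * gi i (r⁻¹ • z) * Q (τ, x - z) with hf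
  have hm : Measurable (Function.uncurry f) := by
    have h1 := (gi_ker i).1.measurable
    have h2 := hq.measurable
    exact ((measurable_fst.inv.pow_const 3).mul (h1.comp (measurable_fst.inv.smul
      measurable_snd))).mul (h2.comp (measurable_const.sub measurable_snd))
  have hI : Integrable (Function.uncurry f) ((volume.restrict (Ioi 0)).prod volume) := by
    rw [integrable_prod_iff hm.aestronglyMeasurable]
    constructor
    · filter_upwards [ae_restrict_mem measurableSet_Ioi] with r hr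
      refine scale_integrable (q := fun y => Q (τ, y)) hr ?_
      simpa using Hk_integrable (gi_ker i) (hQ.bd hL ha) (τ, r, x)
    · refine (Vfam_integrable hL hk ha hQ' (τ, x)).congr ?_
      filter_upwards [ae_restrict_mem measurableSet_Ioi] with r hr
      have hr : 0 < r := hr
      have := scale_int (fun u => |gi i u|) (fun y => |Q (τ, y)|) x hr
      simp only [Hk, Au_apply, Ar_apply, Prod.mk_add_mk, add_zero, zero_add]
      rw [this]
      refine integral_congr_ae (Eventually.of_forall fun z => ?_)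
      simp only [Function.uncurry, hf, Real.norm_eq_abs, abs_mul]
      rw [abs_of_pos (by positivity : 0 < r⁻¹ ^ 3)]
  have e1 : ∀ z, ∫ r in Ioi (0 : ℝ), f r z = -(1 / (8 * π)) * (Q (τ, x - z) / ‖z‖ ^ 3 * z i) := by
    intro z
    simp only [hf]
    rw [integral_mul_const, rad_gi]
    ring
  have hp := pi_pos
  have h1 : Integrable fun z : E => Q (τ, x - z) / ‖z‖ ^ 3 * z i := by
    have := hI.integral_prod_right.const_mul (-(8 * π))
    simp only [Function.uncurry, e1] at this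
    refine this.congr (Eventually.of_forall fun z => ?_)
    simp only
    field_simp
  constructor
  · simpa using h1.comp_sub_left x
  · have e2 : V i Q (τ, x) = 2 * ∫ r in Ioi (0 : ℝ), ∫ z, f r z := by
      unfold V
      congr 1
      refine setIntegral_congr_fun measurableSet_Ioi fun r hr => ?_
      simp only [Hk, Au_apply, Ar_apply, Prod.mk_add_mk, add_zero, zero_add]
      exact scale_int (gi i) (fun y => Q (τ, y)) x hr
    rw [e2, integral_integral_swap hI]
    simp only [e1]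
    rw [integral_const_mul, ← integral_sub_left_eq_self _ volume x]
    simp only [sub_sub_cancel]
    generalize ∫ y, Q (τ, y) / ‖x - y‖ ^ 3 * (x - y) i = I
    field_simp
    ring

end Pool.Agent.H103Z.KS
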