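import Mathlib
import Pool.Agent.H103Z.KSNewton

set_option autoImplicit false
open scoped Topology
open MeasureTheory Filter Real Set

namespace Pool.Agent.H103Z.KS

/-- compression of the first coordinate -/
noncomputable def Aa (L : ℝ) : E →L[ℝ] E :=
  ContinuousLinearMap.id ℝ E -
    (1 - L⁻¹) • (EuclideanSpace.proj (0 : Fin 3) : E →L[ℝ] ℝ).smulRight (EuclideanSpace.single 0 1)

lemma Aa_sq (L : ℝ) (x : E) : ‖Aa L x‖ ^ 2 = (L⁻¹ * x 0) ^ 2 + x 1 ^ 2 + x 2 ^ 2 := by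
  rw [norm_sq_eq, Fin.sum_univ_three]
  simp [Aa]
  ring

variable {L : ℝ}

lemma Aa_norm (hL : 1 ≤ L) (x : E) : ‖Aa L x‖ ≤ ‖x‖ := by
  rw [← pow_le_pow_iff_left₀ (norm_nonneg _) (norm_nonneg _) two_ne_zero, Aa_sq, norm_sq_eq,
    Fin.sum_univ_three, mul_pow]
  have h1 : L⁻¹ ^ 2 ≤ 1 := pow_le_one₀ (by positivity) (inv_le_one_of_one_le₀ hL)
  nlinarith [sq_nonneg (x 0)]

lemma norm_le_Aa (hL : 1 ≤ L) (x : E) : ‖x‖ ^ 2 ≤ L ^ 2 * ‖Aa L x‖ ^ 2 := by
  have h0 : L ≠ 0 := by linarith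
  have h1 : 1 ≤ L ^ 2 := one_le_pow₀ hL
  rw [Aa_sq, norm_sq_eq, Fin.sum_univ_three, mul_add, mul_add, ← mul_pow, mul_inv_cancel_left₀ h0]
  nlinarith [sq_nonneg (x 1), sq_nonneg (x 2)]

lemma e8_Aa (hL : 1 ≤ L) (x : E) : e8 (Aa L x) = W L 0 x := by
  have h0 : 0 < L := by linarith
  simp only [e8, Aa_sq, W, Fin.prod_univ_three, gam, av]
  simp only [Matrix.cons_val_zero, Matrix.cons_val_one, Matrix.cons_val, add_zero, sqrt_one,
    div_one, sqrt_sq h0.le]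
  rw [mul_assoc, ← mul_assoc L, mul_div_cancel₀ _ h0.ne', ← exp_add, ← exp_add]
  congr 1
  field_simp
  ring

/-- the initial datum -/
noncomputable def n0 (l L : ℝ) (x : E) : ℝ := l * g4 (Aa L x)

lemma n0_cont (l L : ℝ) : Continuous (n0 l L) :=
  continuous_const.mul (g4_cont.comp (Aa L).continuous)

lemma n0_nonneg {l : ℝ} (hl : 0 ≤ l) (x : E) : 0 ≤ n0 l L x := mul_nonneg hl (g4_pos _).le

lemma g4_le (u : E) : g4 u ≤ e8 u := exp_le_exp.2 (by nlinarith [sq_nonneg ‖u‖])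

lemma n0_le_W (hL : 1 ≤ L) {l : ℝ} (hl : 0 ≤ l) (x : E) : n0 l L x ≤ l * W L 0 x := by
  rw [← e8_Aa hL]
  exact mul_le_mul_of_nonneg_left (g4_le _) hl

lemma n0_le (hL : 1 ≤ L) {l : ℝ} (hl : 0 ≤ l) (x : E) : n0 l L x ≤ l :=
  (n0_le_W hL hl x).trans (mul_le_of_le_one_right hl (W_le_one hL le_rfl x))

lemma n0_integrable (hL : 1 ≤ L) {l : ℝ} (hl : 0 ≤ l) : Integrable (n0 l L) :=
  ((W_integrable hL le_rfl).const_mul l).mono' (n0_cont l L).aestronglyMeasurable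
    (Eventually.of_forall fun x => by
      rw [Real.norm_of_nonneg (n0_nonneg hl x)]; exact n0_le_W hL hl x)

lemma n0_mass (hL : 1 ≤ L) {l : ℝ} (hl : 0 ≤ l) : ∫ x, n0 l L x ≤ l * (L * c8) := by
  rw [← W_integral hL le_rfl, ← integral_const_mul]
  exact integral_mono (n0_integrable hL hl) ((W_integrable hL le_rfl).const_mul l) (n0_le_W hL hl)

lemma n0_moment (hL : 1 ≤ L) {l : ℝ} (hl : 0 ≤ l) : Integrable fun x => ‖x‖ ^ 2 * n0 l L x := by
  refine ((W_integrable hL le_rfl).const_mul (l * L ^ 2 * Kp 2)).mono'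
    ((continuous_norm.pow 2).mul (n0_cont l L)).aestronglyMeasurable
    (Eventually.of_forall fun x => ?_)
  rw [Real.norm_of_nonneg (mul_nonneg (sq_nonneg _) (n0_nonneg hl x)), ← e8_Aa hL, n0]
  have h1 := poly_g4 2 (Aa L x)
  have h2 := norm_le_Aa hL x
  have h3 := g4_pos (Aa L x)
  have h4 : ‖Aa L x‖ ^ 2 ≤ (1 + ‖Aa L x‖) ^ 2 := by nlinarith [norm_nonneg (Aa L x)]
  calc ‖x‖ ^ 2 * (l * g4 (Aa L x)) ≤ (L ^ 2 * (1 + ‖Aa L x‖) ^ 2) * (l * g4 (Aa L x)) := by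
        gcongr
        exact h2.trans (by gcongr)
    _ = l * L ^ 2 * ((1 + ‖Aa L x‖) ^ 2 * g4 (Aa L x)) := by ring
    _ ≤ l * L ^ 2 * (Kp 2 * e8 (Aa L x)) := by gcongr
    _ = _ := by ring

lemma n0_Cl (k : ℕ) : ∃ C : ℝ, 0 < C ∧ ∀ l L : ℝ, 0 ≤ l → 1 ≤ L →
    Cl k (fun p : ℝ × E => C * l * W L 0 p.2) (fun p : ℝ × E => n0 l L p.2) := by
  obtain ⟨C, hC, h⟩ := g4_Cl k
  have := Kp_pos k
  refine ⟨C * Kp k, by positivity, fun l L hl hL => ?_⟩
  have h1 := (h.comp ((Aa L).comp (ContinuousLinearMap.snd ℝ ℝ E)) 0 le_rfl fun v => by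
    simpa using (Aa_norm hL v.2).trans (norm_snd_le v)).const_mul l
  simp only [add_zero, one_pow, one_mul, abs_of_nonneg hl] at h1
  refine Cl.mono h1 fun p => ?_
  have h2 := poly_g4 k (Aa L p.2)
  rw [← e8_Aa hL]
  calc l * (C * ((1 + ‖Aa L p.2‖) ^ k * g4 (Aa L p.2))) ≤ l * (C * (Kp k * e8 (Aa L p.2))) := by
        gcongr
    _ = _ := by ring

lemma pair_integrable (hL : 1 ≤ L) {l : ℝ} (hl : 0 ≤ l) :
    Integrable (fun p : E × E => n0 l L p.1 * n0 l L p.2 / ‖p.1 - p.2‖) (volume.prod volume) := by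
  have hk : Integrable ((Metric.ball (0 : E) 1).indicator fun z : E => ‖z‖⁻¹) := by
    rw [integrable_indicator_iff measurableSet_ball]
    refine integrableOn_ball_of_norm_le_rpow (C := 1) (α := 1) (by simp) (by simp)
      (Eventually.of_forall fun x => ?_) (measurable_norm.inv).aestronglyMeasurable
    simp [rpow_neg_one]
  have hn := n0_integrable hL hl
  have h1 := (hn.convolution_integrand (ContinuousLinearMap.mul ℝ ℝ) hk).const_mul l
  have hm := (n0_cont l L).measurable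
  refine (h1.add (hn.mul_prod hn)).mono' (((hm.comp measurable_fst).mul
    (hm.comp measurable_snd)).div (measurable_fst.sub measurable_snd).norm).aestronglyMeasurable
    (Eventually.of_forall fun p => ?_)
  have a1 := n0_nonneg (L := L) hl p.1
  have a2 := n0_nonneg (L := L) hl p.2
  have a3 := n0_le hL hl p.1
  rw [Real.norm_of_nonneg (by positivity)]
  simp only [Pi.add_apply, ContinuousLinearMap.mul_apply']
  by_cases h : p.1 - p.2 ∈ Metric.ball (0 : E) 1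
  · rw [indicator_of_mem h, div_eq_mul_inv, mul_assoc]
    have : n0 l L p.1 * (n0 l L p.2 * ‖p.1 - p.2‖⁻¹) ≤ l * (n0 l L p.2 * ‖p.1 - p.2‖⁻¹) := by gcongr
    have := mul_nonneg a1 a2
    linarith
  · rw [indicator_of_notMem h, mul_zero, mul_zero, zero_add]
    exact div_le_self (by positivity) (by simpa using h)

/-- indicator of an interval -/
noncomputable def ind (a s : ℝ) : ℝ := (Ioc 0 a).indicator 1 s

/-- truncated logarithmic density -/
noncomputable def lg (a s : ℝ) : ℝ := (Ioc 0 a).indicator (fun s => 1 / (s + 2)) s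

lemma ind_int {a : ℝ} (ha : 0 ≤ a) : ∫ s, ind a s = a := by
  unfold ind
  rw [integral_indicator_one measurableSet_Ioc]
  simp [ha]

lemma lg_int {a : ℝ} (ha : 0 ≤ a) : ∫ s, lg a s = log ((a + 2) / 2) := by
  unfold lg
  rw [integral_indicator measurableSet_Ioc, ← intervalIntegral.integral_of_le ha,
    intervalIntegral.integral_comp_add_right (fun s => 1 / s),
    integral_one_div_of_pos (by norm_num) (by linarith), zero_add]

lemma ind_nonneg (a s : ℝ) : 0 ≤ ind a s := indicator_nonneg (fun _ _ => zero_le_one) _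

lemma lg_nonneg (a s : ℝ) : 0 ≤ lg a s :=
  indicator_nonneg (fun s hs => by have := hs.1; positivity) _

lemma n0_lower (hL : 1 ≤ L) {l : ℝ} (hl : 0 ≤ l) {x : E} (h0 : |x 0| ≤ 2 * L) (h1 : |x 1| ≤ 2)
    (h2 : |x 2| ≤ 2) : l * exp (-3) ≤ n0 l L x := by
  refine mul_le_mul_of_nonneg_left (exp_le_exp.2 ?_) hl
  have hL0 : 0 < L := by linarith
  have h3 : |L⁻¹ * x 0| ≤ 2 := by
    rw [abs_mul, abs_of_pos (inv_pos.2 hL0), inv_mul_le_iff₀ hL0]
    linarith
  rw [Aa_sq]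
  have a0 := sq_le_sq' (abs_le.1 h3).1 (abs_le.1 h3).2
  have a1 := sq_le_sq' (abs_le.1 h1).1 (abs_le.1 h1).2
  have a2 := sq_le_sq' (abs_le.1 h2).1 (abs_le.1 h2).2
  linarith

lemma pair_pt (hL : 1 ≤ L) {l : ℝ} (hl : 0 ≤ l) (x y : E) :
    (l * exp (-3)) ^ 2 * (∏ i, (![ind L, ind 1, ind 1] : Fin 3 → ℝ → ℝ) i (x i)) *
      (∏ i, (![lg L, ind 1, ind 1] : Fin 3 → ℝ → ℝ) i ((y - x) i)) ≤
      n0 l L x * n0 l L y / ‖x - y‖ := by
  have a1 := n0_nonneg (L := L) hl x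
  have a2 := n0_nonneg (L := L) hl y
  have hr : 0 ≤ n0 l L x * n0 l L y / ‖x - y‖ := by positivity
  simp only [Fin.prod_univ_three, Matrix.cons_val_zero, Matrix.cons_val_one, Matrix.cons_val,
    ind, lg, PiLp.sub_apply]
  by_cases h0 : x 0 ∈ Ioc 0 L; swap; · simpa [h0] using hr
  by_cases h1 : x 1 ∈ Ioc (0 : ℝ) 1; swap; · simpa [h1] using hr
  by_cases h2 : x 2 ∈ Ioc (0 : ℝ) 1; swap; · simpa [h2] using hr
  by_cases g0 : y 0 - x 0 ∈ Ioc 0 L; swap; · simpa [g0] using hr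
  by_cases g1 : y 1 - x 1 ∈ Ioc (0 : ℝ) 1; swap; · simpa [g1] using hr
  by_cases g2 : y 2 - x 2 ∈ Ioc (0 : ℝ) 1; swap; · simpa [g2] using hr
  simp only [indicator_of_mem, h0, h1, h2, g0, g1, g2, Pi.one_apply, mul_one]
  obtain ⟨h0, h0'⟩ := h0
  obtain ⟨h1, h1'⟩ := h1
  obtain ⟨h2, h2'⟩ := h2
  obtain ⟨g0, g0'⟩ := g0
  obtain ⟨g1, g1'⟩ := g1
  obtain ⟨g2, g2'⟩ := g2
  have b1 : l * exp (-3) ≤ n0 l L x := n0_lower hL hl (by rw [abs_le]; constructor <;> linarith)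
    (by rw [abs_le]; constructor <;> linarith) (by rw [abs_le]; constructor <;> linarith)
  have b2 : l * exp (-3) ≤ n0 l L y := n0_lower hL hl (by rw [abs_le]; constructor <;> linarith)
    (by rw [abs_le]; constructor <;> linarith) (by rw [abs_le]; constructor <;> linarith)
  have b3 : ‖x - y‖ ≤ y 0 - x 0 + 2 := by
    rw [← pow_le_pow_iff_left₀ (norm_nonneg _) (by linarith) two_ne_zero, norm_sq_eq,
      Fin.sum_univ_three]
    simp only [PiLp.sub_apply]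
    nlinarith
  have b4 : 0 < ‖x - y‖ := by
    rw [norm_pos_iff, sub_ne_zero]
    rintro rfl
    simp at g0
  rw [mul_one_div, sq]
  gcongr

theorem pair_lower (hL : 1 ≤ L) {l : ℝ} (hl : 0 ≤ l) :
    (l * exp (-3)) ^ 2 * L * log ((L + 2) / 2) ≤ ∫ x, ∫ y, n0 l L x * n0 l L y / ‖x - y‖ := by
  have hI := pair_integrable hL hl
  have hL0 : 0 ≤ L := by linarith
  have p1 : ∀ x : E, 0 ≤ ∏ i, (![ind L, ind 1, ind 1] : Fin 3 → ℝ → ℝ) i (x i) := fun x =>
    Finset.prod_nonneg fun i _ => by fin_cases i <;> exact ind_nonneg _ _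
  have p2 : ∀ x : E, 0 ≤ ∏ i, (![lg L, ind 1, ind 1] : Fin 3 → ℝ → ℝ) i (x i) := fun x =>
    Finset.prod_nonneg fun i _ => by
      fin_cases i
      · exact lg_nonneg _ _
      · exact ind_nonneg _ _
      · exact ind_nonneg _ _
  have i1 : ∫ x : E, ∏ i, (![ind L, ind 1, ind 1] : Fin 3 → ℝ → ℝ) i (x i) = L := by
    rw [int_prod, Fin.prod_univ_three]
    simp [ind_int hL0, ind_int zero_le_one]
  have i2 : ∫ x : E, ∏ i, (![lg L, ind 1, ind 1] : Fin 3 → ℝ → ℝ) i (x i) =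
      log ((L + 2) / 2) := by
    rw [int_prod, Fin.prod_univ_three]
    simp [lg_int hL0, ind_int zero_le_one]
  have hlog : 0 ≤ log ((L + 2) / 2) := log_nonneg (by linarith)
  have e : (l * exp (-3)) ^ 2 * L * log ((L + 2) / 2) = ∫ x : E, (l * exp (-3)) ^ 2 *
      (∏ i, (![ind L, ind 1, ind 1] : Fin 3 → ℝ → ℝ) i (x i)) * log ((L + 2) / 2) := by
    rw [integral_mul_const, integral_const_mul, i1]
  rw [e]
  refine integral_mono_of_nonneg (Eventually.of_forall fun x => ?_) hI.integral_prod_left ?_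
  · exact mul_nonneg (mul_nonneg (sq_nonneg _) (p1 x)) hlog
  · filter_upwards [hI.prod_right_ae] with x hx
    rw [← i2, ← integral_sub_right_eq_self _ x, ← integral_const_mul]
    exact integral_mono_of_nonneg (Eventually.of_forall fun y =>
      mul_nonneg (mul_nonneg (sq_nonneg _) (p1 x)) (p2 _)) hx
      (Eventually.of_forall fun y => pair_pt hL hl x y)

end Pool.Agent.H103Z.KS
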