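import Mathlib
import Pool.Agent.H103Z.KSData

set_option autoImplicit false
open scoped Topology
open MeasureTheory Filter Real Set

namespace Pool.Agent.H103Z.KS

lemma slice {F : ℝ × E → ℝ} (hF : Differentiable ℝ F) (τ : ℝ) (v : E) :
    D v (fun x => F (τ, x)) = fun x => D (0, v) F (τ, x) := by
  simpa using D_comp hF (ContinuousLinearMap.inr ℝ ℝ E) (τ, 0) v

lemma second {f : E → ℝ} (hf : ContDiff ℝ 2 f) (v x : E) :
    iteratedFDeriv ℝ 2 f x ![v, v] = D v (D v f) x := by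
  have h1 : Differentiable ℝ (fderiv ℝ f) :=
    (hf.fderiv_right (m := 1) (by norm_num)).differentiable (by norm_num)
  have h2 := (h1 x).hasFDerivAt.clm_apply (hasFDerivAt_const v x)
  rw [iteratedFDeriv_two_apply]
  have e : fderiv ℝ (D v f) x = _ := h2.fderiv
  simp only [D] at e ⊢
  rw [e]
  simp

lemma ball_vol : (3 : ℝ) * (volume (Metric.ball (0 : E) 1)).toReal = 4 * π := by
  rw [EuclideanSpace.volume_ball_fin_three]
  have := pi_pos
  simp only [ENNReal.ofReal_one, one_pow, one_mul]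
  rw [ENNReal.toReal_ofReal (by positivity)]
  ring

theorem global {L a : ℝ} (hL : 1 ≤ L) (ha : 0 ≤ a) {f : E → ℝ} {N : ℝ × E → ℝ}
    (hF : Bd 2 fun p : ℝ × E => f p.2) (hN : Cl 3 (fun p => a * w L p) N)
    (hfix : ∀ p, N p = Lin (fun p : ℝ × E => f p.2) p - B N N p) :
    ∃ n : ℝ → E → ℝ, n 0 = f ∧
      ContinuousOn (fun p : ℝ × E => n p.1 p.2) (Set.Ici (0 : ℝ) ×ˢ Set.univ) ∧
      ContDiffOn ℝ 2 (fun p : ℝ × E => n p.1 p.2) (Set.Ioi (0 : ℝ) ×ˢ Set.univ) ∧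
      (∀ t : ℝ, 0 ≤ t → Integrable (n t)) ∧
      (∀ T : ℝ, 0 < T → ∃ C : ℝ, ∀ t ∈ Set.Icc (0 : ℝ) T, ∀ x, |n t x| ≤ C) ∧
      (∀ t : ℝ, 0 < t → ∀ x : E, deriv (fun s => n s x) t =
        (∑ i : Fin 3, iteratedFDeriv ℝ 2 (n t) x
          ![EuclideanSpace.single i (1 : ℝ), EuclideanSpace.single i (1 : ℝ)])
        - fderiv ℝ (n t) x ((-(1 / (4 * π))) • ∫ y, (n t y / ‖x - y‖ ^ 3) • (x - y))
        + n t x ^ 2) := by
  have hc : ContDiff ℝ 2 N := hN.pred.contDiff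
  have hb := hN.bd hL ha
  refine ⟨fun t x => N (√t, x), ?_, ?_, ?_, fun t _ => ?_, fun T _ => ⟨a, fun t _ x => ?_⟩,
    fun t ht x => ?_⟩
  · funext x
    refine (hfix _).trans ?_
    simp [Lin, B, Hk_zero]
  · exact (hN.cont.comp (by fun_prop)).continuousOn
  · refine hc.comp_contDiffOn (ContDiffOn.prodMk ?_ contDiffOn_snd)
    exact contDiffOn_fst.sqrt fun p hp => ne_of_gt hp.1
  · refine ((W_integrable hL (sq_nonneg √t)).const_mul a).mono'
      (hN.cont.comp (by fun_prop)).aestronglyMeasurable (Eventually.of_forall fun x => ?_)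
    exact hN.bound (√t, x)
  · exact (hN.bound _).trans (mul_le_of_le_one_right ha (w_le_one hL _))
  · have hs : 0 < √t := sqrt_pos.2 ht
    have h1 : HasDerivAt (fun s : ℝ => ((√s, x) : ℝ × E)) (1 / (2 * √t), 0) t :=
      (hasDerivAt_sqrt ht.ne').prodMk (hasDerivAt_const t x)
    have h2 := HasFDerivAt.comp_hasDerivAt (f := fun s : ℝ => ((√s, x) : ℝ × E)) t
      (hN.diff (√t, x)).hasFDerivAt h1
    have h3 : deriv (fun s => N (√s, x)) t = 1 / (2 * √t) * D (1, 0) N (√t, x) := by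
      refine h2.deriv.trans ?_
      rw [show ((1 / (2 * √t), 0) : ℝ × E) = (1 / (2 * √t)) • (1, 0) by simp, map_smul]
      rfl
    have h4 : ∀ i : Fin 3, iteratedFDeriv ℝ 2 (fun x => N (√t, x)) x
        ![EuclideanSpace.single i (1 : ℝ), EuclideanSpace.single i (1 : ℝ)] =
        D (ex i) (D (ex i) N) (√t, x) := by
      intro i
      have h6 : ContDiff ℝ 2 fun x : E => N (√t, x) :=
        hc.comp (contDiff_const.prodMk contDiff_id)
      rw [second h6, slice hN.diff, slice (hb.der _).diff]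
      rfl
    have hV := fun i => V_newton hL ha hN.zero i (√t) x
    have h5 : fderiv ℝ (fun x => N (√t, x)) x ((-(1 / (4 * π))) •
        ∫ y, (N (√t, y) / ‖x - y‖ ^ 3) • (x - y)) =
        ∑ i, V i N (√t, x) * D (ex i) N (√t, x) := by
      refine (congrFun (slice hN.diff (√t) _) x).trans ?_
      rw [D_space]
      refine Finset.sum_congr rfl fun i _ => ?_
      rw [(hV i).2, PiLp.smul_apply, eval_integral_piLp fun i => (hV i).1]
      rfl
    simp only [h3, h4, h5]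
    rw [N_pde hL ha hF hN hfix]
    field_simp

theorem exists_data : ∃ l L : ℝ, 0 ≤ l ∧ 1 ≤ L ∧
    2 * 3 * (∫ x, n0 l L x) * (4 * π) < ∫ x, ∫ y, n0 l L x * n0 l L y / ‖x - y‖ ∧
    ∃ a : ℝ, ∃ N : ℝ × E → ℝ, 0 ≤ a ∧ (Bd 2 fun p : ℝ × E => n0 l L p.2) ∧
      Cl 3 (fun p => a * w L p) N ∧ ∀ p, N p = Lin (fun p : ℝ × E => n0 l L p.2) p - B N N p := by
  obtain ⟨C, hC, h⟩ := n0_Cl 3
  have h1 := Kp_pos (3 + 1)
  have h2 := c8_pos
  have h3 := CB_pos 3
  have hp := pi_pos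
  obtain ⟨l, hl, hs⟩ : ∃ l : ℝ, 0 < l ∧ 8 * CB 3 * (Kp (3 + 1) * c8 * (C * l)) ≤ 1 :=
    ⟨1 / (8 * CB 3 * (Kp (3 + 1) * c8 * C)), by positivity, le_of_eq (by field_simp)⟩
  set K : ℝ := 24 * π * c8 / (l * exp (-3) ^ 2) with hK
  have hK0 : 0 ≤ K := by positivity
  have hE : 1 ≤ exp K := one_le_exp hK0
  have hL : 1 ≤ 2 * exp K := by linarith
  have hF := h l _ hl.le hL
  obtain ⟨N, hN, hfix⟩ := exists_fixed hL (by positivity) hs (Lin_Cl hL (by positivity) hF)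
  refine ⟨l, 2 * exp K, hl.le, hL, ?_, _, N, by positivity, ⟨C * l, hF.pred.mono fun p =>
    mul_le_of_le_one_right (by positivity) (W_le_one hL le_rfl _)⟩, hN, hfix⟩
  refine lt_of_lt_of_le ?_ (pair_lower hL hl.le)
  have h4 : K < log ((2 * exp K + 2) / 2) := by
    rw [lt_log_iff_exp_lt (by positivity)]
    linarith
  have h5 := n0_mass hL hl.le
  calc 2 * 3 * (∫ x, n0 l (2 * exp K) x) * (4 * π) ≤ 2 * 3 * (l * (2 * exp K * c8)) * (4 * π) := by
        gcongr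
    _ = (l * exp (-3)) ^ 2 * (2 * exp K) * (24 * π * c8 / (l * exp (-3) ^ 2)) := by
        field_simp
        norm_num
    _ < _ := by gcongr

end Pool.Agent.H103Z.KS
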