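import Pool.Agent.H103Z.NbLp

/-!
Dyadic averages of real sequences, normalised norms, and the dyadic fractional integral.
-/

open Finset

namespace Pool.Agent.H103Z.Nb

/-- one step of dyadic averaging -/
noncomputable def dn (φ : ℕ → ℝ) (j : ℕ) : ℝ := (φ (2 * j) + φ (2 * j + 1)) / 2

/-- average over dyadic blocks of length `2 ^ m` -/
noncomputable def av (m : ℕ) (φ : ℕ → ℝ) : ℕ → ℝ := dn^[m] φ

/-- the number `2 ^ (1 / p)` -/
noncomputable def sg (p : ℝ) : ℝ := (2 : ℝ) ^ (1 / p)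

/-- normalised norm on `2 ^ n` points -/
noncomputable def nu (p : ℝ) (n : ℕ) (φ : ℕ → ℝ) : ℝ := lpn p (range (2 ^ n)) φ / sg p ^ n

/-- dyadic fractional integral on `2 ^ n` points -/
noncomputable def fi (θ : ℝ) (n : ℕ) (c : ℕ → ℝ) (z : ℕ) : ℝ :=
  c z + ∑ m ∈ range n, (θ ^ (m + 1) - θ ^ m) * av (m + 1) c (z / 2 ^ (m + 1))

/-- restriction to an initial segment -/
noncomputable def cut (k : ℕ) (c : ℕ → ℝ) (z : ℕ) : ℝ := if z < k then c z else 0

variable {p θ : ℝ}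

@[simp] lemma av_zero (φ : ℕ → ℝ) : av 0 φ = φ := rfl

lemma av_succ (m : ℕ) (φ : ℕ → ℝ) : av (m + 1) φ = av m (dn φ) :=
  Function.iterate_succ_apply dn m φ

lemma av_succ' (m : ℕ) (φ : ℕ → ℝ) : av (m + 1) φ = dn (av m φ) :=
  Function.iterate_succ_apply' dn m φ

lemma av_succ_apply (m : ℕ) (φ : ℕ → ℝ) (q : ℕ) :
    av (m + 1) φ q = (av m φ (2 * q) + av m φ (2 * q + 1)) / 2 := by
  rw [av_succ']; rfl

lemma av_add (m : ℕ) (φ ψ : ℕ → ℝ) (q : ℕ) :
    av m (fun z => φ z + ψ z) q = av m φ q + av m ψ q := by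
  induction m generalizing q with
  | zero => rfl
  | succ m ih => simp only [av_succ_apply, ih]; ring

lemma av_smul (m : ℕ) (a : ℝ) (φ : ℕ → ℝ) (q : ℕ) :
    av m (fun z => a * φ z) q = a * av m φ q := by
  induction m generalizing q with
  | zero => rfl
  | succ m ih => simp only [av_succ_apply, ih]; ring

lemma av_sum {ι : Type*} (m : ℕ) (s : Finset ι) (φ : ι → ℕ → ℝ) (q : ℕ) :
    av m (fun z => ∑ i ∈ s, φ i z) q = ∑ i ∈ s, av m (φ i) q := by
  induction m generalizing q with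
  | zero => rfl
  | succ m ih => simp only [av_succ_apply, ih, ← Finset.sum_div, Finset.sum_add_distrib]

lemma av_nonneg (m : ℕ) {φ : ℕ → ℝ} (h : ∀ z, 0 ≤ φ z) (q : ℕ) : 0 ≤ av m φ q := by
  induction m generalizing q with
  | zero => exact h q
  | succ m ih => rw [av_succ_apply]; linarith [ih (2 * q), ih (2 * q + 1)]

lemma dn_up (ψ : ℕ → ℝ) : dn (fun z => ψ (z / 2)) = ψ := by
  funext j
  simp only [dn]
  rw [show 2 * j / 2 = j by omega, show (2 * j + 1) / 2 = j by omega]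
  ring

lemma div_pow_succ (z m : ℕ) : z / 2 ^ (m + 1) = z / 2 ^ m / 2 := by
  rw [pow_succ, Nat.div_div_eq_div_mul]

lemma div_pow_succ' (z m : ℕ) : z / 2 ^ (m + 1) = z / 2 / 2 ^ m := by
  rw [pow_succ', Nat.div_div_eq_div_mul]

lemma sum_range_two (f : ℕ → ℝ) (N : ℕ) :
    ∑ z ∈ range (2 * N), f z = ∑ j ∈ range N, (f (2 * j) + f (2 * j + 1)) := by
  induction N with
  | zero => simp
  | succ N ih =>
    rw [show 2 * (N + 1) = 2 * N + 1 + 1 by ring, Finset.sum_range_succ, Finset.sum_range_succ, ih,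
      Finset.sum_range_succ]
    ring

lemma av_total (n : ℕ) (φ : ℕ → ℝ) : 2 ^ n * av n φ 0 = ∑ z ∈ range (2 ^ n), φ z := by
  induction n generalizing φ with
  | zero => simp
  | succ n ih =>
    rw [av_succ, pow_succ' 2 n, pow_succ' 2 n, sum_range_two, mul_assoc, ih, Finset.mul_sum]
    refine Finset.sum_congr rfl fun j _ => ?_
    simp only [dn]; ring

lemma two_point (hp : 1 ≤ p) (a b : ℝ) : |(a + b) / 2| ^ p ≤ (|a| ^ p + |b| ^ p) / 2 := by
  have h := (convexOn_rpow hp).2 (Set.mem_Ici.2 (abs_nonneg a))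
    (Set.mem_Ici.2 (abs_nonneg b)) (show (0 : ℝ) ≤ 1 / 2 by norm_num)
    (show (0 : ℝ) ≤ 1 / 2 by norm_num) (by norm_num)
  simp only [smul_eq_mul] at h
  have h2 : |(a + b) / 2| ≤ 1 / 2 * |a| + 1 / 2 * |b| := by
    rw [abs_div, abs_two]
    linarith [abs_add_le a b]
  have h3 := Real.rpow_le_rpow (abs_nonneg _) h2 (show 0 ≤ p by linarith)
  linarith

lemma av_jensen (hp : 1 ≤ p) (m : ℕ) (φ : ℕ → ℝ) (q : ℕ) :
    |av m φ q| ^ p ≤ av m (fun z => |φ z| ^ p) q := by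
  induction m generalizing q with
  | zero => exact le_rfl
  | succ m ih =>
    rw [av_succ_apply, av_succ_apply]
    refine (two_point hp _ _).trans ?_
    linarith [ih (2 * q), ih (2 * q + 1)]

lemma sg_pos (p : ℝ) : 0 < sg p := Real.rpow_pos_of_pos two_pos _

lemma one_lt_sg (hp : 1 ≤ p) : 1 < sg p := Real.one_lt_rpow one_lt_two (by positivity)

lemma sg_lt_two (hp : 1 < p) : sg p < 2 := by
  have : (2 : ℝ) ^ (1 / p) < 2 ^ (1 : ℝ) :=
    Real.rpow_lt_rpow_of_exponent_lt one_lt_two (by rw [div_lt_one (by linarith)]; exact hp)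
  rwa [Real.rpow_one] at this

lemma sg_rpow (hp : 1 ≤ p) : sg p ^ p = 2 := by
  unfold sg
  rw [← Real.rpow_mul two_pos.le, one_div_mul_cancel (by linarith), Real.rpow_one]

lemma sg_pow_rpow (hp : 1 ≤ p) (n : ℕ) : (sg p ^ n) ^ p = 2 ^ n := by
  induction n with
  | zero => simp
  | succ n ih =>
    rw [pow_succ, Real.mul_rpow (pow_pos (sg_pos p) n).le (sg_pos p).le, ih, sg_rpow hp, pow_succ]

lemma abs_sg_mul_rpow (hp : 1 ≤ p) (n : ℕ) (a : ℝ) : |sg p ^ n * a| ^ p = 2 ^ n * |a| ^ p := by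
  rw [abs_mul, abs_of_pos (pow_pos (sg_pos p) n), Real.mul_rpow (pow_pos (sg_pos p) n).le
    (abs_nonneg _), sg_pow_rpow hp]

lemma nu_nonneg (p : ℝ) (n : ℕ) (φ : ℕ → ℝ) : 0 ≤ nu p n φ :=
  div_nonneg (lpn_nonneg _ _ _) (pow_pos (sg_pos p) n).le

lemma nu_rpow (hp : 1 ≤ p) (n : ℕ) (φ : ℕ → ℝ) :
    nu p n φ ^ p = (∑ j ∈ range (2 ^ n), |φ j| ^ p) / 2 ^ n := by
  unfold nu
  rw [Real.div_rpow (lpn_nonneg _ _ _) (pow_pos (sg_pos p) n).le, lpn_rpow hp, sg_pow_rpow hp]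

lemma nu_le_of_rpow (hp : 1 ≤ p) {n : ℕ} {φ : ℕ → ℝ} {A : ℝ} (hA : 0 ≤ A)
    (h : (∑ j ∈ range (2 ^ n), |φ j| ^ p) / 2 ^ n ≤ A ^ p) : nu p n φ ≤ A := by
  have := le_of_rpow_le hp (a := nu p n φ) hA (by rwa [abs_of_nonneg (nu_nonneg p n φ), nu_rpow hp])
  rwa [abs_of_nonneg (nu_nonneg p n φ)] at this

lemma nu_up (hp : 1 ≤ p) (n : ℕ) (φ : ℕ → ℝ) : nu p (n + 1) (fun z => φ (z / 2)) = nu p n φ := by
  have h : (∑ j ∈ range (2 ^ (n + 1)), |φ (j / 2)| ^ p) / 2 ^ (n + 1) =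
      (∑ j ∈ range (2 ^ n), |φ j| ^ p) / 2 ^ n := by
    rw [pow_succ' 2 n, sum_range_two]
    have : ∀ j ∈ range (2 ^ n), |φ (2 * j / 2)| ^ p + |φ ((2 * j + 1) / 2)| ^ p = 2 * |φ j| ^ p := by
      intro j _
      rw [show 2 * j / 2 = j by omega, show (2 * j + 1) / 2 = j by omega]; ring
    rw [Finset.sum_congr rfl this, ← Finset.mul_sum, pow_succ']
    field_simp
  apply le_antisymm
  · exact nu_le_of_rpow hp (nu_nonneg _ _ _) (by rw [nu_rpow hp, h])
  · exact nu_le_of_rpow hp (nu_nonneg _ _ _) (by rw [nu_rpow hp, h])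

lemma nu_dn (hp : 1 ≤ p) (n : ℕ) (φ : ℕ → ℝ) : nu p n (dn φ) ≤ nu p (n + 1) φ := by
  refine nu_le_of_rpow hp (nu_nonneg _ _ _) ?_
  rw [nu_rpow hp, pow_succ' 2 n, sum_range_two, pow_succ', ← div_div, Finset.sum_div _ _ 2]
  gcongr with j _
  exact two_point hp _ _

lemma nu_av (hp : 1 ≤ p) (n d : ℕ) (φ : ℕ → ℝ) : nu p n (av d φ) ≤ nu p (n + d) φ := by
  induction d generalizing φ with
  | zero => exact le_rfl
  | succ d ih => rw [av_succ]; exact (ih _).trans (nu_dn hp _ _)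

lemma nu_le_add (hp : 1 ≤ p) {n : ℕ} {φ ψ χ : ℕ → ℝ}
    (h : ∀ j < 2 ^ n, |φ j| ≤ |ψ j| + |χ j|) : nu p n φ ≤ nu p n ψ + nu p n χ := by
  unfold nu
  rw [← add_div]
  exact div_le_div_of_nonneg_right (lpn_le_add hp fun j hj => h j (Finset.mem_range.1 hj))
    (pow_pos (sg_pos p) n).le

lemma nu_mono (hp : 1 ≤ p) {n : ℕ} {φ ψ : ℕ → ℝ} (h : ∀ j < 2 ^ n, |φ j| ≤ |ψ j|) :
    nu p n φ ≤ nu p n ψ :=
  div_le_div_of_nonneg_right (lpn_mono hp fun j hj => h j (Finset.mem_range.1 hj))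
    (pow_pos (sg_pos p) n).le

lemma nu_smul (hp : 1 ≤ p) (n : ℕ) (a : ℝ) (φ : ℕ → ℝ) :
    nu p n (fun z => a * φ z) = |a| * nu p n φ := by
  unfold nu
  rw [lpn_smul hp, mul_div_assoc]

lemma nu_sum_le {κ : Type*} (hp : 1 ≤ p) (n : ℕ) (t : Finset κ) (φ : κ → ℕ → ℝ) :
    nu p n (fun j => ∑ k ∈ t, φ k j) ≤ ∑ k ∈ t, nu p n (φ k) := by
  unfold nu
  rw [← Finset.sum_div]
  exact div_le_div_of_nonneg_right (lpn_sum_le hp _ _ _) (pow_pos (sg_pos p) n).le

lemma abs_le_nu (hp : 1 ≤ p) {n : ℕ} (φ : ℕ → ℝ) {j : ℕ} (hj : j < 2 ^ n) :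
    |φ j| ≤ sg p ^ n * nu p n φ := by
  unfold nu
  rw [mul_div_cancel₀ _ (pow_pos (sg_pos p) n).ne']
  exact abs_le_lpn hp φ (Finset.mem_range.2 hj)

lemma nu_const (hp : 1 ≤ p) (n : ℕ) (v : ℝ) : nu p n (fun _ => v) = |v| := by
  induction n with
  | zero =>
    apply le_antisymm
    · exact nu_le_of_rpow hp (abs_nonneg _) (by simp)
    · simpa using abs_le_nu hp (n := 0) (fun _ => v) (j := 0) (by norm_num)
  | succ n ih => rw [← ih, ← nu_up hp n]

lemma nu_single (hp : 1 ≤ p) (n j : ℕ) : nu p n (fun z => if z = j then 1 else 0) ≤ 1 / sg p ^ n := by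
  unfold nu
  refine div_le_div_of_nonneg_right (lpn_le_of_sum_le hp zero_le_one ?_) (pow_pos (sg_pos p) n).le
  have : ∀ z ∈ range (2 ^ n), |(if z = j then (1 : ℝ) else 0)| ^ p = if z = j then 1 else 0 := by
    intro z _
    split_ifs
    · simp
    · simp [Real.zero_rpow (show p ≠ 0 by linarith)]
  rw [Finset.sum_congr rfl this, Finset.sum_ite_eq', Real.one_rpow]
  split_ifs <;> norm_num

/-! the fractional integral -/

lemma fi_zero (c : ℕ → ℝ) : fi θ 0 c = c := by funext z; simp [fi]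

lemma fi_succ (n : ℕ) (c : ℕ → ℝ) (z : ℕ) :
    fi θ (n + 1) c z = c z - dn c (z / 2) + θ * fi θ n (dn c) (z / 2) := by
  unfold fi
  rw [Finset.sum_range_succ', mul_add, Finset.mul_sum]
  have h1 : ∀ m ∈ range n, (θ ^ (m + 1 + 1) - θ ^ (m + 1)) * av (m + 1 + 1) c (z / 2 ^ (m + 1 + 1)) =
      θ * ((θ ^ (m + 1) - θ ^ m) * av (m + 1) (dn c) (z / 2 / 2 ^ (m + 1))) := by
    intro m _
    rw [av_succ (m + 1), div_pow_succ' z (m + 1)]; ring
  rw [Finset.sum_congr rfl h1, av_succ 0, av_zero]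
  simp only [zero_add, pow_one, pow_zero]
  ring

lemma dn_fi (n : ℕ) (c : ℕ → ℝ) : dn (fi θ (n + 1) c) = fun q => θ * fi θ n (dn c) q := by
  funext q
  simp only [dn, fi_succ]
  rw [show 2 * q / 2 = q by omega, show (2 * q + 1) / 2 = q by omega]
  ring

lemma av_fi_top (n : ℕ) (c : ℕ → ℝ) (q : ℕ) : av n (fi θ n c) q = θ ^ n * av n c q := by
  induction n generalizing c with
  | zero => simp [fi_zero]
  | succ n ih => rw [av_succ, dn_fi, av_smul, ih, av_succ]; ring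

lemma av_fi_diff (l n : ℕ) (h : l < n) (c : ℕ → ℝ) (q : ℕ) :
    av l (fi θ n c) q - av (l + 1) (fi θ n c) (q / 2) =
      θ ^ l * (av l c q - av (l + 1) c (q / 2)) := by
  induction l generalizing n c with
  | zero =>
    obtain ⟨n, rfl⟩ : ∃ n', n = n' + 1 := ⟨n - 1, by omega⟩
    rw [av_succ, av_succ, dn_fi]
    simp only [av_zero, fi_succ]
    ring
  | succ l ih =>
    obtain ⟨n, rfl⟩ : ∃ n', n = n' + 1 := ⟨n - 1, by omega⟩
    rw [av_succ l, av_succ (l + 1), dn_fi, av_smul, av_smul, ← mul_sub, ih n (by omega),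
      av_succ l c, av_succ (l + 1) c]
    ring

lemma fi_smul (n : ℕ) (a : ℝ) (c : ℕ → ℝ) (z : ℕ) :
    fi θ n (fun j => a * c j) z = a * fi θ n c z := by
  unfold fi
  rw [mul_add, Finset.mul_sum]
  congr 1
  refine Finset.sum_congr rfl fun m _ => ?_
  rw [av_smul]; ring

lemma fi_sum {ι : Type*} (n : ℕ) (s : Finset ι) (c : ι → ℕ → ℝ) (z : ℕ) :
    fi θ n (fun j => ∑ i ∈ s, c i j) z = ∑ i ∈ s, fi θ n (c i) z := by
  unfold fi
  rw [Finset.sum_add_distrib, Finset.sum_comm]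
  congr 1
  refine Finset.sum_congr rfl fun m _ => ?_
  rw [av_sum, Finset.mul_sum]

lemma fi_nonneg (h1 : 1 ≤ θ) (n : ℕ) {c : ℕ → ℝ} (h : ∀ z, 0 ≤ c z) (z : ℕ) : 0 ≤ fi θ n c z := by
  unfold fi
  refine add_nonneg (h z) (Finset.sum_nonneg fun m _ => mul_nonneg ?_ (av_nonneg _ h _))
  have : θ ^ m ≤ θ ^ (m + 1) := pow_le_pow_right₀ h1 (Nat.le_succ m)
  linarith

/-- expansion of the fractional integral along unit vectors -/
lemma fi_expand (n : ℕ) {c : ℕ → ℝ} (hc : ∀ j, 2 ^ n ≤ j → c j = 0) (z : ℕ) :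
    fi θ n c z = ∑ j ∈ range (2 ^ n), c j * fi θ n (fun i => if i = j then 1 else 0) z := by
  have h : c = fun i => ∑ j ∈ range (2 ^ n), c j * (if i = j then 1 else 0) := by
    funext i
    simp only [mul_ite, mul_one, mul_zero, Finset.sum_ite_eq, Finset.mem_range]
    split_ifs with hi
    · rfl
    · exact hc i (by omega)
  conv_lhs => rw [h]
  rw [fi_sum]
  exact Finset.sum_congr rfl fun j _ => fi_smul n _ _ z

lemma fi_surj (h0 : θ ≠ 0) (n : ℕ) (b : ℕ → ℝ) (hb : ∀ j, 2 ^ n ≤ j → b j = 0) :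
    ∃ c : ℕ → ℝ, (∀ j, 2 ^ n ≤ j → c j = 0) ∧ fi θ n c = b := by
  induction n generalizing b with
  | zero => exact ⟨b, hb, fi_zero b⟩
  | succ n ih =>
    have hd : ∀ j, 2 ^ n ≤ j → dn b j = 0 := by
      intro j hj
      simp only [dn]
      rw [hb _ (by rw [pow_succ]; omega), hb _ (by rw [pow_succ]; omega)]; simp
    obtain ⟨c', hc', hf⟩ := ih (fun j => θ⁻¹ * dn b j) (fun j hj => by rw [hd j hj, mul_zero])
    have hdn : dn (fun z => b z - dn b (z / 2) + c' (z / 2)) = c' := by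
      funext q
      simp only [dn]
      rw [show 2 * q / 2 = q by omega, show (2 * q + 1) / 2 = q by omega]
      ring
    refine ⟨fun z => b z - dn b (z / 2) + c' (z / 2), fun j hj => ?_, ?_⟩
    · have : 2 ^ n ≤ j / 2 := by rw [pow_succ] at hj; omega
      simp [hb j hj, hd _ this, hc' _ this]
    · funext z
      rw [fi_succ, hdn, hf]
      field_simp
      ring

/-- averages of `c` decay geometrically in terms of its fractional integral -/
lemma nu_av_le (hp : 1 ≤ p) (h1 : 1 < θ) (c : ℕ → ℝ) (j l n : ℕ) (hn : j + l = n) :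
    nu p j (av l c) ≤ 2 * θ / (θ - 1) * (θ⁻¹) ^ l * nu p n (fi θ n c) := by
  have h0 : 0 < θ := by linarith
  have hK : 1 ≤ 2 * θ / (θ - 1) := by rw [le_div_iff₀ (by linarith)]; linarith
  have hi : 0 ≤ θ⁻¹ := by positivity
  induction j generalizing l with
  | zero =>
    obtain rfl : l = n := by omega
    have : av l c = fun q => (θ⁻¹) ^ l * av l (fi θ l c) q := by
      funext q
      rw [av_fi_top, ← mul_assoc, ← mul_pow, inv_mul_cancel₀ h0.ne', one_pow, one_mul]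
    rw [this, nu_smul hp, abs_of_nonneg (pow_nonneg hi _)]
    have h2 := nu_av hp 0 l (fi θ l c)
    rw [zero_add] at h2
    have h3 := nu_nonneg p l (fi θ l c)
    have h4 : 0 ≤ (θ⁻¹) ^ l := pow_nonneg hi _
    calc _ ≤ (θ⁻¹) ^ l * nu p l (fi θ l c) := mul_le_mul_of_nonneg_left h2 h4
      _ = 1 * ((θ⁻¹) ^ l * nu p l (fi θ l c)) := (one_mul _).symm
      _ ≤ 2 * θ / (θ - 1) * ((θ⁻¹) ^ l * nu p l (fi θ l c)) :=
        mul_le_mul_of_nonneg_right hK (mul_nonneg h4 h3)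
      _ = _ := by ring
  | succ j ih =>
    have h4 : 0 ≤ (θ⁻¹) ^ l := pow_nonneg hi _
    have e1 : ∀ q, av l c q = av (l + 1) c (q / 2) + (θ⁻¹) ^ l *
        (av l (fi θ n c) q - av (l + 1) (fi θ n c) (q / 2)) := by
      intro q
      rw [av_fi_diff l n (by omega), ← mul_assoc, ← mul_pow, inv_mul_cancel₀ h0.ne', one_pow]
      ring
    have e2 : nu p (j + 1) (av l c) ≤ nu p (j + 1) (fun q => av (l + 1) c (q / 2)) +
        nu p (j + 1) (fun q => (θ⁻¹) ^ l *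
          (av l (fi θ n c) q - av (l + 1) (fi θ n c) (q / 2))) :=
      nu_le_add hp fun q _ => by rw [e1 q]; exact abs_add_le _ _
    have e3 : nu p (j + 1) (fun q => av l (fi θ n c) q - av (l + 1) (fi θ n c) (q / 2)) ≤
        nu p (j + 1) (av l (fi θ n c)) + nu p (j + 1) (fun q => av (l + 1) (fi θ n c) (q / 2)) :=
      nu_le_add hp fun q _ => abs_sub _ _
    rw [nu_up hp] at e3
    rw [nu_up hp, nu_smul hp, abs_of_nonneg h4] at e2
    have e4 := nu_av hp (j + 1) l (fi θ n c)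
    have e5 := nu_av hp j (l + 1) (fi θ n c)
    rw [hn] at e4
    rw [show j + (l + 1) = n by omega] at e5
    have e6 := ih (l + 1) (by omega)
    have e7 : nu p (j + 1) (fun q => av l (fi θ n c) q - av (l + 1) (fi θ n c) (q / 2)) ≤
        2 * nu p n (fi θ n c) := by linarith
    have e8 := mul_le_mul_of_nonneg_left e7 h4
    have e9 : 2 * θ / (θ - 1) * (θ⁻¹) ^ (l + 1) + (θ⁻¹) ^ l * 2 = 2 * θ / (θ - 1) * (θ⁻¹) ^ l := by
      have : θ - 1 ≠ 0 := by linarith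
      rw [pow_succ]
      field_simp
      ring
    calc _ ≤ 2 * θ / (θ - 1) * (θ⁻¹) ^ (l + 1) * nu p n (fi θ n c) +
          (θ⁻¹) ^ l * (2 * nu p n (fi θ n c)) := by linarith
      _ = (2 * θ / (θ - 1) * (θ⁻¹) ^ (l + 1) + (θ⁻¹) ^ l * 2) * nu p n (fi θ n c) := by ring
      _ = _ := by rw [e9]

/-- the fractional integral of a unit vector has bounded norm -/
lemma nu_fi_single (hp : 1 ≤ p) (h1 : 1 < θ) (h2 : θ * sg p < 2) (n j : ℕ) :
    nu p n (fi θ n fun i => if i = j then 1 else 0) ≤ 2 / (1 - θ * sg p / 2) / sg p ^ n := by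
  have hs := sg_pos p
  have hs1 := one_lt_sg hp
  have hρ : 0 < 1 - θ * sg p / 2 := by linarith
  have hK : 2 ≤ 2 / (1 - θ * sg p / 2) := by
    rw [le_div_iff₀ hρ]; nlinarith
  induction n generalizing j with
  | zero =>
    rw [fi_zero]
    refine (nu_single hp 0 j).trans ?_
    simp only [pow_zero, div_one]; linarith
  | succ n ih =>
    have hd : dn (fun i => if i = j then (1 : ℝ) else 0) =
        fun q => (1 / 2) * (if q = j / 2 then (1 : ℝ) else 0) := by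
      funext q
      simp only [dn]
      split_ifs <;> first | omega | norm_num
    set δ : ℕ → ℝ := fun i => if i = j then 1 else 0 with hδ
    set δ' : ℕ → ℝ := fun i => if i = j / 2 then 1 else 0 with hδ'
    have e1 : nu p (n + 1) (fi θ (n + 1) δ) ≤
        nu p (n + 1) (fun z => δ z - (1 / 2) * δ' (z / 2)) +
        nu p (n + 1) (fun z => (θ / 2) * fi θ n δ' (z / 2)) := by
      refine nu_le_add hp fun z _ => ?_
      rw [fi_succ, hd, fi_smul]
      refine le_of_eq_of_le ?_ (abs_add_le _ _)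
      congr 1
      simp only [hδ']
      ring
    have e2 : nu p (n + 1) (fun z => δ z - (1 / 2) * δ' (z / 2)) ≤
        nu p (n + 1) δ + nu p (n + 1) (fun z => (1 / 2) * δ' (z / 2)) :=
      nu_le_add hp fun z _ => abs_sub _ _
    rw [nu_smul hp, nu_up hp n δ', abs_of_pos (by norm_num : (0 : ℝ) < 1 / 2)] at e2
    rw [nu_smul hp, nu_up hp n (fi θ n δ'), abs_of_pos (by linarith : (0 : ℝ) < θ / 2)] at e1
    have e3 := nu_single hp (n + 1) j
    have e4 := nu_single hp n (j / 2)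
    have e5 := ih (j / 2)
    have hsn : 0 < sg p ^ n := pow_pos hs n
    have e6 : 1 / sg p ^ n = sg p * (1 / sg p ^ (n + 1)) := by rw [pow_succ]; field_simp
    have e7 : 2 / (1 - θ * sg p / 2) / sg p ^ n =
        2 / (1 - θ * sg p / 2) * sg p * (1 / sg p ^ (n + 1)) := by rw [pow_succ]; field_simp
    have e8 : 2 / (1 - θ * sg p / 2) / sg p ^ (n + 1) =
        2 / (1 - θ * sg p / 2) * (1 / sg p ^ (n + 1)) := by ring
    rw [e8]
    rw [e7] at e5
    rw [e6] at e4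
    set K := 2 / (1 - θ * sg p / 2) with hKdef
    set w := 1 / sg p ^ (n + 1) with hw
    have hw0 : 0 < w := by positivity
    have hKe : K = 2 + θ * sg p / 2 * K := by
      have : K * (1 - θ * sg p / 2) = 2 := by rw [hKdef]; exact div_mul_cancel₀ _ hρ.ne'
      linarith
    have hs2 : sg p < 2 := by nlinarith
    have e9 := mul_le_mul_of_nonneg_left e5 (show 0 ≤ θ / 2 by linarith)
    have e10 : w + 1 / 2 * (sg p * w) + θ / 2 * (K * sg p * w) ≤ K * w := by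
      have : K * w = 2 * w + θ / 2 * (K * sg p * w) := by
        conv_lhs => rw [hKe]
        ring
      nlinarith
    linarith

end Pool.Agent.H103Z.Nb
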