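import Mathlib

/-!
The classical criterion for a Schauder basis: non-zero vectors with dense span and uniformly
bounded partial sum maps.
-/

open Filter Topology Finset

namespace Pool.Agent.H103Z.Nb

variable {X : Type*} [NormedAddCommGroup X] [NormedSpace ℝ X]

lemma sum_trunc (x : ℕ → X) (a : ℕ → ℝ) (k m : ℕ) (h : k ≤ m) :
    ∑ n ∈ range m, (if n < k then a n else 0) • x n = ∑ n ∈ range k, a n • x n := by
  rw [← Finset.sum_subset (Finset.range_mono h)]
  · refine Finset.sum_congr rfl fun n hn => ?_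
    rw [if_pos (Finset.mem_range.1 hn)]
  · intro n _ hn
    rw [if_neg (by simpa using hn), zero_smul]

theorem schauder_of_bound (x : ℕ → X) (hx : ∀ n, x n ≠ 0) (C : ℝ) (hC0 : 0 ≤ C)
    (hC : ∀ (a : ℕ → ℝ) (m k : ℕ), m ≤ k →
      ‖∑ n ∈ range m, a n • x n‖ ≤ C * ‖∑ n ∈ range k, a n • x n‖)
    (hd : ∀ (g : X) (ε : ℝ), 0 < ε → ∃ (a : ℕ → ℝ) (k : ℕ), ‖g - ∑ n ∈ range k, a n • x n‖ < ε)
    (g : X) :
    ∃! a : ℕ → ℝ, Tendsto (fun N => ∑ n ∈ range N, a n • x n) atTop (𝓝 g) := by
  apply existsUnique_of_exists_of_unique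
  · have hd' : ∀ j : ℕ, ∃ (a : ℕ → ℝ) (k : ℕ), (∀ n, k ≤ n → a n = 0) ∧
        ‖g - ∑ n ∈ range k, a n • x n‖ < 1 / ((j : ℝ) + 1) := by
      intro j
      obtain ⟨a, k, h⟩ := hd g (1 / ((j : ℝ) + 1)) (by positivity)
      refine ⟨fun n => if n < k then a n else 0, k, fun n hn => if_neg (by omega), ?_⟩
      rwa [sum_trunc x a k k le_rfl]
    choose A K hA hK using hd'
    have hstab : ∀ j m, K j ≤ m → ∑ n ∈ range m, A j n • x n = ∑ n ∈ range (K j), A j n • x n := by
      intro j m hm
      symm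
      apply Finset.sum_subset (Finset.range_mono hm)
      intro n _ hn
      rw [hA j n (by simpa using hn), zero_smul]
    have hcau : ∀ i j m, ‖∑ n ∈ range m, A i n • x n - ∑ n ∈ range m, A j n • x n‖ ≤
        C * (1 / ((i : ℝ) + 1) + 1 / ((j : ℝ) + 1)) := by
      intro i j m
      have h1 := hC (fun n => A i n - A j n) m (max m (max (K i) (K j))) (le_max_left _ _)
      simp only [sub_smul, Finset.sum_sub_distrib] at h1
      rw [hstab i _ ((le_max_left _ _).trans (le_max_right _ _)),
        hstab j _ ((le_max_right _ _).trans (le_max_right _ _))] at h1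
      refine h1.trans (mul_le_mul_of_nonneg_left ?_ hC0)
      have : ∑ n ∈ range (K i), A i n • x n - ∑ n ∈ range (K j), A j n • x n =
          (g - ∑ n ∈ range (K j), A j n • x n) - (g - ∑ n ∈ range (K i), A i n • x n) := by abel
      rw [this]
      refine (norm_sub_le _ _).trans ?_
      linarith [hK i, hK j]
    have hco : ∀ n i j, |A i n - A j n| ≤
        2 * C / ‖x n‖ * (1 / ((i : ℝ) + 1) + 1 / ((j : ℝ) + 1)) := by
      intro n i j
      have hp : 0 < ‖x n‖ := norm_pos_iff.2 (hx n)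
      have h1 := hcau i j (n + 1)
      have h2 := hcau i j n
      have h3 : (A i n - A j n) • x n =
          (∑ l ∈ range (n + 1), A i l • x l - ∑ l ∈ range (n + 1), A j l • x l) -
          (∑ l ∈ range n, A i l • x l - ∑ l ∈ range n, A j l • x l) := by
        rw [Finset.sum_range_succ, Finset.sum_range_succ, sub_smul]; abel
      have h4 : |A i n - A j n| * ‖x n‖ ≤ 2 * C * (1 / ((i : ℝ) + 1) + 1 / ((j : ℝ) + 1)) := by
        rw [← Real.norm_eq_abs, ← norm_smul, h3]
        refine (norm_sub_le _ _).trans ?_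
        linarith
      rw [div_mul_eq_mul_div, le_div_iff₀ hp]
      exact h4
    have hlim0 : Tendsto (fun j : ℕ => 1 / ((j : ℝ) + 1)) atTop (𝓝 0) :=
      tendsto_one_div_add_atTop_nhds_zero_nat
    have hconv : ∀ n, ∃ a, Tendsto (fun j => A j n) atTop (𝓝 a) := by
      intro n
      apply cauchySeq_tendsto_of_complete
      refine cauchySeq_of_le_tendsto_0 (fun N : ℕ => 2 * C / ‖x n‖ * (2 * (1 / ((N : ℝ) + 1))))
        ?_ ?_
      · intro i j N hi hj
        rw [Real.dist_eq]
        refine (hco n i j).trans (mul_le_mul_of_nonneg_left ?_ (by positivity))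
        have h1 : 1 / ((i : ℝ) + 1) ≤ 1 / ((N : ℝ) + 1) :=
          one_div_le_one_div_of_le (by positivity) (by exact_mod_cast Nat.succ_le_succ hi)
        have h2 : 1 / ((j : ℝ) + 1) ≤ 1 / ((N : ℝ) + 1) :=
          one_div_le_one_div_of_le (by positivity) (by exact_mod_cast Nat.succ_le_succ hj)
        linarith
      · simpa using (hlim0.const_mul 2).const_mul (2 * C / ‖x n‖)
    choose a ha using hconv
    have hT : ∀ m, Tendsto (fun j => ∑ n ∈ range m, A j n • x n) atTop
        (𝓝 (∑ n ∈ range m, a n • x n)) := fun m =>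
      tendsto_finsetSum _ fun n _ => (ha n).smul_const (x n)
    have hclose : ∀ i m, ‖∑ n ∈ range m, A i n • x n - ∑ n ∈ range m, a n • x n‖ ≤
        C * (1 / ((i : ℝ) + 1)) := by
      intro i m
      have h1 : Tendsto (fun j => ‖∑ n ∈ range m, A i n • x n - ∑ n ∈ range m, A j n • x n‖) atTop
          (𝓝 ‖∑ n ∈ range m, A i n • x n - ∑ n ∈ range m, a n • x n‖) :=
        (tendsto_const_nhds.sub (hT m)).norm
      have h2 : Tendsto (fun j : ℕ => C * (1 / ((i : ℝ) + 1) + 1 / ((j : ℝ) + 1))) atTop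
          (𝓝 (C * (1 / ((i : ℝ) + 1) + 0))) := (tendsto_const_nhds.add hlim0).const_mul C
      rw [add_zero] at h2
      exact le_of_tendsto_of_tendsto' h1 h2 fun j => hcau i j m
    refine ⟨a, ?_⟩
    rw [Metric.tendsto_atTop]
    intro ε hε
    have h5 : Tendsto (fun j : ℕ => (C + 1) * (1 / ((j : ℝ) + 1))) atTop (𝓝 0) := by
      simpa using hlim0.const_mul (C + 1)
    obtain ⟨i, hi⟩ := (h5.eventually (gt_mem_nhds hε)).exists
    refine ⟨K i, fun m hm => ?_⟩
    rw [dist_eq_norm]
    have h6 := hclose i m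
    rw [hstab i m hm] at h6
    have h7 : ∑ n ∈ range m, a n • x n - g =
        -((∑ n ∈ range (K i), A i n • x n - ∑ n ∈ range m, a n • x n) +
          (g - ∑ n ∈ range (K i), A i n • x n)) := by abel
    rw [h7, norm_neg]
    refine (norm_add_le _ _).trans_lt ?_
    have := hK i
    nlinarith
  · intro a b ha hb
    have hz : Tendsto (fun N => ∑ n ∈ range N, (a n - b n) • x n) atTop (𝓝 0) := by
      have := ha.sub hb
      rw [sub_self] at this
      simpa [sub_smul, Finset.sum_sub_distrib] using this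
    have hzero : ∀ m, ∑ n ∈ range m, (a n - b n) • x n = 0 := by
      intro m
      have h1 : Tendsto (fun N => C * ‖∑ n ∈ range N, (a n - b n) • x n‖) atTop (𝓝 0) := by
        simpa using hz.norm.const_mul C
      have h2 : ‖∑ n ∈ range m, (a n - b n) • x n‖ ≤ 0 :=
        ge_of_tendsto h1 (eventually_atTop.2 ⟨m, fun k hk => hC _ m k hk⟩)
      exact norm_le_zero_iff.1 h2
    funext n
    have h1 := hzero (n + 1)
    rw [Finset.sum_range_succ, hzero n, zero_add, smul_eq_zero] at h1
    rcases h1 with h1 | h1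
    · linarith
    · exact absurd h1 (hx n)

end Pool.Agent.H103Z.Nb
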