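import Pool.Agent.H103Z.NbAv

/-!
Cutting the coefficients to an initial segment is bounded for the norm given by the dyadic
fractional integral, uniformly in the number of points.
-/

open Finset

namespace Pool.Agent.H103Z.Nb

variable {p θ : ℝ}

lemma av_cut_lt (k m : ℕ) (c : ℕ → ℝ) (r : ℕ) (h : r < k / 2 ^ m) :
    av m (cut k c) r = av m c r := by
  induction m generalizing r with
  | zero => simp only [av_zero, cut]; rw [if_pos (by simpa using h)]
  | succ m ih =>
    rw [div_pow_succ] at h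
    rw [av_succ_apply, av_succ_apply, ih _ (by omega), ih _ (by omega)]

lemma av_cut_gt (k m : ℕ) (c : ℕ → ℝ) (r : ℕ) (h : k / 2 ^ m < r) : av m (cut k c) r = 0 := by
  induction m generalizing r with
  | zero => simp only [av_zero, cut]; rw [if_neg (by simp at h; omega)]
  | succ m ih =>
    rw [div_pow_succ] at h
    rw [av_succ_apply, ih _ (by omega), ih _ (by omega)]; simp

/-- Hardy inequality along a branch -/
lemma hardy_branch (hp : 1 < p) (n k : ℕ) (hk : k < 2 ^ n) (b : ℕ → ℝ) :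
    lpn p (range (n + 1)) (fun m => if m ≤ n then sg p ^ m * av m b (k / 2 ^ m) else 0) ≤
      lpn p (range (2 ^ n)) b / (1 - sg p / 2) := by
  have hs := sg_pos p
  have hs2 := sg_lt_two hp
  set β : ℕ → ℝ := fun m => av m b (k / 2 ^ m) with hβ
  set y : ℕ → ℝ := fun m => if m = 0 then β 0 else sg p ^ (m - 1) * (2 * β m - β (m - 1)) with hy
  set Y : ℕ → ℝ := fun m => 2 ^ m * av m (fun z => |b z| ^ p) (k / 2 ^ m) with hY
  have h1 : lpn p (range (n + 1)) (fun m => if m ≤ n then sg p ^ m * β m else 0) ≤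
      lpn p (range (n + 1)) y / (1 - sg p / 2) := by
    refine lpn_up hp.le _ (by linarith) (by linarith) (by simp [hy]) fun l hl => ?_
    simp only [hy]
    rw [if_pos (by omega), if_pos (by omega), if_neg (by omega), add_tsub_cancel_right]
    have e : sg p ^ (l + 1) * β (l + 1) =
        sg p / 2 * (sg p ^ l * β l) + sg p / 2 * (sg p ^ l * (2 * β (l + 1) - β l)) := by ring
    rw [e]
    refine (abs_add_le _ _).trans ?_
    rw [abs_mul (sg p / 2), abs_mul (sg p / 2), abs_of_pos (by linarith : 0 < sg p / 2)]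
    have := abs_nonneg (sg p ^ l * (2 * β (l + 1) - β l))
    nlinarith
  have h2 : ∀ m, |y (m + 1)| ^ p ≤ Y (m + 1) - Y m := by
    intro m
    simp only [hy, hY, hβ]
    rw [if_neg (by omega), add_tsub_cancel_right, abs_sg_mul_rpow hp.le, av_succ_apply,
      av_succ_apply, div_pow_succ]
    rcases Nat.even_or_odd' (k / 2 ^ m) with ⟨q, hq | hq⟩
    · rw [hq, show 2 * q / 2 = q by omega]
      have := av_jensen hp.le m b (2 * q + 1)
      have e : 2 * ((av m b (2 * q) + av m b (2 * q + 1)) / 2) - av m b (2 * q) =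
          av m b (2 * q + 1) := by ring
      rw [e, pow_succ]
      have h3 : (0 : ℝ) < 2 ^ m := by positivity
      nlinarith
    · rw [hq, show (2 * q + 1) / 2 = q by omega]
      have := av_jensen hp.le m b (2 * q)
      have e : 2 * ((av m b (2 * q) + av m b (2 * q + 1)) / 2) - av m b (2 * q + 1) =
          av m b (2 * q) := by ring
      rw [e, pow_succ]
      have h3 : (0 : ℝ) < 2 ^ m := by positivity
      nlinarith
  have h3 : ∀ N, ∑ m ∈ range (N + 1), |y m| ^ p ≤ Y N := by
    intro N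
    induction N with
    | zero => simp [hy, hY, hβ]
    | succ N ih => rw [Finset.sum_range_succ]; linarith [h2 N]
  have h4 : lpn p (range (n + 1)) y ≤ lpn p (range (2 ^ n)) b := by
    apply lpn_le_of_sum hp.le
    refine (h3 n).trans (le_of_eq ?_)
    simp only [hY]
    rw [Nat.div_eq_of_lt hk, av_total]
  exact h1.trans (div_le_div_of_nonneg_right h4 (by linarith))

lemma card_block (n l q : ℕ) :
    ∑ z ∈ range (2 ^ n), (if z / 2 ^ l = q then (1 : ℝ) else 0) ≤ 2 ^ l := by
  rw [Finset.sum_boole]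
  have h : (range (2 ^ n)).filter (fun z => z / 2 ^ l = q) ⊆ Ico (q * 2 ^ l) (q * 2 ^ l + 2 ^ l) := by
    intro z hz
    have h1 := (Finset.mem_filter.1 hz).2
    have h2 : 0 < 2 ^ l := by positivity
    rw [Finset.mem_Ico, ← h1]
    exact ⟨Nat.div_mul_le_self _ _, Nat.lt_div_mul_add h2⟩
  have := Finset.card_le_card h
  rw [Nat.card_Ico, add_tsub_cancel_left] at this
  exact_mod_cast this

/-- dual Hardy inequality along a branch -/
lemma dual_hardy_branch (hp : 1 ≤ p) (n k : ℕ) (hk : k < 2 ^ n) (t : ℕ → ℝ) (ht : ∀ m, 0 ≤ t m) :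
    lpn p (range (2 ^ n)) (fun z => ∑ m ∈ range (n + 1), if z / 2 ^ m = k / 2 ^ m then t m else 0) ≤
      lpn p (range (n + 1)) (fun m => sg p ^ m * t m) / (1 - (sg p)⁻¹) := by
  have hs := sg_pos p
  have hs1 := one_lt_sg hp
  set T : ℕ → ℝ := fun l => ∑ m ∈ Ico l (n + 1), t m with hT
  have hT0 : ∀ l, 0 ≤ T l := fun l => Finset.sum_nonneg fun m _ => ht m
  have h1 : lpn p (range (n + 1)) (fun l => sg p ^ l * T l) ≤
      lpn p (range (n + 1)) (fun m => sg p ^ m * t m) / (1 - (sg p)⁻¹) := by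
    refine lpn_down hp _ (by positivity) (inv_lt_one_of_one_lt₀ hs1) (by simp [hT]) fun l hl => ?_
    have e : T l = t l + T (l + 1) := by
      simp only [hT]
      rw [Finset.sum_eq_sum_Ico_succ_bot hl]
    rw [e, abs_of_nonneg (mul_nonneg (by positivity) (add_nonneg (ht l) (hT0 _))),
      abs_of_nonneg (mul_nonneg (by positivity) (hT0 _)),
      abs_of_nonneg (mul_nonneg (by positivity) (ht _)), pow_succ]
    apply le_of_eq
    field_simp
    ring
  refine le_trans (lpn_le_of_sum hp ?_) h1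
  have h2 : ∀ z ∈ range (2 ^ n),
      |∑ m ∈ range (n + 1), if z / 2 ^ m = k / 2 ^ m then t m else 0| ^ p ≤
        ∑ l ∈ range (n + 1), (if z / 2 ^ l = k / 2 ^ l then (1 : ℝ) else 0) * |T l| ^ p := by
    intro z hz
    have hex : ∃ l, z / 2 ^ l = k / 2 ^ l :=
      ⟨n, by rw [Nat.div_eq_of_lt hk, Nat.div_eq_of_lt (Finset.mem_range.1 hz)]⟩
    have hl := Nat.find_spec hex
    have hln : Nat.find hex ≤ n :=
      Nat.find_min' hex (by rw [Nat.div_eq_of_lt hk, Nat.div_eq_of_lt (Finset.mem_range.1 hz)])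
    set l := Nat.find hex with hldef
    have e1 : |∑ m ∈ range (n + 1), if z / 2 ^ m = k / 2 ^ m then t m else 0| ≤ |T l| := by
      rw [abs_of_nonneg (hT0 l), abs_of_nonneg (Finset.sum_nonneg fun m _ => by
        split_ifs; exacts [ht m, le_rfl])]
      rw [← Finset.sum_filter]
      refine Finset.sum_le_sum_of_subset_of_nonneg (fun m hm => ?_) fun m _ _ => ht m
      rw [Finset.mem_filter, Finset.mem_range] at hm
      exact Finset.mem_Ico.2 ⟨Nat.find_min' hex hm.2, hm.1⟩
    refine (Real.rpow_le_rpow (abs_nonneg _) e1 (by linarith)).trans ?_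
    have e2 := Finset.single_le_sum
      (f := fun l => (if z / 2 ^ l = k / 2 ^ l then (1 : ℝ) else 0) * |T l| ^ p)
      (s := range (n + 1)) (fun i _ => mul_nonneg (by split_ifs <;> norm_num)
        (Real.rpow_nonneg (abs_nonneg _) _)) (Finset.mem_range.2 (Nat.lt_succ_of_le hln))
    simpa only [if_pos hl, one_mul] using e2
  refine (Finset.sum_le_sum h2).trans ?_
  rw [Finset.sum_comm]
  refine Finset.sum_le_sum fun l _ => ?_
  rw [← Finset.sum_mul, abs_sg_mul_rpow hp]
  exact mul_le_mul_of_nonneg_right (card_block n l _) (Real.rpow_nonneg (abs_nonneg _) _)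

lemma commutator_le (h1 : 1 ≤ θ) (n k : ℕ) (c : ℕ → ℝ) (z : ℕ) :
    |fi θ n (cut k c) z - cut k (fi θ n c) z| ≤
      ∑ m ∈ range (n + 1), if z / 2 ^ m = k / 2 ^ m then
        θ ^ m * (|av m (cut k c) (k / 2 ^ m)| + |av m c (k / 2 ^ m)|) else 0 := by
  have h0 : 0 < θ := by linarith
  have e : fi θ n (cut k c) z - cut k (fi θ n c) z = ∑ m ∈ range n, (θ ^ (m + 1) - θ ^ m) *
      (av (m + 1) (cut k c) (z / 2 ^ (m + 1)) -
        if z < k then av (m + 1) c (z / 2 ^ (m + 1)) else 0) := by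
    unfold fi
    simp only [cut]
    split_ifs with hz
    · simp only [mul_sub, Finset.sum_sub_distrib]; ring
    · simp
  rw [e, Finset.sum_range_succ']
  refine (Finset.abs_sum_le_sum_abs _ _).trans (le_add_of_le_of_nonneg
    (Finset.sum_le_sum fun m _ => ?_) (by split_ifs <;> positivity))
  have hm : θ ^ m ≤ θ ^ (m + 1) := pow_le_pow_right₀ h1 (Nat.le_succ m)
  have hm0 : 0 < θ ^ m := pow_pos h0 m
  rcases lt_trichotomy (z / 2 ^ (m + 1)) (k / 2 ^ (m + 1)) with h | h | h
  · have hz : z < k := by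
      by_contra hc
      exact absurd (Nat.div_le_div_right (c := 2 ^ (m + 1)) (not_lt.1 hc)) (by omega)
    rw [av_cut_lt _ _ _ _ h, if_pos hz, if_neg h.ne]; simp
  · rw [if_pos h, h, abs_mul, abs_of_nonneg (by linarith)]
    refine mul_le_mul (by linarith) ((abs_sub _ _).trans (add_le_add le_rfl ?_)) (abs_nonneg _)
      (by linarith)
    split_ifs
    · exact le_rfl
    · simp
  · have hz : ¬ z < k := by
      intro hc
      exact absurd (Nat.div_le_div_right (c := 2 ^ (m + 1)) hc.le) (by omega)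
    rw [av_cut_gt _ _ _ _ h, if_neg hz, if_neg h.ne']; simp

lemma cut_step (k m : ℕ) (c : ℕ → ℝ) :
    |av (m + 1) (cut k c) (k / 2 ^ (m + 1))| + |av (m + 1) c (k / 2 ^ (m + 1))| ≤
      (|av m (cut k c) (k / 2 ^ m)| + |av m c (k / 2 ^ m)|) / 2 +
        2 * |av (m + 1) c (k / 2 ^ (m + 1))| := by
  rw [av_succ_apply m (cut k c), div_pow_succ]
  have hA := av_succ_apply m c (k / 2 ^ m / 2)
  rcases Nat.even_or_odd' (k / 2 ^ m) with ⟨q, hq | hq⟩
  · rw [av_cut_gt k m c (2 * (k / 2 ^ m / 2) + 1) (by omega), hq, show 2 * q / 2 = q by omega,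
      add_zero, abs_div, abs_two]
    have := abs_nonneg (av m c (2 * q))
    have := abs_nonneg (av (m + 1) c q)
    linarith
  · rw [av_cut_lt k m c (2 * (k / 2 ^ m / 2)) (by omega)]
    rw [hq, show (2 * q + 1) / 2 = q by omega] at hA ⊢
    have e : (av m c (2 * q) + av m (cut k c) (2 * q + 1)) / 2 =
        av (m + 1) c q + (av m (cut k c) (2 * q + 1) - av m c (2 * q + 1)) / 2 := by
      rw [hA]; ring
    rw [e]
    have h1 := abs_add_le (av (m + 1) c q) ((av m (cut k c) (2 * q + 1) - av m c (2 * q + 1)) / 2)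
    rw [abs_div, abs_two] at h1
    have h2 := abs_sub (av m (cut k c) (2 * q + 1)) (av m c (2 * q + 1))
    linarith

theorem nu_fi_cut (hp : 1 < p) (h1 : 1 < θ) (h2 : θ * sg p < 2) :
    ∃ K : ℝ, 1 ≤ K ∧ ∀ (n k : ℕ) (c : ℕ → ℝ), k < 2 ^ n →
      nu p n (fi θ n (cut k c)) ≤ K * nu p n (fi θ n c) := by
  have hs := sg_pos p
  have hs1 := one_lt_sg hp.le
  have hs2 := sg_lt_two hp
  have h0 : 0 < θ := by linarith
  have hts : 1 < θ * sg p := by nlinarith
  have d1 : 0 < 1 - sg p / 2 := by linarith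
  have d2 : 0 < 1 - (θ * sg p)⁻¹ := by linarith [inv_lt_one_of_one_lt₀ hts]
  have d3 : 0 < 1 - θ * sg p / 2 := by linarith
  have d4 : 0 < 1 - (sg p)⁻¹ := by linarith [inv_lt_one_of_one_lt₀ hs1]
  refine ⟨1 + 2 * (2 * (1 / (1 - sg p / 2)) / (1 - (θ * sg p)⁻¹)) / (1 - θ * sg p / 2) /
    (1 - (sg p)⁻¹), le_add_of_nonneg_right (by positivity), fun n k c hk => ?_⟩
  set b := fi θ n c with hb
  set L := lpn p (range (2 ^ n)) b with hL
  set s : ℕ → ℝ := fun m => if m ≤ n then sg p ^ m * av m b (k / 2 ^ m) else 0 with hsd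
  set α : ℕ → ℝ := fun m => if m ≤ n then (θ * sg p) ^ m * av m c (k / 2 ^ m) else 0 with hα
  set r : ℕ → ℝ := fun m => |av m (cut k c) (k / 2 ^ m)| + |av m c (k / 2 ^ m)| with hr
  have hr0 : ∀ m, 0 ≤ r m := fun m => add_nonneg (abs_nonneg _) (abs_nonneg _)
  have e1 : lpn p (range (n + 1)) s ≤ L / (1 - sg p / 2) := hardy_branch hp n k hk b
  have e2 : lpn p (range (n + 1)) α ≤
      lpn p (range (n + 1)) (fun l => |s l| + |s (l + 1)|) / (1 - (θ * sg p)⁻¹) := by
    refine lpn_down hp.le _ (by positivity) (inv_lt_one_of_one_lt₀ hts) (by simp [hα])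
      fun l hl => ?_
    have e : α l = (θ * sg p)⁻¹ * α (l + 1) + (s l - (sg p)⁻¹ * s (l + 1)) := by
      simp only [hα, hsd]
      rw [if_pos (by omega), if_pos (show l ≤ n by omega)]
      rcases Nat.lt_or_ge l n with h | h
      · rw [if_pos (by omega), if_pos (show l + 1 ≤ n by omega)]
        have := av_fi_diff (θ := θ) l n h c (k / 2 ^ l)
        rw [← div_pow_succ, ← hb] at this
        have e' : sg p ^ l * av l b (k / 2 ^ l) -
            (sg p)⁻¹ * (sg p ^ (l + 1) * av (l + 1) b (k / 2 ^ (l + 1))) =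
            sg p ^ l * (av l b (k / 2 ^ l) - av (l + 1) b (k / 2 ^ (l + 1))) := by
          rw [pow_succ]; field_simp
        rw [e', this, mul_pow, mul_pow, pow_succ, pow_succ]
        field_simp
        ring
      · obtain rfl : l = n := by omega
        rw [if_neg (by omega), if_neg (by omega), hb, av_fi_top, mul_pow]
        ring
    rw [e]
    refine (abs_add_le _ _).trans (add_le_add ?_ ?_)
    · rw [abs_mul, abs_of_pos (by positivity)]
    · refine (abs_sub _ _).trans (le_trans (add_le_add le_rfl ?_) (le_abs_self _))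
      rw [abs_mul, abs_of_pos (by positivity : 0 < (sg p)⁻¹)]
      exact mul_le_of_le_one_left (abs_nonneg _) (inv_lt_one_of_one_lt₀ hs1).le
  have e3 : lpn p (range (n + 1)) (fun l => |s l| + |s (l + 1)|) ≤ 2 * lpn p (range (n + 1)) s := by
    have a1 : lpn p (range (n + 1)) (fun l => |s l| + |s (l + 1)|) ≤
        lpn p (range (n + 1)) s + lpn p (range (n + 1)) (fun l => s (l + 1)) :=
      lpn_le_add hp.le fun l _ => by rw [abs_of_nonneg (by positivity)]
    have a2 := lpn_shift_down hp.le (n + 1) s (by simp [hsd])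
    linarith
  have e4 : lpn p (range (n + 1)) (fun m => sg p ^ m * (θ ^ m * r m)) ≤
      lpn p (range (n + 1)) (fun m => 2 * α m) / (1 - θ * sg p / 2) := by
    refine lpn_up hp.le _ (by positivity) (by linarith) ?_ fun l hl => ?_
    · simp only [hr, hα, pow_zero, one_mul, av_zero, Nat.div_one, cut, lt_irrefl, if_false,
        abs_zero, zero_add, Nat.zero_le, if_true, abs_abs, abs_mul, abs_two]
      linarith [abs_nonneg (c k)]
    · have a1 := cut_step k l c
      rw [abs_of_nonneg (by have := hr0 (l + 1); positivity),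
        abs_of_nonneg (by have := hr0 l; positivity)]
      simp only [hα]
      rw [if_pos (by omega), abs_mul, abs_mul, abs_two, abs_of_pos (by positivity : 0 < (θ * sg p) ^ (l + 1))]
      have a2 : 0 < (θ * sg p) ^ (l + 1) := by positivity
      have a3 := mul_le_mul_of_nonneg_left a1 a2.le
      calc sg p ^ (l + 1) * (θ ^ (l + 1) * r (l + 1)) = (θ * sg p) ^ (l + 1) * r (l + 1) := by
            rw [mul_pow]; ring
        _ ≤ (θ * sg p) ^ (l + 1) * (r l / 2 + 2 * |av (l + 1) c (k / 2 ^ (l + 1))|) := a3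
        _ = _ := by rw [mul_pow]; ring
  rw [lpn_smul' hp.le _ two_pos.le] at e4
  have e5 := dual_hardy_branch hp.le n k hk (fun m => θ ^ m * r m)
    (fun m => mul_nonneg (by positivity) (hr0 m))
  have e6 : lpn p (range (2 ^ n)) (fi θ n (cut k c)) ≤ L + lpn p (range (2 ^ n))
      (fun z => ∑ m ∈ range (n + 1), if z / 2 ^ m = k / 2 ^ m then θ ^ m * r m else 0) := by
    refine lpn_le_add hp.le fun z _ => ?_
    have a1 := commutator_le h1.le n k c z
    have a2 : |cut k b z| ≤ |b z| := by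
      simp only [cut]; split_ifs <;> simp
    have a3 := abs_add_le (cut k b z) (fi θ n (cut k c) z - cut k b z)
    rw [add_sub_cancel] at a3
    exact a3.trans (add_le_add a2 (a1.trans (le_abs_self _)))
  have hL0 : 0 ≤ L := lpn_nonneg _ _ _
  have e7 : lpn p (range (n + 1)) α ≤ 2 * (L / (1 - sg p / 2)) / (1 - (θ * sg p)⁻¹) :=
    e2.trans (div_le_div_of_nonneg_right (by linarith) d2.le)
  have e8 : lpn p (range (n + 1)) (fun m => sg p ^ m * (θ ^ m * r m)) ≤
      2 * (2 * (L / (1 - sg p / 2)) / (1 - (θ * sg p)⁻¹)) / (1 - θ * sg p / 2) :=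
    e4.trans (div_le_div_of_nonneg_right (by linarith) d3.le)
  have e9 := e5.trans (div_le_div_of_nonneg_right e8 d4.le)
  unfold nu
  rw [← mul_div_assoc]
  refine div_le_div_of_nonneg_right (e6.trans ((add_le_add le_rfl e9).trans (le_of_eq ?_)))
    (pow_pos hs n).le
  rw [← hL]
  ring

end Pool.Agent.H103Z.Nb
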