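import Mathlib

/-!
Finite `l_p` norms of real families and one-step recurrences.
-/

open Finset

namespace Pool.Agent.H103Z.Nb

/-- the `l_p` norm of `φ` on the finite set `s` -/
noncomputable def lpn {ι : Type*} (p : ℝ) (s : Finset ι) (φ : ι → ℝ) : ℝ :=
  (∑ j ∈ s, |φ j| ^ p) ^ (1 / p)

variable {ι : Type*} {p : ℝ}

lemma sum_abs_rpow_nonneg (p : ℝ) (s : Finset ι) (φ : ι → ℝ) : 0 ≤ ∑ j ∈ s, |φ j| ^ p :=
  Finset.sum_nonneg fun _ _ => Real.rpow_nonneg (abs_nonneg _) _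

lemma lpn_nonneg (p : ℝ) (s : Finset ι) (φ : ι → ℝ) : 0 ≤ lpn p s φ :=
  Real.rpow_nonneg (sum_abs_rpow_nonneg p s φ) _

lemma lpn_rpow (hp : 1 ≤ p) (s : Finset ι) (φ : ι → ℝ) :
    lpn p s φ ^ p = ∑ j ∈ s, |φ j| ^ p := by
  unfold lpn
  rw [← Real.rpow_mul (sum_abs_rpow_nonneg p s φ), one_div_mul_cancel (by linarith), Real.rpow_one]

lemma lpn_add_le (hp : 1 ≤ p) (s : Finset ι) (φ ψ : ι → ℝ) :
    lpn p s (fun j => φ j + ψ j) ≤ lpn p s φ + lpn p s ψ :=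
  Real.Lp_add_le s φ ψ hp

lemma lpn_le_of_sum {κ : Type*} (hp : 1 ≤ p) {s : Finset ι} {t : Finset κ} {φ : ι → ℝ} {ψ : κ → ℝ}
    (h : ∑ j ∈ s, |φ j| ^ p ≤ ∑ j ∈ t, |ψ j| ^ p) : lpn p s φ ≤ lpn p t ψ :=
  Real.rpow_le_rpow (sum_abs_rpow_nonneg p s φ) h (by positivity)

lemma lpn_le_of_sum_le (hp : 1 ≤ p) {s : Finset ι} {φ : ι → ℝ} {A : ℝ} (hA : 0 ≤ A)
    (h : ∑ j ∈ s, |φ j| ^ p ≤ A ^ p) : lpn p s φ ≤ A := by
  have := Real.rpow_le_rpow (sum_abs_rpow_nonneg p s φ) h (show 0 ≤ 1 / p by positivity)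
  rwa [← Real.rpow_mul hA, mul_one_div_cancel (by linarith), Real.rpow_one] at this

lemma le_of_rpow_le (hp : 1 ≤ p) {a b : ℝ} (hb : 0 ≤ b) (h : |a| ^ p ≤ b ^ p) : |a| ≤ b := by
  by_contra hc
  push Not at hc
  exact absurd h (not_le.2 (Real.rpow_lt_rpow hb hc (by linarith)))

lemma lpn_mono (hp : 1 ≤ p) {s : Finset ι} {φ ψ : ι → ℝ} (h : ∀ j ∈ s, |φ j| ≤ |ψ j|) :
    lpn p s φ ≤ lpn p s ψ :=
  lpn_le_of_sum hp (Finset.sum_le_sum fun j hj =>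
    Real.rpow_le_rpow (abs_nonneg _) (h j hj) (by linarith))

lemma lpn_mono' (hp : 1 ≤ p) {s : Finset ι} {φ ψ : ι → ℝ} (h : ∀ j ∈ s, |φ j| ≤ ψ j) :
    lpn p s φ ≤ lpn p s ψ :=
  lpn_mono hp fun j hj => (h j hj).trans (le_abs_self _)

lemma lpn_congr {s : Finset ι} {φ ψ : ι → ℝ} (h : ∀ j ∈ s, φ j = ψ j) :
    lpn p s φ = lpn p s ψ := by
  unfold lpn
  rw [Finset.sum_congr rfl fun j hj => by rw [h j hj]]

lemma lpn_smul (hp : 1 ≤ p) (s : Finset ι) (c : ℝ) (φ : ι → ℝ) :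
    lpn p s (fun j => c * φ j) = |c| * lpn p s φ := by
  unfold lpn
  have : ∑ j ∈ s, |c * φ j| ^ p = |c| ^ p * ∑ j ∈ s, |φ j| ^ p := by
    rw [Finset.mul_sum]
    refine Finset.sum_congr rfl fun j _ => ?_
    rw [abs_mul, Real.mul_rpow (abs_nonneg _) (abs_nonneg _)]
  rw [this, Real.mul_rpow (Real.rpow_nonneg (abs_nonneg _) _) (sum_abs_rpow_nonneg p s φ),
    ← Real.rpow_mul (abs_nonneg _), mul_one_div_cancel (by linarith), Real.rpow_one]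

lemma lpn_smul' (hp : 1 ≤ p) (s : Finset ι) {c : ℝ} (hc : 0 ≤ c) (φ : ι → ℝ) :
    lpn p s (fun j => c * φ j) = c * lpn p s φ := by
  rw [lpn_smul hp, abs_of_nonneg hc]

lemma abs_le_lpn (hp : 1 ≤ p) {s : Finset ι} (φ : ι → ℝ) {j : ι} (hj : j ∈ s) :
    |φ j| ≤ lpn p s φ := by
  refine le_of_rpow_le hp (lpn_nonneg p s φ) ?_
  rw [lpn_rpow hp]
  exact Finset.single_le_sum (f := fun j => |φ j| ^ p)
    (fun i _ => Real.rpow_nonneg (abs_nonneg _) _) hj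

lemma lpn_zero (hp : 1 ≤ p) (s : Finset ι) : lpn p s (fun _ => 0) = 0 := by
  have := lpn_smul hp s 0 (fun _ => 0)
  simpa using this

lemma lpn_le_add (hp : 1 ≤ p) {s : Finset ι} {φ ψ χ : ι → ℝ} (h : ∀ j ∈ s, |φ j| ≤ |ψ j| + |χ j|) :
    lpn p s φ ≤ lpn p s ψ + lpn p s χ := by
  calc lpn p s φ ≤ lpn p s (fun j => |ψ j| + |χ j|) := lpn_mono' hp h
    _ ≤ lpn p s (fun j => |ψ j|) + lpn p s (fun j => |χ j|) := lpn_add_le hp s _ _
    _ ≤ _ := add_le_add (lpn_mono hp fun j _ => by rw [abs_abs])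
        (lpn_mono hp fun j _ => by rw [abs_abs])

lemma lpn_sum_le {κ : Type*} (hp : 1 ≤ p) (s : Finset ι) (t : Finset κ) (φ : κ → ι → ℝ) :
    lpn p s (fun j => ∑ k ∈ t, φ k j) ≤ ∑ k ∈ t, lpn p s (φ k) := by
  classical
  induction t using Finset.induction_on with
  | empty => simp [lpn_zero hp]
  | insert k t hk ih =>
    simp only [Finset.sum_insert hk]
    exact (lpn_add_le hp s _ _).trans (add_le_add le_rfl ih)

lemma lpn_rec (hp : 1 ≤ p) {s : Finset ι} {x x' y : ι → ℝ} {ρ : ℝ} (h0 : 0 ≤ ρ) (h1 : ρ < 1)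
    (h : ∀ j ∈ s, |x j| ≤ ρ * |x' j| + |y j|) (hx : lpn p s x' ≤ lpn p s x) :
    lpn p s x ≤ lpn p s y / (1 - ρ) := by
  have h2 : lpn p s x ≤ lpn p s (fun j => ρ * x' j) + lpn p s y :=
    lpn_le_add hp fun j hj => by rw [abs_mul, abs_of_nonneg h0]; exact h j hj
  rw [lpn_smul' hp s h0] at h2
  rw [le_div_iff₀ (by linarith)]
  nlinarith [mul_le_mul_of_nonneg_left hx h0]

lemma lpn_shift_down (hp : 1 ≤ p) (N : ℕ) (x : ℕ → ℝ) (hN : x N = 0) :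
    lpn p (range N) (fun l => x (l + 1)) ≤ lpn p (range N) x := by
  apply lpn_le_of_sum hp
  have h1 := Finset.sum_range_succ' (fun l => |x l| ^ p) N
  have h2 := Finset.sum_range_succ (fun l => |x l| ^ p) N
  rw [hN, abs_zero, Real.zero_rpow (by linarith)] at h2
  have : 0 ≤ |x 0| ^ p := Real.rpow_nonneg (abs_nonneg _) _
  linarith

lemma lpn_shift_up (hp : 1 ≤ p) (N : ℕ) (x : ℕ → ℝ) :
    lpn p (range N) (fun l => if l = 0 then 0 else x (l - 1)) ≤ lpn p (range N) x := by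
  apply lpn_le_of_sum hp
  rcases N with _ | N
  · simp
  · rw [Finset.sum_range_succ', Finset.sum_range_succ]
    simp only [Nat.add_eq_zero_iff, one_ne_zero, and_false, if_false, add_tsub_cancel_right,
      if_true, abs_zero]
    rw [Real.zero_rpow (by linarith)]
    have : 0 ≤ |x N| ^ p := Real.rpow_nonneg (abs_nonneg _) _
    linarith

/-- downward recurrence -/
lemma lpn_down (hp : 1 ≤ p) (N : ℕ) {x y : ℕ → ℝ} {ρ : ℝ} (h0 : 0 ≤ ρ) (h1 : ρ < 1)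
    (hN : x N = 0) (h : ∀ l < N, |x l| ≤ ρ * |x (l + 1)| + |y l|) :
    lpn p (range N) x ≤ lpn p (range N) y / (1 - ρ) :=
  lpn_rec hp h0 h1 (x' := fun l => x (l + 1)) (fun l hl => h l (Finset.mem_range.1 hl))
    (lpn_shift_down hp N x hN)

/-- upward recurrence -/
lemma lpn_up (hp : 1 ≤ p) (N : ℕ) {x y : ℕ → ℝ} {ρ : ℝ} (h0 : 0 ≤ ρ) (h1 : ρ < 1)
    (hz : |x 0| ≤ |y 0|) (h : ∀ l, l + 1 < N → |x (l + 1)| ≤ ρ * |x l| + |y (l + 1)|) :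
    lpn p (range N) x ≤ lpn p (range N) y / (1 - ρ) := by
  refine lpn_rec hp h0 h1 (x' := fun l => if l = 0 then 0 else x (l - 1)) (fun l hl => ?_)
    (lpn_shift_up hp N x)
  rcases l with _ | l
  · simpa using hz
  · simpa using h l (Finset.mem_range.1 hl)

end Pool.Agent.H103Z.Nb
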