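import Pool.Agent.H103Z.NbRep
import Pool.Agent.H103Z.NbCrit

/-!
A Schauder basis of non-negative functions in `L_p` of the real line for `1 < p < ∞`.
-/

open Finset MeasureTheory Filter Topology
open scoped ENNReal

namespace Pool.Agent.H103Z.Nb

/-- the basis -/
noncomputable def ff (P : ℝ≥0∞) (θ ε : ℝ) (k : ℕ) : Lp ℝ P (volume : Measure ℝ) :=
  if k % 2 = 0 then yy P θ ε (k / 2) else yy P θ ε (k / 2) + gg P ε (k / 2)

variable {P : ℝ≥0∞} {θ ε : ℝ}

lemma ff_even (s : ℕ) : ff P θ ε (2 * s) = yy P θ ε s := by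
  unfold ff
  rw [if_pos (by omega), show 2 * s / 2 = s by omega]

lemma ff_odd (s : ℕ) : ff P θ ε (2 * s + 1) = yy P θ ε s + gg P ε s := by
  unfold ff
  rw [if_neg (by omega), show (2 * s + 1) / 2 = s by omega]

lemma yy_add_gg (s : ℕ) : yy P θ ε s + gg P ε s =
    ww P θ s + (2 * ε) • xx P s.unpair.1 (lev s + 1) (2 * pos s) := by
  unfold yy gg
  rw [xx_split s.unpair.1 (lev s) (pos s)]
  module

lemma smul_xx_nonneg {r : ℝ} (hr : 0 ≤ r) (u n j : ℕ) : 0 ≤ r • xx P u n j := by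
  rw [← Lp.coeFn_nonneg]
  filter_upwards [Lp.coeFn_smul r (xx P u n j), chi_coe (P := P) n (zt u * 2 ^ n + j)] with x h1 h2
  rw [h1, Pi.smul_apply, xx, h2, smul_eq_mul, Pi.zero_apply]
  split_ifs
  · simpa using hr
  · simp

lemma ww_nonneg (h1 : 1 ≤ θ) (s : ℕ) : 0 ≤ ww P θ s :=
  Finset.sum_nonneg fun j _ => smul_xx_nonneg (div_nonneg (fi_nonneg h1 _ (fun z => by
    split_ifs <;> norm_num) j) (pow_pos (sg_pos _) _).le) _ _ _

lemma ff_form (hε : 0 < ε) (k : ℕ) :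
    ∃ (s u n j : ℕ) (r : ℝ), 0 < r ∧ ff P θ ε k = ww P θ s + r • xx P u n j := by
  rcases Nat.even_or_odd' k with ⟨s, rfl | rfl⟩
  · exact ⟨s, _, _, _, ε, hε, ff_even s⟩
  · exact ⟨s, _, _, _, 2 * ε, by linarith, by rw [ff_odd, yy_add_gg]⟩

lemma ff_nonneg (h1 : 1 ≤ θ) (hε : 0 < ε) (k : ℕ) : 0 ≤ ff P θ ε k := by
  obtain ⟨s, u, n, j, r, hr, h⟩ := ff_form (P := P) (θ := θ) hε k
  rw [h]
  exact add_nonneg (ww_nonneg h1 s) (smul_xx_nonneg hr.le u n j)

lemma norm_xx [Fact (1 ≤ P)] (hP : P ≠ ∞) (hp : 1 ≤ P.toReal) (u n j : ℕ) :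
    ‖xx P u n j‖ = 1 / sg P.toReal ^ n := by
  have h := norm_sum_chi hP ({()} : Finset Unit) (fun _ => 1) n (fun _ => zt u * 2 ^ n + j)
    (fun _ _ _ _ _ => rfl)
  simp only [Finset.sum_singleton, one_smul, abs_one, Real.one_rpow] at h
  rw [xx, h, ← sg_pow_rpow hp n, Real.div_rpow zero_le_one
    (Real.rpow_nonneg (pow_pos (sg_pos _) n).le _), Real.one_rpow,
    ← Real.rpow_mul (pow_pos (sg_pos _) n).le, mul_one_div_cancel (by linarith), Real.rpow_one]

lemma ff_ne_zero [Fact (1 ≤ P)] (hP : P ≠ ∞) (hp : 1 ≤ P.toReal) (h1 : 1 ≤ θ) (hε : 0 < ε) (k : ℕ) :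
    ff P θ ε k ≠ 0 := by
  obtain ⟨s, u, n, j, r, hr, h⟩ := ff_form (P := P) (θ := θ) hε k
  intro h0
  rw [h] at h0
  have h2 : r • xx P u n j = 0 :=
    le_antisymm (h0 ▸ le_add_of_nonneg_left (ww_nonneg h1 s)) (smul_xx_nonneg hr.le u n j)
  have h3 := congrArg norm h2
  rw [norm_smul, norm_xx hP hp, norm_zero, Real.norm_eq_abs, abs_of_pos hr] at h3
  have := pow_pos (sg_pos P.toReal) n
  have : 0 < r * (1 / sg P.toReal ^ n) := by positivity
  linarith

lemma norm_ww [Fact (1 ≤ P)] (hP : P ≠ ∞) (hp : 1 ≤ P.toReal) (s : ℕ) :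
    ‖ww P θ s‖ = nu P.toReal (lev s) (fi θ (lev s) (fun i => if i = pos s then 1 else 0)) := by
  have h := norm_sum_chi hP (range (2 ^ lev s)) (fun j =>
    fi θ (lev s) (fun i => if i = pos s then 1 else 0) j / sg P.toReal ^ lev s) 0
    (fun j => zt (idx s.unpair.1 (lev s) j) * 2 ^ 0 + ((0 : ℕ) : ℤ)) ?_
  · unfold ww xx
    rw [h, pow_zero, div_one]
    have h2 := lpn_smul' hp (range (2 ^ lev s)) (c := (sg P.toReal ^ lev s)⁻¹)
      (inv_nonneg.2 (pow_pos (sg_pos _) _).le) (fi θ (lev s) (fun i => if i = pos s then 1 else 0))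
    unfold nu
    rw [div_eq_inv_mul (lpn _ _ _), ← h2]
    unfold lpn
    simp only [div_eq_inv_mul]
  · intro i hi j hj hij
    have h1 : idx s.unpair.1 (lev s) i = idx s.unpair.1 (lev s) j := zt_inj (by simpa using hij)
    rw [← pos_idx s.unpair.1 (lev s) i (by simpa using hi), h1,
      pos_idx s.unpair.1 (lev s) j (by simpa using hj)]

lemma sum_ff (α : ℕ → ℝ) (K : ℕ) : ∑ k ∈ range (2 * K), α k • ff P θ ε k =
    ∑ s ∈ range K, ((α (2 * s) + α (2 * s + 1)) • yy P θ ε s + α (2 * s + 1) • gg P ε s) := by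
  rw [sum_range_two']
  refine Finset.sum_congr rfl fun s _ => ?_
  rw [ff_even, ff_odd]
  module

theorem ff_bound [Fact (1 ≤ P)] (hP : P ≠ ∞) (hp : 1 < P.toReal) (h1 : 1 < θ)
    (h2 : θ * sg P.toReal < 2) (hε : 0 < ε) (hεk : ε * kk θ ≤ 1 / 2) :
    ∃ C : ℝ, 0 ≤ C ∧ ∀ (α : ℕ → ℝ) (m k : ℕ), m ≤ k →
      ‖∑ n ∈ range m, α n • ff P θ ε n‖ ≤ C * ‖∑ n ∈ range k, α n • ff P θ ε n‖ := by
  obtain ⟨C, hC0, hC⟩ := pair_bound hP hp h1 h2 hε.le hεk
  have hs := sg_pos P.toReal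
  have hs1 := one_lt_sg hp.le
  have hρ : 0 < 1 - θ * sg P.toReal / 2 := by linarith
  set K3 := 2 / (1 - θ * sg P.toReal / 2) with hK3
  have hK30 : 0 ≤ K3 := by positivity
  refine ⟨C + 2 * sg P.toReal * (K3 + 2 * ε) / ε, by positivity, fun α m k hmk => ?_⟩
  set β : ℕ → ℝ := fun n => if n < k then α n else 0 with hβ
  have e1 : ∑ n ∈ range k, α n • ff P θ ε n = ∑ n ∈ range (2 * k), β n • ff P θ ε n :=
    (sum_trunc _ α k (2 * k) (by omega)).symm
  have e2 : ∑ n ∈ range m, α n • ff P θ ε n = ∑ n ∈ range m, β n • ff P θ ε n := by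
    refine Finset.sum_congr rfl fun n hn => ?_
    have := Finset.mem_range.1 hn
    simp only [hβ]
    rw [if_pos (by omega)]
  rw [e1, e2, sum_ff β k]
  obtain ⟨hA, hB⟩ := hC (fun s => β (2 * s) + β (2 * s + 1)) (fun s => β (2 * s + 1)) k
  set F := ‖∑ s ∈ range k, ((β (2 * s) + β (2 * s + 1)) • yy P θ ε s + β (2 * s + 1) • gg P ε s)‖
    with hF
  have hF0 : 0 ≤ F := norm_nonneg _
  have hD : 0 ≤ 2 * sg P.toReal * (K3 + 2 * ε) / ε * F := by positivity
  rcases Nat.even_or_odd' m with ⟨s, rfl | rfl⟩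
  · rw [sum_ff β s]
    have := hA s (by omega)
    nlinarith
  · have e3 : ∑ n ∈ range (2 * s + 1), β n • ff P θ ε n =
        ∑ n ∈ range (2 * (s + 1)), β n • ff P θ ε n - β (2 * s + 1) • ff P θ ε (2 * s + 1) := by
      rw [show 2 * (s + 1) = 2 * s + 1 + 1 by ring, Finset.sum_range_succ _ (2 * s + 1)]
      abel
    rw [e3, sum_ff β (s + 1)]
    refine (norm_sub_le _ _).trans ?_
    have a1 := hA (s + 1) (by omega)
    have a2 := hB s (by omega)
    have hsn : 0 < sg P.toReal ^ lev s := pow_pos hs _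
    have a3 : ‖ff P θ ε (2 * s + 1)‖ ≤ (K3 + 2 * ε) / sg P.toReal ^ lev s := by
      rw [ff_odd, yy_add_gg]
      refine (norm_add_le _ _).trans ?_
      rw [norm_ww hP hp.le, norm_smul, norm_xx hP hp.le, Real.norm_eq_abs,
        abs_of_pos (by linarith), add_div]
      refine add_le_add (nu_fi_single hp.le h1 h2 _ _) ?_
      rw [mul_one_div]
      exact div_le_div_of_nonneg_left (by linarith) hsn (pow_le_pow_right₀ hs1.le (Nat.le_succ _))
    have a4 : |β (2 * s + 1)| ≤ sg P.toReal ^ (lev s + 1) * (2 * F) / ε := by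
      rw [le_div_iff₀ hε]
      rw [abs_mul, abs_of_pos hε] at a2
      linarith
    have a5 : ‖β (2 * s + 1) • ff P θ ε (2 * s + 1)‖ ≤ 2 * sg P.toReal * (K3 + 2 * ε) / ε * F := by
      rw [norm_smul, Real.norm_eq_abs]
      refine (mul_le_mul a4 a3 (norm_nonneg _) (by positivity)).trans (le_of_eq ?_)
      rw [pow_succ]
      field_simp
    nlinarith

theorem chi_mem_span (h1 : 1 < θ) (hε : 0 < ε) (n : ℕ) (i : ℤ) :
    chi P n i ∈ Submodule.span ℝ (Set.range (ff P θ ε)) := by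
  set Z := Submodule.span ℝ (Set.range (ff P θ ε)) with hZ
  have hy : ∀ s, yy P θ ε s ∈ Z := fun s => Submodule.subset_span ⟨2 * s, ff_even s⟩
  have hg : ∀ s, gg P ε s ∈ Z := fun s => by
    have := Z.sub_mem (Submodule.subset_span ⟨2 * s + 1, ff_odd s⟩) (hy s)
    rwa [add_sub_cancel_left] at this
  have hH : ∀ u n j, j < 2 ^ n → xx P u (n + 1) (2 * j) - xx P u (n + 1) (2 * j + 1) ∈ Z := by
    intro u n j hj
    have := Z.smul_mem ε⁻¹ (hg (idx u n j))
    unfold gg at this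
    rwa [lev_idx u n j hj, pos_idx u n j hj, idx_fst, smul_smul, inv_mul_cancel₀ hε.ne',
      one_smul] at this
  have hX : ∀ u n j, j < 2 ^ n → xx P u n j - ((2 : ℝ) ^ n)⁻¹ • xx P u 0 0 ∈ Z := by
    intro u n
    induction n with
    | zero => intro j hj; obtain rfl : j = 0 := by omega
              simp
    | succ n ih =>
      intro j hj
      rw [pow_succ] at hj
      rcases Nat.even_or_odd' j with ⟨l, rfl | rfl⟩
      · have := Z.smul_mem (1 / 2 : ℝ) (Z.add_mem (ih l (by omega)) (hH u n l (by omega)))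
        convert this using 1
        rw [xx_split u n l, pow_succ, mul_inv]
        module
      · have := Z.smul_mem (1 / 2 : ℝ) (Z.sub_mem (ih l (by omega)) (hH u n l (by omega)))
        convert this using 1
        rw [xx_split u n l, pow_succ, mul_inv]
        module
  have hE : ∀ s, xx P s 0 0 ∈ Z := by
    intro s
    induction s using Nat.strong_induction_on with
    | _ s ih =>
      have hs := pow_pos (sg_pos P.toReal) (lev s)
      obtain ⟨c, hc, hf⟩ := fi_surj (θ := θ) (by linarith) (lev s)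
        (fun j => sg P.toReal ^ lev s * if j = pos s then 1 else 0)
        (fun j hj => by rw [if_neg (by have := pos_lt s; omega), mul_zero])
      have e1 : ∑ j ∈ range (2 ^ lev s), c j • ww P θ (idx s.unpair.1 (lev s) j) = xx P s 0 0 := by
        rw [sum_ww _ _ c hc, hf, Finset.sum_eq_single_of_mem (pos s) (Finset.mem_range.2 (pos_lt s))]
        · simp only [if_true, mul_one]
          rw [div_self hs.ne', one_smul, idx_self]
        · intro j _ hj
          simp [hj]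
      have e2 : 0 ≤ ∑ j ∈ range (2 ^ lev s), c j := by
        rw [← av_total]
        have a1 := av_fi_top (θ := θ) (lev s) c 0
        have a2 : 0 ≤ av (lev s) (fi θ (lev s) c) 0 := av_nonneg _ (fun z => by
          rw [hf]; exact mul_nonneg hs.le (by split_ifs <;> norm_num)) 0
        rw [a1] at a2
        exact mul_nonneg (by positivity) (nonneg_of_mul_nonneg_right a2 (pow_pos (by linarith) _) )
      have e3 : ∑ j ∈ range (2 ^ lev s), c j • (yy P θ ε (idx s.unpair.1 (lev s) j) -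
          ε • (xx P s.unpair.1 (lev s) j - ((2 : ℝ) ^ lev s)⁻¹ • xx P s.unpair.1 0 0)) ∈ Z :=
        Z.sum_mem fun j hj => Z.smul_mem _ (Z.sub_mem (hy _)
          (Z.smul_mem _ (hX _ _ j (Finset.mem_range.1 hj))))
      have e4 : ∑ j ∈ range (2 ^ lev s), c j • (yy P θ ε (idx s.unpair.1 (lev s) j) -
          ε • (xx P s.unpair.1 (lev s) j - ((2 : ℝ) ^ lev s)⁻¹ • xx P s.unpair.1 0 0)) =
          xx P s 0 0 + ((∑ j ∈ range (2 ^ lev s), c j) * (ε * ((2 : ℝ) ^ lev s)⁻¹)) •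
            xx P s.unpair.1 0 0 := by
        rw [← e1, Finset.sum_mul, Finset.sum_smul, ← Finset.sum_add_distrib]
        refine Finset.sum_congr rfl fun j hj => ?_
        have hj' := Finset.mem_range.1 hj
        unfold yy
        rw [lev_idx _ _ j hj', pos_idx _ _ j hj', idx_fst]
        module
      rw [e4] at e3
      set κ := (∑ j ∈ range (2 ^ lev s), c j) * (ε * ((2 : ℝ) ^ lev s)⁻¹) with hκ
      have hκ0 : 0 ≤ κ := by positivity
      rcases (Nat.unpair_left_le s).eq_or_lt with h | h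
      · rw [h] at e3
        have := Z.smul_mem (1 + κ)⁻¹ e3
        convert this using 1
        rw [show xx P s 0 0 + κ • xx P s 0 0 = (1 + κ) • xx P s 0 0 by module, smul_smul,
          inv_mul_cancel₀ (by linarith), one_smul]
      · have := Z.sub_mem e3 (Z.smul_mem κ (ih _ h))
        rwa [add_sub_cancel_right] at this
  have h2 : (0 : ℤ) < 2 ^ n := by positivity
  have h3 := Int.emod_nonneg i h2.ne'
  have h4 := Int.emod_lt_of_pos i h2
  have e : chi P n i = xx P (Equiv.intEquivNat (i / 2 ^ n)) n (i % 2 ^ n).toNat := by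
    unfold xx zt
    rw [Equiv.symm_apply_apply, Int.toNat_of_nonneg h3, Int.ediv_mul_add_emod]
  have h5 : (i % 2 ^ n).toNat < 2 ^ n := by
    zify
    rwa [Int.toNat_of_nonneg h3]
  rw [e]
  have := Z.add_mem (hX (Equiv.intEquivNat (i / 2 ^ n)) n _ h5) (Z.smul_mem ((2 : ℝ) ^ n)⁻¹ (hE (Equiv.intEquivNat (i / 2 ^ n))))
  rwa [sub_add_cancel] at this

theorem main (P : ℝ≥0∞) [Fact (1 ≤ P)] (hP1 : 1 < P) (hP : P ≠ ∞) :
    ∃ f : ℕ → Lp ℝ P (volume : Measure ℝ),
      (∀ n, ∀ᵐ x ∂(volume : Measure ℝ), 0 ≤ f n x) ∧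
      ∀ g : Lp ℝ P (volume : Measure ℝ), ∃! a : ℕ → ℝ,
        Tendsto (fun N => ∑ n ∈ range N, a n • f n) atTop (𝓝 g) := by
  have hp : 1 < P.toReal := by
    have := (ENNReal.toReal_lt_toReal ENNReal.one_ne_top hP).2 hP1
    simpa using this
  have hs := sg_pos P.toReal
  have hs2 := sg_lt_two hp
  obtain ⟨θ, h1, h2⟩ : ∃ θ : ℝ, 1 < θ ∧ θ * sg P.toReal < 2 := by
    have : 1 < 2 / sg P.toReal := by rw [lt_div_iff₀ hs]; linarith
    obtain ⟨θ, h1, h2⟩ := exists_between this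
    exact ⟨θ, h1, by rwa [lt_div_iff₀ hs] at h2⟩
  have hk := kk_nonneg h1
  obtain ⟨ε, hε, hεk⟩ : ∃ ε : ℝ, 0 < ε ∧ ε * kk θ ≤ 1 / 2 := by
    refine ⟨1 / (2 * (kk θ + 1)), by positivity, ?_⟩
    rw [div_mul_eq_mul_div, div_le_div_iff₀ (by positivity) (by norm_num)]
    linarith
  obtain ⟨C, hC0, hC⟩ := ff_bound hP hp h1 h2 hε hεk
  refine ⟨ff P θ ε, fun n => (Lp.coeFn_nonneg _).2 (ff_nonneg h1.le hε n), fun g => ?_⟩
  refine schauder_of_bound (ff P θ ε) (ff_ne_zero hP hp.le h1.le hε) C hC0 hC (fun g δ hδ => ?_) g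
  have hg := mem_of_chi_mem hP (Submodule.span ℝ (Set.range (ff P θ ε))).topologicalClosure
    (Submodule.isClosed_topologicalClosure _)
    (fun n i => Submodule.le_topologicalClosure _ (chi_mem_span h1 hε n i)) g
  obtain ⟨z, hz, hd⟩ := Metric.mem_closure_iff.1 hg δ hδ
  obtain ⟨a, rfl⟩ := Finsupp.mem_span_range_iff_exists_finsupp.1 hz
  obtain ⟨k, hk⟩ := a.support.bddAbove
  refine ⟨a, k + 1, ?_⟩
  rw [← dist_eq_norm, ← Finsupp.sum_of_support_subset a (s := range (k + 1)) (fun n hn =>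
    Finset.mem_range.2 (Nat.lt_succ_of_le (hk hn))) (fun n r => r • ff P θ ε n) (by simp)]
  exact hd

end Pool.Agent.H103Z.Nb
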