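import Pool.Agent.H103Z.NbLp

/-!
Dyadic step functions in `L_p` of the real line: norms and density.
-/

open Finset MeasureTheory
open scoped ENNReal

namespace Pool.Agent.H103Z.Nb

/-- index of the dyadic cell of level `n` containing `x` -/
noncomputable def fl (n : ℕ) (x : ℝ) : ℤ := ⌊(2 : ℝ) ^ n * x⌋

lemma measurable_fl (n : ℕ) : Measurable (fl n) :=
  Int.measurable_floor.comp (measurable_const.mul measurable_id)

lemma fl_succ (n : ℕ) (x : ℝ) : fl n x = fl (n + 1) x / 2 := by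
  unfold fl
  have := Int.floor_div_natCast ((2 : ℝ) ^ (n + 1) * x) 2
  rw [show (2 : ℝ) ^ (n + 1) * x / (2 : ℕ) = 2 ^ n * x by push_cast; ring] at this
  exact this

lemma cell_eq (n : ℕ) (i : ℤ) :
    fl n ⁻¹' {i} = Set.Ico ((i : ℝ) / 2 ^ n) (((i : ℝ) + 1) / 2 ^ n) := by
  ext x
  have h : (0 : ℝ) < 2 ^ n := by positivity
  simp only [Set.mem_preimage, Set.mem_singleton_iff, fl, Int.floor_eq_iff, Set.mem_Ico]
  rw [div_le_iff₀ h, lt_div_iff₀ h, mul_comm x]

lemma meas_cell (n : ℕ) (i : ℤ) : MeasurableSet (fl n ⁻¹' {i}) :=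
  measurable_fl n (measurableSet_singleton i)

lemma vol_cell (n : ℕ) (i : ℤ) : volume (fl n ⁻¹' {i}) = ENNReal.ofReal (1 / 2 ^ n) := by
  rw [cell_eq, Real.volume_Ico]
  congr 1
  ring

lemma vol_cell_ne (n : ℕ) (i : ℤ) : volume (fl n ⁻¹' {i}) ≠ ∞ := by
  rw [vol_cell]; exact ENNReal.ofReal_ne_top

/-- indicator function of a dyadic cell as an element of `L_p` -/
noncomputable def chi (P : ℝ≥0∞) (n : ℕ) (i : ℤ) : Lp ℝ P (volume : Measure ℝ) :=
  indicatorConstLp P (meas_cell n i) (vol_cell_ne n i) (1 : ℝ)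

variable {P : ℝ≥0∞}

lemma chi_coe (n : ℕ) (i : ℤ) :
    ∀ᵐ x ∂(volume : Measure ℝ), chi P n i x = if fl n x = i then 1 else 0 := by
  classical
  filter_upwards [indicatorConstLp_coeFn (p := P) (hs := meas_cell n i) (hμs := vol_cell_ne n i)
    (c := (1 : ℝ))] with x hx
  rw [chi, hx, Set.indicator_apply]
  simp

lemma sum_chi_coe {κ : Type*} (s : Finset κ) (φ : κ → ℝ) (n : κ → ℕ) (i : κ → ℤ) :
    ∀ᵐ x ∂(volume : Measure ℝ), (∑ k ∈ s, φ k • chi P (n k) (i k) : Lp ℝ P volume) x =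
      ∑ k ∈ s, if fl (n k) x = i k then φ k else 0 := by
  have h1 : ∀ k ∈ s, ∀ᵐ x ∂(volume : Measure ℝ), (φ k • chi P (n k) (i k) : Lp ℝ P volume) x =
      if fl (n k) x = i k then φ k else 0 := by
    intro k _
    filter_upwards [Lp.coeFn_smul (φ k) (chi P (n k) (i k)), chi_coe (P := P) (n k) (i k)]
      with x h1 h2
    rw [h1, Pi.smul_apply, h2, smul_eq_mul, mul_ite, mul_one, mul_zero]
  filter_upwards [Lp.coeFn_fun_finsetSum s (fun k => φ k • chi P (n k) (i k)),
    (Finset.eventually_all s).2 h1] with x h2 h3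
  rw [h2]
  exact Finset.sum_congr rfl h3

lemma chi_split (n : ℕ) (i : ℤ) : chi P n i = chi P (n + 1) (2 * i) + chi P (n + 1) (2 * i + 1) := by
  apply Lp.ext
  filter_upwards [chi_coe (P := P) n i, chi_coe (P := P) (n + 1) (2 * i),
    chi_coe (P := P) (n + 1) (2 * i + 1),
    Lp.coeFn_add (chi P (n + 1) (2 * i)) (chi P (n + 1) (2 * i + 1))] with x h1 h2 h3 h4
  rw [h4, Pi.add_apply, h1, h2, h3, fl_succ]
  split_ifs <;> first | omega | norm_num

lemma norm_sum_chi [Fact (1 ≤ P)] (hP : P ≠ ∞) {κ : Type*} (s : Finset κ) (φ : κ → ℝ) (n : ℕ)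
    (i : κ → ℤ) (hi : Set.InjOn i s) :
    ‖(∑ k ∈ s, φ k • chi P n (i k) : Lp ℝ P volume)‖ =
      ((∑ k ∈ s, |φ k| ^ P.toReal) / 2 ^ n) ^ (1 / P.toReal) := by
  classical
  have hP1 : 1 ≤ P := Fact.out
  have hP0 : P ≠ 0 := (zero_lt_one.trans_le hP1).ne'
  have hp : 0 < P.toReal := ENNReal.toReal_pos hP0 hP
  rw [Lp.norm_def, (Lp.memLp _).eLpNorm_eq_integral_rpow_norm hP0 hP,
    ENNReal.toReal_ofReal (by positivity), one_div]
  congr 1
  have h1 : ∀ᵐ x ∂(volume : Measure ℝ),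
      ‖(∑ k ∈ s, φ k • chi P n (i k) : Lp ℝ P volume) x‖ ^ P.toReal =
        ∑ k ∈ s, (fl n ⁻¹' {i k}).indicator (fun _ => |φ k| ^ P.toReal) x := by
    filter_upwards [sum_chi_coe (P := P) s φ (fun _ => n) i] with x hx
    rw [hx, Real.norm_eq_abs]
    simp only [Set.indicator_apply, Set.mem_preimage, Set.mem_singleton_iff]
    by_cases h : ∃ k ∈ s, fl n x = i k
    · obtain ⟨k, hk, hkx⟩ := h
      rw [Finset.sum_eq_single_of_mem k hk, Finset.sum_eq_single_of_mem k hk, if_pos hkx, if_pos hkx]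
      · intro l hl hlk
        exact if_neg fun h => hlk (hi hl hk (h.symm.trans hkx))
      · intro l hl hlk
        exact if_neg fun h => hlk (hi hl hk (h.symm.trans hkx))
    · push Not at h
      rw [Finset.sum_eq_zero fun k hk => if_neg (h k hk),
        Finset.sum_eq_zero fun k hk => if_neg (h k hk), abs_zero, Real.zero_rpow hp.ne']
  rw [integral_congr_ae h1, integral_finsetSum, Finset.sum_div]
  · refine Finset.sum_congr rfl fun k _ => ?_
    rw [integral_indicator_const _ (meas_cell n _), measureReal_def, vol_cell,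
      ENNReal.toReal_ofReal (by positivity), smul_eq_mul]
    ring
  · intro k _
    exact (integrableOn_const (vol_cell_ne n _)).integrable_indicator (meas_cell n _)

lemma fl_lift (n m : ℕ) (h : n ≤ m) (T : Set ℤ) : ∃ T' : Set ℤ, fl n ⁻¹' T = fl m ⁻¹' T' := by
  induction m, h using Nat.le_induction with
  | base => exact ⟨T, rfl⟩
  | succ m _ ih =>
    obtain ⟨T', hT⟩ := ih
    refine ⟨(fun i => i / 2) ⁻¹' T', ?_⟩
    rw [hT]
    ext x
    simp only [Set.mem_preimage]
    rw [fl_succ m x]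

theorem mem_of_chi_mem [Fact (1 ≤ P)] (hP : P ≠ ∞) (Z : Submodule ℝ (Lp ℝ P (volume : Measure ℝ)))
    (hZ : IsClosed (Z : Set (Lp ℝ P (volume : Measure ℝ)))) (h : ∀ n i, chi P n i ∈ Z)
    (f : Lp ℝ P (volume : Measure ℝ)) : f ∈ Z := by
  classical
  set 𝒜 : Set (Set ℝ) := {s | ∃ n T, s = fl n ⁻¹' T} with h𝒜
  have halg : IsSetAlgebra 𝒜 := by
    refine ⟨⟨0, ∅, by simp⟩, ?_, ?_⟩
    · rintro _ ⟨n, T, rfl⟩
      exact ⟨n, Tᶜ, by simp⟩
    · rintro _ _ ⟨n, T, rfl⟩ ⟨m, U, rfl⟩
      obtain ⟨T', hT⟩ := fl_lift n (max n m) (le_max_left _ _) T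
      obtain ⟨U', hU⟩ := fl_lift m (max n m) (le_max_right _ _) U
      exact ⟨max n m, T' ∪ U', by rw [hT, hU, Set.preimage_union]⟩
  have hS : (volume : Measure ℝ).FiniteSpanningSetsIn 𝒜 :=
    { set := fun k => fl 0 ⁻¹' {Equiv.intEquivNat.symm k}
      set_mem := fun k => ⟨0, _, rfl⟩
      finite := fun k => (vol_cell_ne 0 _).lt_top
      spanning := by
        refine Set.eq_univ_of_forall fun x => Set.mem_iUnion.2 ⟨Equiv.intEquivNat (fl 0 x), ?_⟩
        simp }
  have hgen : (inferInstance : MeasurableSpace ℝ) = MeasurableSpace.generateFrom 𝒜 := by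
    apply le_antisymm
    · rw [BorelSpace.measurable_eq (α := ℝ), borel_eq_generateFrom_Iio]
      refine MeasurableSpace.generateFrom_le ?_
      rintro _ ⟨a, rfl⟩
      have : Set.Iio a = ⋃ n : ℕ, fl n ⁻¹' {i | ((i : ℝ) + 1) / 2 ^ n ≤ a} := by
        ext x
        simp only [Set.mem_Iio, Set.mem_iUnion, Set.mem_preimage, Set.mem_ofPred_eq, fl]
        constructor
        · intro hx
          obtain ⟨n, hn⟩ := exists_pow_lt_of_lt_one (show 0 < a - x by linarith)
            (show (1 / 2 : ℝ) < 1 by norm_num)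
          refine ⟨n, ?_⟩
          have h2 : (0 : ℝ) < 2 ^ n := by positivity
          rw [div_le_iff₀ h2]
          rw [one_div, inv_pow, inv_lt_iff_one_lt_mul₀ h2] at hn
          have := Int.floor_le ((2 : ℝ) ^ n * x)
          nlinarith
        · rintro ⟨n, hn⟩
          have h2 : (0 : ℝ) < 2 ^ n := by positivity
          rw [div_le_iff₀ h2] at hn
          have := Int.lt_floor_add_one ((2 : ℝ) ^ n * x)
          nlinarith
      rw [this]
      exact MeasurableSet.iUnion fun n => MeasurableSpace.measurableSet_generateFrom ⟨n, _, rfl⟩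
    · refine MeasurableSpace.generateFrom_le ?_
      rintro _ ⟨n, T, rfl⟩
      exact measurable_fl n MeasurableSet.of_discrete
  have hdense := Measure.MeasureDense.of_generateFrom_isSetAlgebra_sigmaFinite halg hS hgen
  haveI : Fact (P ≠ ∞) := ⟨hP⟩
  refine Lp.induction hP (fun f => f ∈ Z) ?_ ?_ hZ f
  · intro c s hs hμs
    rw [Lp.simpleFunc.coe_indicatorConst]
    have h1 := hdense.indicatorConstLp_subset_closure P c ⟨s, hs, hμs.ne, rfl⟩
    refine closure_minimal ?_ hZ h1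
    rintro _ ⟨t, ⟨n, T, rfl⟩, hμt, rfl⟩
    have hfin : T.Finite := by
      by_contra hT
      apply hμt
      rw [← Measure.map_apply (measurable_fl n) MeasurableSet.of_discrete]
      refine Set.Infinite.meas_eq_top hT ⟨ENNReal.ofReal (1 / 2 ^ n), ?_, fun i _ => ?_⟩
      · exact (ENNReal.ofReal_pos.2 (by positivity)).ne'
      · rw [Measure.map_apply (measurable_fl n) (measurableSet_singleton i), vol_cell]
    have e : indicatorConstLp P (hdense.measurable _ ⟨n, T, rfl⟩) hμt c =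
        ∑ i ∈ hfin.toFinset, c • chi P n i := by
      apply Lp.ext
      filter_upwards [indicatorConstLp_coeFn (p := P) (hs := hdense.measurable _ ⟨n, T, rfl⟩)
        (hμs := hμt) (c := c), sum_chi_coe (P := P) hfin.toFinset (fun _ => c) (fun _ => n) id]
        with x h2 h3
      simp only [id] at h3
      rw [h2, h3, Finset.sum_ite_eq, Set.indicator_apply]
      simp
    rw [SetLike.mem_coe, e]
    exact Z.sum_mem fun i _ => Z.smul_mem c (h n i)
  · intro f g hf hg _ h1 h2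
    exact Z.add_mem h1 h2

end Pool.Agent.H103Z.Nb
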