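import Pool.Agent.H103Z.NbTree
import Pool.Agent.H103Z.NbStep

/-!
The candidate basis and the representation of its finite combinations as step functions.
-/

open Finset MeasureTheory
open scoped ENNReal

namespace Pool.Agent.H103Z.Nb

/-- enumeration of the integers -/
def zt (u : ℕ) : ℤ := Equiv.intEquivNat.symm u

/-- indicator of the `j`-th cell of level `n` in the `u`-th unit interval -/
noncomputable def xx (P : ℝ≥0∞) (u n j : ℕ) : Lp ℝ P (volume : Measure ℝ) :=
  chi P n (zt u * 2 ^ n + j)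

/-- step function of level `n` on the `u`-th unit interval -/
noncomputable def st (P : ℝ≥0∞) (u n : ℕ) (φ : ℕ → ℝ) : Lp ℝ P (volume : Measure ℝ) :=
  ∑ z ∈ range (2 ^ n), φ z • xx P u n z

/-- index of a cell -/
def idx (u n j : ℕ) : ℕ := Nat.pair u (2 ^ n + j - 1)

/-- level of an index -/
def lev (s : ℕ) : ℕ := Nat.log 2 (s.unpair.2 + 1)

/-- position of an index -/
def pos (s : ℕ) : ℕ := s.unpair.2 + 1 - 2 ^ lev s

/-- a finite set of indices -/
def box (K : ℕ) : Finset ℕ := (range K ×ˢ range (2 ^ K - 1)).image fun x => Nat.pair x.1 x.2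

/-- tree coefficients of a sequence -/
noncomputable def cc (c : ℕ → ℝ) (u n j : ℕ) : ℝ := if j < 2 ^ n then c (idx u n j) else 0

/-- the far part of the basis vectors -/
noncomputable def ww (P : ℝ≥0∞) (θ : ℝ) (s : ℕ) : Lp ℝ P (volume : Measure ℝ) :=
  ∑ j ∈ range (2 ^ lev s), (fi θ (lev s) (fun i => if i = pos s then 1 else 0) j /
    sg P.toReal ^ lev s) • xx P (idx s.unpair.1 (lev s) j) 0 0

/-- even basis vectors -/
noncomputable def yy (P : ℝ≥0∞) (θ ε : ℝ) (s : ℕ) : Lp ℝ P (volume : Measure ℝ) :=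
  ww P θ s + ε • xx P s.unpair.1 (lev s) (pos s)

/-- Haar functions -/
noncomputable def gg (P : ℝ≥0∞) (ε : ℝ) (s : ℕ) : Lp ℝ P (volume : Measure ℝ) :=
  ε • (xx P s.unpair.1 (lev s + 1) (2 * pos s) - xx P s.unpair.1 (lev s + 1) (2 * pos s + 1))

/-- values on unit intervals of the far part -/
noncomputable def vv (p θ : ℝ) (c : ℕ → ℝ) (s : ℕ) : ℝ :=
  fi θ (lev s) (cc c s.unpair.1 (lev s)) (pos s) / sg p ^ lev s

variable {P : ℝ≥0∞} {θ ε : ℝ}

lemma zt_inj : Function.Injective zt := Equiv.intEquivNat.symm.injective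

lemma pow_lev_le (s : ℕ) : 2 ^ lev s ≤ s.unpair.2 + 1 := Nat.pow_log_le_self 2 (by omega)

lemma pos_lt (s : ℕ) : pos s < 2 ^ lev s := by
  have h1 := Nat.lt_pow_succ_log_self (b := 2) (by norm_num) (s.unpair.2 + 1)
  have h2 := pow_lev_le s
  unfold pos
  unfold lev at *
  rw [pow_succ] at h1
  omega

lemma idx_self (s : ℕ) : idx s.unpair.1 (lev s) (pos s) = s := by
  have h2 := pow_lev_le s
  unfold idx pos
  rw [show 2 ^ lev s + (s.unpair.2 + 1 - 2 ^ lev s) - 1 = s.unpair.2 by omega, Nat.pair_unpair]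

lemma idx_fst (u n j : ℕ) : (idx u n j).unpair.1 = u := by simp [idx]

lemma lev_idx (u n j : ℕ) (hj : j < 2 ^ n) : lev (idx u n j) = n := by
  have h : 0 < 2 ^ n := by positivity
  unfold lev idx
  rw [Nat.unpair_pair]
  exact Nat.log_eq_of_pow_le_of_lt_pow (by simp only; omega) (by simp only; rw [pow_succ]; omega)

lemma pos_idx (u n j : ℕ) (hj : j < 2 ^ n) : pos (idx u n j) = j := by
  have h : 0 < 2 ^ n := by positivity
  unfold pos
  rw [lev_idx u n j hj]
  unfold idx
  rw [Nat.unpair_pair]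
  simp only
  omega

lemma le_idx (u n j : ℕ) : u ≤ idx u n j := Nat.left_le_pair _ _

lemma lev_le (s : ℕ) : lev s ≤ s := by
  have h1 := pow_lev_le s
  have h2 := Nat.unpair_right_le s
  have h3 : lev s < 2 ^ lev s := Nat.lt_two_pow_self
  omega

lemma sum_heap {E : Type*} [AddCommMonoid E] (h : ℕ → E) (K : ℕ) :
    ∑ v ∈ range (2 ^ K - 1), h v = ∑ n ∈ range K, ∑ j ∈ range (2 ^ n), h (2 ^ n + j - 1) := by
  induction K with
  | zero => simp
  | succ K ih =>
    have h0 : 0 < 2 ^ K := by positivity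
    rw [show 2 ^ (K + 1) - 1 = (2 ^ K - 1) + 2 ^ K by rw [pow_succ]; omega, Finset.sum_range_add, ih,
      Finset.sum_range_succ]
    congr 1
    exact Finset.sum_congr rfl fun j _ => by rw [show 2 ^ K - 1 + j = 2 ^ K + j - 1 by omega]

lemma sum_box {E : Type*} [AddCommMonoid E] (h : ℕ → E) (K : ℕ) :
    ∑ s ∈ box K, h s = ∑ u ∈ range K, ∑ n ∈ range K, ∑ j ∈ range (2 ^ n), h (idx u n j) := by
  unfold box
  rw [Finset.sum_image, Finset.sum_product]
  · exact Finset.sum_congr rfl fun u _ => sum_heap (fun v => h (Nat.pair u v)) K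
  · intro x _ y _ hxy
    have := Nat.pair_eq_pair.1 hxy
    exact Prod.ext this.1 this.2

lemma range_subset_box (K : ℕ) : range K ⊆ box K := by
  intro s hs
  have hs' := Finset.mem_range.1 hs
  have h1 := Nat.unpair_left_le s
  have h2 := Nat.unpair_right_le s
  have h3 : K < 2 ^ K := Nat.lt_two_pow_self
  exact Finset.mem_image.2 ⟨s.unpair, Finset.mem_product.2 ⟨Finset.mem_range.2 (by omega),
    Finset.mem_range.2 (by omega)⟩, Nat.pair_unpair s⟩

lemma xx_split (u n j : ℕ) : xx P u n j = xx P u (n + 1) (2 * j) + xx P u (n + 1) (2 * j + 1) := by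
  unfold xx
  rw [chi_split]
  congr 2 <;> push_cast <;> ring

lemma sum_range_two' {E : Type*} [AddCommMonoid E] (f : ℕ → E) (N : ℕ) :
    ∑ z ∈ range (2 * N), f z = ∑ j ∈ range N, (f (2 * j) + f (2 * j + 1)) := by
  induction N with
  | zero => simp
  | succ N ih =>
    rw [show 2 * (N + 1) = 2 * N + 1 + 1 by ring, Finset.sum_range_succ, Finset.sum_range_succ, ih,
      Finset.sum_range_succ, add_assoc]

lemma st_tr (u : ℕ) (v : ℝ) (c a : ℕ → ℕ → ℝ) (M : ℕ) :
    st P u M (tr ε v c a M) = v • xx P u 0 0 + ∑ n ∈ range M, ∑ j ∈ range (2 ^ n),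
      (c n j • ε • xx P u n j +
        a n j • ε • (xx P u (n + 1) (2 * j) - xx P u (n + 1) (2 * j + 1))) := by
  induction M with
  | zero => simp [st, tr]
  | succ M ih =>
    rw [Finset.sum_range_succ, ← add_assoc, ← ih]
    unfold st
    rw [pow_succ' 2 M, sum_range_two', ← Finset.sum_add_distrib]
    refine Finset.sum_congr rfl fun j _ => ?_
    rw [tr_even, tr_odd, xx_split u M j]
    module

lemma norm_sum_st [Fact (1 ≤ P)] (hP : P ≠ ∞) (hp : 1 ≤ P.toReal) (B : Finset ℕ) (M : ℕ)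
    (Φ : ℕ → ℕ → ℝ) :
    ‖∑ u ∈ B, st P u M (Φ u)‖ = lpn P.toReal B (fun u => nu P.toReal M (Φ u)) := by
  have h := norm_sum_chi hP (B ×ˢ range (2 ^ M)) (fun x => Φ x.1 x.2) M
    (fun x => zt x.1 * 2 ^ M + x.2) ?_
  · rw [Finset.sum_product, Finset.sum_product] at h
    unfold st xx
    rw [h]
    unfold lpn
    congr 1
    rw [Finset.sum_div]
    refine Finset.sum_congr rfl fun u _ => ?_
    rw [abs_of_nonneg (nu_nonneg _ _ _), nu_rpow hp]
  · rintro ⟨u, z⟩ hx ⟨u', z'⟩ hy hxy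
    have hz : z < 2 ^ M := Finset.mem_range.1 (Finset.mem_product.1 hx).2
    have hz' : z' < 2 ^ M := Finset.mem_range.1 (Finset.mem_product.1 hy).2
    simp only at hxy
    have h1 : (z : ℤ) < 2 ^ M := by exact_mod_cast hz
    have h2 : (z' : ℤ) < 2 ^ M := by exact_mod_cast hz'
    have h3 : (0 : ℤ) ≤ z := Int.natCast_nonneg z
    have h4 : (0 : ℤ) ≤ z' := Int.natCast_nonneg z'
    have h5 : zt u = zt u' := by
      rcases lt_trichotomy (zt u) (zt u') with h | h | h
      · nlinarith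
      · exact h
      · nlinarith
    rw [h5] at hxy
    exact Prod.ext (zt_inj h5) (by simp only; omega)

lemma sum_ww (u n : ℕ) (c : ℕ → ℝ) (hc : ∀ j, 2 ^ n ≤ j → c j = 0) :
    ∑ j ∈ range (2 ^ n), c j • ww P θ (idx u n j) =
      ∑ j ∈ range (2 ^ n), (fi θ n c j / sg P.toReal ^ n) • xx P (idx u n j) 0 0 := by
  have h1 : ∀ j ∈ range (2 ^ n), c j • ww P θ (idx u n j) = ∑ i ∈ range (2 ^ n),
      (c j * fi θ n (fun i => if i = j then 1 else 0) i / sg P.toReal ^ n) •
        xx P (idx u n i) 0 0 := by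
    intro j hj
    have hj' := Finset.mem_range.1 hj
    unfold ww
    rw [lev_idx u n j hj', pos_idx u n j hj', idx_fst, Finset.smul_sum]
    refine Finset.sum_congr rfl fun i _ => ?_
    rw [smul_smul, mul_div_assoc]
  rw [Finset.sum_congr rfl h1, Finset.sum_comm]
  refine Finset.sum_congr rfl fun i _ => ?_
  rw [← Finset.sum_smul, ← Finset.sum_div, ← fi_expand n hc]

lemma cc_zero {c : ℕ → ℝ} {K : ℕ} (hc : ∀ s, K ≤ s → c s = 0) {u : ℕ} (hu : K ≤ u) (n j : ℕ) :
    cc c u n j = 0 := by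
  unfold cc
  split_ifs
  · exact hc _ (hu.trans (le_idx u n j))
  · rfl

lemma cc_supp (c : ℕ → ℝ) (u n j : ℕ) (h : 2 ^ n ≤ j) : cc c u n j = 0 := if_neg (by omega)

lemma rep (c a : ℕ → ℝ) (K : ℕ) (hc : ∀ s, K ≤ s → c s = 0) (ha : ∀ s, K ≤ s → a s = 0) :
    ∑ s ∈ range K, (c s • yy P θ ε s + a s • gg P ε s) =
      ∑ u ∈ box K, st P u K (tr ε (vv P.toReal θ c u) (cc c u) (cc a u) K) := by
  rw [Finset.sum_subset (range_subset_box K) (fun s _ hs => by
    rw [hc s (by simpa using hs), ha s (by simpa using hs)]; simp)]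
  simp only [st_tr]
  rw [Finset.sum_add_distrib (s := box K) (f := fun u => vv P.toReal θ c u • xx P u 0 0),
    ← Finset.sum_subset (range_subset_box K) (f := fun u => ∑ n ∈ range K, ∑ j ∈ range (2 ^ n),
      (cc c u n j • ε • xx P u n j +
        cc a u n j • ε • (xx P u (n + 1) (2 * j) - xx P u (n + 1) (2 * j + 1))))
      (fun u _ hu => Finset.sum_eq_zero fun n _ => Finset.sum_eq_zero fun j _ => by
        rw [cc_zero hc (by simpa using hu), cc_zero ha (by simpa using hu)]; simp),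
    sum_box, sum_box, ← Finset.sum_add_distrib]
  refine Finset.sum_congr rfl fun u _ => ?_
  rw [← Finset.sum_add_distrib]
  refine Finset.sum_congr rfl fun n _ => ?_
  have h1 : ∑ j ∈ range (2 ^ n), vv P.toReal θ c (idx u n j) • xx P (idx u n j) 0 0 =
      ∑ j ∈ range (2 ^ n), cc c u n j • ww P θ (idx u n j) := by
    rw [sum_ww u n _ (cc_supp c u n)]
    refine Finset.sum_congr rfl fun j hj => ?_
    have hj' := Finset.mem_range.1 hj
    unfold vv
    rw [lev_idx u n j hj', pos_idx u n j hj', idx_fst]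
  rw [h1, ← Finset.sum_add_distrib]
  refine Finset.sum_congr rfl fun j hj => ?_
  have hj' := Finset.mem_range.1 hj
  unfold yy gg cc
  rw [lev_idx u n j hj', pos_idx u n j hj', idx_fst, if_pos hj', if_pos hj']
  module

lemma sum_vv {p : ℝ} (hp : 1 ≤ p) (c : ℕ → ℝ) (K : ℕ) (hc : ∀ s, K ≤ s → c s = 0) :
    ∑ u ∈ box K, |vv p θ c u| ^ p =
      ∑ u ∈ box K, ∑ n ∈ range K, nu p n (fi θ n (cc c u n)) ^ p := by
  rw [← Finset.sum_subset (range_subset_box K)
    (f := fun u => ∑ n ∈ range K, nu p n (fi θ n (cc c u n)) ^ p) ?_, sum_box]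
  · refine Finset.sum_congr rfl fun u _ => Finset.sum_congr rfl fun n _ => ?_
    rw [nu_rpow hp, Finset.sum_div]
    refine Finset.sum_congr rfl fun j hj => ?_
    have hj' := Finset.mem_range.1 hj
    unfold vv
    rw [lev_idx u n j hj', pos_idx u n j hj', idx_fst, abs_div,
      abs_of_pos (pow_pos (sg_pos p) n), Real.div_rpow (abs_nonneg _) (pow_pos (sg_pos p) n).le,
      sg_pow_rpow hp]
  · intro u _ hu
    refine Finset.sum_eq_zero fun n _ => ?_
    have h1 : cc c u n = fun j => 0 * cc c u n j := by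
      funext j; rw [cc_zero hc (by simpa using hu)]; simp
    have h2 : fi θ n (cc c u n) = fun _ => 0 := by
      funext z; rw [h1, fi_smul, zero_mul]
    rw [h2, nu_const hp, abs_zero, Real.zero_rpow (by linarith)]

lemma exists_tau (m u : ℕ) : ∃ τ : ℕ, ∀ (c : ℕ → ℝ),
    cc (fun s => if s < m then c s else 0) u = hcut τ (cc c u) := by
  have hex : ∃ v, m ≤ Nat.pair u v := ⟨m, Nat.right_le_pair u m⟩
  have key : ∀ v, Nat.pair u v < m ↔ v < Nat.find hex := by
    intro v
    constructor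
    · intro h
      by_contra hc
      have h1 := Nat.find_spec hex
      rcases (not_lt.1 hc).eq_or_lt with h2 | h2
      · rw [h2] at h1; omega
      · have := Nat.pair_lt_pair_right u h2; omega
    · intro h
      exact not_le.1 (Nat.find_min hex h)
  refine ⟨Nat.find hex + 1, fun c => ?_⟩
  funext n j
  have h0 : 0 < 2 ^ n := by positivity
  simp only [cc, hcut, cut, idx, key]
  split_ifs <;> first | rfl | omega

theorem pair_bound [Fact (1 ≤ P)] (hP : P ≠ ∞) (hp : 1 < P.toReal) (h1 : 1 < θ)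
    (h2 : θ * sg P.toReal < 2) (hε : 0 ≤ ε) (hεk : ε * kk θ ≤ 1 / 2) :
    ∃ C : ℝ, 0 ≤ C ∧ ∀ (c a : ℕ → ℝ) (K : ℕ),
      (∀ m ≤ K, ‖∑ s ∈ range m, (c s • yy P θ ε s + a s • gg P ε s)‖ ≤
        C * ‖∑ s ∈ range K, (c s • yy P θ ε s + a s • gg P ε s)‖) ∧
      ∀ s < K, |ε * a s| ≤ sg P.toReal ^ (lev s + 1) *
        (2 * ‖∑ s ∈ range K, (c s • yy P θ ε s + a s • gg P ε s)‖) := by
  obtain ⟨C, hC0, hC⟩ := tree_bound (ι := ℕ) hp h1 h2 hε hεk
  refine ⟨C, hC0, fun c a K => ?_⟩
  have trunc : ∀ (c a : ℕ → ℝ) (m K : ℕ), m ≤ K →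
      ∑ s ∈ range m, (c s • yy P θ ε s + a s • gg P ε s) =
      ∑ s ∈ range K, ((if s < m then c s else 0) • yy P θ ε s +
        (if s < m then a s else 0) • gg P ε s) := by
    intro c a m K h
    rw [← Finset.sum_subset (Finset.range_mono h)]
    · refine Finset.sum_congr rfl fun s hs => ?_
      rw [if_pos (Finset.mem_range.1 hs), if_pos (Finset.mem_range.1 hs)]
    · intro s _ hs
      rw [if_neg (by simpa using hs), if_neg (by simpa using hs)]; simp
  set c' : ℕ → ℝ := fun s => if s < K then c s else 0 with hc'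
  set a' : ℕ → ℝ := fun s => if s < K then a s else 0 with ha'
  have hc0 : ∀ s, K ≤ s → c' s = 0 := fun s hs => if_neg (by omega)
  have ha0 : ∀ s, K ≤ s → a' s = 0 := fun s hs => if_neg (by omega)
  have e1 : ‖∑ s ∈ range K, (c s • yy P θ ε s + a s • gg P ε s)‖ = lpn P.toReal (box K)
      (fun u => nu P.toReal K (tr ε (vv P.toReal θ c' u) (cc c' u) (cc a' u) K)) := by
    rw [trunc c a K K le_rfl, rep c' a' K hc0 ha0, norm_sum_st hP hp.le]
  constructor
  · intro m hm
    choose τ hτ using exists_tau m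
    have e2 : ∑ s ∈ range m, (c s • yy P θ ε s + a s • gg P ε s) =
        ∑ s ∈ range m, (c' s • yy P θ ε s + a' s • gg P ε s) := by
      refine Finset.sum_congr rfl fun s hs => ?_
      have := Finset.mem_range.1 hs
      simp only [hc', ha']
      rw [if_pos (by omega), if_pos (by omega)]
    have hc1 : ∀ s, K ≤ s → (if s < m then c' s else 0) = 0 := fun s hs => if_neg (by omega)
    have ha1 : ∀ s, K ≤ s → (if s < m then a' s else 0) = 0 := fun s hs => if_neg (by omega)
    rw [e2, trunc c' a' m K hm, rep _ _ K hc1 ha1, norm_sum_st hP hp.le, e1]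
    have hs := sum_vv (θ := θ) hp.le _ K hc1
    simp only [hτ] at hs ⊢
    exact (hC (box K) K (vv P.toReal θ c') _ (cc c') (cc a') τ (cc_supp c')
      (sum_vv hp.le c' K hc0) hs).1
  · intro s hs
    choose τ hτ using exists_tau 0
    have hs0 := sum_vv (θ := θ) hp.le (fun s => if s < 0 then c' s else 0) K (by simp)
    simp only [hτ] at hs0
    have e2 := (hC (box K) K (vv P.toReal θ c') _ (cc c') (cc a') τ (cc_supp c')
      (sum_vv hp.le c' K hc0) hs0).2 s.unpair.1
      (range_subset_box K (Finset.mem_range.2 ((Nat.unpair_left_le s).trans_lt hs))) (lev s)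
      ((lev_le s).trans_lt hs) (pos s) (pos_lt s)
    rw [← e1] at e2
    unfold cc at e2
    rw [if_pos (pos_lt s), idx_self] at e2
    simp only [ha'] at e2
    rwa [if_pos hs] at e2

end Pool.Agent.H103Z.Nb
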