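import Pool.Agent.H103Z.NbCut

/-!
Step functions on a dyadic tree built from a constant, indicator terms and Haar terms; the
discrete form of the partial sum estimate.
-/

open Finset

namespace Pool.Agent.H103Z.Nb

/-- level `n` values of `v + ε ∑ c (indicators) + ε ∑ a (Haar functions)` -/
noncomputable def tr (ε v : ℝ) (c a : ℕ → ℕ → ℝ) : ℕ → ℕ → ℝ
  | 0 => fun _ => v
  | n + 1 => fun z => tr ε v c a n (z / 2) + ε * c n (z / 2) +
      ε * a n (z / 2) * (if z % 2 = 0 then 1 else -1)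

/-- coefficients cut at the heap position `τ` -/
noncomputable def hcut (τ : ℕ) (c : ℕ → ℕ → ℝ) (n : ℕ) : ℕ → ℝ := cut (τ - 2 ^ n) (c n)

/-- a constant -/
noncomputable def kk (θ : ℝ) : ℝ := 2 * θ / (θ - 1) * (1 - θ⁻¹)⁻¹

variable {p θ ε : ℝ}

lemma tr_even (v : ℝ) (c a : ℕ → ℕ → ℝ) (n j : ℕ) :
    tr ε v c a (n + 1) (2 * j) = tr ε v c a n j + ε * c n j + ε * a n j := by
  simp only [tr]
  rw [show 2 * j / 2 = j by omega, if_pos (by omega), mul_one]

lemma tr_odd (v : ℝ) (c a : ℕ → ℕ → ℝ) (n j : ℕ) :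
    tr ε v c a (n + 1) (2 * j + 1) = tr ε v c a n j + ε * c n j - ε * a n j := by
  simp only [tr]
  rw [show (2 * j + 1) / 2 = j by omega, if_neg (by omega)]
  ring

lemma dn_tr (v : ℝ) (c a : ℕ → ℕ → ℝ) (n : ℕ) :
    dn (tr ε v c a (n + 1)) = fun j => tr ε v c a n j + ε * c n j := by
  funext j
  rw [dn, tr_even, tr_odd]; ring

lemma av_tr (v : ℝ) (c a : ℕ → ℕ → ℝ) (n d q : ℕ) :
    av d (tr ε v c a (n + d)) q = tr ε v c a n q + ε * ∑ e ∈ range d, av e (c (n + e)) q := by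
  induction d with
  | zero => simp
  | succ d ih =>
    rw [av_succ, ← add_assoc, dn_tr, av_add, ih, av_smul, Finset.sum_range_succ]
    ring

lemma tr_shift (v v' : ℝ) (c a : ℕ → ℕ → ℝ) (n z : ℕ) :
    tr ε v' c a n z = tr ε v c a n z + (v' - v) := by
  induction n generalizing z with
  | zero => simp [tr]
  | succ n ih => simp only [tr]; rw [ih]; ring

lemma kk_nonneg (h1 : 1 < θ) : 0 ≤ kk θ := by
  have : θ⁻¹ < 1 := inv_lt_one_of_one_lt₀ h1
  have h : 0 < θ - 1 := by linarith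
  have h' : 0 < 1 - θ⁻¹ := by linarith
  unfold kk
  positivity

lemma nu_tr_back (hp : 1 ≤ p) (h1 : 1 < θ) (hε : 0 ≤ ε) (v : ℝ) (c a : ℕ → ℕ → ℝ) (M : ℕ) (Bd : ℝ)
    (hB0 : 0 ≤ Bd) (hB : ∀ l < M, nu p l (fi θ l (c l)) ≤ Bd) (n : ℕ) (hn : n ≤ M) :
    nu p n (tr ε v c a n) ≤ nu p M (tr ε v c a M) + ε * kk θ * Bd := by
  obtain ⟨d, rfl⟩ := Nat.exists_eq_add_of_le hn
  have hi : 0 ≤ θ⁻¹ := by positivity
  have hi1 : θ⁻¹ < 1 := inv_lt_one_of_one_lt₀ h1
  have e1 : nu p n (tr ε v c a n) ≤ nu p n (av d (tr ε v c a (n + d))) +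
      nu p n (fun q => ε * ∑ e ∈ range d, av e (c (n + e)) q) := by
    refine nu_le_add hp fun q _ => ?_
    have : tr ε v c a n q = av d (tr ε v c a (n + d)) q - ε * ∑ e ∈ range d, av e (c (n + e)) q := by
      rw [av_tr]; ring
    rw [this]
    exact abs_sub _ _
  rw [nu_smul hp, abs_of_nonneg hε] at e1
  have e2 := nu_sum_le hp n (range d) (fun e => av e (c (n + e)))
  have hK : 0 ≤ 2 * θ / (θ - 1) := div_nonneg (by linarith) (by linarith)
  have e3 : ∑ e ∈ range d, nu p n (av e (c (n + e))) ≤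
      ∑ e ∈ range d, 2 * θ / (θ - 1) * (θ⁻¹) ^ e * Bd := by
    refine Finset.sum_le_sum fun e he => (nu_av_le hp h1 _ n e (n + e) rfl).trans ?_
    exact mul_le_mul_of_nonneg_left (hB _ (by have := Finset.mem_range.1 he; omega))
      (mul_nonneg hK (pow_nonneg hi _))
  have e4 : ∑ e ∈ range d, (θ⁻¹) ^ e ≤ (1 - θ⁻¹)⁻¹ := by
    rw [← tsum_geometric_of_lt_one hi hi1]
    exact (summable_geometric_of_lt_one hi hi1).sum_le_tsum _ fun i _ => pow_nonneg hi i
  have e5 : ∑ e ∈ range d, 2 * θ / (θ - 1) * (θ⁻¹) ^ e * Bd ≤ kk θ * Bd := by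
    rw [← Finset.sum_mul, ← Finset.mul_sum]
    exact mul_le_mul_of_nonneg_right (mul_le_mul_of_nonneg_left e4 hK) hB0
  have e6 := mul_le_mul_of_nonneg_left (e2.trans (e3.trans e5)) hε
  have e7 := nu_av hp n d (tr ε v c a (n + d))
  linarith

lemma tr_hcut_eq (v : ℝ) (c a : ℕ → ℕ → ℝ) (τ n : ℕ) (h : 2 ^ n ≤ τ) (z : ℕ) (hz : z < 2 ^ n) :
    tr ε v (hcut τ c) (hcut τ a) n z = tr ε v c a n z := by
  induction n generalizing z with
  | zero => rfl
  | succ n ih =>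
    rw [pow_succ] at h hz
    simp only [tr, hcut, cut]
    rw [if_pos (show z / 2 < τ - 2 ^ n by omega), if_pos (show z / 2 < τ - 2 ^ n by omega)]
    have := ih (by omega) (z / 2) (by omega)
    rw [this]

lemma nu_tr_hcut (hp : 1 ≤ p) (v : ℝ) (c a : ℕ → ℕ → ℝ) (τ M : ℕ) (S : ℝ)
    (hS : ∀ n ≤ M, nu p n (tr ε v c a n) ≤ S) :
    nu p M (tr ε v (hcut τ c) (hcut τ a) M) ≤ 2 * S := by
  induction M with
  | zero =>
    have h := hS 0 le_rfl
    have h' := nu_nonneg p 0 (tr ε v c a 0)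
    have : tr ε v (hcut τ c) (hcut τ a) 0 = tr ε v c a 0 := rfl
    rw [this]; linarith
  | succ M ih =>
    rcases Nat.lt_or_ge (2 ^ M) τ with h | h
    · have e1 : nu p (M + 1) (tr ε v (hcut τ c) (hcut τ a) (M + 1)) ≤
          nu p (M + 1) (tr ε v c a (M + 1)) + nu p (M + 1) (fun z => tr ε v c a M (z / 2)) := by
        refine nu_le_add hp fun z hz => ?_
        rw [pow_succ] at hz
        have e := tr_hcut_eq (ε := ε) v c a τ M h.le (z / 2) (by omega)
        simp only [tr, hcut, cut] at e ⊢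
        rw [e]
        split_ifs <;> simp
      rw [nu_up hp] at e1
      linarith [hS M (by omega), hS (M + 1) le_rfl]
    · have e : tr ε v (hcut τ c) (hcut τ a) (M + 1) =
          fun z => tr ε v (hcut τ c) (hcut τ a) M (z / 2) := by
        funext z
        simp only [tr, hcut, cut]
        rw [if_neg (show ¬ z / 2 < τ - 2 ^ M by omega), if_neg (show ¬ z / 2 < τ - 2 ^ M by omega)]
        ring
      rw [e, nu_up hp]
      exact ih fun n hn => hS n (by omega)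

lemma abs_coef_le (hp : 1 ≤ p) (v : ℝ) (c a : ℕ → ℕ → ℝ) (n j : ℕ) (hj : j < 2 ^ n) :
    |ε * a n j| ≤ sg p ^ (n + 1) * nu p (n + 1) (tr ε v c a (n + 1)) := by
  have h1 := abs_le_nu hp (n := n + 1) (tr ε v c a (n + 1)) (j := 2 * j) (by rw [pow_succ]; omega)
  have h2 := abs_le_nu hp (n := n + 1) (tr ε v c a (n + 1)) (j := 2 * j + 1)
    (by rw [pow_succ]; omega)
  have e : ε * a n j = (tr ε v c a (n + 1) (2 * j) - tr ε v c a (n + 1) (2 * j + 1)) / 2 := by
    rw [tr_even, tr_odd]; ring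
  rw [e, abs_div, abs_two]
  linarith [abs_sub (tr ε v c a (n + 1) (2 * j)) (tr ε v c a (n + 1) (2 * j + 1))]

theorem tree_bound {ι : Type*} (hp : 1 < p) (h1 : 1 < θ) (h2 : θ * sg p < 2) (hε : 0 ≤ ε)
    (hεk : ε * kk θ ≤ 1 / 2) :
    ∃ C : ℝ, 0 ≤ C ∧ ∀ (B : Finset ι) (M : ℕ) (v v' : ι → ℝ) (c a : ι → ℕ → ℕ → ℝ) (τ : ι → ℕ),
      (∀ u n j, 2 ^ n ≤ j → c u n j = 0) →
      (∑ u ∈ B, |v u| ^ p = ∑ u ∈ B, ∑ n ∈ range M, nu p n (fi θ n (c u n)) ^ p) →
      (∑ u ∈ B, |v' u| ^ p = ∑ u ∈ B, ∑ n ∈ range M, nu p n (fi θ n (hcut (τ u) (c u) n)) ^ p) →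
      lpn p B (fun u => nu p M (tr ε (v' u) (hcut (τ u) (c u)) (hcut (τ u) (a u)) M)) ≤
        C * lpn p B (fun u => nu p M (tr ε (v u) (c u) (a u) M)) ∧
      ∀ u ∈ B, ∀ n < M, ∀ j < 2 ^ n, |ε * a u n j| ≤
        sg p ^ (n + 1) * (2 * lpn p B (fun u => nu p M (tr ε (v u) (c u) (a u) M))) := by
  obtain ⟨K, hK1, hK⟩ := nu_fi_cut hp h1 h2
  refine ⟨2 * (1 + 1) + (2 * K + 2), by positivity, fun B M v v' c a τ hc hv hv' => ?_⟩
  set φ : ι → ℝ := fun u => nu p M (tr ε (v u) (c u) (a u) M) with hφ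
  set β : ι → ℝ := fun u => lpn p (range M) (fun n => nu p n (fi θ n (c u n))) with hβ
  set β' : ι → ℝ := fun u => lpn p (range M) (fun n => nu p n (fi θ n (hcut (τ u) (c u) n)))
    with hβ'
  have hβ0 : ∀ u, 0 ≤ β u := fun u => lpn_nonneg _ _ _
  have hφ0 : ∀ u, 0 ≤ φ u := fun u => nu_nonneg _ _ _
  have hk0 : 0 ≤ ε * kk θ := mul_nonneg hε (kk_nonneg h1)
  have hback : ∀ u, ∀ n ≤ M, nu p n (tr ε (v u) (c u) (a u) n) ≤ φ u + ε * kk θ * β u := by
    intro u n hn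
    refine nu_tr_back hp.le h1 hε (v u) (c u) (a u) M (β u) (hβ0 u) (fun l hl => ?_) n hn
    exact (le_abs_self _).trans
      (abs_le_lpn hp.le (fun n => nu p n (fi θ n (c u n))) (Finset.mem_range.2 hl))
  have hsum : ∀ (w : ι → ℝ) (d : ι → ℕ → ℕ → ℝ),
      (∑ u ∈ B, |w u| ^ p = ∑ u ∈ B, ∑ n ∈ range M, nu p n (fi θ n (d u n)) ^ p) →
      lpn p B w = lpn p B (fun u => lpn p (range M) (fun n => nu p n (fi θ n (d u n)))) := by
    intro w d h
    have e : ∑ u ∈ B, |w u| ^ p =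
        ∑ u ∈ B, |lpn p (range M) (fun n => nu p n (fi θ n (d u n)))| ^ p := by
      rw [h]
      refine Finset.sum_congr rfl fun u _ => ?_
      rw [abs_of_nonneg (lpn_nonneg _ _ _), lpn_rpow hp.le]
      exact Finset.sum_congr rfl fun n _ => by rw [abs_of_nonneg (nu_nonneg _ _ _)]
    exact le_antisymm (lpn_le_of_sum hp.le e.le) (lpn_le_of_sum hp.le e.ge)
  have e1 : lpn p B v = lpn p B β := hsum v c hv
  have e2 : lpn p B v' = lpn p B β' := hsum v' (fun u => hcut (τ u) (c u)) hv'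
  have e3 : lpn p B v ≤ lpn p B φ + lpn p B (fun u => ε * kk θ * β u) := by
    refine lpn_le_add hp.le fun u _ => ?_
    have := hback u 0 (Nat.zero_le _)
    rw [show tr ε (v u) (c u) (a u) 0 = fun _ => v u from rfl, nu_const hp.le] at this
    exact this.trans (add_le_add (le_abs_self _) (le_abs_self _))
  rw [lpn_smul' hp.le _ hk0, e1] at e3
  have hLβ := lpn_nonneg p B β
  have hLφ := lpn_nonneg p B φ
  have e4 : lpn p B β ≤ 2 * lpn p B φ := by nlinarith
  have e5 : lpn p B β' ≤ K * lpn p B β := by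
    rw [← lpn_smul' hp.le _ (by linarith : 0 ≤ K)]
    refine lpn_mono' hp.le fun u _ => ?_
    rw [abs_of_nonneg (lpn_nonneg _ _ _), hβ]
    simp only
    rw [← lpn_smul' hp.le _ (by linarith : 0 ≤ K)]
    refine lpn_mono' hp.le fun n _ => ?_
    rw [abs_of_nonneg (nu_nonneg _ _ _)]
    rcases Nat.lt_or_ge (τ u - 2 ^ n) (2 ^ n) with h | h
    · exact hK n _ _ h
    · have : hcut (τ u) (c u) n = c u n := by
        funext j
        simp only [hcut, cut]
        split_ifs with hj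
        · rfl
        · exact (hc u n j (by omega)).symm
      rw [this]
      exact le_mul_of_one_le_left (nu_nonneg _ _ _) hK1
  constructor
  · have a1 : lpn p B (fun u => nu p M (tr ε (v' u) (hcut (τ u) (c u)) (hcut (τ u) (a u)) M)) ≤
        lpn p B (fun u => 2 * (φ u + ε * kk θ * β u)) + lpn p B (fun u => v' u - v u) := by
      refine lpn_le_add hp.le fun u _ => ?_
      rw [abs_of_nonneg (nu_nonneg _ _ _)]
      have b1 := nu_tr_hcut hp.le (v u) (c u) (a u) (τ u) M _ (hback u)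
      have b2 : nu p M (tr ε (v' u) (hcut (τ u) (c u)) (hcut (τ u) (a u)) M) ≤
          nu p M (tr ε (v u) (hcut (τ u) (c u)) (hcut (τ u) (a u)) M) +
            nu p M (fun _ => v' u - v u) :=
        nu_le_add hp.le fun z _ => by rw [tr_shift (v u) (v' u)]; exact abs_add_le _ _
      rw [nu_const hp.le] at b2
      exact b2.trans (add_le_add (b1.trans (le_abs_self _)) le_rfl)
    have a2 : lpn p B (fun u => v' u - v u) ≤ lpn p B v' + lpn p B v :=
      lpn_le_add hp.le fun u _ => abs_sub _ _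
    have a3 := lpn_add_le hp.le B φ (fun u => ε * kk θ * β u)
    rw [lpn_smul' hp.le _ hk0] at a3
    rw [lpn_smul' hp.le _ two_pos.le] at a1
    rw [e1, e2] at a2
    have a4 : ε * kk θ * lpn p B β ≤ lpn p B φ := by nlinarith
    have a5 : K * lpn p B β ≤ K * (2 * lpn p B φ) := mul_le_mul_of_nonneg_left e4 (by linarith)
    nlinarith
  · intro u hu n hn j hj
    refine (abs_coef_le hp.le (v u) (c u) (a u) n j hj).trans
      (mul_le_mul_of_nonneg_left ((hback u (n + 1) hn).trans ?_) (pow_pos (sg_pos p) _).le)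
    have b1 := (le_abs_self _).trans (abs_le_lpn hp.le φ hu)
    have b2 := (le_abs_self _).trans (abs_le_lpn hp.le β hu)
    have b3 := hβ0 u
    nlinarith

end Pool.Agent.H103Z.Nb
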