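import Mathlib

set_option autoImplicit false

namespace Pool.Agent.H103Z.RRank

open Classical

section Ev
variable {V W K : Type} [Field K]

/-- value of a sum of monomials -/
def ev (ts : List (List V)) (g : V → K) : K := (ts.map fun t => (t.map g).prod).sum

/-- product of two sums of monomials -/
def mul (as bs : List (List V)) : List (List V) := as.flatMap fun a => bs.map fun b => a ++ b

@[simp] lemma ev_nil (g : V → K) : ev [] g = 0 := rfl

@[simp] lemma ev_cons (t : List V) (ts : List (List V)) (g : V → K) :
    ev (t :: ts) g = (t.map g).prod + ev ts g := by simp [ev]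

lemma ev_append (as bs : List (List V)) (g : V → K) : ev (as ++ bs) g = ev as g + ev bs g := by
  simp [ev]

lemma ev_map (ts : List (List V)) (φ : V → W) (g : W → K) :
    ev (ts.map (List.map φ)) g = ev ts (fun v => g (φ v)) := by
  induction ts with
  | nil => rfl
  | cons t ts ih => simp [ih, Function.comp_def]

lemma ev_congr {ts : List (List V)} {g g' : V → K} (h : ∀ t ∈ ts, ∀ v ∈ t, g v = g' v) :
    ev ts g = ev ts g' := by
  unfold ev
  congr 1
  refine List.map_congr_left fun t ht => ?_
  rw [List.map_congr_left (h t ht)]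

lemma ev_mul (as bs : List (List V)) (g : V → K) : ev (mul as bs) g = ev as g * ev bs g := by
  induction as with
  | nil => simp [mul]
  | cons a as ih =>
    have e : mul (a :: as) bs = (bs.map fun b => a ++ b) ++ mul as bs := by simp [mul]
    have e2 : ev (bs.map fun b => a ++ b) g = (a.map g).prod * ev bs g := by
      induction bs with
      | nil => simp
      | cons b bs ihb =>
        clear ihb ih e
        induction bs generalizing b with
        | nil => simp
        | cons c cs ihc =>
          have := ihc c
          simp only [List.map_cons, ev_cons, List.map_append, List.prod_append] at this ⊢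
          rw [this]; ring
    rw [e, ev_append, ih, e2, ev_cons]
    ring

/-- the monomials without `u` -/
noncomputable def T0 (u : V) (ts : List (List V)) : List (List V) := ts.filter fun t => u ∉ t

/-- the monomials with `u` -/
noncomputable def T1 (u : V) (ts : List (List V)) : List (List V) := ts.filter fun t => u ∈ t

/-- the cofactors of `u` -/
noncomputable def TB (u : V) (ts : List (List V)) : List (List V) :=
  (T1 u ts).map fun t => t.erase u

lemma ev_T1 (u : V) (ts : List (List V)) (g : V → K) :
    ev (T1 u ts) g = g u * ev (TB u ts) g := by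
  induction ts with
  | nil => simp [T1, TB]
  | cons t ts ih =>
    by_cases h : u ∈ t
    · have e1 : T1 u (t :: ts) = t :: T1 u ts := by simp [T1, h]
      have e2 : TB u (t :: ts) = t.erase u :: TB u ts := by simp [TB, e1]
      rw [e1, e2, ev_cons, ev_cons, ih, ← List.prod_map_erase g h]
      ring
    · have e1 : T1 u (t :: ts) = T1 u ts := by simp [T1, h]
      have e2 : TB u (t :: ts) = TB u ts := by simp [TB, e1]
      rw [e1, e2, ih]

lemma ev_split (u : V) (ts : List (List V)) (g : V → K) :
    ev ts g = ev (T0 u ts) g + g u * ev (TB u ts) g := by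
  rw [← ev_T1]
  induction ts with
  | nil => simp [T0, T1]
  | cons t ts ih =>
    by_cases h : u ∈ t
    · have e1 : T1 u (t :: ts) = t :: T1 u ts := by simp [T1, h]
      have e0 : T0 u (t :: ts) = T0 u ts := by simp [T0, h]
      rw [e1, e0, ev_cons, ev_cons, ih]; ring
    · have e1 : T1 u (t :: ts) = T1 u ts := by simp [T1, h]
      have e0 : T0 u (t :: ts) = t :: T0 u ts := by simp [T0, h]
      rw [e1, e0, ev_cons, ev_cons, ih]; ring

lemma mem_T0 {u : V} {ts : List (List V)} {t : List V} : t ∈ T0 u ts ↔ t ∈ ts ∧ u ∉ t := by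
  simp [T0]

lemma mem_T1 {u : V} {ts : List (List V)} {t : List V} : t ∈ T1 u ts ↔ t ∈ ts ∧ u ∈ t := by
  simp [T1]

end Ev

variable {d : ℕ}

/-- `f` depends only on the coordinates in `I` -/
def Dep {Q : Fin d → Type} {K : Type} (I : Finset (Fin d)) (f : (∀ α, Q α) → K) : Prop :=
  ∀ x y : ∀ α, Q α, (∀ α ∈ I, x α = y α) → f x = f y

/-- a box -/
def Box {Q : Fin d → Type} (X : ∀ α, Finset (Q α)) : Set (∀ α, Q α) := {x | ∀ α, x α ∈ X α}

/-- the factors of each monomial depend on disjoint sets of coordinates -/
def Valid {V : Type} (lev : V → Finset (Fin d)) (ts : List (List V)) : Prop :=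
  ∀ t ∈ ts, t.Pairwise fun a b => Disjoint (lev a) (lev b)

/-- the equation has a solution on the set `A` -/
def Solv {V K : Type} [Field K] {Q : Fin d → Type} (unk : V → Prop) (lev : V → Finset (Fin d))
    (ts : List (List V)) (m : V → (∀ α, Q α) → K) (A : Set (∀ α, Q α)) : Prop :=
  ∃ w : V → (∀ α, Q α) → K, (∀ v, ¬ unk v → w v = m v) ∧ (∀ v, Dep (lev v) (w v)) ∧
    ∀ x ∈ A, ev ts (fun v => w v x) = 0

lemma Solv.mono {V K : Type} [Field K] {Q : Fin d → Type} {unk : V → Prop}
    {lev : V → Finset (Fin d)} {ts : List (List V)} {m : V → (∀ α, Q α) → K}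
    {A B : Set (∀ α, Q α)} (h : Solv unk lev ts m A) (hB : B ⊆ A) : Solv unk lev ts m B := by
  obtain ⟨w, h1, h2, h3⟩ := h
  exact ⟨w, h1, h2, fun x hx => h3 x (hB hx)⟩

/-- unsolvability is witnessed on a box of bounded size -/
def Good {V : Type} (unk : V → Prop) (lev : V → Finset (Fin d)) (ts : List (List V)) : Prop :=
  ∃ N : ℕ, ∀ (K : Type) [Field K] (Q : Fin d → Type) (m : V → (∀ α, Q α) → K),
    (∀ v, ¬ unk v → Dep (lev v) (m v)) → ¬ Solv unk lev ts m Set.univ →
    ∃ X : ∀ α, Finset (Q α), (∀ α, (X α).card ≤ N) ∧ ¬ Solv unk lev ts m (Box X)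

lemma helly {K Y : Type} [Field K] {n : ℕ} (c : Y → Fin n → K) :
    ∃ s : Finset Y, s.card ≤ n ∧ ∀ a : Fin n → K, (∀ y ∈ s, ∑ i, c y i * a i = 0) →
      ∀ x, ∑ i, c x i * a i = 0 := by
  obtain ⟨b, hb, hspan, hli⟩ := exists_linearIndependent K (Set.range c)
  have hfin : b.Finite := hli.setFinite
  haveI : Fintype b := hfin.fintype
  have hcard : Fintype.card b ≤ n := by
    simpa using hli.fintype_card_le_finrank
  choose f hf using fun z : b => hb z.2
  refine ⟨Finset.univ.image f, Finset.card_image_le.trans (by simpa using hcard), fun a ha x => ?_⟩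
  let φ : (Fin n → K) →ₗ[K] K :=
    { toFun := fun z => ∑ i, z i * a i
      map_add' := fun z z' => by simp [add_mul, Finset.sum_add_distrib]
      map_smul' := fun r z => by simp [Finset.mul_sum, mul_assoc] }
  have h1 : Submodule.span K b ≤ LinearMap.ker φ := by
    rw [Submodule.span_le]
    intro z hz
    have := ha (f ⟨z, hz⟩) (Finset.mem_image_of_mem _ (Finset.mem_univ _))
    rw [hf] at this
    exact this
  have h2 : c x ∈ Submodule.span K b := by
    rw [hspan]; exact Submodule.subset_span ⟨x, rfl⟩
  exact h1 h2

lemma good_base {V : Type} (unk : V → Prop) (lev : V → Finset (Fin d)) (ts : List (List V))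
    (h0 : ∀ v, unk v → (lev v).card ≤ 0) : Good unk lev ts := by
  refine ⟨ts.length, fun K _ Q m hm hs => ?_⟩
  let c : (∀ α, Q α) → Fin ts.length → K := fun x i =>
    ((ts.get i).map fun v => if unk v then 1 else m v x).prod
  obtain ⟨s, hcard, hs'⟩ := helly c
  refine ⟨fun α => s.image fun y => y α, fun α => Finset.card_image_le.trans hcard, ?_⟩
  rintro ⟨w, h1, h2, h3⟩
  refine hs ⟨w, h1, h2, fun x _ => ?_⟩
  let a : Fin ts.length → K := fun i =>
    ((ts.get i).map fun v => if unk v then w v x else 1).prod
  have key : ∀ y, ev ts (fun v => w v y) = ∑ i, c y i * a i := by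
    intro y
    have e : ev ts (fun v => w v y) = ∑ i : Fin ts.length, ((ts.get i).map fun v => w v y).prod := by
      unfold ev
      rw [← List.sum_ofFn]
      congr 1
      conv_lhs => rw [← List.ofFn_get ts]
      rw [List.map_ofFn]
      rfl
    rw [e]
    refine Finset.sum_congr rfl fun i _ => ?_
    simp only [c, a]
    rw [← List.prod_map_mul]
    congr 1
    refine List.map_congr_left fun v _ => ?_
    by_cases hv : unk v
    · simp only [hv, if_true, one_mul]
      refine h2 v y x fun α hα => ?_
      have := h0 v hv
      rw [Nat.le_zero, Finset.card_eq_zero] at this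
      rw [this] at hα
      simp at hα
    · simp [hv, h1 v hv]
  rw [key]
  refine hs' a (fun y hy => ?_) x
  rw [← key]
  exact h3 y fun α => Finset.mem_image_of_mem _ hy

section Step
variable {V : Type} (unk : V → Prop) (lev : V → Finset (Fin d)) (ts : List (List V)) (u : V)

/-- levels after the elimination of `u` -/
noncomputable def lev0 : V → Finset (Fin d) := Function.update lev u ∅

/-- unknowns of the enlarged system -/
def unk1 : V ⊕ V → Prop := Sum.elim unk unk

/-- levels of the enlarged system -/
noncomputable def lev1 : V ⊕ V → Finset (Fin d) :=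
  Sum.elim (lev0 lev u) fun v => if unk v ∧ lev u ⊆ lev v then ∅ else lev v ∩ lev u

/-- the slice of a variable -/
noncomputable def sl (v : V) : V ⊕ V := if unk v ∧ lev u ⊆ lev v then Sum.inl v else Sum.inr v

/-- monomials of the enlarged system -/
noncomputable def ts1 : List (List (V ⊕ V)) :=
  (T0 u ts).map (List.map Sum.inl) ++
    mul ((T1 u ts).map (List.map Sum.inl)) ((T0 u ts).map (List.map (sl unk lev u)))

variable {unk lev ts u}

lemma lev0_subset (v : V) : lev0 lev u v ⊆ lev v := by
  by_cases h : v = u
  · subst h; simp [lev0]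
  · simp [lev0, h]

lemma lev0_ne {v : V} (h : v ≠ u) : lev0 lev u v = lev v := by simp [lev0, h]

lemma valid0 (hv : Valid lev ts) : Valid (lev0 lev u) (T0 u ts) := fun t ht =>
  (hv t (mem_T0.1 ht).1).imp fun h => h.mono (lev0_subset _) (lev0_subset _)

lemma lev_sl (hmax : ∀ v, unk v → (lev v).card ≤ (lev u).card) (v : V) :
    lev1 unk lev u (sl unk lev u v) ⊆ lev v ∩ lev u := by
  unfold sl
  split_ifs with h
  · have : lev u = lev v := Finset.eq_of_subset_of_card_le h.2 (hmax v h.1)
    simp only [lev1, Sum.elim_inl, this, Finset.inter_self]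
    exact lev0_subset v
  · simp [lev1, h]

lemma disj_of_mem (hv : Valid lev ts) {t : List V} (ht : t ∈ T1 u ts) {v : V} (hvt : v ∈ t)
    (hne : v ≠ u) : Disjoint (lev v) (lev u) := by
  have hp := hv t (mem_T1.1 ht).1
  have hperm := List.perm_cons_erase (mem_T1.1 ht).2
  have hp2 := (hperm.pairwise_iff (fun h => Disjoint.symm h)).1 hp
  exact ((List.pairwise_cons.1 hp2).1 v ((List.mem_erase_of_ne hne).2 hvt)).symm

lemma mem_TB (hv : Valid lev ts) (hS : (lev u).Nonempty) {t : List V} (ht : t ∈ TB u ts) {v : V}
    (hvt : v ∈ t) : v ≠ u ∧ Disjoint (lev v) (lev u) := by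
  obtain ⟨t', ht', rfl⟩ := List.mem_map.1 ht
  have hp := hv t' (mem_T1.1 ht').1
  have hperm := List.perm_cons_erase (mem_T1.1 ht').2
  have hp2 := (hperm.pairwise_iff (fun h => Disjoint.symm h)).1 hp
  have hd := (List.pairwise_cons.1 hp2).1 v hvt
  refine ⟨?_, hd.symm⟩
  rintro rfl
  rw [disjoint_self] at hd
  exact hS.ne_empty hd

lemma valid1 (hv : Valid lev ts) (hmax : ∀ v, unk v → (lev v).card ≤ (lev u).card) :
    Valid (lev1 unk lev u) (ts1 unk lev ts u) := by
  intro t ht
  rcases List.mem_append.1 ht with ht | ht
  · obtain ⟨t', ht', rfl⟩ := List.mem_map.1 ht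
    rw [List.pairwise_map]
    exact valid0 hv t' ht'
  · obtain ⟨a, ha, ht⟩ := List.mem_flatMap.1 ht
    obtain ⟨b, hb, rfl⟩ := List.mem_map.1 ht
    obtain ⟨a', ha', rfl⟩ := List.mem_map.1 ha
    obtain ⟨b', hb', rfl⟩ := List.mem_map.1 hb
    rw [List.pairwise_append, List.pairwise_map, List.pairwise_map]
    refine ⟨(hv a' (mem_T1.1 ha').1).imp fun h => h.mono (lev0_subset _) (lev0_subset _),
      (hv b' (mem_T0.1 hb').1).imp fun h => h.mono
        ((lev_sl hmax _).trans Finset.inter_subset_left)
        ((lev_sl hmax _).trans Finset.inter_subset_left), fun p hp q hq => ?_⟩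
    obtain ⟨p', hp', rfl⟩ := List.mem_map.1 hp
    obtain ⟨q', _, rfl⟩ := List.mem_map.1 hq
    by_cases h : p' = u
    · subst h
      have : lev1 unk lev p' (Sum.inl p') = ∅ := by
        show lev0 lev p' p' = ∅
        exact Function.update_self p' ∅ lev
      rw [this]
      exact Finset.disjoint_empty_left _
    · exact (disj_of_mem hv ha' hp' h).mono (lev0_subset _)
        ((lev_sl hmax _).trans Finset.inter_subset_right)

lemma ev_ts1 {K : Type} [Field K] (g : V ⊕ V → K) :
    ev (ts1 unk lev ts u) g = ev (T0 u ts) (fun v => g (Sum.inl v)) +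
      g (Sum.inl u) * ev (TB u ts) (fun v => g (Sum.inl v)) *
        ev (T0 u ts) (fun v => g (sl unk lev u v)) := by
  rw [ts1, ev_append, ev_mul, ev_map, ev_map, ev_map, ev_T1]

variable {K : Type} [Field K] {Q : Fin d → Type}

/-- a solution with `u` replaced -/
lemma solv_update (hv : Valid lev ts) (hu : unk u) (hS : (lev u).Nonempty)
    {m w : V → (∀ α, Q α) → K} (h1 : ∀ v, ¬ unk v → w v = m v)
    (h2 : ∀ v, Dep (lev0 lev u v) (w v)) (f : (∀ α, Q α) → K) (hf : Dep (lev u) f)
    (h3 : ∀ x, ev (T0 u ts) (fun v => w v x) + f x * ev (TB u ts) (fun v => w v x) = 0) :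
    Solv unk lev ts m Set.univ := by
  refine ⟨Function.update w u f, fun v hv' => ?_, fun v => ?_, fun x _ => ?_⟩
  · have : v ≠ u := by rintro rfl; exact hv' hu
    rw [Function.update_of_ne this, h1 v hv']
  · by_cases h : v = u
    · subst h; simpa using hf
    · rw [Function.update_of_ne h, ← lev0_ne (lev := lev) h]; exact h2 v
  · rw [ev_split u, ← h3 x, Function.update_self]
    congr 1
    · refine ev_congr fun t ht v hvt => ?_
      have : v ≠ u := by rintro rfl; exact (mem_T0.1 ht).2 hvt
      rw [Function.update_of_ne this]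
    · congr 1
      refine ev_congr fun t ht v hvt => ?_
      rw [Function.update_of_ne (mem_TB hv hS ht hvt).1]

/-- the known functions of the enlarged system attached to a point -/
noncomputable def m1 (lev : V → Finset (Fin d)) (u : V) (m : V → (∀ α, Q α) → K) (y : ∀ α, Q α) :
    V ⊕ V → (∀ α, Q α) → K :=
  Sum.elim m fun v x => m v ((lev u).piecewise x y)

lemma dep_slice {I S : Finset (Fin d)} {f : (∀ α, Q α) → K} (hf : Dep I f) (y : ∀ α, Q α) :
    Dep (I ∩ S) fun x => f (S.piecewise x y) := by
  intro x x' h
  refine hf _ _ fun α hα => ?_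
  by_cases hs : α ∈ S
  · simp [Finset.piecewise, hs, h α (Finset.mem_inter.2 ⟨hα, hs⟩)]
  · simp [Finset.piecewise, hs]

theorem good_step (hv : Valid lev ts) (hu : unk u) (hS : (lev u).Nonempty)
    (hmax : ∀ v, unk v → (lev v).card ≤ (lev u).card)
    (G0 : Good unk (lev0 lev u) (T0 u ts))
    (G1 : Good (unk1 unk) (lev1 unk lev u) (ts1 unk lev ts u)) : Good unk lev ts := by
  obtain ⟨N0, G0⟩ := G0
  obtain ⟨N1, G1⟩ := G1
  refine ⟨N0 + N0 ^ d * N1, fun K _ Q m hm hs => ?_⟩
  have hne : ∀ v, ¬ unk v → v ≠ u := fun v hv' h => hv' (h ▸ hu)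
  obtain ⟨X0, hX0, hn0⟩ := G0 K Q m (fun v hv' => by rw [lev0_ne (hne v hv')]; exact hm v hv') (by
    rintro ⟨w, h1, h2, h3⟩
    exact hs (solv_update hv hu hS h1 h2 0 (fun _ _ _ => rfl)
      fun x => by simpa using h3 x trivial))
  have H1 : ∀ y : ∀ α, Q α, ∃ X : ∀ α, Finset (Q α), (∀ α, (X α).card ≤ N1) ∧
      ¬ Solv (unk1 unk) (lev1 unk lev u) (ts1 unk lev ts u) (m1 lev u m y) (Box X) := by
    intro y
    refine G1 K Q _ ?_ ?_
    · rintro (v | v) hv'
      · show Dep (lev0 lev u v) (m v)
        rw [lev0_ne (hne v hv')]; exact hm v hv'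
      · have hv'' : ¬ unk v := hv'
        simp only [lev1, Sum.elim_inr, hv'', false_and, if_false]
        exact dep_slice (hm v hv'') y
    · rintro ⟨w, h1, h2, h3⟩
      refine hs (solv_update (w := fun v => w (Sum.inl v)) hv hu hS (fun v hv' => h1 _ hv')
        (fun v => h2 (Sum.inl v))
        (fun x => w (Sum.inl u) x * ev (T0 u ts) (fun v => w (sl unk lev u v) x)) ?_ fun x => ?_)
      · intro x x' h
        have e1 : w (Sum.inl u) x = w (Sum.inl u) x' :=
          h2 _ _ _ fun α hα => by simp [lev1, lev0] at hα
        have e2 : ev (T0 u ts) (fun v => w (sl unk lev u v) x) =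
            ev (T0 u ts) (fun v => w (sl unk lev u v) x') :=
          ev_congr fun t _ v _ => h2 _ _ _ fun α hα =>
            h α (Finset.mem_inter.1 (lev_sl hmax v hα)).2
        simp only [e1, e2]
      · have := h3 x trivial
        rw [ev_ts1] at this
        rw [← this]; ring
  choose X1 hX1 hn1 using H1
  refine ⟨fun α => X0 α ∪ (Fintype.piFinset X0).biUnion fun y => X1 y α, fun α => ?_, ?_⟩
  · refine (Finset.card_union_le _ _).trans (add_le_add (hX0 α) ?_)
    refine (Finset.card_biUnion_le_card_mul _ _ N1 fun y _ => hX1 y α).trans ?_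
    refine Nat.mul_le_mul_right _ ?_
    rw [Fintype.card_piFinset]
    simpa using Finset.prod_le_pow_card Finset.univ (fun α => (X0 α).card) N0 fun α _ => hX0 α
  · rintro ⟨w, h1, h2, h3⟩
    by_cases hB : ∀ y ∈ Box X0, ev (TB u ts) (fun v => w v y) = 0
    · refine hn0 ⟨Function.update w u 0, fun v hv' => ?_, fun v => ?_, fun x hx => ?_⟩
      · rw [Function.update_of_ne (hne v hv'), h1 v hv']
      · by_cases h : v = u
        · subst h; rw [Function.update_self]; exact fun _ _ _ => rfl
        · rw [Function.update_of_ne h, lev0_ne h]; exact h2 v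
      · have := h3 x fun α => Finset.mem_union_left _ (hx α)
        rw [ev_split u, hB x hx, mul_zero, add_zero] at this
        rw [← this]
        refine ev_congr fun t ht v hvt => ?_
        have : v ≠ u := by rintro rfl; exact (mem_T0.1 ht).2 hvt
        rw [Function.update_of_ne this]
    · push Not at hB
      obtain ⟨y, hy, hB⟩ := hB
      refine hn1 y ⟨Sum.elim
        (Function.update w u fun _ => - (ev (TB u ts) (fun v => w v y))⁻¹)
        (fun v x => if unk v ∧ lev u ⊆ lev v then 0 else w v ((lev u).piecewise x y)),
        ?_, ?_, fun x hx => ?_⟩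
      · rintro (v | v) hv'
        · have hv'' : ¬ unk v := hv'
          simp only [Sum.elim_inl, m1]
          rw [Function.update_of_ne (hne v hv''), h1 v hv'']
        · have hv'' : ¬ unk v := hv'
          simp [m1, hv'', h1 v hv'']
      · rintro (v | v)
        · simp only [Sum.elim_inl, lev1]
          by_cases h : v = u
          · subst h; rw [Function.update_self]; exact fun _ _ _ => rfl
          · rw [Function.update_of_ne h, lev0_ne h]; exact h2 v
        · simp only [Sum.elim_inr, lev1]
          split_ifs with h
          · exact fun _ _ _ => rfl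
          · exact dep_slice (h2 v) y
      · have hxX : ∀ α, x α ∈ X0 α ∪ (Fintype.piFinset X0).biUnion fun y => X1 y α := fun α =>
          Finset.mem_union_right _ (Finset.mem_biUnion.2 ⟨y, Fintype.mem_piFinset.2 hy, hx α⟩)
        have hzX : ∀ α, (lev u).piecewise x y α ∈
            X0 α ∪ (Fintype.piFinset X0).biUnion fun y => X1 y α := fun α => by
          by_cases hs : α ∈ lev u
          · rw [Finset.piecewise_eq_of_mem _ _ _ hs]; exact hxX α
          · rw [Finset.piecewise_eq_of_notMem _ _ _ hs]; exact Finset.mem_union_left _ (hy α)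
        have ex := h3 x hxX
        have ez := h3 _ hzX
        rw [ev_split u] at ex ez
        have eu : w u ((lev u).piecewise x y) = w u x :=
          h2 u _ _ fun α hα => Finset.piecewise_eq_of_mem _ _ _ hα
        have eB : ev (TB u ts) (fun v => w v ((lev u).piecewise x y)) =
            ev (TB u ts) (fun v => w v y) :=
          ev_congr fun t ht v hvt => h2 v _ _ fun α hα =>
            Finset.piecewise_eq_of_notMem _ _ _
              (Finset.disjoint_left.1 (mem_TB hv hS ht hvt).2 hα)
        rw [eu, eB] at ez
        rw [ev_ts1]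
        simp only [Sum.elim_inl, Function.update_self]
        have a0 : ev (T0 u ts) (fun v => Function.update w u
            (fun _ => - (ev (TB u ts) (fun v => w v y))⁻¹) v x) = ev (T0 u ts) fun v => w v x := by
          refine ev_congr fun t ht v hvt => ?_
          have : v ≠ u := by rintro rfl; exact (mem_T0.1 ht).2 hvt
          rw [Function.update_of_ne this]
        have a1 : ev (TB u ts) (fun v => Function.update w u
            (fun _ => - (ev (TB u ts) (fun v => w v y))⁻¹) v x) = ev (TB u ts) fun v => w v x := by
          refine ev_congr fun t ht v hvt => ?_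
          rw [Function.update_of_ne (mem_TB hv hS ht hvt).1]
        have a2 : ev (T0 u ts) (fun v => Sum.elim
            (Function.update w u fun _ => - (ev (TB u ts) (fun v => w v y))⁻¹)
            (fun v x => if unk v ∧ lev u ⊆ lev v then 0 else w v ((lev u).piecewise x y))
            (sl unk lev u v) x) = ev (T0 u ts) fun v => w v ((lev u).piecewise x y) := by
          refine ev_congr fun t ht v hvt => ?_
          have hvu : v ≠ u := by rintro rfl; exact (mem_T0.1 ht).2 hvt
          unfold sl
          split_ifs with h
          · have : lev u = lev v := Finset.eq_of_subset_of_card_le h.2 (hmax v h.1)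
            simp only [Sum.elim_inl]
            rw [Function.update_of_ne hvu]
            exact h2 v _ _ fun α hα => (Finset.piecewise_eq_of_mem _ _ _ (this ▸ hα)).symm
          · simp [h]
        rw [a0, a1, a2]
        have e3 : ev (T0 u ts) (fun v => w v ((lev u).piecewise x y)) =
            - (w u x * ev (TB u ts) (fun v => w v y)) := by linear_combination ez
        rw [e3]
        field_simp
        linear_combination ex

end Step

theorem good_level (s : ℕ) : ∀ (V : Type) [Finite V] (unk : V → Prop) (lev : V → Finset (Fin d))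
    (ts : List (List V)), Valid lev ts → (∀ v, unk v → (lev v).card ≤ s) → Good unk lev ts := by
  induction s with
  | zero => intro V _ unk lev ts _ h0; exact good_base unk lev ts h0
  | succ s ihs =>
    have inner : ∀ (c : ℕ) (V : Type) [Finite V] (unk : V → Prop) (lev : V → Finset (Fin d))
        (ts : List (List V)) (top : List V), top.length = c → Valid lev ts →
        (∀ v, unk v → (lev v).card ≤ s + 1) → (∀ v, unk v → v ∉ top → (lev v).card ≤ s) →
        Good unk lev ts := by
      intro c
      induction c with
      | zero =>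
        intro V _ unk lev ts top hc hv _ h2
        rw [List.length_eq_zero_iff] at hc
        subst hc
        exact ihs V unk lev ts hv fun v hv' => h2 v hv' (by simp)
      | succ c ihc =>
        intro V _ unk lev ts top hc hv h1 h2
        obtain ⟨u, rest, rfl⟩ := List.exists_cons_of_length_eq_add_one hc
        have hc' : rest.length = c := by simpa using hc
        by_cases hu : unk u ∧ (lev u).card = s + 1
        · have hS : (lev u).Nonempty := Finset.card_pos.1 (by omega)
          have hmax : ∀ v, unk v → (lev v).card ≤ (lev u).card := fun v hv' => hu.2 ▸ h1 v hv'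
          have k1 : ∀ v, unk v → (lev0 lev u v).card ≤ s + 1 := fun v hv' =>
            (Finset.card_le_card (lev0_subset v)).trans (h1 v hv')
          have k2 : ∀ v, unk v → v ∉ rest → (lev0 lev u v).card ≤ s := by
            intro v hv' hr
            by_cases h : v = u
            · subst h; simp [lev0]
            · rw [lev0_ne h]; exact h2 v hv' (by simp [h, hr])
          have k3 : ∀ v, unk v → (lev1 unk lev u (Sum.inr v)).card ≤ s := by
            intro v hv'
            simp only [lev1, Sum.elim_inr]
            split_ifs with h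
            · simp
            · have : lev v ∩ lev u ⊂ lev u := by
                refine Finset.ssubset_iff_subset_ne.2 ⟨Finset.inter_subset_right, fun e => ?_⟩
                exact h ⟨hv', Finset.inter_eq_right.1 e⟩
              have := Finset.card_lt_card this
              omega
          refine good_step hv hu.1 hS hmax (ihc V unk _ _ rest hc' (valid0 hv) k1 k2)
            (ihc (V ⊕ V) _ _ _ (rest.map Sum.inl) (by simpa using hc') (valid1 hv hmax) ?_ ?_)
          · rintro (v | v) hv'
            · exact k1 v hv'
            · exact (k3 v hv').trans (Nat.le_succ s)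
          · rintro (v | v) hv' hr
            · exact k2 v hv' (by simpa using hr)
            · exact k3 v hv'
        · refine ihc V unk lev ts rest hc' hv h1 fun v hv' hr => ?_
          by_cases h : v = u
          · subst h
            have := h1 v hv'
            have h4 : (lev v).card ≠ s + 1 := fun e => hu ⟨hv', e⟩
            omega
          · exact h2 v hv' (by simp [h, hr])
    intro V _ unk lev ts hv h1
    haveI := Fintype.ofFinite V
    exact inner _ V unk lev ts (Finset.univ.toList) rfl hv h1 fun v _ h => absurd (by simp) h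

theorem good_all {V : Type} [Finite V] (unk : V → Prop) (lev : V → Finset (Fin d))
    (ts : List (List V)) (hv : Valid lev ts) : Good unk lev ts :=
  good_level d V unk lev ts hv fun v _ => by simpa using Finset.card_le_univ (lev v)

end Pool.Agent.H103Z.RRank
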