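import Mathlib
import Pool.Agent.H103Z.RRank

set_option autoImplicit false

namespace Pool.Agent.H103Z.RRank

open Classical

variable {d : ℕ}

/-- variables of the system attached to `k` partitions -/
abbrev Var (d k : ℕ) : Type := Option (Fin k × Finset (Fin d))

/-- unknowns -/
def unkP {k : ℕ} (v : Var d k) : Prop := v ≠ none

/-- levels -/
def levP {k : ℕ} : Var d k → Finset (Fin d)
  | none => Finset.univ
  | some p => p.2

/-- monomials -/
noncomputable def tsP {k : ℕ} (P : Fin k → Finpartition (Finset.univ : Finset (Fin d))) :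
    List (List (Var d k)) :=
  [none] :: List.ofFn fun i => (P i).parts.toList.map fun I => some (i, I)

lemma validP {k : ℕ} (P : Fin k → Finpartition (Finset.univ : Finset (Fin d))) :
    Valid levP (tsP P) := by
  intro t ht
  rcases List.mem_cons.1 ht with rfl | ht
  · simp
  · obtain ⟨i, rfl⟩ := List.mem_ofFn.1 ht
    rw [List.pairwise_map]
    refine (Finset.nodup_toList (P i).parts).pairwise_of_forall_ne fun a ha b hb hab => ?_
    exact (P i).disjoint (Finset.mem_toList.1 ha) (Finset.mem_toList.1 hb) hab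

lemma evP {k : ℕ} {K : Type} [Field K] (P : Fin k → Finpartition (Finset.univ : Finset (Fin d)))
    (g : Var d k → K) : ev (tsP P) g = g none + ∑ i, ∏ I ∈ (P i).parts, g (some (i, I)) := by
  rw [tsP, ev_cons, ev, List.map_ofFn, List.sum_ofFn]
  simp only [List.map_cons, List.map_nil, List.prod_cons, List.prod_nil, mul_one,
    Function.comp_apply, List.map_map]
  congr 1
  refine Finset.sum_congr rfl fun i _ => ?_
  rw [← Finset.prod_map_toList]
  rfl

theorem main (R : Set (Finpartition (Finset.univ : Finset (Fin d)))) :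
  ∃ F : ℕ → ℕ, ∀ (l : ℕ) (K : Type) [Field K] (Q : Fin d → Type)
    [∀ α, Finite (Q α)] [∀ α, Nonempty (Q α)] (T : (∀ α, Q α) → K),
    (∀ k < l, ¬ ∃ S : Fin k → ((∀ α, Q α) → K),
        (∀ i, ∃ P ∈ R, ∃ a : ∀ I : Finset (Fin d), (∀ β : {γ // γ ∈ I}, Q β.1) → K,
            ∀ x : (∀ α, Q α), S i x = ∏ I ∈ P.parts, a I (fun β => x β.1)) ∧
        T = ∑ i, S i) →
    ∃ X : ∀ α, Finset (Q α), (∀ α, (X α).card ≤ F l) ∧
      ∀ k < l, ¬ ∃ S : Fin k → ((∀ α, {q // q ∈ X α}) → K),
        (∀ i, ∃ P ∈ R, ∃ a : ∀ I : Finset (Fin d), (∀ β : {γ // γ ∈ I}, {q // q ∈ X β.1}) → K,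
            ∀ y : (∀ α, {q // q ∈ X α}), S i y = ∏ I ∈ P.parts, a I (fun β => y β.1)) ∧
        (fun y => T (fun α => (y α).1)) = ∑ i, S i := by
  have G : ∀ (k : ℕ) (P : Fin k → Finpartition (Finset.univ : Finset (Fin d))),
      Good unkP levP (tsP P) := fun k P => good_all _ _ _ (validP P)
  choose N hN using G
  refine ⟨fun l => (∑ j : (Σ k : Fin l, Fin k → Finpartition (Finset.univ : Finset (Fin d))),
    N j.1 j.2) + 1, fun l K _ Q _ _ T hT => ?_⟩
  let x0 : ∀ α, Q α := fun α => Classical.arbitrary _
  have H : ∀ j : (Σ k : Fin l, Fin k → Finpartition (Finset.univ : Finset (Fin d))),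
      ∃ X : ∀ α, Finset (Q α), (∀ α, (X α).card ≤ N j.1 j.2) ∧ ((∀ i, j.2 i ∈ R) →
        ¬ Solv unkP levP (tsP j.2) (fun _ x => - T x) (Box X)) := by
    rintro ⟨k, P⟩
    by_cases hP : ∀ i, P i ∈ R
    · obtain ⟨X, h1, h2⟩ := hN k P K Q (fun _ x => - T x) (by
        intro v hv
        have : v = none := by simpa [unkP] using hv
        subst this
        intro x y h
        rw [show x = y from funext fun α => h α (Finset.mem_univ α)]) (by
        rintro ⟨w, h1, h2, h3⟩
        refine hT k k.2 ⟨fun i x => ∏ I ∈ (P i).parts, w (some (i, I)) x, fun i =>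
          ⟨P i, hP i, fun I z => w (some (i, I)) fun α => if h : α ∈ I then z ⟨α, h⟩ else x0 α,
            fun x => Finset.prod_congr rfl fun I _ => h2 _ _ _ fun α hα => ?_⟩, ?_⟩
        · have hα' : α ∈ I := hα
          simp [hα']
        · funext x
          have := h3 x trivial
          rw [evP, h1 none (by simp [unkP])] at this
          rw [Finset.sum_apply]
          linear_combination - this)
      exact ⟨X, h1, fun _ => h2⟩
    · exact ⟨fun _ => ∅, fun α => by simp, fun h => absurd h hP⟩
  choose X hX hS using H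
  refine ⟨fun α => insert (x0 α) (Finset.univ.biUnion fun j => X j α), fun α => ?_, ?_⟩
  · refine (Finset.card_insert_le _ _).trans (Nat.succ_le_succ ?_)
    exact Finset.card_biUnion_le.trans (Finset.sum_le_sum fun j _ => hX j α)
  · rintro k hk ⟨S, h1, h2⟩
    choose P hP a ha using h1
    let r : ∀ α, Q α → {q // q ∈ insert (x0 α) (Finset.univ.biUnion fun j => X j α)} :=
      fun α q => if h : q ∈ insert (x0 α) (Finset.univ.biUnion fun j => X j α) then ⟨q, h⟩
        else ⟨x0 α, Finset.mem_insert_self _ _⟩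
    refine hS ⟨⟨k, hk⟩, P⟩ hP ⟨fun v => match v with
      | none => fun x => - T x
      | some p => fun x => a p.1 p.2 fun β => r β.1 (x β.1), ?_, ?_, fun x hx => ?_⟩
    · intro v hv
      have : v = none := by simpa [unkP] using hv
      subst this
      rfl
    · rintro (_ | p) x y h
      · rw [show x = y from funext fun α => h α (Finset.mem_univ α)]
      · show a p.1 p.2 _ = a p.1 p.2 _
        congr 1
        funext β
        rw [h β.1 β.2]
    · rw [evP]
      have e := congrFun h2 fun α => r α (x α)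
      have e2 : (fun α => (r α (x α)).1) = x := by
        funext α
        have : x α ∈ insert (x0 α) (Finset.univ.biUnion fun j => X j α) :=
          Finset.mem_insert_of_mem (Finset.mem_biUnion.2 ⟨_, Finset.mem_univ _, hx α⟩)
        simp only [r, dif_pos this]
      simp only [e2, Finset.sum_apply, ha] at e
      show - T x + ∑ i, ∏ I ∈ (P i).parts, a i I (fun β => r β.1 (x β.1)) = 0
      rw [e]
      ring

end Pool.Agent.H103Z.RRank
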